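import Pool.Agent.KRN.Frm

/-!
# KRN BOL: literals and widths

Every clause of the formula is a nonempty list of at most `d` literals (`3 ≤ d`).  The clauses of `frm1` are elements of
`secs` of `d` lists of literals, so they have length `d`; all other clauses have length at most 3.
-/

set_option autoImplicit false

namespace KRN

/-- Nonempty, consists of literals, at most `d` of them. -/
private def BOLok (d : ℕ) (c : List Name) : Prop :=
  c ≠ [] ∧ (∀ l ∈ c, ∃ v : Name, l = 0 :: v ∨ l = 1 :: v) ∧ c.length ≤ d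

private theorem BOL_secs (L : List (List Name)) :
    ∀ c ∈ secs L, c.length = L.length ∧ ∀ l ∈ c, ∃ A ∈ L, l ∈ A := by
  induction L with
  | nil =>
    intro c hc
    simp only [secs, List.mem_singleton] at hc
    subst hc
    simp
  | cons A L ih =>
    intro c hc
    simp only [secs, List.mem_flatMap, List.mem_map] at hc
    obtain ⟨a, ha, l, hl, rfl⟩ := hc
    obtain ⟨h1, h2⟩ := ih l hl
    refine ⟨by simp [h1], ?_⟩
    intro x hx
    rcases List.mem_cons.1 hx with rfl | hx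
    · exact ⟨A, List.mem_cons_self, ha⟩
    · obtain ⟨B, hB, hxB⟩ := h2 x hx
      exact ⟨B, List.mem_cons_of_mem _ hB, hxB⟩

private theorem BOL_slot (hh : List ℕ → ℕ → ℕ) (Q r : ℕ) (e ρ : List ℕ) (i : ℕ) :
    ∀ l ∈ slot hh Q r e ρ i, ∃ v : Name, l = 0 :: v ∨ l = 1 :: v := by
  intro l hl
  unfold slot at hl
  split_ifs at hl with h
  · simp only [List.mem_map] at hl
    obtain ⟨γ, -, rfl⟩ := hl
    exact ⟨_, Or.inr rfl⟩
  · simp only [List.mem_singleton] at hl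
    subst hl
    exact ⟨_, Or.inl rfl⟩

private theorem BOL_tot (d : ℕ) (hd : 3 ≤ d) (pre : Name) (μ m : ℕ) : ∀ c ∈ tot pre μ m, BOLok d c := by
  intro c hc
  unfold tot at hc
  simp only [List.mem_append, List.mem_flatMap, List.mem_map] at hc
  rcases hc with ⟨i, -, a, -, rfl⟩ | ⟨i, -, a, -, c₁, -, c₂, -, rfl⟩
  · refine ⟨by simp, ?_, by simp; omega⟩
    intro l hl
    simp only [List.mem_singleton] at hl
    subst hl
    exact ⟨_, Or.inr rfl⟩
  · refine ⟨by simp, ?_, by simpa using hd⟩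
    intro l hl
    simp only [List.mem_cons, List.not_mem_nil, or_false] at hl
    rcases hl with rfl | rfl | rfl
    · exact ⟨_, Or.inl rfl⟩
    · exact ⟨_, Or.inl rfl⟩
    · exact ⟨_, Or.inr rfl⟩

private theorem BOL_frm1 (d : ℕ) (hd : 3 ≤ d) (hh : List ℕ → ℕ → ℕ) (R Q r : ℕ) (E : List (List ℕ)) :
    ∀ c ∈ frm1 d hh R Q r E, BOLok d c := by
  intro c hc
  unfold frm1 at hc
  simp only [List.mem_flatMap] at hc
  obtain ⟨e, -, ρ, -, hc⟩ := hc
  obtain ⟨h1, h2⟩ := BOL_secs _ c hc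
  simp only [List.length_map, List.length_range] at h1
  refine ⟨?_, ?_, h1.le⟩
  · rintro rfl
    simp at h1
    omega
  · intro l hl
    obtain ⟨A, hA, hlA⟩ := h2 l hl
    simp only [List.mem_map] at hA
    obtain ⟨i, -, rfl⟩ := hA
    exact BOL_slot hh Q r e ρ i l hlA

private theorem BOL_one (d : ℕ) (hd : 3 ≤ d) (b : ℕ) (v : Name) (hb : b = 0 ∨ b = 1) : BOLok d [b :: v] := by
  refine ⟨by simp, ?_, by simp; omega⟩
  intro l hl
  simp only [List.mem_singleton] at hl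
  subst hl
  rcases hb with rfl | rfl
  · exact ⟨_, Or.inl rfl⟩
  · exact ⟨_, Or.inr rfl⟩

private theorem BOL_two (d : ℕ) (hd : 3 ≤ d) (b b' : ℕ) (v v' : Name) (hb : b = 0 ∨ b = 1) (hb' : b' = 0 ∨ b' = 1) :
    BOLok d [b :: v, b' :: v'] := by
  refine ⟨by simp, ?_, by simp; omega⟩
  intro l hl
  simp only [List.mem_cons, List.not_mem_nil, or_false] at hl
  rcases hl with rfl | rfl
  · rcases hb with rfl | rfl
    · exact ⟨_, Or.inl rfl⟩
    · exact ⟨_, Or.inr rfl⟩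
  · rcases hb' with rfl | rfl
    · exact ⟨_, Or.inl rfl⟩
    · exact ⟨_, Or.inr rfl⟩

private theorem BOL_three (d : ℕ) (hd : 3 ≤ d) (b b' b'' : ℕ) (v v' v'' : Name) (hb : b = 0 ∨ b = 1)
    (hb' : b' = 0 ∨ b' = 1) (hb'' : b'' = 0 ∨ b'' = 1) :
    BOLok d [b :: v, b' :: v', b'' :: v''] := by
  refine ⟨by simp, ?_, by simpa using hd⟩
  intro l hl
  simp only [List.mem_cons, List.not_mem_nil, or_false] at hl
  rcases hl with rfl | rfl | rfl
  · rcases hb with rfl | rfl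
    · exact ⟨_, Or.inl rfl⟩
    · exact ⟨_, Or.inr rfl⟩
  · rcases hb' with rfl | rfl
    · exact ⟨_, Or.inl rfl⟩
    · exact ⟨_, Or.inr rfl⟩
  · rcases hb'' with rfl | rfl
    · exact ⟨_, Or.inl rfl⟩
    · exact ⟨_, Or.inr rfl⟩

private theorem BOL_all (d : ℕ) (hh : List ℕ → ℕ → ℕ) (R M t k Q r μ₁ m₁ μ₂ m₂ : ℕ) (E : List (List ℕ)) (hd : 3 ≤ d) :
    ∀ c ∈ frm d hh R M t k Q r μ₁ m₁ μ₂ m₂ E, BOLok d c := by
  intro c hc
  unfold frm at hc
  simp only [List.mem_append] at hc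
  rcases hc with (((hc | hc) | hc) | hc) | hc
  · exact BOL_frm1 d hd hh R Q r E c hc
  · unfold frm2 at hc
    simp only [List.mem_flatMap, List.mem_map] at hc
    obtain ⟨i, -, s, -, g, -, γ, -, δ, -, rfl⟩ := hc
    exact BOL_three d hd _ _ _ _ _ _ (Or.inl rfl) (Or.inl rfl) (Or.inr rfl)
  · unfold frm3 at hc
    simp only [List.mem_flatMap, List.mem_append, List.mem_cons, List.not_mem_nil, or_false, List.mem_map] at hc
    obtain ⟨i, -, (rfl | rfl) | ⟨s, -, rfl⟩⟩ := hc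
    · exact BOL_one d hd _ _ (Or.inr rfl)
    · exact BOL_one d hd _ _ (Or.inl rfl)
    · exact BOL_three d hd _ _ _ _ _ _ (Or.inl rfl) (Or.inr rfl) (Or.inr rfl)
  · unfold frm4 at hc
    simp only [List.mem_flatMap, List.mem_append, List.mem_singleton, List.mem_map] at hc
    obtain ⟨g, -, γ, -, ((hc | ⟨δ, -, rfl⟩) | ⟨x, -, rfl⟩) | rfl⟩ := hc
    · exact BOL_tot d hd _ _ _ c hc
    · exact BOL_two d hd _ _ _ _ (Or.inl rfl) (Or.inr rfl)
    · exact BOL_two d hd _ _ _ _ (Or.inl rfl) (Or.inr rfl)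
    · exact BOL_one d hd _ _ (Or.inl rfl)
  · unfold frm5 at hc
    simp only [List.mem_flatMap, List.mem_append, List.mem_singleton, List.mem_map] at hc
    rcases hc with (hc | ⟨g, -, x, -, rfl⟩) | rfl
    · exact BOL_tot d hd _ _ _ c hc
    · exact BOL_two d hd _ _ _ _ (Or.inl rfl) (Or.inr rfl)
    · exact BOL_one d hd _ _ (Or.inl rfl)

theorem frm_lit (d : ℕ) (hh : List ℕ → ℕ → ℕ) (R M t k Q r μ₁ m₁ μ₂ m₂ n : ℕ) (E : List (List ℕ)) (hd : 3 ≤ d)
    (hG : Good d hh R M t Q r μ₁ m₁ μ₂ m₂ n E) : Lit (frm d hh R M t k Q r μ₁ m₁ μ₂ m₂ E) := by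
  intro c hc
  have h := BOL_all d hh R M t k Q r μ₁ m₁ μ₂ m₂ E hd c hc
  exact ⟨h.1, h.2.1⟩

theorem frm_card (d : ℕ) (hh : List ℕ → ℕ → ℕ) (R M t k Q r μ₁ m₁ μ₂ m₂ n : ℕ) (E : List (List ℕ)) (hd : 3 ≤ d)
    (hG : Good d hh R M t Q r μ₁ m₁ μ₂ m₂ n E) :
    ∀ c ∈ frm d hh R M t k Q r μ₁ m₁ μ₂ m₂ E, c.toFinset.card ≤ d := by
  intro c hc
  have h := BOL_all d hh R M t k Q r μ₁ m₁ μ₂ m₂ E hd c hc
  exact (List.toFinset_card_le c).trans h.2.2

end KRN
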