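import Pool.Agent.KRN.Frm

/-!
# KRN TOT: the counting tree

With `m = 2 ^ μ`, `cp i m = 2 ^ i` for `i ≤ μ`.
* `tot_sound`: by induction on `i ≤ μ`: for every `a < 2 ^ (μ - i)` and every set `D` of true leaves inside
  `[a * 2 ^ i, (a + 1) * 2 ^ i)` the variable `pre ++ [i, a, D.card]` is true.  `i = 0`: `D` is empty (unit clause
  `[1 :: (pre ++ [0, a, 0])]`) or `D = {a}`.  Step: split `D` at `(2 * a + 1) * 2 ^ i`.
* `tot_complete`: the true counts satisfy all clauses.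
-/

set_option autoImplicit false

namespace KRN

theorem cp_eq {i μ : ℕ} (h : i ≤ μ) : cp i (2 ^ μ) = 2 ^ i := by
  unfold cp
  exact min_eq_left (Nat.pow_le_pow_right (by norm_num) h)

private theorem TOT_sat1 (σ : Name → Prop) (v : Name) : sat σ [1 :: v] ↔ σ v := by
  unfold sat
  constructor
  · rintro ⟨w, ⟨h, hw⟩ | ⟨h, hw⟩⟩
    · simp at h; subst h; exact hw
    · simp at h
  · intro h
    exact ⟨v, Or.inl ⟨by simp, h⟩⟩

private theorem TOT_sat3 (σ : Name → Prop) (u v w : Name) :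
    sat σ [0 :: u, 0 :: v, 1 :: w] ↔ (σ u → σ v → σ w) := by
  unfold sat
  constructor
  · rintro ⟨x, ⟨h, hx⟩ | ⟨h, hx⟩⟩ hu hv
    · simp at h; subst h; exact hx
    · simp at h
      rcases h with h | h
      · subst h; exact absurd hu hx
      · subst h; exact absurd hv hx
  · intro h
    by_cases hu : σ u
    · by_cases hv : σ v
      · exact ⟨w, Or.inl ⟨by simp, h hu hv⟩⟩
      · exact ⟨v, Or.inr ⟨by simp, hv⟩⟩
    · exact ⟨u, Or.inr ⟨by simp, hu⟩⟩

private theorem TOT_mem1 (pre : Name) (μ i a : ℕ) (hi : i ≤ μ) (ha : a < 2 ^ (μ - i)) :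
    [1 :: (pre ++ [i, a, 0])] ∈ tot pre μ (2 ^ μ) := by
  unfold tot
  rw [List.mem_append]
  left
  rw [List.mem_flatMap]
  refine ⟨i, List.mem_range.2 (by omega), ?_⟩
  rw [List.mem_map]
  refine ⟨a, List.mem_range.2 ?_, rfl⟩
  rw [cp_eq (by omega)]
  exact ha

private theorem TOT_mem2 (pre : Name) (μ i a c c' : ℕ) (hi : i < μ) (ha : a < 2 ^ (μ - i - 1)) (hc : c ≤ 2 ^ i)
    (hc' : c' ≤ 2 ^ i) :
    [0 :: (pre ++ [i, 2 * a, c]), 0 :: (pre ++ [i, 2 * a + 1, c']), 1 :: (pre ++ [i + 1, a, c + c'])] ∈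
      tot pre μ (2 ^ μ) := by
  unfold tot
  rw [List.mem_append]
  right
  rw [List.mem_flatMap]
  refine ⟨i, List.mem_range.2 hi, ?_⟩
  rw [List.mem_flatMap]
  refine ⟨a, List.mem_range.2 ?_, ?_⟩
  · rw [cp_eq (by omega)]; exact ha
  rw [List.mem_flatMap]
  refine ⟨c, List.mem_range.2 ?_, ?_⟩
  · rw [cp_eq (by omega)]; omega
  rw [List.mem_map]
  refine ⟨c', List.mem_range.2 ?_, rfl⟩
  rw [cp_eq (by omega)]; omega

private theorem TOT_main (σ : Name → Prop) (pre : Name) (μ : ℕ) (h : ∀ c ∈ tot pre μ (2 ^ μ), sat σ c) :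
    ∀ i, i ≤ μ → ∀ a, a < 2 ^ (μ - i) → ∀ D : Finset ℕ,
      (∀ x ∈ D, a * 2 ^ i ≤ x ∧ x < (a + 1) * 2 ^ i ∧ σ (pre ++ [0, x, 1])) → σ (pre ++ [i, a, D.card]) := by
  intro i
  induction i with
  | zero =>
    intro _ a ha D hD
    rcases D.eq_empty_or_nonempty with rfl | ⟨x, hx⟩
    · rw [Finset.card_empty]
      exact (TOT_sat1 σ _).1 (h _ (TOT_mem1 pre μ 0 a (Nat.zero_le _) ha))
    · have hDa : D = {a} := by
        apply Finset.eq_singleton_iff_unique_mem.2
        have hx' : ∀ y ∈ D, y = a := by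
          intro y hy
          have := hD y hy
          simp only [pow_zero, mul_one] at this
          omega
        exact ⟨hx' x hx ▸ hx, hx'⟩
      have := (hD a (by rw [hDa]; simp)).2.2
      rw [hDa, Finset.card_singleton]
      exact this
  | succ i ih =>
    intro hi a ha D hD
    have e1 : 2 ^ (μ - i) = 2 * 2 ^ (μ - (i + 1)) := by
      rw [← pow_succ']; congr 1; omega
    have e2 : (2 : ℕ) ^ (i + 1) = 2 * 2 ^ i := pow_succ' 2 i
    have hs := TOT_mem2 pre μ i a (D.filter fun x => x < (2 * a + 1) * 2 ^ i).card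
      (D.filter fun x => ¬ x < (2 * a + 1) * 2 ^ i).card (by omega)
      (by have : μ - i - 1 = μ - (i + 1) := by omega
          rw [this]; exact ha) ?_ ?_
    · have h1 := ih (by omega) (2 * a) (by omega) (D.filter fun x => x < (2 * a + 1) * 2 ^ i) ?_
      · have h2 := ih (by omega) (2 * a + 1) (by omega) (D.filter fun x => ¬ x < (2 * a + 1) * 2 ^ i) ?_
        · have := (TOT_sat3 σ _ _ _).1 (h _ hs) h1 h2
          rwa [Finset.card_filter_add_card_filter_not] at this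
        · intro x hx
          rw [Finset.mem_filter] at hx
          obtain ⟨hx1, hx2⟩ := hx
          have := hD x hx1
          refine ⟨by omega, ?_, this.2.2⟩
          have h3 := this.2.1
          rw [e2] at h3
          calc x < (a + 1) * (2 * 2 ^ i) := h3
            _ = (2 * a + 1 + 1) * 2 ^ i := by ring
      · intro x hx
        rw [Finset.mem_filter] at hx
        obtain ⟨hx1, hx2⟩ := hx
        have := hD x hx1
        refine ⟨?_, hx2, this.2.2⟩
        have h3 := this.1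
        rw [e2] at h3
        calc 2 * a * 2 ^ i = a * (2 * 2 ^ i) := by ring
          _ ≤ x := h3
    · have : (D.filter fun x => x < (2 * a + 1) * 2 ^ i) ⊆ Finset.Ico (a * 2 ^ (i + 1)) ((2 * a + 1) * 2 ^ i) := by
        intro x hx
        rw [Finset.mem_filter] at hx
        rw [Finset.mem_Ico]
        exact ⟨(hD x hx.1).1, hx.2⟩
      refine (Finset.card_le_card this).trans ?_
      rw [Nat.card_Ico, e2]
      have : (2 * a + 1) * 2 ^ i = a * (2 * 2 ^ i) + 2 ^ i := by ring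
      omega
    · have : (D.filter fun x => ¬ x < (2 * a + 1) * 2 ^ i) ⊆ Finset.Ico ((2 * a + 1) * 2 ^ i) ((a + 1) * 2 ^ (i + 1)) := by
        intro x hx
        rw [Finset.mem_filter] at hx
        rw [Finset.mem_Ico]
        exact ⟨by omega, (hD x hx.1).2.1⟩
      refine (Finset.card_le_card this).trans ?_
      rw [Nat.card_Ico, e2]
      have : (a + 1) * (2 * 2 ^ i) = (2 * a + 1) * 2 ^ i + 2 ^ i := by ring
      omega

theorem tot_sound (σ : Name → Prop) (pre : Name) (μ : ℕ) (h : ∀ c ∈ tot pre μ (2 ^ μ), sat σ c) (D : Finset ℕ)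
    (hD : ∀ x ∈ D, x < 2 ^ μ ∧ σ (pre ++ [0, x, 1])) : σ (pre ++ [μ, 0, D.card]) := by
  refine TOT_main σ pre μ h μ le_rfl 0 (by positivity) D ?_
  intro x hx
  refine ⟨by omega, ?_, (hD x hx).2⟩
  rw [zero_add, one_mul]
  exact (hD x hx).1

theorem tot_complete (σ : Name → Prop) (pre : Name) (μ : ℕ) (L : Finset ℕ)
    (hσ : ∀ i a c, σ (pre ++ [i, a, c]) ↔ c ≤ (L.filter fun x => a * 2 ^ i ≤ x ∧ x < (a + 1) * 2 ^ i).card) :
    ∀ c ∈ tot pre μ (2 ^ μ), sat σ c := by
  intro cl hcl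
  unfold tot at hcl
  rw [List.mem_append] at hcl
  rcases hcl with hcl | hcl
  · rw [List.mem_flatMap] at hcl
    obtain ⟨i, _, hcl⟩ := hcl
    rw [List.mem_map] at hcl
    obtain ⟨a, _, rfl⟩ := hcl
    rw [TOT_sat1, hσ]
    exact Nat.zero_le _
  · rw [List.mem_flatMap] at hcl
    obtain ⟨i, _, hcl⟩ := hcl
    rw [List.mem_flatMap] at hcl
    obtain ⟨a, _, hcl⟩ := hcl
    rw [List.mem_flatMap] at hcl
    obtain ⟨c, _, hcl⟩ := hcl
    rw [List.mem_map] at hcl
    obtain ⟨c', _, rfl⟩ := hcl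
    rw [TOT_sat3, hσ, hσ, hσ]
    intro h1 h2
    have e2 : (2 : ℕ) ^ (i + 1) = 2 * 2 ^ i := pow_succ' 2 i
    have e3 : 2 * a * 2 ^ i = a * (2 * 2 ^ i) := by ring
    have e4 : (2 * a + 1) * 2 ^ i = a * (2 * 2 ^ i) + 2 ^ i := by ring
    have e5 : (2 * a + 1 + 1) * 2 ^ i = (a + 1) * (2 * 2 ^ i) := by ring
    have e6 : (a + 1) * (2 * 2 ^ i) = a * (2 * 2 ^ i) + 2 ^ i + 2 ^ i := by ring
    have hd : Disjoint (L.filter fun x => 2 * a * 2 ^ i ≤ x ∧ x < (2 * a + 1) * 2 ^ i)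
        (L.filter fun x => (2 * a + 1) * 2 ^ i ≤ x ∧ x < (2 * a + 1 + 1) * 2 ^ i) := by
      rw [Finset.disjoint_left]
      intro x hx hx'
      rw [Finset.mem_filter] at hx hx'
      omega
    have hsub : (L.filter fun x => 2 * a * 2 ^ i ≤ x ∧ x < (2 * a + 1) * 2 ^ i) ∪
        (L.filter fun x => (2 * a + 1) * 2 ^ i ≤ x ∧ x < (2 * a + 1 + 1) * 2 ^ i) ⊆
        L.filter fun x => a * 2 ^ (i + 1) ≤ x ∧ x < (a + 1) * 2 ^ (i + 1) := by
      intro x hx
      rw [Finset.mem_union, Finset.mem_filter, Finset.mem_filter] at hx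
      rw [Finset.mem_filter, e2]
      rw [e3, e4, e5] at hx
      rcases hx with ⟨hx, h3, h4⟩ | ⟨hx, h3, h4⟩
      · exact ⟨hx, h3, by omega⟩
      · exact ⟨hx, by omega, h4⟩
    have := Finset.card_le_card hsub
    rw [Finset.card_union_of_disjoint hd] at this
    omega

end KRN
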