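import Pool.Agent.KRN.CNF
import Pool.Agent.KRN.TOT

/-!
# KRN BOX: the number of variables

Use `vars_le` with the box made of the lists of all names: the trees have at most
  `(μ + 3) * 2 ^ μ` names `pre ++ [i, a, c]` (`i ≤ μ`, `a < 2 ^ (μ - i)`, `c ≤ 2 ^ i`).
-/

set_option autoImplicit false

namespace KRN

/-- The bound for the number of variables. -/
def NB (d R M t Q μ₁ μ₂ : ℕ) : ℕ :=
  d * R * M * Q * Q + M * Q * Q + d * R + d * (R + 1) + M * Q * ((μ₁ + 3) * 2 ^ μ₁ + t + 2) + ((μ₂ + 3) * 2 ^ μ₂ + M * t + 2) +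
    M * t

/-- The names of a counting tree. -/
private def boxTree (pre : Name) (μ : ℕ) : List Name :=
  (List.range (μ + 1)).flatMap fun i => (List.range (2 ^ (μ - i))).flatMap fun a =>
    (List.range (2 ^ i + 1)).map fun c => pre ++ [i, a, c]

private theorem mem_boxTree {pre : Name} {μ i a c : ℕ} (hi : i ≤ μ) (ha : a < 2 ^ (μ - i)) (hc : c ≤ 2 ^ i) :
    pre ++ [i, a, c] ∈ boxTree pre μ := by
  unfold boxTree
  refine List.mem_flatMap.mpr ⟨i, List.mem_range.mpr (by omega), ?_⟩
  refine List.mem_flatMap.mpr ⟨a, List.mem_range.mpr ha, ?_⟩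
  exact List.mem_map.mpr ⟨c, List.mem_range.mpr (by omega), rfl⟩

private theorem boxTree_sum (μ n : ℕ) (hn : n ≤ μ + 1) :
    ((List.range n).map fun i => 2 ^ (μ - i) * (2 ^ i + 1)).sum + 2 ^ (μ + 1 - n) ≤ n * 2 ^ μ + 2 ^ (μ + 1) := by
  induction n with
  | zero => simp
  | succ n ih =>
    have ih' := ih (by omega)
    rw [List.range_succ, List.map_append, List.sum_append]
    simp only [List.map_cons, List.map_nil, List.sum_cons, List.sum_nil, add_zero]
    have e1 : 2 ^ (μ - n) * (2 ^ n + 1) = 2 ^ μ + 2 ^ (μ - n) := by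
      rw [mul_add, mul_one, ← pow_add, Nat.sub_add_cancel (by omega)]
    have e2 : 2 ^ (μ + 1 - n) = 2 ^ (μ - n) + 2 ^ (μ - n) := by
      have : μ + 1 - n = (μ - n) + 1 := by omega
      rw [this, pow_succ]; ring
    have e3 : μ + 1 - (n + 1) = μ - n := by omega
    have e4 : (n + 1) * 2 ^ μ = n * 2 ^ μ + 2 ^ μ := by ring
    rw [e1, e3, e4]
    omega

private theorem boxTree_length (pre : Name) (μ : ℕ) : (boxTree pre μ).length ≤ (μ + 3) * 2 ^ μ := by
  have h : (boxTree pre μ).length = ((List.range (μ + 1)).map fun i => 2 ^ (μ - i) * (2 ^ i + 1)).sum := by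
    unfold boxTree
    simp [List.length_flatMap]
  have h2 := boxTree_sum μ (μ + 1) le_rfl
  rw [h]
  have e : (μ + 3) * 2 ^ μ = (μ + 1) * 2 ^ μ + 2 ^ (μ + 1) := by rw [pow_succ]; ring
  rw [e]
  exact le_trans (Nat.le_add_right _ _) h2

private theorem tot_box (pre : Name) (μ : ℕ) : ∀ c ∈ tot pre μ (2 ^ μ), ∀ l ∈ c, l.tail ∈ boxTree pre μ := by
  intro c hc l hl
  unfold tot at hc
  rcases List.mem_append.mp hc with h | h
  · obtain ⟨i, hi, h⟩ := List.mem_flatMap.mp h
    obtain ⟨a, ha, rfl⟩ := List.mem_map.mp h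
    rw [List.mem_range] at hi
    rw [List.mem_range, cp_eq (by omega)] at ha
    rw [List.mem_singleton] at hl
    subst hl
    exact mem_boxTree (by omega) ha (by positivity)
  · obtain ⟨i, hi, h⟩ := List.mem_flatMap.mp h
    obtain ⟨a, ha, h⟩ := List.mem_flatMap.mp h
    obtain ⟨x, hx, h⟩ := List.mem_flatMap.mp h
    obtain ⟨y, hy, rfl⟩ := List.mem_map.mp h
    rw [List.mem_range] at hi
    rw [List.mem_range, cp_eq (by omega)] at ha hx hy
    have e : 2 ^ (μ - i) = 2 * 2 ^ (μ - i - 1) := by
      rw [← pow_succ']; congr 1; omega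
    have e' : 2 ^ (i + 1) = 2 * 2 ^ i := by rw [pow_succ']
    simp only [List.mem_cons, List.not_mem_nil, or_false] at hl
    rcases hl with rfl | rfl | rfl
    · exact mem_boxTree (by omega) (by omega) (by omega)
    · exact mem_boxTree (by omega) (by omega) (by omega)
    · refine mem_boxTree (by omega) ?_ (by omega)
      have : μ - (i + 1) = μ - i - 1 := by omega
      rw [this]; exact ha

private theorem code_lt (Q r u γ : ℕ) (hQ : 1 < Q) : code Q r u γ < Q := by
  unfold code
  have key : ∀ (L : List ℕ) (s : ℕ × ℕ × ℕ), s.2.2 < Q →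
      (L.foldl (fun (s : ℕ × ℕ × ℕ) _ => (s.1 / Q, s.2.1 * γ % Q, (s.2.2 + s.1 % Q * s.2.1) % Q)) s).2.2 < Q := by
    intro L
    induction L with
    | nil => intro s hs; exact hs
    | cons x L ih =>
      intro s hs
      rw [List.foldl_cons]
      exact ih _ (Nat.mod_lt _ (by omega))
  exact key _ _ (by show 0 < Q; omega)

private theorem tuples_getD {R : ℕ} : ∀ {j : ℕ} {ρ : List ℕ}, ρ ∈ tuples R j → ∀ i, i < j → ρ.getD i 0 < R
  | 0, _, _, i, hi => by omega
  | j + 1, ρ, h, i, hi => by
    rw [tuples] at h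
    obtain ⟨s, hs, h⟩ := List.mem_flatMap.mp h
    obtain ⟨l, hl, rfl⟩ := List.mem_map.mp h
    rw [List.mem_range] at hs
    cases i with
    | zero => simpa using hs
    | succ i => simpa using tuples_getD hl i (by omega)

private theorem mem_secs : ∀ {L : List (List Name)} {c : List Name}, c ∈ secs L → ∀ l ∈ c, ∃ A ∈ L, l ∈ A
  | [], c, h, l, hl => by
    rw [secs, List.mem_singleton] at h
    subst h
    simp at hl
  | A :: L, c, h, l, hl => by
    rw [secs] at h
    obtain ⟨a, ha, h⟩ := List.mem_flatMap.mp h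
    obtain ⟨c', hc', rfl⟩ := List.mem_map.mp h
    rcases List.mem_cons.mp hl with rfl | hl
    · exact ⟨A, List.mem_cons_self, ha⟩
    · obtain ⟨B, hB, hlB⟩ := mem_secs hc' l hl
      exact ⟨B, List.mem_cons_of_mem _ hB, hlB⟩

/-- names with tag 0 -/
private def box0 (d R M Q : ℕ) : List Name :=
  (List.range d).flatMap fun i => (List.range R).flatMap fun s => (List.range M).flatMap fun g =>
    (List.range Q).flatMap fun γ => (List.range Q).map fun δ => [0, i, s, g, γ, δ]

private def box1 (M Q : ℕ) : List Name :=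
  (List.range M).flatMap fun g => (List.range Q).flatMap fun γ => (List.range Q).map fun δ => [1, g, γ, δ]

private def box2 (d R : ℕ) : List Name :=
  (List.range d).flatMap fun i => (List.range R).map fun s => [2, i, s]

private def box3 (d R : ℕ) : List Name :=
  (List.range d).flatMap fun i => (List.range (R + 1)).map fun s => [3, i, s]

private def box4 (M t Q μ : ℕ) : List Name :=
  (List.range M).flatMap fun g => (List.range Q).flatMap fun γ =>
    boxTree [4, g, γ] μ ++ (List.range (t + 2)).map fun c => [4, g, γ, μ, 0, c]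

private def box5 (k μ : ℕ) : List Name := boxTree [5] μ ++ [[5, μ, 0, k + 1]]

private def box6 (M t : ℕ) : List Name :=
  (List.range M).flatMap fun g => (List.range t).map fun c => [6, g, c]

private theorem mem_box0 {d R M Q i s g γ δ : ℕ} (hi : i < d) (hs : s < R) (hg : g < M) (hγ : γ < Q) (hδ : δ < Q) :
    [0, i, s, g, γ, δ] ∈ box0 d R M Q := by
  unfold box0
  refine List.mem_flatMap.mpr ⟨i, List.mem_range.mpr hi, ?_⟩
  refine List.mem_flatMap.mpr ⟨s, List.mem_range.mpr hs, ?_⟩
  refine List.mem_flatMap.mpr ⟨g, List.mem_range.mpr hg, ?_⟩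
  refine List.mem_flatMap.mpr ⟨γ, List.mem_range.mpr hγ, ?_⟩
  exact List.mem_map.mpr ⟨δ, List.mem_range.mpr hδ, rfl⟩

private theorem mem_box1 {M Q g γ δ : ℕ} (hg : g < M) (hγ : γ < Q) (hδ : δ < Q) : [1, g, γ, δ] ∈ box1 M Q := by
  unfold box1
  refine List.mem_flatMap.mpr ⟨g, List.mem_range.mpr hg, ?_⟩
  refine List.mem_flatMap.mpr ⟨γ, List.mem_range.mpr hγ, ?_⟩
  exact List.mem_map.mpr ⟨δ, List.mem_range.mpr hδ, rfl⟩

private theorem mem_box2 {d R i s : ℕ} (hi : i < d) (hs : s < R) : [2, i, s] ∈ box2 d R := by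
  unfold box2
  refine List.mem_flatMap.mpr ⟨i, List.mem_range.mpr hi, ?_⟩
  exact List.mem_map.mpr ⟨s, List.mem_range.mpr hs, rfl⟩

private theorem mem_box3 {d R i s : ℕ} (hi : i < d) (hs : s ≤ R) : [3, i, s] ∈ box3 d R := by
  unfold box3
  refine List.mem_flatMap.mpr ⟨i, List.mem_range.mpr hi, ?_⟩
  exact List.mem_map.mpr ⟨s, List.mem_range.mpr (by omega), rfl⟩

private theorem mem_box4 {M t Q μ g γ : ℕ} {v : Name} (hg : g < M) (hγ : γ < Q)
    (hv : v ∈ boxTree [4, g, γ] μ ∨ ∃ c, c ≤ t + 1 ∧ v = [4, g, γ, μ, 0, c]) : v ∈ box4 M t Q μ := by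
  unfold box4
  refine List.mem_flatMap.mpr ⟨g, List.mem_range.mpr hg, ?_⟩
  refine List.mem_flatMap.mpr ⟨γ, List.mem_range.mpr hγ, ?_⟩
  rcases hv with hv | ⟨c, hc, rfl⟩
  · exact List.mem_append_left _ hv
  · exact List.mem_append_right _ (List.mem_map.mpr ⟨c, List.mem_range.mpr (by omega), rfl⟩)

private theorem mem_box6 {M t g c : ℕ} (hg : g < M) (hc : c < t) : [6, g, c] ∈ box6 M t := by
  unfold box6
  refine List.mem_flatMap.mpr ⟨g, List.mem_range.mpr hg, ?_⟩
  exact List.mem_map.mpr ⟨c, List.mem_range.mpr hc, rfl⟩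

private theorem box0_length (d R M Q : ℕ) : (box0 d R M Q).length = d * R * M * Q * Q := by
  unfold box0
  simp [List.length_flatMap]
  ring

private theorem box1_length (M Q : ℕ) : (box1 M Q).length = M * Q * Q := by
  unfold box1
  simp [List.length_flatMap]
  ring

private theorem box2_length (d R : ℕ) : (box2 d R).length = d * R := by
  unfold box2
  simp [List.length_flatMap]

private theorem box3_length (d R : ℕ) : (box3 d R).length = d * (R + 1) := by
  unfold box3
  simp [List.length_flatMap]

private theorem box4_length (M t Q μ : ℕ) : (box4 M t Q μ).length ≤ M * Q * ((μ + 3) * 2 ^ μ + t + 2) := by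
  have h : ∀ (l : List ℕ) (f : ℕ → List Name) (B : ℕ), (∀ x ∈ l, (f x).length ≤ B) → (l.flatMap f).length ≤ l.length * B := by
    intro l f B hf
    rw [List.length_flatMap]
    have := List.sum_le_card_nsmul (l.map fun x => (f x).length) B (by
      intro y hy
      obtain ⟨x, hx, rfl⟩ := List.mem_map.mp hy
      exact hf x hx)
    simpa using this
  unfold box4
  have h1 := h (List.range M) (fun g => (List.range Q).flatMap fun γ =>
    boxTree [4, g, γ] μ ++ (List.range (t + 2)).map fun c => [4, g, γ, μ, 0, c]) (Q * ((μ + 3) * 2 ^ μ + t + 2)) (by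
      intro g _
      have h2 := h (List.range Q) (fun γ =>
        boxTree [4, g, γ] μ ++ (List.range (t + 2)).map fun c => [4, g, γ, μ, 0, c]) ((μ + 3) * 2 ^ μ + t + 2) (by
          intro γ _
          have := boxTree_length [4, g, γ] μ
          simp only [List.length_append, List.length_map, List.length_range]
          omega)
      simpa using h2)
  rw [List.length_range, ← mul_assoc] at h1
  exact h1

private theorem box5_length (k μ : ℕ) : (box5 k μ).length ≤ (μ + 3) * 2 ^ μ + 1 := by
  unfold box5
  have := boxTree_length [5] μ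
  simp only [List.length_append, List.length_singleton]
  omega

private theorem box6_length (M t : ℕ) : (box6 M t).length = M * t := by
  unfold box6
  simp [List.length_flatMap]

theorem frm_vars (d : ℕ) (hh : List ℕ → ℕ → ℕ) (R M t k Q r μ₁ m₁ μ₂ m₂ n : ℕ) (E : List (List ℕ)) (hd : 3 ≤ d)
    (hG : Good d hh R M t Q r μ₁ m₁ μ₂ m₂ n E) :
    (vars (frm d hh R M t k Q r μ₁ m₁ μ₂ m₂ E)).length ≤ NB d R M t Q μ₁ μ₂ := by
  have hlen : (box0 d R M Q ++ (box1 M Q ++ (box2 d R ++ (box3 d R ++ (box4 M t Q μ₁ ++ (box5 k μ₂ ++ box6 M t)))))).length ≤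
      NB d R M t Q μ₁ μ₂ := by
    simp only [List.length_append]
    rw [box0_length, box1_length, box2_length, box3_length, box6_length]
    have h4 := box4_length M t Q μ₁
    have h5 := box5_length k μ₂
    unfold NB
    omega
  refine le_trans (vars_le _ _ ?_) hlen
  have m0 : ∀ v, v ∈ box0 d R M Q →
      v ∈ box0 d R M Q ++ (box1 M Q ++ (box2 d R ++ (box3 d R ++ (box4 M t Q μ₁ ++ (box5 k μ₂ ++ box6 M t))))) :=
    fun v hv => List.mem_append_left _ hv
  have m1 : ∀ v, v ∈ box1 M Q →
      v ∈ box0 d R M Q ++ (box1 M Q ++ (box2 d R ++ (box3 d R ++ (box4 M t Q μ₁ ++ (box5 k μ₂ ++ box6 M t))))) :=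
    fun v hv => List.mem_append_right _ (List.mem_append_left _ hv)
  have m2 : ∀ v, v ∈ box2 d R →
      v ∈ box0 d R M Q ++ (box1 M Q ++ (box2 d R ++ (box3 d R ++ (box4 M t Q μ₁ ++ (box5 k μ₂ ++ box6 M t))))) :=
    fun v hv => List.mem_append_right _ (List.mem_append_right _ (List.mem_append_left _ hv))
  have m3 : ∀ v, v ∈ box3 d R →
      v ∈ box0 d R M Q ++ (box1 M Q ++ (box2 d R ++ (box3 d R ++ (box4 M t Q μ₁ ++ (box5 k μ₂ ++ box6 M t))))) :=
    fun v hv => List.mem_append_right _ (List.mem_append_right _ (List.mem_append_right _ (List.mem_append_left _ hv)))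
  have m4 : ∀ v, v ∈ box4 M t Q μ₁ →
      v ∈ box0 d R M Q ++ (box1 M Q ++ (box2 d R ++ (box3 d R ++ (box4 M t Q μ₁ ++ (box5 k μ₂ ++ box6 M t))))) :=
    fun v hv => List.mem_append_right _ (List.mem_append_right _ (List.mem_append_right _ (List.mem_append_right _
      (List.mem_append_left _ hv))))
  have m5 : ∀ v, v ∈ box5 k μ₂ →
      v ∈ box0 d R M Q ++ (box1 M Q ++ (box2 d R ++ (box3 d R ++ (box4 M t Q μ₁ ++ (box5 k μ₂ ++ box6 M t))))) :=
    fun v hv => List.mem_append_right _ (List.mem_append_right _ (List.mem_append_right _ (List.mem_append_right _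
      (List.mem_append_right _ (List.mem_append_left _ hv)))))
  have m6 : ∀ v, v ∈ box6 M t →
      v ∈ box0 d R M Q ++ (box1 M Q ++ (box2 d R ++ (box3 d R ++ (box4 M t Q μ₁ ++ (box5 k μ₂ ++ box6 M t))))) :=
    fun v hv => List.mem_append_right _ (List.mem_append_right _ (List.mem_append_right _ (List.mem_append_right _
      (List.mem_append_right _ (List.mem_append_right _ hv)))))
  generalize hBox : box0 d R M Q ++ (box1 M Q ++ (box2 d R ++ (box3 d R ++ (box4 M t Q μ₁ ++ (box5 k μ₂ ++ box6 M t))))) =
    B at m0 m1 m2 m3 m4 m5 m6 ⊢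
  have hQ1 : 1 < Q := hG.hQ.one_lt
  intro c hc l hl
  unfold frm at hc
  rcases List.mem_append.mp hc with hc | hc
  · rcases List.mem_append.mp hc with hc | hc
    · rcases List.mem_append.mp hc with hc | hc
      · rcases List.mem_append.mp hc with hc | hc
        · -- frm1
          unfold frm1 at hc
          obtain ⟨e, he, hc⟩ := List.mem_flatMap.mp hc
          obtain ⟨ρ, hρ, hc⟩ := List.mem_flatMap.mp hc
          obtain ⟨A, hA, hlA⟩ := mem_secs hc l hl
          obtain ⟨i, hi, rfl⟩ := List.mem_map.mp hA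
          rw [List.mem_range] at hi
          unfold slot at hlA
          split_ifs at hlA with hie
          · obtain ⟨γ, hγ, rfl⟩ := List.mem_map.mp hlA
            rw [List.mem_range] at hγ
            refine m0 _ (mem_box0 hi (tuples_getD hρ i hi) (hG.hM ρ hρ _ ?_) hγ (code_lt _ _ _ _ hQ1))
            have : e.getD i 0 = e[i] := by simp [hie]
            rw [this]
            exact (hG.hE e he).2.2 _ (List.getElem_mem hie)
          · rw [List.mem_singleton] at hlA
            subst hlA
            exact m2 _ (mem_box2 hi (tuples_getD hρ i hi))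
        · -- frm2
          unfold frm2 at hc
          obtain ⟨i, hi, hc⟩ := List.mem_flatMap.mp hc
          obtain ⟨s, hs, hc⟩ := List.mem_flatMap.mp hc
          obtain ⟨g, hg, hc⟩ := List.mem_flatMap.mp hc
          obtain ⟨γ, hγ, hc⟩ := List.mem_flatMap.mp hc
          obtain ⟨δ, hδ, rfl⟩ := List.mem_map.mp hc
          rw [List.mem_range] at hi hs hg hγ hδ
          simp only [List.mem_cons, List.not_mem_nil, or_false] at hl
          rcases hl with rfl | rfl | rfl
          · exact m0 _ (mem_box0 hi hs hg hγ hδ)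
          · exact m2 _ (mem_box2 hi hs)
          · exact m1 _ (mem_box1 hg hγ hδ)
      · -- frm3
        unfold frm3 at hc
        obtain ⟨i, hi, hc⟩ := List.mem_flatMap.mp hc
        rw [List.mem_range] at hi
        rcases List.mem_append.mp hc with hc | hc
        · simp only [List.mem_cons, List.not_mem_nil, or_false] at hc
          rcases hc with rfl | rfl
          · rw [List.mem_singleton] at hl
            subst hl
            exact m3 _ (mem_box3 hi (Nat.zero_le _))
          · rw [List.mem_singleton] at hl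
            subst hl
            exact m3 _ (mem_box3 hi le_rfl)
        · obtain ⟨s, hs, rfl⟩ := List.mem_map.mp hc
          rw [List.mem_range] at hs
          simp only [List.mem_cons, List.not_mem_nil, or_false] at hl
          rcases hl with rfl | rfl | rfl
          · exact m3 _ (mem_box3 hi hs.le)
          · exact m2 _ (mem_box2 hi hs)
          · exact m3 _ (mem_box3 hi hs)
    · -- frm4
      unfold frm4 at hc
      obtain ⟨g, hg, hc⟩ := List.mem_flatMap.mp hc
      obtain ⟨γ, hγ, hc⟩ := List.mem_flatMap.mp hc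
      rw [List.mem_range] at hg hγ
      rcases List.mem_append.mp hc with hc | hc
      · rcases List.mem_append.mp hc with hc | hc
        · rcases List.mem_append.mp hc with hc | hc
          · rw [hG.h1] at hc
            exact m4 _ (mem_box4 hg hγ (Or.inl (tot_box _ _ c hc l hl)))
          · obtain ⟨δ, hδ, rfl⟩ := List.mem_map.mp hc
            rw [List.mem_range] at hδ
            simp only [List.mem_cons, List.not_mem_nil, or_false] at hl
            rcases hl with rfl | rfl
            · exact m1 _ (mem_box1 hg hγ hδ)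
            · refine m4 _ (mem_box4 hg hγ (Or.inl ?_))
              have h1 := hG.h1
              have h2 := hG.hQ1
              exact mem_boxTree (pre := [4, g, γ]) (i := 0) (a := δ) (c := 1) (Nat.zero_le _)
                (by rw [Nat.sub_zero]; omega) (by norm_num)
        · obtain ⟨x, hx, rfl⟩ := List.mem_map.mp hc
          rw [List.mem_range] at hx
          simp only [List.mem_cons, List.not_mem_nil, or_false] at hl
          rcases hl with rfl | rfl
          · exact m4 _ (mem_box4 hg hγ (Or.inr ⟨x + 1, by omega, rfl⟩))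
          · exact m6 _ (mem_box6 hg hx)
      · rw [List.mem_singleton] at hc
        subst hc
        rw [List.mem_singleton] at hl
        subst hl
        exact m4 _ (mem_box4 hg hγ (Or.inr ⟨t + 1, le_rfl, rfl⟩))
  · -- frm5
    unfold frm5 at hc
    rcases List.mem_append.mp hc with hc | hc
    · rcases List.mem_append.mp hc with hc | hc
      · rw [hG.h2] at hc
        exact m5 _ (List.mem_append_left _ (tot_box _ _ c hc l hl))
      · obtain ⟨g, hg, hc⟩ := List.mem_flatMap.mp hc
        obtain ⟨x, hx, rfl⟩ := List.mem_map.mp hc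
        rw [List.mem_range] at hg hx
        simp only [List.mem_cons, List.not_mem_nil, or_false] at hl
        rcases hl with rfl | rfl
        · exact m6 _ (mem_box6 hg hx)
        · refine m5 _ (List.mem_append_left _ ?_)
          have h1 := hG.h2
          have h2 := hG.hM2
          have h3 : g * t + x < M * t := by
            have : (g + 1) * t ≤ M * t := Nat.mul_le_mul_right _ hg
            have e : (g + 1) * t = g * t + t := by ring
            omega
          exact mem_boxTree (pre := [5]) (i := 0) (a := g * t + x) (c := 1) (Nat.zero_le _)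
            (by rw [Nat.sub_zero]; omega) (by norm_num)
    · rw [List.mem_singleton] at hc
      subst hc
      rw [List.mem_singleton] at hl
      subst hl
      exact m5 _ (List.mem_append_right _ (List.mem_singleton.mpr rfl))

end KRN
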