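import Pool.Agent.KRN.Frm

/-!
# KRN CNF: satisfiability as a hitting set problem

`toHS F` has the vertices `0 :: v`, `1 :: v` (`v` a variable), the edges `{0 :: v, 1 :: v}` and the clauses, and the
parameter is the number of variables.  `→`: a hitting set of size at most the number of variables contains exactly one of
`0 :: v`, `1 :: v` for every variable `v` (each pair needs one element, the pairs are disjoint); `σ v := 1 :: v ∈ S`.
`←`: `S = {1 :: v | σ v} ∪ {0 :: v | ¬ σ v}` over the variables.  Every literal of a clause has its variable in `vars F`.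
-/

set_option autoImplicit false

namespace KRN

theorem mem_vars {F : List (List Name)} {c : List Name} {l v : Name} (hc : c ∈ F) (hl : l ∈ c) (hv : l.tail = v) :
    v ∈ vars F := by
  unfold vars
  rw [List.mem_dedup, List.mem_map]
  exact ⟨l, List.mem_flatten.mpr ⟨c, hc, hl⟩, hv⟩

private theorem cnf_card (F : List (List Name)) : (vars F).toFinset.card = (vars F).length :=
  List.toFinset_card_of_nodup (List.nodup_dedup _)

private theorem cnf_mem_vert {F : List (List Name)} {v : Name} (hv : v ∈ vars F) :
    0 :: v ∈ (toHS F).1 ∧ 1 :: v ∈ (toHS F).1 := by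
  unfold toHS
  simp only [List.mem_flatMap, List.mem_cons, List.not_mem_nil, or_false]
  exact ⟨⟨v, hv, Or.inl rfl⟩, ⟨v, hv, Or.inr rfl⟩⟩

theorem toHS_yes (F : List (List Name)) (hF : Lit F) : Yes (toHS F) ↔ ∃ σ : Name → Prop, ∀ c ∈ F, sat σ c := by
  classical
  constructor
  · rintro ⟨S, hS1, hS2, hS3⟩
    have hS2' : S.card ≤ (vars F).length := hS2
    have hpair : ∀ v ∈ vars F, 0 :: v ∈ S ∨ 1 :: v ∈ S := by
      intro v hv
      have hmem : [0 :: v, 1 :: v] ∈ (toHS F).2.2 := by
        unfold toHS
        exact List.mem_append_left _ (List.mem_map.mpr ⟨v, hv, rfl⟩)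
      obtain ⟨x, hx, hxS⟩ := hS3 _ hmem
      simp only [List.mem_cons, List.not_mem_nil, or_false] at hx
      rcases hx with rfl | rfl
      · exact Or.inl hxS
      · exact Or.inr hxS
    have hsub : (vars F).toFinset ⊆ S.image List.tail := by
      intro v hv
      rw [List.mem_toFinset] at hv
      rw [Finset.mem_image]
      rcases hpair v hv with h | h
      · exact ⟨_, h, rfl⟩
      · exact ⟨_, h, rfl⟩
    have hcard : S.card ≤ (S.image List.tail).card := by
      have h1 := Finset.card_le_card hsub
      rw [cnf_card] at h1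
      omega
    have hinj : Set.InjOn List.tail (S : Set Name) :=
      Finset.card_image_iff.mp (le_antisymm Finset.card_image_le hcard)
    refine ⟨fun v => 1 :: v ∈ S, fun c hc => ?_⟩
    have hmem : c ∈ (toHS F).2.2 := by
      unfold toHS
      exact List.mem_append_right _ hc
    obtain ⟨l, hl, hlS⟩ := hS3 _ hmem
    obtain ⟨v, hv⟩ := (hF c hc).2 l hl
    rcases hv with rfl | rfl
    · refine ⟨v, Or.inr ⟨hl, fun h1 => ?_⟩⟩
      have h2 : (0 :: v : Name) = 1 :: v := hinj (Finset.mem_coe.mpr hlS) (Finset.mem_coe.mpr h1) rfl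
      simp at h2
    · exact ⟨v, Or.inl ⟨hl, hlS⟩⟩
  · rintro ⟨σ, hσ⟩
    refine ⟨(vars F).toFinset.image fun v => if σ v then 1 :: v else 0 :: v, ?_, ?_, ?_⟩
    · intro x hx
      rw [Finset.mem_image] at hx
      obtain ⟨v, hv, rfl⟩ := hx
      rw [List.mem_toFinset] at hv
      rw [List.mem_toFinset]
      split_ifs
      · exact (cnf_mem_vert hv).2
      · exact (cnf_mem_vert hv).1
    · refine Finset.card_image_le.trans ?_
      rw [cnf_card]
      exact le_rfl
    · intro e he
      have he' : e ∈ (vars F).map (fun v => [0 :: v, 1 :: v]) ++ F := he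
      rw [List.mem_append, List.mem_map] at he'
      rcases he' with ⟨v, hv, rfl⟩ | hc
      · refine ⟨if σ v then 1 :: v else 0 :: v, ?_, ?_⟩
        · split_ifs <;> simp
        · rw [Finset.mem_image]
          exact ⟨v, List.mem_toFinset.mpr hv, rfl⟩
      · obtain ⟨v, hv | hv⟩ := hσ e hc
        · refine ⟨1 :: v, hv.1, ?_⟩
          rw [Finset.mem_image]
          exact ⟨v, List.mem_toFinset.mpr (mem_vars hc hv.1 rfl), by rw [if_pos hv.2]⟩
        · refine ⟨0 :: v, hv.1, ?_⟩
          rw [Finset.mem_image]
          exact ⟨v, List.mem_toFinset.mpr (mem_vars hc hv.1 rfl), by rw [if_neg hv.2]⟩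

theorem toHS_wf (F : List (List Name)) (hF : Lit F) (d : ℕ) (hd : 2 ≤ d) (h : ∀ c ∈ F, c.toFinset.card ≤ d) :
    WF d (toHS F) := by
  intro e he
  have he' : e ∈ (vars F).map (fun v => [0 :: v, 1 :: v]) ++ F := he
  rw [List.mem_append, List.mem_map] at he'
  rcases he' with ⟨v, hv, rfl⟩ | hc
  · refine ⟨by simp, (List.toFinset_card_le _).trans hd, ?_⟩
    intro x hx
    simp only [List.mem_cons, List.not_mem_nil, or_false] at hx
    rcases hx with rfl | rfl
    · exact (cnf_mem_vert hv).1
    · exact (cnf_mem_vert hv).2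
  · refine ⟨(hF e hc).1, h e hc, ?_⟩
    intro l hl
    obtain ⟨v, hv⟩ := (hF e hc).2 l hl
    have hv' : v ∈ vars F := mem_vars hc hl (by rcases hv with rfl | rfl <;> rfl)
    rcases hv with rfl | rfl
    · exact (cnf_mem_vert hv').1
    · exact (cnf_mem_vert hv').2

theorem toHS_vert (F : List (List Name)) : vert (toHS F) ≤ 2 * (vars F).length := by
  unfold vert
  refine (List.toFinset_card_le _).trans ?_
  unfold toHS
  simp only [List.length_flatMap, List.length_cons, List.length_nil, List.map_const', List.sum_replicate]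
  simp [mul_comm]

/-- A box which contains all variables. -/
theorem vars_le (F : List (List Name)) (B : List Name) (h : ∀ c ∈ F, ∀ l ∈ c, l.tail ∈ B) : (vars F).length ≤ B.length := by
  have h1 : (vars F).Nodup := List.nodup_dedup _
  have h2 : vars F ⊆ B := by
    intro v hv
    unfold vars at hv
    rw [List.mem_dedup, List.mem_map] at hv
    obtain ⟨l, hl, rfl⟩ := hv
    obtain ⟨c, hc, hlc⟩ := List.mem_flatten.mp hl
    exact h c hc l hlc
  exact (h1.subperm h2).length_le

end KRN
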