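import Pool.Agent.KRN.CPD
import Pool.Agent.KRN.TOT

/-!
# KRN CP2: completeness, the counting clauses

`tot_complete` for the trees.  A column of the bucket `g` has at most `load g ≤ t` selected symbols (image of the elements of
the bucket).  The number of `x < M * t` with `x % t < load (x / t)` is at most `∑ g < M, load g ≤ S.card ≤ k`.
-/

set_option autoImplicit false

namespace KRN

private theorem cp2_imp {σ : Name → Prop} {v w : Name} (h : σ v → σ w) : sat σ [0 :: v, 1 :: w] := by
  by_cases hv : σ v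
  · exact ⟨w, Or.inl ⟨by simp, h hv⟩⟩
  · exact ⟨v, Or.inr ⟨by simp, hv⟩⟩

private theorem cp2_not {σ : Name → Prop} {v : Name} (h : ¬ σ v) : sat σ [0 :: v] :=
  ⟨v, Or.inr ⟨by simp, h⟩⟩

open Classical in
private theorem cp2_col (h : ℕ → ℕ) (S : Finset ℕ) (Q r g γ : ℕ) :
    ((Finset.range Q).filter fun δ => Ysel h S Q r g γ δ).card ≤ load h S g := by
  unfold load
  refine (Finset.card_le_card (t := (S.filter fun u => h u = g).image fun u => code Q r u γ) ?_).trans
    Finset.card_image_le
  intro δ hδ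
  rw [Finset.mem_filter] at hδ
  obtain ⟨-, u, hu, hg, hc⟩ := hδ
  rw [Finset.mem_image]
  exact ⟨u, Finset.mem_filter.2 ⟨hu, hg⟩, hc⟩

private theorem cp2_loads (h : ℕ → ℕ) (S : Finset ℕ) (M : ℕ) :
    ∑ g ∈ Finset.range M, load h S g ≤ S.card := by
  classical
  have hd : ((Finset.range M : Finset ℕ) : Set ℕ).PairwiseDisjoint fun g => S.filter fun u => h u = g := by
    intro g _ g' _ hne
    rw [Function.onFun, Finset.disjoint_left]
    intro u hu hu'
    rw [Finset.mem_filter] at hu hu'
    exact hne (hu.2.symm.trans hu'.2)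
  unfold load
  rw [← Finset.card_biUnion hd]
  refine Finset.card_le_card ?_
  intro u hu
  rw [Finset.mem_biUnion] at hu
  obtain ⟨g, _, hu⟩ := hu
  exact (Finset.mem_filter.1 hu).1

open Classical in
private theorem cp2_glob (h : ℕ → ℕ) (S : Finset ℕ) (M t : ℕ) :
    ((Finset.range (M * t)).filter fun x => x % t < load h S (x / t)).card ≤ S.card := by
  refine le_trans ?_ (cp2_loads h S M)
  rw [Finset.card_eq_sum_card_fiberwise (f := fun x => x / t) (t := Finset.range M)]
  · refine Finset.sum_le_sum fun g _ => ?_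
    have hinj : Set.InjOn (fun x => x % t) ((((Finset.range (M * t)).filter fun x => x % t < load h S (x / t)).filter
        fun x => x / t = g : Finset ℕ) : Set ℕ) := by
      intro x hx y hy hxy
      rw [Finset.mem_coe, Finset.mem_filter] at hx hy
      have e1 := Nat.div_add_mod x t
      have e2 := Nat.div_add_mod y t
      have h1 := hx.2
      have h2 := hy.2
      simp only at h1 h2 hxy
      rw [← e1, ← e2, h1, h2, hxy]
    rw [← Finset.card_image_of_injOn hinj, ← Finset.card_range (load h S g)]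
    refine Finset.card_le_card ?_
    intro z hz
    rw [Finset.mem_image] at hz
    obtain ⟨x, hx, rfl⟩ := hz
    rw [Finset.mem_filter, Finset.mem_filter] at hx
    obtain ⟨⟨-, hx1⟩, hx2⟩ := hx
    rw [Finset.mem_range]
    rw [hx2] at hx1
    exact hx1
  · intro x hx
    rw [Finset.mem_coe, Finset.mem_filter, Finset.mem_range] at hx
    rw [Finset.mem_coe, Finset.mem_range]
    refine Nat.div_lt_of_lt_mul ?_
    rw [Nat.mul_comm]
    exact hx.1

theorem complete2 (hh : List ℕ → ℕ → ℕ) (M t k Q r μ₁ m₁ μ₂ m₂ : ℕ) (hQ1 : Q ≤ m₁) (e1 : m₁ = 2 ^ μ₁) (e2 : m₂ = 2 ^ μ₂)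
    (hM2 : M * t ≤ m₂) (ρ : List ℕ) (S : Finset ℕ) (hk : S.card ≤ k) (hl : ∀ g, (S.filter fun u => hh ρ u = g).card ≤ t) :
    (∀ c ∈ frm4 M t Q μ₁ m₁, sat (sgm hh M t Q r ρ S) c) ∧ ∀ c ∈ frm5 M t k μ₂ m₂, sat (sgm hh M t Q r ρ S) c := by
  classical
  constructor
  · intro cl hcl
    unfold frm4 at hcl
    rw [List.mem_flatMap] at hcl
    obtain ⟨g, hg, hcl⟩ := hcl
    rw [List.mem_flatMap] at hcl
    obtain ⟨γ, hγ, hcl⟩ := hcl
    rw [List.mem_append, List.mem_append, List.mem_append, List.mem_map, List.mem_map, List.mem_singleton] at hcl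
    rcases hcl with ((hcl | ⟨δ, hδ, rfl⟩) | ⟨c, hc, rfl⟩) | rfl
    · rw [e1] at hcl
      exact tot_complete (sgm hh M t Q r ρ S) [4, g, γ] μ₁
        ((Finset.range Q).filter fun δ => Ysel (hh ρ) S Q r g γ δ) (fun i a c => sgm4 hh M t Q r ρ S g γ i a c) cl hcl
    · refine cp2_imp fun h => ?_
      rw [sgm1] at h
      rw [sgm4]
      refine Finset.card_pos.2 ⟨δ, ?_⟩
      rw [Finset.mem_filter, Finset.mem_filter]
      exact ⟨⟨Finset.mem_range.2 (List.mem_range.1 hδ), h⟩, by simp, by simp⟩
    · refine cp2_imp fun h => ?_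
      rw [sgm4] at h
      rw [sgm6]
      exact (h.trans (Finset.card_filter_le _ _)).trans (cp2_col (hh ρ) S Q r g γ)
    · refine cp2_not fun h => ?_
      rw [sgm4] at h
      have h1 := (h.trans (Finset.card_filter_le _ _)).trans (cp2_col (hh ρ) S Q r g γ)
      have h2 : load (hh ρ) S g ≤ t := hl g
      omega
  · intro cl hcl
    unfold frm5 at hcl
    rw [List.mem_append, List.mem_append, List.mem_flatMap, List.mem_singleton] at hcl
    rcases hcl with (hcl | ⟨g, hg, hcl⟩) | rfl
    · rw [e2] at hcl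
      exact tot_complete (sgm hh M t Q r ρ S) [5] μ₂
        ((Finset.range (M * t)).filter fun x => x % t < load (hh ρ) S (x / t)) (fun i a c => sgm5 hh M t Q r ρ S i a c)
        cl hcl
    · rw [List.mem_map] at hcl
      obtain ⟨c, hc, rfl⟩ := hcl
      refine cp2_imp fun h => ?_
      rw [sgm6] at h
      rw [sgm5]
      have hg' := List.mem_range.1 hg
      have hc' := List.mem_range.1 hc
      have ht0 : 0 < t := by omega
      refine Finset.card_pos.2 ⟨g * t + c, ?_⟩
      have h1 : (g * t + c) % t = c := by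
        rw [Nat.add_comm, Nat.add_mul_mod_self_right]
        exact Nat.mod_eq_of_lt hc'
      have h2 : (g * t + c) / t = g := by
        rw [Nat.add_comm, Nat.add_mul_div_right _ _ ht0, Nat.div_eq_of_lt hc', Nat.zero_add]
      have h3 : (g + 1) * t ≤ M * t := Nat.mul_le_mul_right t hg'
      have h4 : (g + 1) * t = g * t + t := by ring
      rw [Finset.mem_filter, Finset.mem_filter, Finset.mem_range]
      refine ⟨⟨by omega, ?_⟩, by simp, by simp⟩
      rw [h1, h2]
      exact h
    · refine cp2_not fun h => ?_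
      rw [sgm5] at h
      have h1 := (h.trans (Finset.card_filter_le _ _)).trans (cp2_glob (hh ρ) S M t)
      omega

end KRN
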