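import Pool.Agent.KRN.CP1
import Pool.Agent.KRN.CP2

/-!
# KRN CPT: completeness of the formula
-/

set_option autoImplicit false

namespace KRN

theorem complete (d : ℕ) (hh : List ℕ → ℕ → ℕ) (R M t k Q r μ₁ m₁ μ₂ m₂ n : ℕ) (E : List (List ℕ))
    (hG : Good d hh R M t Q r μ₁ m₁ μ₂ m₂ n E) (ρ : List ℕ) (hρ : ρ ∈ tuples R d) (S : Finset ℕ)
    (hk : S.card ≤ k) (hE : ∀ e ∈ E, ∃ u ∈ e, u ∈ S)
    (hl : ∀ g, (S.filter fun u => hh ρ u = g).card ≤ t) :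
    ∃ σ : Name → Prop, ∀ c ∈ frm d hh R M t k Q r μ₁ m₁ μ₂ m₂ E, sat σ c := by
  refine ⟨sgm hh M t Q r ρ S, ?_⟩
  have h1 := complete1 d hh R M t Q r μ₁ m₁ μ₂ m₂ n E hG ρ hρ S hE
  have h2 := complete2 hh M t k Q r μ₁ m₁ μ₂ m₂ hG.hQ1 hG.h1 hG.h2 hG.hM2 ρ S hk hl
  intro c hc
  unfold frm at hc
  simp only [List.mem_append] at hc
  rcases hc with (((hc | hc) | hc) | hc) | hc
  · exact h1.1 c hc
  · exact h1.2.1 c hc
  · exact h1.2.2 c hc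
  · exact h2.1 c hc
  · exact h2.2 c hc

end KRN
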