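import Pool.Agent.KRN.SND
import Pool.Agent.KRN.CPT
import Pool.Agent.KRN.CNF
import Pool.Agent.KRN.BOL
import Pool.Agent.KRN.BOX

/-!
# KRN ASB: the hitting set instance of the formula
-/

set_option autoImplicit false

namespace KRN

section

variable {d : ℕ} {hh : List ℕ → ℕ → ℕ} {R M t k Q r μ₁ m₁ μ₂ m₂ n : ℕ} {E : List (List ℕ)}

theorem ker_wf (hd : 3 ≤ d) (hG : Good d hh R M t Q r μ₁ m₁ μ₂ m₂ n E) (k : ℕ) :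
    WF d (toHS (frm d hh R M t k Q r μ₁ m₁ μ₂ m₂ E)) :=
  toHS_wf _ (frm_lit d hh R M t k Q r μ₁ m₁ μ₂ m₂ n E hd hG) d (by omega) (frm_card d hh R M t k Q r μ₁ m₁ μ₂ m₂ n E hd hG)

theorem ker_no (hd : 3 ≤ d) (hG : Good d hh R M t Q r μ₁ m₁ μ₂ m₂ n E)
    (h : Yes (toHS (frm d hh R M t k Q r μ₁ m₁ μ₂ m₂ E))) : YesI (n, k, E) := by
  obtain ⟨σ, hσ⟩ := (toHS_yes _ (frm_lit d hh R M t k Q r μ₁ m₁ μ₂ m₂ n E hd hG)).mp h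
  exact sound d hh R M t k Q r μ₁ m₁ μ₂ m₂ n E hG σ hσ

theorem ker_yes (hd : 3 ≤ d) (hG : Good d hh R M t Q r μ₁ m₁ μ₂ m₂ n E) (ρ : List ℕ) (hρ : ρ ∈ tuples R d)
    (S : Finset ℕ) (hk : S.card ≤ k) (hE : ∀ e ∈ E, ∃ u ∈ e, u ∈ S)
    (hl : ∀ g, (S.filter fun u => hh ρ u = g).card ≤ t) : Yes (toHS (frm d hh R M t k Q r μ₁ m₁ μ₂ m₂ E)) :=
  (toHS_yes _ (frm_lit d hh R M t k Q r μ₁ m₁ μ₂ m₂ n E hd hG)).mpr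
    (complete d hh R M t k Q r μ₁ m₁ μ₂ m₂ n E hG ρ hρ S hk hE hl)

theorem ker_vert (hd : 3 ≤ d) (hG : Good d hh R M t Q r μ₁ m₁ μ₂ m₂ n E) (k : ℕ) :
    vert (toHS (frm d hh R M t k Q r μ₁ m₁ μ₂ m₂ E)) ≤ 2 * NB d R M t Q μ₁ μ₂ :=
  (toHS_vert _).trans (Nat.mul_le_mul_left 2 (frm_vars d hh R M t k Q r μ₁ m₁ μ₂ m₂ n E hd hG))

end

end KRN
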