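import Pool.Agent.KRN.PLY

/-!
# KRN CNP: the hitting set instance of a formula is computed in polynomial time
-/

set_option autoImplicit false

namespace KRN

theorem toHS_poly {α : Type} [Dat α] {F : α → List (List Name)} (hF : Poly F) : Poly (fun x => toHS (F x)) := by
  have hv : Poly (fun x => vars (F x)) :=
    pdedup (pmap (f := fun _ y => List.tail y) (pflatten hF) (ptail Poly.snd))
  have h01 : Poly (fun z : α × Name => [0 :: z.2, 1 :: z.2]) :=
    pcons (pcons (Poly.const 0) Poly.snd) (pcons (pcons (Poly.const 1) Poly.snd) (Poly.const []))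
  exact Poly.pair (pflatMap (f := fun _ v => [0 :: v, 1 :: v]) hv h01)
    (Poly.pair (plength hv) (pappend (pmap (f := fun _ v => [0 :: v, 1 :: v]) hv h01) hF))

end KRN
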