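import Pool.Agent.KRN.Frm

/-!
# KRN SN1: soundness of the clauses of the edges

1. `frm3`: for every `i < d` there is `s < R` with `σ [2, i, s]` (`σ [3, i, 0]`, `¬ σ [3, i, R]`, so there is `s < R` with
   `σ [3, i, s]` and `¬ σ [3, i, s + 1]`).  Let `ρ` be the list of these `s` (`ρ ∈ tuples R d`, `ρ.getD i 0 = s_i`).
2. For every edge `e = [u_0, …, u_(j-1)]`, `j ≤ d`, there is `i < j` such that `σ [1, hh ρ u_i, γ, code Q r u_i γ]` for all `γ < Q`:
   otherwise choose `γ_i < Q` with `¬ σ [1, hh ρ u_i, γ_i, code Q r u_i γ_i]`; the choice `[1, 0, i, ρ_i, hh ρ u_i, γ_i, …]` for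
   `i < j`, `[0, 2, i, ρ_i]` for `j ≤ i < d` is an element of `secs …`, hence a clause, and all of its literals are false: by
   `frm2` a true `[0, i, ρ_i, g, γ, δ]` together with the true `[2, i, ρ_i]` gives a true `[1, g, γ, δ]`
   (`g < M` by `Good.hM`, `δ = code … < Q`: `RSC.code_lt`, or prove it here).
-/

set_option autoImplicit false

namespace KRN

theorem mem_tuples {R d : ℕ} {ρ : List ℕ} : ρ ∈ tuples R d ↔ ρ.length = d ∧ ∀ s ∈ ρ, s < R := by
  induction d generalizing ρ with
  | zero =>
    simp only [tuples, List.mem_singleton]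
    constructor
    · rintro rfl
      simp
    · rintro ⟨h, -⟩
      exact List.length_eq_zero_iff.1 h
  | succ d ih =>
    simp only [tuples, List.mem_flatMap, List.mem_range, List.mem_map]
    constructor
    · rintro ⟨s, hs, l, hl, rfl⟩
      obtain ⟨h1, h2⟩ := ih.1 hl
      refine ⟨by simp [h1], ?_⟩
      intro x hx
      rcases List.mem_cons.1 hx with rfl | hx
      · exact hs
      · exact h2 x hx
    · rintro ⟨h1, h2⟩
      cases ρ with
      | nil => simp at h1
      | cons s l =>
        refine ⟨s, h2 s (by simp), l, ih.2 ⟨by simpa using h1, fun x hx => h2 x (by simp [hx])⟩, rfl⟩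

theorem mem_secs {L : List (List Name)} {c : List Name} :
    c ∈ secs L ↔ c.length = L.length ∧ ∀ i, i < L.length → c.getD i [] ∈ L.getD i [] := by
  induction L generalizing c with
  | nil =>
    simp only [secs, List.mem_singleton]
    constructor
    · rintro rfl
      simp
    · rintro ⟨h, -⟩
      exact List.length_eq_zero_iff.1 h
  | cons A L ih =>
    simp only [secs, List.mem_flatMap, List.mem_map]
    constructor
    · rintro ⟨a, ha, l, hl, rfl⟩
      obtain ⟨h1, h2⟩ := ih.1 hl
      refine ⟨by simp [h1], ?_⟩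
      intro i hi
      cases i with
      | zero => simpa using ha
      | succ i =>
        have := h2 i (by simpa using hi)
        simpa using this
    · rintro ⟨h1, h2⟩
      cases c with
      | nil => simp at h1
      | cons a l =>
        refine ⟨a, ?_, l, ih.2 ⟨by simpa using h1, fun i hi => ?_⟩, rfl⟩
        · simpa using h2 0 (by simp)
        · have := h2 (i + 1) (by simpa using hi)
          simpa using this

private theorem sn1_fold (Q γ : ℕ) (hQ : 0 < Q) (l : List ℕ) (s : ℕ × ℕ × ℕ) (hs : s.2.2 < Q) :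
    (l.foldl (fun (s : ℕ × ℕ × ℕ) _ => (s.1 / Q, s.2.1 * γ % Q, (s.2.2 + s.1 % Q * s.2.1) % Q)) s).2.2 < Q := by
  induction l generalizing s with
  | nil => exact hs
  | cons a l ih => exact ih _ (Nat.mod_lt _ hQ)

private theorem sn1_code_lt (Q r u γ : ℕ) (hQ : 0 < Q) : code Q r u γ < Q :=
  sn1_fold Q γ hQ _ _ hQ

theorem sound1 (d : ℕ) (hh : List ℕ → ℕ → ℕ) (R M t Q r μ₁ m₁ μ₂ m₂ n : ℕ) (E : List (List ℕ))
    (hG : Good d hh R M t Q r μ₁ m₁ μ₂ m₂ n E) (σ : Name → Prop)
    (h1 : ∀ c ∈ frm1 d hh R Q r E, sat σ c) (h2 : ∀ c ∈ frm2 d R M Q, sat σ c) (h3 : ∀ c ∈ frm3 d R, sat σ c) :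
    ∃ ρ ∈ tuples R d, ∀ e ∈ E, ∃ u ∈ e, ∀ γ < Q, σ [1, hh ρ u, γ, code Q r u γ] := by
  classical
  -- seeds
  have key3 : ∀ i, i < d → ∃ s, s < R ∧ σ [2, i, s] := by
    intro i hi
    have ha : σ [3, i, 0] := by
      obtain ⟨v, ⟨hv, hσ⟩ | ⟨hv, -⟩⟩ := h3 [[1, 3, i, 0]] (by
        simp only [frm3, List.mem_flatMap, List.mem_range]
        exact ⟨i, hi, by simp⟩)
      · simp only [List.mem_singleton, List.cons.injEq] at hv
        rw [hv.2] at hσ
        exact hσ
      · simp at hv
    have hb : ¬ σ [3, i, R] := by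
      obtain ⟨v, ⟨hv, -⟩ | ⟨hv, hσ⟩⟩ := h3 [[0, 3, i, R]] (by
        simp only [frm3, List.mem_flatMap, List.mem_range]
        exact ⟨i, hi, by simp⟩)
      · simp at hv
      · simp only [List.mem_singleton, List.cons.injEq] at hv
        rw [hv.2] at hσ
        exact hσ
    by_contra hcon
    push Not at hcon
    have hall : ∀ s, s ≤ R → σ [3, i, s] := by
      intro s
      induction s with
      | zero => exact fun _ => ha
      | succ s ih =>
        intro hs
        have hs' : s < R := hs
        obtain ⟨v, ⟨hv, hσ⟩ | ⟨hv, hσ⟩⟩ := h3 [[0, 3, i, s], [1, 2, i, s], [1, 3, i, s + 1]] (by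
          simp only [frm3, List.mem_flatMap, List.mem_range, List.mem_append, List.mem_map]
          exact ⟨i, hi, Or.inr ⟨s, hs', rfl⟩⟩)
        · simp only [List.mem_cons, List.cons.injEq, List.not_mem_nil, or_false] at hv
          rcases hv with ⟨hv, -⟩ | ⟨-, hv⟩ | ⟨-, hv⟩
          · exact absurd hv (by norm_num)
          · rw [hv] at hσ
            exact absurd hσ (hcon s hs')
          · rw [hv] at hσ
            exact hσ
        · simp only [List.mem_cons, List.cons.injEq, List.not_mem_nil, or_false] at hv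
          rcases hv with ⟨-, hv⟩ | ⟨hv, -⟩ | ⟨hv, -⟩
          · rw [hv] at hσ
            exact absurd (ih hs'.le) hσ
          · exact absurd hv (by norm_num)
          · exact absurd hv (by norm_num)
    exact hb (hall R le_rfl)
  choose! sd hsd hσsd using key3
  set ρ : List ℕ := (List.range d).map sd with hρ
  have hρlen : ρ.length = d := by simp [hρ]
  have hρget : ∀ i, i < d → ρ.getD i 0 = sd i := by
    intro i hi
    rw [hρ, List.getD_eq_getElem?_getD, List.getElem?_map, List.getElem?_range hi]
    rfl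
  have hρt : ρ ∈ tuples R d := by
    refine mem_tuples.2 ⟨hρlen, ?_⟩
    intro s hs
    rw [hρ, List.mem_map] at hs
    obtain ⟨i, hi, rfl⟩ := hs
    exact hsd i (List.mem_range.1 hi)
  refine ⟨ρ, hρt, ?_⟩
  intro e he
  by_contra hcon
  push Not at hcon
  choose! γ hγ hγσ using hcon
  obtain ⟨-, hlen, heu⟩ := hG.hE e he
  have hget : ∀ i, i < e.length → e.getD i 0 ∈ e := by
    intro i hi
    rw [List.getD_eq_getElem _ _ hi]
    exact List.getElem_mem hi
  let lit : ℕ → Name := fun i =>
    if i < e.length then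
      [1, 0, i, ρ.getD i 0, hh ρ (e.getD i 0), γ (e.getD i 0), code Q r (e.getD i 0) (γ (e.getD i 0))]
    else [0, 2, i, ρ.getD i 0]
  have hc : (List.range d).map lit ∈ secs ((List.range d).map (slot hh Q r e ρ)) := by
    refine mem_secs.2 ⟨by simp, ?_⟩
    intro i hi
    have hi' : i < d := by simpa using hi
    have e1 : ((List.range d).map lit).getD i [] = lit i := by
      rw [List.getD_eq_getElem?_getD, List.getElem?_map, List.getElem?_range hi']
      rfl
    have e2 : ((List.range d).map (slot hh Q r e ρ)).getD i [] = slot hh Q r e ρ i := by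
      rw [List.getD_eq_getElem?_getD, List.getElem?_map, List.getElem?_range hi']
      rfl
    rw [e1, e2]
    by_cases h : i < e.length
    · simp only [lit, slot, h, if_true]
      exact List.mem_map.2 ⟨γ (e.getD i 0), List.mem_range.2 (hγ _ (hget i h)), rfl⟩
    · simp only [lit, slot, h, if_false]
      exact List.mem_singleton.2 rfl
  obtain ⟨v, ⟨hv, hσ⟩ | ⟨hv, hσ⟩⟩ := h1 _ (List.mem_flatMap.2 ⟨e, he, List.mem_flatMap.2 ⟨ρ, hρt, hc⟩⟩)
  · rw [List.mem_map] at hv
    obtain ⟨i, hi, hv⟩ := hv
    have hi' : i < d := List.mem_range.1 hi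
    by_cases h : i < e.length
    · simp only [lit, h, if_true, List.cons.injEq, true_and] at hv
      have hu := hget i h
      obtain ⟨w, ⟨hw, hσw⟩ | ⟨hw, hσw⟩⟩ := h2 [[0, 0, i, ρ.getD i 0, hh ρ (e.getD i 0), γ (e.getD i 0),
          code Q r (e.getD i 0) (γ (e.getD i 0))], [0, 2, i, ρ.getD i 0],
          [1, 1, hh ρ (e.getD i 0), γ (e.getD i 0), code Q r (e.getD i 0) (γ (e.getD i 0))]] (by
        simp only [frm2, List.mem_flatMap, List.mem_range, List.mem_map]
        refine ⟨i, hi', ρ.getD i 0, ?_, hh ρ (e.getD i 0), hG.hM ρ hρt _ (heu _ hu), γ (e.getD i 0),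
          hγ _ hu, _, sn1_code_lt Q r _ _ hG.hQ.pos, rfl⟩
        rw [hρget i hi']
        exact hsd i hi')
      · simp only [List.mem_cons, List.cons.injEq, List.not_mem_nil, or_false] at hw
        rcases hw with ⟨hw, -⟩ | ⟨hw, -⟩ | ⟨-, hw⟩
        · exact absurd hw (by norm_num)
        · exact absurd hw (by norm_num)
        · rw [hw] at hσw
          exact hγσ _ hu hσw
      · simp only [List.mem_cons, List.cons.injEq, List.not_mem_nil, or_false] at hw
        rcases hw with ⟨-, hw⟩ | ⟨-, hw⟩ | ⟨hw, -⟩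
        · rw [hw] at hσw
          rw [← hv] at hσ
          exact hσw hσ
        · rw [hw, hρget i hi'] at hσw
          exact hσw (hσsd i hi')
        · exact absurd hw (by norm_num)
    · simp only [lit, h, if_false, List.cons.injEq] at hv
      exact absurd hv.1 (by norm_num)
  · rw [List.mem_map] at hv
    obtain ⟨i, hi, hv⟩ := hv
    have hi' : i < d := List.mem_range.1 hi
    by_cases h : i < e.length
    · simp only [lit, h, if_true, List.cons.injEq] at hv
      exact absurd hv.1 (by norm_num)
    · simp only [lit, h, if_false, List.cons.injEq, true_and] at hv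
      rw [← hv, hρget i hi'] at hσ
      exact hσ (hσsd i hi')

end KRN
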