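import Pool.Agent.KRN.CPD
import Pool.Agent.KRN.SN1

/-!
# KRN CP1: completeness, the clauses of the edges and seeds

`frm1`: let `c` be a clause for the edge `e` and the seed `ρ'`.  If `ρ' = ρ` take the position `i` of an element `u ∈ e ∩ S`: the literal
in slot `i` is `[1, 0, i, ρ_i, hh ρ u, γ, code Q r u γ]`, true.  If `ρ' ≠ ρ` take a slot `i < d` with `ρ'_i ≠ ρ_i`: the literal in
slot `i` is `[1, 0, i, ρ'_i, …]` or `[0, 2, i, ρ'_i]`, true.
-/

set_option autoImplicit false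

namespace KRN

private theorem CP1_mem (d : ℕ) (hh : List ℕ → ℕ → ℕ) (Q r : ℕ) (e ρ' : List ℕ) (c : List Name)
    (hc : c ∈ secs ((List.range d).map (slot hh Q r e ρ'))) (i : ℕ) (hi : i < d) :
    ∃ l ∈ c, l ∈ slot hh Q r e ρ' i := by
  rw [mem_secs] at hc
  obtain ⟨hl, hc⟩ := hc
  have hL : ((List.range d).map (slot hh Q r e ρ')).length = d := by simp
  have h1 := hc i (by rw [hL]; exact hi)
  have hci : i < c.length := by rw [hl, hL]; exact hi
  refine ⟨c.getD i [], ?_, ?_⟩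
  · rw [List.getD_eq_getElem _ _ hci]
    exact List.getElem_mem hci
  · have h2 : ((List.range d).map (slot hh Q r e ρ')).getD i [] = slot hh Q r e ρ' i := by
      rw [List.getD_eq_getElem _ _ (by rw [hL]; exact hi)]
      simp
    rw [h2] at h1
    exact h1

theorem complete1 (d : ℕ) (hh : List ℕ → ℕ → ℕ) (R M t Q r μ₁ m₁ μ₂ m₂ n : ℕ) (E : List (List ℕ))
    (hG : Good d hh R M t Q r μ₁ m₁ μ₂ m₂ n E) (ρ : List ℕ) (hρ : ρ ∈ tuples R d) (S : Finset ℕ)
    (hE : ∀ e ∈ E, ∃ u ∈ e, u ∈ S) :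
    (∀ c ∈ frm1 d hh R Q r E, sat (sgm hh M t Q r ρ S) c) ∧ (∀ c ∈ frm2 d R M Q, sat (sgm hh M t Q r ρ S) c) ∧
      ∀ c ∈ frm3 d R, sat (sgm hh M t Q r ρ S) c := by
  have hρ' := mem_tuples.mp hρ
  refine ⟨?_, ?_, ?_⟩
  · intro c hc
    unfold frm1 at hc
    simp only [List.mem_flatMap] at hc
    obtain ⟨e, he, ρ', hr, hc⟩ := hc
    have hr' := mem_tuples.mp hr
    by_cases hne : ∃ i, i < d ∧ ρ'.getD i 0 ≠ ρ.getD i 0
    · obtain ⟨i, hi, hne⟩ := hne
      obtain ⟨l, hl, hs⟩ := CP1_mem d hh Q r e ρ' c hc i hi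
      unfold slot at hs
      split_ifs at hs with hie
      · obtain ⟨γ, _, rfl⟩ := List.mem_map.mp hs
        exact ⟨_, Or.inl ⟨hl, (sgm0 hh M t Q r ρ S _ _ _ _ _).mpr (Or.inl hne)⟩⟩
      · rw [List.mem_singleton] at hs
        subst hs
        exact ⟨_, Or.inr ⟨hl, fun h => hne ((sgm2 hh M t Q r ρ S _ _).mp h)⟩⟩
    · have heq : ρ' = ρ := by
        apply List.ext_getElem (by rw [hr'.1, hρ'.1])
        intro i h1 h2
        by_contra h3
        apply hne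
        refine ⟨i, by rw [← hr'.1]; exact h1, ?_⟩
        rw [List.getD_eq_getElem _ _ h1, List.getD_eq_getElem _ _ h2]
        exact h3
      subst heq
      obtain ⟨u, hu, huS⟩ := hE e he
      obtain ⟨i, hie, hiu⟩ := List.getElem_of_mem hu
      have hid : i < d := lt_of_lt_of_le hie (hG.hE e he).2.1
      obtain ⟨l, hl, hs⟩ := CP1_mem d hh Q r e ρ' c hc i hid
      unfold slot at hs
      rw [if_pos hie] at hs
      obtain ⟨γ, _, rfl⟩ := List.mem_map.mp hs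
      refine ⟨_, Or.inl ⟨hl, (sgm0 hh M t Q r ρ' S _ _ _ _ _).mpr (Or.inr ⟨u, huS, ?_, ?_⟩)⟩⟩
      · rw [List.getD_eq_getElem _ _ hie, hiu]
      · rw [List.getD_eq_getElem _ _ hie, hiu]
  · intro c hc
    unfold frm2 at hc
    simp only [List.mem_flatMap, List.mem_map, List.mem_range] at hc
    obtain ⟨i, _, s, _, g, _, γ, _, δ, _, rfl⟩ := hc
    by_cases h1 : s = ρ.getD i 0
    · by_cases h2 : Ysel (hh ρ) S Q r g γ δ
      · exact ⟨[1, g, γ, δ], Or.inl ⟨by simp, (sgm1 hh M t Q r ρ S _ _ _).mpr h2⟩⟩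
      · refine ⟨[0, i, s, g, γ, δ], Or.inr ⟨by simp, fun h => ?_⟩⟩
        rcases (sgm0 hh M t Q r ρ S _ _ _ _ _).mp h with h | h
        · exact h h1
        · exact h2 h
    · exact ⟨[2, i, s], Or.inr ⟨by simp, fun h => h1 ((sgm2 hh M t Q r ρ S _ _).mp h)⟩⟩
  · intro c hc
    unfold frm3 at hc
    simp only [List.mem_flatMap, List.mem_append, List.mem_map, List.mem_range, List.mem_cons, List.not_mem_nil,
      or_false] at hc
    obtain ⟨i, hi, (hc | hc) | ⟨s, hs, hc⟩⟩ := hc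
    · subst hc
      exact ⟨[3, i, 0], Or.inl ⟨by simp, (sgm3 hh M t Q r ρ S _ _).mpr (Nat.zero_le _)⟩⟩
    · subst hc
      refine ⟨[3, i, R], Or.inr ⟨by simp, fun h => ?_⟩⟩
      have h1 := (sgm3 hh M t Q r ρ S _ _).mp h
      have hil : i < ρ.length := by rw [hρ'.1]; exact hi
      rw [List.getD_eq_getElem _ _ hil] at h1
      have h2 := hρ'.2 _ (List.getElem_mem hil)
      omega
    · subst hc
      rcases lt_trichotomy s (ρ.getD i 0) with h1 | h1 | h1
      · exact ⟨[3, i, s + 1], Or.inl ⟨by simp, (sgm3 hh M t Q r ρ S _ _).mpr h1⟩⟩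
      · exact ⟨[2, i, s], Or.inl ⟨by simp, (sgm2 hh M t Q r ρ S _ _).mpr h1⟩⟩
      · refine ⟨[3, i, s], Or.inr ⟨by simp, fun h => ?_⟩⟩
        have h2 := (sgm3 hh M t Q r ρ S _ _).mp h
        omega

end KRN
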