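import Pool.Agent.KRN.Frm

/-!
# KRN CPD: the satisfying assignment
-/

set_option autoImplicit false

namespace KRN

/-- The symbol `δ` is selected in the column `γ` of the bucket `g`. -/
def Ysel (h : ℕ → ℕ) (S : Finset ℕ) (Q r g γ δ : ℕ) : Prop := ∃ u ∈ S, h u = g ∧ code Q r u γ = δ

/-- The number of elements of the bucket `g`. -/
def load (h : ℕ → ℕ) (S : Finset ℕ) (g : ℕ) : ℕ := (S.filter fun u => h u = g).card

open Classical in
/-- The satisfying assignment for the seed `ρ` and the hitting set `S`. -/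
noncomputable def sgm (hh : List ℕ → ℕ → ℕ) (M t Q r : ℕ) (ρ : List ℕ) (S : Finset ℕ) : Name → Prop
  | [0, i, s, g, γ, δ] => s ≠ ρ.getD i 0 ∨ Ysel (hh ρ) S Q r g γ δ
  | [1, g, γ, δ] => Ysel (hh ρ) S Q r g γ δ
  | [2, i, s] => s = ρ.getD i 0
  | [3, i, s] => s ≤ ρ.getD i 0
  | [4, g, γ, i, a, c] => c ≤ (((Finset.range Q).filter fun δ => Ysel (hh ρ) S Q r g γ δ).filter
      fun x => a * 2 ^ i ≤ x ∧ x < (a + 1) * 2 ^ i).card
  | [5, i, a, c] => c ≤ (((Finset.range (M * t)).filter fun x => x % t < load (hh ρ) S (x / t)).filter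
      fun x => a * 2 ^ i ≤ x ∧ x < (a + 1) * 2 ^ i).card
  | [6, g, c] => c < load (hh ρ) S g
  | _ => False

variable (hh : List ℕ → ℕ → ℕ) (M t Q r : ℕ) (ρ : List ℕ) (S : Finset ℕ)

theorem sgm0 (i s g γ δ : ℕ) :
    sgm hh M t Q r ρ S [0, i, s, g, γ, δ] ↔ s ≠ ρ.getD i 0 ∨ Ysel (hh ρ) S Q r g γ δ := Iff.rfl

theorem sgm1 (g γ δ : ℕ) : sgm hh M t Q r ρ S [1, g, γ, δ] ↔ Ysel (hh ρ) S Q r g γ δ := Iff.rfl

theorem sgm2 (i s : ℕ) : sgm hh M t Q r ρ S [2, i, s] ↔ s = ρ.getD i 0 := Iff.rfl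

theorem sgm3 (i s : ℕ) : sgm hh M t Q r ρ S [3, i, s] ↔ s ≤ ρ.getD i 0 := Iff.rfl

open Classical in
theorem sgm4 (g γ i a c : ℕ) : sgm hh M t Q r ρ S [4, g, γ, i, a, c] ↔
    c ≤ (((Finset.range Q).filter fun δ => Ysel (hh ρ) S Q r g γ δ).filter
      fun x => a * 2 ^ i ≤ x ∧ x < (a + 1) * 2 ^ i).card := by
  have h : sgm hh M t Q r ρ S [4, g, γ, i, a, c] ↔
    c ≤ (((Finset.range Q).filter fun δ => Ysel (hh ρ) S Q r g γ δ).filter
      fun x => a * 2 ^ i ≤ x ∧ x < (a + 1) * 2 ^ i).card := Iff.rfl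
  rw [h]

open Classical in
theorem sgm5 (i a c : ℕ) : sgm hh M t Q r ρ S [5, i, a, c] ↔
    c ≤ (((Finset.range (M * t)).filter fun x => x % t < load (hh ρ) S (x / t)).filter
      fun x => a * 2 ^ i ≤ x ∧ x < (a + 1) * 2 ^ i).card := by
  have h : sgm hh M t Q r ρ S [5, i, a, c] ↔
    c ≤ (((Finset.range (M * t)).filter fun x => x % t < load (hh ρ) S (x / t)).filter
      fun x => a * 2 ^ i ≤ x ∧ x < (a + 1) * 2 ^ i).card := Iff.rfl
  rw [h]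

theorem sgm6 (g c : ℕ) : sgm hh M t Q r ρ S [6, g, c] ↔ c < load (hh ρ) S g := Iff.rfl

end KRN
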