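import Pool.Agent.KRN.PAR

/-!
# KRN FA2: seeds as numbers, the parameters of the deterministic kernel

`seed_surj`: numbers in base `R` (the digits `N / R ^ i % R`).
`MD_spec`: the first element of the filtered list is the least `M` with `(2 * (k + 1)) ^ s ≤ M ^ (s - 1)`; `M = (2 * (k + 1)) ^ s` has
this property (`s ≥ 2`), and `(2 * (k + 1)) ^ 2` too because `2 * (s - 1) ≥ s`.
`RD_spec`: the same with the exponent `d`.
-/

set_option autoImplicit false

namespace KRN

private theorem fa2_seed (R : ℕ) (d : ℕ) (N : ℕ) (j : ℕ) (hj : j ≤ d) :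
    seedN R ((List.range d).map fun i => N / R ^ i % R) j = N % R ^ j := by
  induction j with
  | zero => simp [seedN, Nat.mod_one]
  | succ j ih =>
    rw [seedN, ih (by omega)]
    have h1 : ((List.range d).map fun i => N / R ^ i % R).getD j 0 = N / R ^ j % R := by
      rw [List.getD_eq_getElem?_getD, List.getElem?_map, List.getElem?_range (by omega)]
      rfl
    rw [h1, Nat.mod_pow_succ, mul_comm]

theorem seed_surj (R d N : ℕ) (hN : N < R ^ d) :
    ∃ ρ : List ℕ, ρ.length = d ∧ (∀ x ∈ ρ, x < R) ∧ seedN R ρ d = N := by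
  refine ⟨(List.range d).map fun i => N / R ^ i % R, by simp, ?_, ?_⟩
  · intro x hx
    rw [List.mem_map] at hx
    obtain ⟨i, hi, rfl⟩ := hx
    rw [List.mem_range] at hi
    refine Nat.mod_lt _ ?_
    rcases Nat.eq_zero_or_pos R with h | h
    · subst h
      rw [zero_pow (by omega)] at hN
      omega
    · exact h
  · rw [fa2_seed R d N d le_rfl, Nat.mod_eq_of_lt hN]

private theorem fa2_head (n : ℕ) (p : ℕ → Prop) [DecidablePred p] (h : ∃ m < n, p m) :
    p (((List.range n).filter fun m => decide (p m)).headD 0) ∧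
      ∀ m < ((List.range n).filter fun m => decide (p m)).headD 0, ¬ p m := by
  obtain ⟨m0, h0, h1⟩ := h
  have hm0 : m0 ∈ (List.range n).filter fun m => decide (p m) := by
    rw [List.mem_filter, List.mem_range]
    exact ⟨h0, by simpa using h1⟩
  have hs : ((List.range n).filter fun m => decide (p m)).Pairwise (· < ·) :=
    List.Pairwise.filter _ List.pairwise_lt_range
  have hmem : ∀ m, m ∈ (List.range n).filter (fun m => decide (p m)) ↔ m < n ∧ p m := by
    intro m
    rw [List.mem_filter, List.mem_range]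
    simp
  rcases hL : (List.range n).filter fun m => decide (p m) with _ | ⟨x, t⟩
  · rw [hL] at hm0
    simp at hm0
  · rw [hL] at hs hmem
    simp only [List.headD_cons]
    have hx := (hmem x).1 List.mem_cons_self
    refine ⟨hx.2, fun m hm hpm => ?_⟩
    have h2 := (hmem m).2 ⟨by omega, hpm⟩
    rw [List.mem_cons] at h2
    rcases h2 with h2 | h2
    · omega
    · have := (List.pairwise_cons.1 hs).1 m h2
      omega

theorem MD_spec (s k : ℕ) (hs : 2 ≤ s) :
    1 ≤ MD s k ∧ (2 * (k + 1)) ^ s ≤ MD s k ^ (s - 1) ∧ MD s k ≤ (2 * (k + 1)) ^ 2 ∧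
      (MD s k - 1) ^ (s - 1) < (2 * (k + 1)) ^ s := by
  have hA : 1 ≤ 2 * (k + 1) := by omega
  have hAs : 1 ≤ (2 * (k + 1)) ^ s := Nat.one_le_pow _ _ hA
  obtain ⟨h1, h2⟩ := fa2_head ((2 * (k + 1)) ^ s + 1) (fun M => (2 * (k + 1)) ^ s ≤ M ^ (s - 1))
    ⟨(2 * (k + 1)) ^ s, by omega, by
      calc (2 * (k + 1)) ^ s = ((2 * (k + 1)) ^ s) ^ 1 := (pow_one _).symm
        _ ≤ ((2 * (k + 1)) ^ s) ^ (s - 1) := Nat.pow_le_pow_right hAs (by omega)⟩
  change (2 * (k + 1)) ^ s ≤ MD s k ^ (s - 1) at h1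
  change ∀ m < MD s k, ¬ (2 * (k + 1)) ^ s ≤ m ^ (s - 1) at h2
  have h3 : 1 ≤ MD s k := by
    by_contra h
    have h4 : MD s k = 0 := by omega
    rw [h4, zero_pow (by omega)] at h1
    omega
  refine ⟨h3, h1, ?_, ?_⟩
  · by_contra h
    refine h2 ((2 * (k + 1)) ^ 2) (by omega) ?_
    rw [← pow_mul]
    exact Nat.pow_le_pow_right hA (by omega)
  · have := h2 (MD s k - 1) (by omega)
    omega

theorem RD_spec (d s k : ℕ) (hd : 1 ≤ d) :
    1 ≤ RD d s k ∧ PD d k ^ (s + 1) ≤ RD d s k ^ d ∧ (RD d s k - 1) ^ d < PD d k ^ (s + 1) := by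
  have hP : 1 ≤ PD d k := (npr_spec _).1.one_lt.le
  have hPs : 1 ≤ PD d k ^ (s + 1) := Nat.one_le_pow _ _ hP
  obtain ⟨h1, h2⟩ := fa2_head (PD d k ^ (s + 1) + 1) (fun R => PD d k ^ (s + 1) ≤ R ^ d)
    ⟨PD d k ^ (s + 1), by omega, by
      calc PD d k ^ (s + 1) = (PD d k ^ (s + 1)) ^ 1 := (pow_one _).symm
        _ ≤ (PD d k ^ (s + 1)) ^ d := Nat.pow_le_pow_right hPs hd⟩
  change PD d k ^ (s + 1) ≤ RD d s k ^ d at h1
  change ∀ m < RD d s k, ¬ PD d k ^ (s + 1) ≤ m ^ d at h2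
  have h3 : 1 ≤ RD d s k := by
    by_contra h
    have h4 : RD d s k = 0 := by omega
    rw [h4, zero_pow (by omega)] at h1
    omega
  refine ⟨h3, h1, ?_⟩
  have := h2 (RD d s k - 1) (by omega)
  omega

end KRN
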