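import Pool.Agent.KRN.Frm

/-!
# KRN RSC: the code separates

* `code_cast`: for `Q` prime (or any `Q ≥ 2`), `(code Q r u γ : ZMod Q) = ∑ a < r, (u / Q ^ a % Q) * γ ^ a` (induction over
  the loop: after `a` rounds the state is `(u / Q ^ a, γ ^ a % Q, partial sum % Q)`), and `code Q r u γ < Q`.
* For `u ≠ u'` both `< Q ^ r` the digit vectors differ (`Nat.digits`-free: induction on `r`), hence the difference of the two
  polynomials is nonzero of degree `< r` and has at most `r` roots (`Polynomial.card_roots'`): at most `r` values `γ < Q`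
  with `code Q r u γ = code Q r u' γ`.
* `code_sep`: fewer than `B.card ^ 2 * r < Q` values of `γ` are bad.
-/

set_option autoImplicit false

namespace KRN

private def RSC_f (Q γ : ℕ) (s : ℕ × ℕ × ℕ) : ℕ × ℕ × ℕ :=
  (s.1 / Q, s.2.1 * γ % Q, (s.2.2 + s.1 % Q * s.2.1) % Q)

private def RSC_st (Q u γ : ℕ) : ℕ → ℕ × ℕ × ℕ
  | 0 => (u, 1 % Q, 0)
  | a + 1 => RSC_f Q γ (RSC_st Q u γ a)

private theorem RSC_code (Q r u γ : ℕ) : code Q r u γ = (RSC_st Q u γ r).2.2 := by
  have h : ∀ r, (List.range r).foldl (fun (s : ℕ × ℕ × ℕ) _ => (s.1 / Q, s.2.1 * γ % Q, (s.2.2 + s.1 % Q * s.2.1) % Q))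
      (u, 1 % Q, 0) = RSC_st Q u γ r := by
    intro r
    induction r with
    | zero => rfl
    | succ r ih =>
      rw [List.range_succ, List.foldl_append, ih]
      rfl
  unfold code
  rw [h]

theorem code_lt {Q : ℕ} (hQ : 0 < Q) (r u γ : ℕ) : code Q r u γ < Q := by
  rw [RSC_code]
  cases r with
  | zero => exact hQ
  | succ r => exact Nat.mod_lt _ hQ

private theorem RSC_inv {Q : ℕ} (u γ : ℕ) (a : ℕ) :
    (RSC_st Q u γ a).1 = u / Q ^ a ∧ (((RSC_st Q u γ a).2.1 : ℕ) : ZMod Q) = (γ : ZMod Q) ^ a ∧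
    (((RSC_st Q u γ a).2.2 : ℕ) : ZMod Q) =
      ∑ b ∈ Finset.range a, ((u / Q ^ b % Q : ℕ) : ZMod Q) * (γ : ZMod Q) ^ b := by
  induction a with
  | zero =>
    refine ⟨by simp [RSC_st], ?_, by simp [RSC_st]⟩
    simp only [RSC_st, pow_zero]
    rw [ZMod.natCast_mod, Nat.cast_one]
  | succ a ih =>
    obtain ⟨h1, h2, h3⟩ := ih
    refine ⟨?_, ?_, ?_⟩
    · simp only [RSC_st, RSC_f]
      rw [h1, Nat.div_div_eq_div_mul, pow_succ]
    · simp only [RSC_st, RSC_f]
      rw [ZMod.natCast_mod, Nat.cast_mul, h2, pow_succ]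
    · simp only [RSC_st, RSC_f]
      rw [ZMod.natCast_mod, Nat.cast_add, Nat.cast_mul, h2, h3, h1, Finset.sum_range_succ]

theorem code_cast {Q : ℕ} (hQ : 1 < Q) (r u γ : ℕ) :
    ((code Q r u γ : ℕ) : ZMod Q) = ∑ a ∈ Finset.range r, ((u / Q ^ a % Q : ℕ) : ZMod Q) * (γ : ZMod Q) ^ a := by
  have _ := hQ
  rw [RSC_code]
  exact (RSC_inv u γ r).2.2

private theorem RSC_digits {Q : ℕ} (hQ : 0 < Q) (r : ℕ) : ∀ u u' : ℕ, u < Q ^ r → u' < Q ^ r →
    (∀ a < r, u / Q ^ a % Q = u' / Q ^ a % Q) → u = u' := by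
  induction r with
  | zero =>
    intro u u' hu hu' _
    simp only [pow_zero] at hu hu'
    omega
  | succ r ih =>
    intro u u' hu hu' h
    have h0 := h 0 (Nat.succ_pos r)
    simp only [pow_zero, Nat.div_one] at h0
    have h1 : u / Q = u' / Q := by
      apply ih
      · rw [Nat.div_lt_iff_lt_mul hQ]
        rw [pow_succ] at hu
        exact hu
      · rw [Nat.div_lt_iff_lt_mul hQ]
        rw [pow_succ] at hu'
        exact hu'
      · intro a ha
        have := h (a + 1) (Nat.succ_lt_succ ha)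
        rw [pow_succ', ← Nat.div_div_eq_div_mul, ← Nat.div_div_eq_div_mul] at this
        exact this
    rw [← Nat.div_add_mod u Q, ← Nat.div_add_mod u' Q, h0, h1]

/-- Two different messages agree in fewer than `r` columns. -/
theorem RSC_agree_lt {Q : ℕ} (hQ : Q.Prime) (r u u' : ℕ) (hu : u < Q ^ r) (hu' : u' < Q ^ r) (h : u ≠ u') :
    ((Finset.range Q).filter fun γ => code Q r u γ = code Q r u' γ).card < r := by
  classical
  have hr : 0 < r := by
    rcases Nat.eq_zero_or_pos r with h0 | h0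
    · subst h0
      simp only [pow_zero] at hu hu'
      omega
    · exact h0
  have : Fact Q.Prime := ⟨hQ⟩
  set P : Polynomial (ZMod Q) := ∑ a ∈ Finset.range r,
    Polynomial.monomial a (((u / Q ^ a % Q : ℕ) : ZMod Q) - ((u' / Q ^ a % Q : ℕ) : ZMod Q)) with hP
  have hcoeff : ∀ a < r, P.coeff a = ((u / Q ^ a % Q : ℕ) : ZMod Q) - ((u' / Q ^ a % Q : ℕ) : ZMod Q) := by
    intro a ha
    rw [hP, Polynomial.finsetSum_coeff]
    rw [Finset.sum_eq_single a]
    · rw [Polynomial.coeff_monomial, if_pos rfl]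
    · intro b _ hb
      rw [Polynomial.coeff_monomial, if_neg hb]
    · intro hh
      exact absurd (Finset.mem_range.2 ha) hh
  have hP0 : P ≠ 0 := by
    intro h0
    apply h
    apply RSC_digits hQ.pos r u u' hu hu'
    intro a ha
    have h1 := hcoeff a ha
    rw [h0, Polynomial.coeff_zero, eq_comm, sub_eq_zero] at h1
    have h2 := (ZMod.natCast_eq_natCast_iff _ _ _).1 h1
    have h3 : u / Q ^ a % Q % Q = u' / Q ^ a % Q % Q := h2
    rwa [Nat.mod_mod, Nat.mod_mod] at h3
  have hdeg : P.natDegree ≤ r - 1 := by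
    rw [hP]
    apply Polynomial.natDegree_sum_le_of_forall_le
    intro a ha
    exact (Polynomial.natDegree_monomial_le _).trans (Nat.le_sub_one_of_lt (Finset.mem_range.1 ha))
  have hinj : ((Finset.range Q).filter fun γ => code Q r u γ = code Q r u' γ).card ≤ P.roots.toFinset.card := by
    apply Finset.card_le_card_of_injOn (fun γ : ℕ => (γ : ZMod Q))
    · intro γ hγ
      have hγ' := Finset.mem_filter.1 (Finset.mem_coe.1 hγ)
      have h1 : ((code Q r u γ : ℕ) : ZMod Q) = ((code Q r u' γ : ℕ) : ZMod Q) := by rw [hγ'.2]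
      rw [code_cast hQ.one_lt, code_cast hQ.one_lt] at h1
      apply Finset.mem_coe.2
      rw [Multiset.mem_toFinset, Polynomial.mem_roots hP0]
      change Polynomial.eval _ P = 0
      rw [hP, Polynomial.eval_finsetSum]
      simp only [Polynomial.eval_monomial, sub_mul]
      rw [Finset.sum_sub_distrib, h1, sub_self]
    · intro a ha b hb hab
      have ha' := Finset.mem_range.1 (Finset.mem_filter.1 (Finset.mem_coe.1 ha)).1
      have hb' := Finset.mem_range.1 (Finset.mem_filter.1 (Finset.mem_coe.1 hb)).1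
      have h2 : a % Q = b % Q := (ZMod.natCast_eq_natCast_iff _ _ _).1 hab
      rwa [Nat.mod_eq_of_lt ha', Nat.mod_eq_of_lt hb'] at h2
  have h4 := hinj.trans ((Multiset.toFinset_card_le _).trans ((Polynomial.card_roots' P).trans hdeg))
  omega

theorem code_agree {Q : ℕ} (hQ : Q.Prime) (r u u' : ℕ) (hu : u < Q ^ r) (hu' : u' < Q ^ r) (h : u ≠ u') :
    ((Finset.range Q).filter fun γ => code Q r u γ = code Q r u' γ).card ≤ r :=
  (RSC_agree_lt hQ r u u' hu hu' h).le

theorem code_sep {Q : ℕ} (hQ : Q.Prime) (r : ℕ) (B : Finset ℕ) (hB : ∀ u ∈ B, u < Q ^ r) (hc : B.card ^ 2 * r < Q) :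
    ∃ γ < Q, Set.InjOn (fun u => code Q r u γ) B := by
  classical
  set bad : Finset ℕ := ((B ×ˢ B).filter fun x => x.1 ≠ x.2).biUnion fun x =>
    (Finset.range Q).filter fun γ => code Q r x.1 γ = code Q r x.2 γ with hbad
  have h1 : bad.card ≤ B.card ^ 2 * r := by
    rw [hbad]
    refine (Finset.card_biUnion_le_card_mul _ _ r ?_).trans ?_
    · intro x hx
      have hx' := Finset.mem_filter.1 hx
      have hx2 := Finset.mem_product.1 hx'.1
      exact code_agree hQ r x.1 x.2 (hB _ hx2.1) (hB _ hx2.2) hx'.2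
    · apply Nat.mul_le_mul_right
      refine (Finset.card_filter_le _ _).trans ?_
      rw [Finset.card_product, sq]
  have h2 : ∃ γ ∈ Finset.range Q, γ ∉ bad := by
    by_contra hcon
    push Not at hcon
    have h3 : (Finset.range Q).card ≤ bad.card := Finset.card_le_card fun γ hγ => hcon γ hγ
    rw [Finset.card_range] at h3
    omega
  obtain ⟨γ, hγ, hγ2⟩ := h2
  refine ⟨γ, Finset.mem_range.1 hγ, ?_⟩
  intro u hu u' hu' he
  by_contra hne
  apply hγ2
  rw [hbad, Finset.mem_biUnion]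
  refine ⟨(u, u'), Finset.mem_filter.2 ⟨Finset.mem_product.2 ⟨Finset.mem_coe.1 hu, Finset.mem_coe.1 hu'⟩, hne⟩, ?_⟩
  exact Finset.mem_filter.2 ⟨hγ, he⟩

end KRN
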