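import Pool.Agent.KRN.PAR
import Pool.Agent.KRN.RSC

/-!
# KRN FAM: the explicit family of hash functions

`fam`: `p` prime, `S ⊆ {0, …, p ^ r - 1}` with at most `k` elements.  By `code_sep` there is `a < p` with `x_u = code p r u a` distinct
for `u ∈ S`.  For `P < p ^ s` (the digits of `P` are the coefficients of a polynomial of degree `< s`) and distinct
`x_1, …, x_s < p` the map `P ↦ (code p s P x_i)_i` is a bijection from `{P < p ^ s}` to `{0, …, p - 1} ^ s` (injective: a nonzero
polynomial of degree `< s` has less than `s` roots).  For a subset of `S` with `s` elements the number of `P` for which all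
values are equal modulo `M` is at most `M * ⌈p / M⌉ ^ s ≤ M * (2 * p / M) ^ s`; there are at most `k ^ s` such subsets, and
`k ^ s * 2 ^ s * p ^ s / M ^ (s - 1) < p ^ s` because `(2 * (k + 1)) ^ s ≤ M ^ (s - 1)`.  `N = a + p * P`.
-/

set_option autoImplicit false

namespace KRN

private theorem FAM_res (p M g : ℕ) : ((Finset.range p).filter fun y => y % M = g).card ≤ p / M + 1 := by
  have h : ((Finset.range p).filter fun y => y % M = g).card ≤ (Finset.range (p / M + 1)).card := by
    apply Finset.card_le_card_of_injOn (fun y => y / M)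
    · intro y hy
      have hy' := Finset.mem_filter.1 (Finset.mem_coe.1 hy)
      have h1 := Finset.mem_range.1 hy'.1
      apply Finset.mem_coe.2
      apply Finset.mem_range.2
      exact Nat.lt_succ_of_le (Nat.div_le_div_right h1.le)
    · intro y hy z hz hyz
      have hy' := (Finset.mem_filter.1 (Finset.mem_coe.1 hy)).2
      have hz' := (Finset.mem_filter.1 (Finset.mem_coe.1 hz)).2
      have hyz' : y / M = z / M := hyz
      rw [← Nat.div_add_mod y M, ← Nat.div_add_mod z M, hy', hz', hyz']
  rwa [Finset.card_range] at h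

private theorem FAM_fib (p s M g : ℕ) (hp : p.Prime) (T : Finset ℕ) (x : ℕ → ℕ) (hx : ∀ u ∈ T, x u < p)
    (hinj : Set.InjOn x T) (hT : T.card = s) :
    ((Finset.range (p ^ s)).filter fun P => ∀ u ∈ T, code p s P (x u) % M = g).card ≤ (p / M + 1) ^ s := by
  classical
  have h : ((Finset.range (p ^ s)).filter fun P => ∀ u ∈ T, code p s P (x u) % M = g).card ≤
      (T.pi fun _ => (Finset.range p).filter fun y => y % M = g).card := by
    apply Finset.card_le_card_of_injOn (fun P => fun u _ => code p s P (x u))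
    · intro P hP
      have hP' := (Finset.mem_filter.1 (Finset.mem_coe.1 hP)).2
      apply Finset.mem_coe.2
      rw [Finset.mem_pi]
      intro u hu
      exact Finset.mem_filter.2 ⟨Finset.mem_range.2 (code_lt hp.pos _ _ _), hP' u hu⟩
    · intro P hP P' hP' he
      have h1 := Finset.mem_range.1 (Finset.mem_filter.1 (Finset.mem_coe.1 hP)).1
      have h2 := Finset.mem_range.1 (Finset.mem_filter.1 (Finset.mem_coe.1 hP')).1
      by_contra hne
      have h3 := RSC_agree_lt hp s P P' h1 h2 hne
      have h4 : (T.image x) ⊆ (Finset.range p).filter fun γ => code p s P γ = code p s P' γ := by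
        intro y hy
        obtain ⟨u, hu, rfl⟩ := Finset.mem_image.1 hy
        refine Finset.mem_filter.2 ⟨Finset.mem_range.2 (hx u hu), ?_⟩
        exact congrFun (congrFun he u) hu
      have h5 := Finset.card_le_card h4
      rw [Finset.card_image_of_injOn hinj, hT] at h5
      omega
  refine h.trans ?_
  rw [Finset.card_pi, Finset.prod_const, hT]
  exact Nat.pow_le_pow_left (FAM_res p M g) s

private theorem FAM_count (p s M : ℕ) (hp : p.Prime) (T : Finset ℕ) (x : ℕ → ℕ) (hx : ∀ u ∈ T, x u < p)
    (hinj : Set.InjOn x T) (hT : T.card = s) :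
    ((Finset.range (p ^ s)).filter fun P => ∃ g < M, ∀ u ∈ T, code p s P (x u) % M = g).card ≤ M * (p / M + 1) ^ s := by
  classical
  have h : ((Finset.range (p ^ s)).filter fun P => ∃ g < M, ∀ u ∈ T, code p s P (x u) % M = g) ⊆
      (Finset.range M).biUnion fun g => (Finset.range (p ^ s)).filter fun P => ∀ u ∈ T, code p s P (x u) % M = g := by
    intro P hP
    obtain ⟨h1, g, hg, h2⟩ := Finset.mem_filter.1 hP
    exact Finset.mem_biUnion.2 ⟨g, Finset.mem_range.2 hg, Finset.mem_filter.2 ⟨h1, h2⟩⟩
  refine (Finset.card_le_card h).trans ?_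
  refine (Finset.card_biUnion_le_card_mul _ _ ((p / M + 1) ^ s) ?_).trans ?_
  · intro g _
    exact FAM_fib p s M g hp T x hx hinj hT
  · rw [Finset.card_range]

private theorem FAM_num (p s k M : ℕ) (hp : 0 < p) (hs : 2 ≤ s) (hM : 1 ≤ M) (hMp : M ≤ p)
    (hMs : (2 * (k + 1)) ^ s ≤ M ^ (s - 1)) (c : ℕ) (hc : c ≤ k) : c.choose s * (M * (p / M + 1) ^ s) < p ^ s := by
  have h1 : (p / M + 1) * M ≤ 2 * p := by
    have := Nat.div_mul_le_self p M
    rw [add_mul]
    omega
  have h2 : c.choose s ≤ k ^ s := (Nat.choose_le_pow c s).trans (Nat.pow_le_pow_left hc s)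
  have h3 : c.choose s * (M * (p / M + 1) ^ s) * M ^ (s - 1) < p ^ s * M ^ (s - 1) := by
    calc c.choose s * (M * (p / M + 1) ^ s) * M ^ (s - 1)
        = c.choose s * ((p / M + 1) ^ s * M ^ s) := by
          have : M ^ s = M ^ (s - 1) * M := by rw [← pow_succ, Nat.sub_add_cancel (by omega)]
          rw [this]; ring
      _ = c.choose s * ((p / M + 1) * M) ^ s := by rw [mul_pow]
      _ ≤ k ^ s * (2 * p) ^ s := Nat.mul_le_mul h2 (Nat.pow_le_pow_left h1 s)
      _ = (2 * k) ^ s * p ^ s := by rw [mul_pow, mul_pow]; ring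
      _ < (2 * (k + 1)) ^ s * p ^ s := by
          apply Nat.mul_lt_mul_of_pos_right _ (pow_pos hp s)
          exact Nat.pow_lt_pow_left (by omega) (by omega)
      _ ≤ M ^ (s - 1) * p ^ s := Nat.mul_le_mul_right _ hMs
      _ = p ^ s * M ^ (s - 1) := mul_comm _ _
  exact lt_of_mul_lt_mul_right h3 (Nat.zero_le _)

theorem fam (p r s k M : ℕ) (hp : p.Prime) (hs : 2 ≤ s) (hM : 1 ≤ M) (hMp : M ≤ p) (hk : k ^ 2 * r < p)
    (hMs : (2 * (k + 1)) ^ s ≤ M ^ (s - 1)) (S : Finset ℕ) (hS : ∀ u ∈ S, u < p ^ r) (hc : S.card ≤ k) :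
    ∃ N < p ^ (s + 1), ∀ g, (S.filter fun u => buc p s r M N u = g).card ≤ s - 1 := by
  classical
  obtain ⟨a, ha, hinj⟩ := code_sep hp r S hS (lt_of_le_of_lt (Nat.mul_le_mul_right _ (Nat.pow_le_pow_left hc 2)) hk)
  set x : ℕ → ℕ := fun u => code p r u a with hx
  set bad : Finset ℕ := (S.powersetCard s).biUnion fun T =>
    (Finset.range (p ^ s)).filter fun P => ∃ g < M, ∀ u ∈ T, code p s P (x u) % M = g with hbad
  have h1 : bad.card < p ^ s := by
    rw [hbad]
    refine lt_of_le_of_lt (Finset.card_biUnion_le_card_mul _ _ (M * (p / M + 1) ^ s) ?_) ?_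
    · intro T hT
      have hT' := Finset.mem_powersetCard.1 hT
      exact FAM_count p s M hp T x (fun u _ => code_lt hp.pos _ _ _)
        (hinj.mono (Finset.coe_subset.2 hT'.1)) hT'.2
    · rw [Finset.card_powersetCard]
      exact FAM_num p s k M hp.pos hs hM hMp hMs _ hc
  obtain ⟨P, hP, hPb⟩ : ∃ P ∈ Finset.range (p ^ s), P ∉ bad := by
    by_contra hcon
    push Not at hcon
    have h3 : (Finset.range (p ^ s)).card ≤ bad.card := Finset.card_le_card fun P hP => hcon P hP
    rw [Finset.card_range] at h3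
    omega
  have hP' := Finset.mem_range.1 hP
  refine ⟨a + p * P, ?_, ?_⟩
  · calc a + p * P < p + p * P := by omega
      _ = p * (P + 1) := by ring
      _ ≤ p * p ^ s := Nat.mul_le_mul_left _ hP'
      _ = p ^ (s + 1) := by rw [pow_succ']
  · intro g
    by_contra hcon
    push Not at hcon
    have h4 : s ≤ (S.filter fun u => buc p s r M (a + p * P) u = g).card := by omega
    obtain ⟨T, hT, hTc⟩ := Finset.exists_subset_card_eq h4
    apply hPb
    rw [hbad, Finset.mem_biUnion]
    refine ⟨T, Finset.mem_powersetCard.2 ⟨hT.trans (Finset.filter_subset _ _), hTc⟩, ?_⟩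
    refine Finset.mem_filter.2 ⟨hP, g, ?_, ?_⟩
    · have hne : T.Nonempty := by
        rw [← Finset.card_pos, hTc]
        omega
      obtain ⟨u, hu⟩ := hne
      have h5 := (Finset.mem_filter.1 (hT hu)).2
      rw [← h5]
      exact Nat.mod_lt _ hM
    · intro u hu
      have h5 := (Finset.mem_filter.1 (hT hu)).2
      unfold buc at h5
      rw [Nat.add_mul_mod_self_left, Nat.mod_eq_of_lt ha, Nat.add_mul_div_left _ _ hp.pos,
        Nat.div_eq_of_lt ha, zero_add] at h5
      exact h5

end KRN
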