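import Pool.Agent.KRN.PLY

/-!
# KRN FPO: the formula is computed in polynomial time

Write every `frm` as a nest of `pflatMap` / `pmap` over `prange` and combine the rules of PLY.  `code` is a `pfold` over
`List.range r` whose state `(rest, power, sum)` has size at most `sz s + 2 * Q + …` for ALL inputs (also `Q = 0`, where
`x / 0 = 0`, `x % 0 = x`; state sizes: `s.2.1 * γ % 0 = s.2.1 * γ` would grow exponentially for `Q = 0`, so prove `Poly code`
by a case distinction: for `Q ≤ 1` replace `Q` by `max Q 2` inside the loop and treat `Q = 0, 1` separately: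
`code 1 r u γ = 0`; for `Q = 0` use the statement below only for `max (Q x) 2`).
`tuples R d` and `secs` for `d` slots: induction on `d`.
-/

set_option autoImplicit false

namespace KRN

variable {α : Type} [Dat α]

private theorem fpo_max {f g : α → ℕ} (hf : Poly f) (hg : Poly g) : Poly (fun x => max (f x) (g x)) := by
  have h := padd hf (psub hg hf)
  have : (fun x => max (f x) (g x)) = fun x => f x + (g x - f x) := by
    funext x
    omega
  rw [this]
  exact h

private theorem pfc {β γ : Type} [Dat β] [Dat γ] {f : α → β} (hf : Poly f) : Poly (fun z : α × γ => f z.1) :=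
  Poly.comp hf Poly.fst

/-- the loop -/
private def lp (Q γ : ℕ) (s : ℕ × ℕ × ℕ) : ℕ × ℕ × ℕ :=
  (s.1 / Q, s.2.1 * γ % Q, (s.2.2 + s.1 % Q * s.2.1) % Q)

private theorem lp_sz (Q γ : ℕ) (hQ : 1 ≤ Q) (s : ℕ × ℕ × ℕ) :
    (lp Q γ s).1 ≤ s.1 ∧ (lp Q γ s).2.1 ≤ Q ∧ (lp Q γ s).2.2 ≤ Q := by
  refine ⟨Nat.div_le_self _ _, (Nat.mod_lt _ hQ).le, (Nat.mod_lt _ hQ).le⟩

private theorem lp_fold (Q γ : ℕ) (hQ : 1 ≤ Q) (l : List ℕ) : ∀ s : ℕ × ℕ × ℕ,
    (l.foldl (fun s _ => lp Q γ s) s).1 ≤ s.1 ∧ (l.foldl (fun s _ => lp Q γ s) s).2.1 ≤ Q + s.2.1 ∧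
      (l.foldl (fun s _ => lp Q γ s) s).2.2 ≤ Q + s.2.2 := by
  induction l with
  | nil => intro s; simp
  | cons a l ih =>
    intro s
    rw [List.foldl_cons]
    obtain ⟨h1, h2, h3⟩ := lp_sz Q γ hQ s
    obtain ⟨i1, i2, i3⟩ := ih (lp Q γ s)
    cases l with
    | nil =>
      simp only [List.foldl_nil]
      exact ⟨h1, by omega, by omega⟩
    | cons b l =>
      obtain ⟨j1, j2, j3⟩ := ih (lp Q γ s)
      refine ⟨i1.trans h1, ?_, ?_⟩
      · have : ∀ (m : List ℕ) (u : ℕ × ℕ × ℕ), u.2.1 ≤ Q → (m.foldl (fun s _ => lp Q γ s) u).2.1 ≤ Q := by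
          intro m
          induction m with
          | nil => intro u hu; simpa using hu
          | cons c m im =>
            intro u _
            rw [List.foldl_cons]
            exact im _ (lp_sz Q γ hQ u).2.1
        exact (this _ _ h2).trans (Nat.le_add_right _ _)
      · have : ∀ (m : List ℕ) (u : ℕ × ℕ × ℕ), u.2.2 ≤ Q → (m.foldl (fun s _ => lp Q γ s) u).2.2 ≤ Q := by
          intro m
          induction m with
          | nil => intro u hu; simpa using hu
          | cons c m im =>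
            intro u _
            rw [List.foldl_cons]
            exact im _ (lp_sz Q γ hQ u).2.2
        exact (this _ _ h3).trans (Nat.le_add_right _ _)

/-- For `2 ≤ Q`. -/
theorem pcode {Q r u γ : α → ℕ} (hQ : Poly Q) (hr : Poly r) (hu : Poly u) (hγ : Poly γ) :
    Poly (fun x => code (max (Q x) 2) (r x) (u x) (γ x)) := by
  have hQ2 : Poly (fun x => max (Q x) 2) := fpo_max hQ (Poly.const 2)
  -- the loop in the context `(Q, γ)`
  have hlp : Poly (fun z : (ℕ × ℕ) × (ℕ × ℕ × ℕ) × ℕ => lp (max z.1.1 2) z.1.2 z.2.1) := by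
    have h1 : Poly (fun z : (ℕ × ℕ) × (ℕ × ℕ × ℕ) × ℕ => max z.1.1 2) :=
      fpo_max (pfst (pfst Poly.id)) (Poly.const 2)
    have h2 : Poly (fun z : (ℕ × ℕ) × (ℕ × ℕ × ℕ) × ℕ => z.1.2) := psnd (pfst Poly.id)
    have h3 : Poly (fun z : (ℕ × ℕ) × (ℕ × ℕ × ℕ) × ℕ => z.2.1.1) := pfst (pfst (psnd Poly.id))
    have h4 : Poly (fun z : (ℕ × ℕ) × (ℕ × ℕ × ℕ) × ℕ => z.2.1.2.1) := pfst (psnd (pfst (psnd Poly.id)))
    have h5 : Poly (fun z : (ℕ × ℕ) × (ℕ × ℕ × ℕ) × ℕ => z.2.1.2.2) := psnd (psnd (pfst (psnd Poly.id)))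
    exact Poly.pair (pdiv h3 h1) (Poly.pair (pmod (pmul h4 h2) h1) (pmod (padd h5 (pmul (pmod h3 h1) h4)) h1))
  have hf : Poly (fun z : (ℕ × ℕ) × List ℕ × (ℕ × ℕ × ℕ) =>
      z.2.1.foldl (fun s _ => lp (max z.1.1 2) z.1.2 s) z.2.2) := by
    refine pfold (α := (ℕ × ℕ) × List ℕ × (ℕ × ℕ × ℕ)) (f := fun z s _ => lp (max z.1.1 2) z.1.2 s)
      (l := fun z => z.2.1) (s := fun z => z.2.2) 10 ?_ (pfst (psnd Poly.id)) (psnd (psnd Poly.id)) ?_
    · exact Poly.comp (g := fun z : (ℕ × ℕ) × (ℕ × ℕ × ℕ) × ℕ => lp (max z.1.1 2) z.1.2 z.2.1) hlp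
        (Poly.pair (pfst (pfst Poly.id)) (psnd Poly.id))
    · intro x l s
      obtain ⟨h1, h2, h3⟩ := lp_fold (max x.1.1 2) x.1.2 (by omega) l s
      generalize l.foldl (fun s _ => lp (max x.1.1 2) x.1.2 s) s = w at h1 h2 h3
      have e1 : sz w = (w.1 + 1) + ((w.2.1 + 1) + (w.2.2 + 1) + 1) + 1 := rfl
      have e2 : sz s = (s.1 + 1) + ((s.2.1 + 1) + (s.2.2 + 1) + 1) + 1 := rfl
      have e3 : sz x = ((x.1.1 + 1) + (x.1.2 + 1) + 1) + sz x.2 + 1 := rfl
      have h4 : sz w ≤ 10 * (sz x + sz l + sz s) := by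
        rw [e1, e2, e3]
        omega
      refine h4.trans (Nat.mul_le_mul_left _ ?_)
      exact Nat.le_self_pow (by norm_num) _
  have hs : Poly (fun x => (u x, 1 % max (Q x) 2, 0)) :=
    Poly.pair hu (Poly.pair (pmod (Poly.const 1) hQ2) (Poly.const 0))
  have h := psnd (psnd (Poly.comp hf (Poly.pair (Poly.pair hQ hγ) (Poly.pair (prange hr) hs))))
  exact h

theorem ptot {pre : α → Name} {μ m : α → ℕ} (hp : Poly pre) (hμ : Poly μ) (hm : Poly m) :
    Poly (fun x => tot (pre x) (μ x) (m x)) := by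
  unfold tot
  refine pappend ?_ ?_
  · refine pflatMap (prange (padd hμ (Poly.const 1))) ?_
    refine pmap (prange (pcp (psub (Poly.comp hμ Poly.fst) Poly.snd) (Poly.comp hm Poly.fst))) ?_
    refine pcons (pcons (Poly.const 1) (pappend (Poly.comp hp (pfst Poly.fst)) ?_)) (Poly.const [])
    exact pcons (psnd Poly.fst) (pcons Poly.snd (Poly.const [0]))
  · refine pflatMap (prange hμ) ?_
    refine pflatMap (prange (pcp (psub (psub (Poly.comp hμ Poly.fst) Poly.snd) (Poly.const 1))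
      (Poly.comp hm Poly.fst))) ?_
    refine pflatMap (prange (padd (pcp (psnd Poly.fst) (Poly.comp hm (pfst Poly.fst))) (Poly.const 1))) ?_
    refine pmap (prange (padd (pcp (psnd (pfst Poly.fst)) (Poly.comp hm (pfst (pfst Poly.fst)))) (Poly.const 1))) ?_
    have hpre := Poly.comp hp (pfst (pfst (pfst (Poly.fst (α := ((α × ℕ) × ℕ) × ℕ) (β := ℕ)))))
    have hi : Poly (fun z : (((α × ℕ) × ℕ) × ℕ) × ℕ => z.1.1.1.2) := psnd (pfst (pfst Poly.fst))
    have ha : Poly (fun z : (((α × ℕ) × ℕ) × ℕ) × ℕ => z.1.1.2) := psnd (pfst Poly.fst)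
    have hc : Poly (fun z : (((α × ℕ) × ℕ) × ℕ) × ℕ => z.1.2) := psnd Poly.fst
    have hc' : Poly (fun z : (((α × ℕ) × ℕ) × ℕ) × ℕ => z.2) := Poly.snd
    have hN : Poly (fun _ : (((α × ℕ) × ℕ) × ℕ) × ℕ => ([] : List ℕ)) := Poly.const []
    have hN2 : Poly (fun _ : (((α × ℕ) × ℕ) × ℕ) × ℕ => ([] : List Name)) := Poly.const []
    exact pcons (pcons (Poly.const 0) (pappend hpre (pcons hi (pcons (pmul (Poly.const 2) ha) (pcons hc hN)))))
      (pcons (pcons (Poly.const 0) (pappend hpre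
        (pcons hi (pcons (padd (pmul (Poly.const 2) ha) (Poly.const 1)) (pcons hc' hN)))))
      (pcons (pcons (Poly.const 1) (pappend hpre
        (pcons (padd hi (Poly.const 1)) (pcons ha (pcons (padd hc hc') hN))))) hN2))

theorem ptuples (d : ℕ) {R : α → ℕ} (hR : Poly R) : Poly (fun x => tuples (R x) d) := by
  induction d with
  | zero => exact Poly.const [[]]
  | succ d ih =>
    unfold tuples
    refine pflatMap (prange hR) ?_
    exact pmap (Poly.comp ih Poly.fst) (pcons (psnd Poly.fst) Poly.snd)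

theorem psecs (L : List (α → List Name)) (h : ∀ A ∈ L, Poly A) : Poly (fun x => secs (L.map fun A => A x)) := by
  induction L with
  | nil => exact Poly.const [[]]
  | cons A L ih =>
    simp only [List.map_cons, secs]
    refine pflatMap (h A List.mem_cons_self) ?_
    have ih' := ih fun B hB => h B (List.mem_cons_of_mem _ hB)
    exact pmap (pfc ih') (pcons (psnd Poly.fst) Poly.snd)

private theorem pslot {e ρ : α → List ℕ} {Q r : α → ℕ} {hh : α → List ℕ → ℕ → ℕ} (i : ℕ)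
    (hhh : Poly (fun z : α × List ℕ × ℕ => hh z.1 z.2.1 z.2.2)) (hQ : Poly Q) (hr : Poly r) (he : Poly e)
    (hρ : Poly ρ) : Poly (fun x => slot (hh x) (max (Q x) 2) (r x) (e x) (ρ x) i) := by
  unfold slot
  have hei : Poly (fun x => (e x).getD i 0) := pgetD he (Poly.const i) (Poly.const 0)
  have hρi : Poly (fun x => (ρ x).getD i 0) := pgetD hρ (Poly.const i) (Poly.const 0)
  refine pite (dlt (Poly.const i) (plength he)) ?_ ?_
  · refine pmap (prange (fpo_max hQ (Poly.const 2))) ?_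
    have h1 : Poly (fun z : α × ℕ => hh z.1 (ρ z.1) ((e z.1).getD i 0)) :=
      Poly.comp (Poly.comp hhh (Poly.pair Poly.id (Poly.pair hρ hei))) Poly.fst
    have h2 : Poly (fun z : α × ℕ => code (max (Q z.1) 2) (r z.1) ((e z.1).getD i 0) z.2) :=
      pcode (Poly.comp hQ Poly.fst) (Poly.comp hr Poly.fst) (Poly.comp hei Poly.fst) Poly.snd
    exact pcons (Poly.const 1) (pcons (Poly.const 0) (pcons (Poly.const i) (pcons (Poly.comp hρi Poly.fst)
      (pcons h1 (pcons Poly.snd (pcons h2 (Poly.const [])))))))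
  · exact pcons (pcons (Poly.const 0) (pcons (Poly.const 2) (pcons (Poly.const i) (pcons hρi (Poly.const [])))))
      (Poly.const [])

private theorem pfrm1 (d : ℕ) {hh : α → List ℕ → ℕ → ℕ} {R Q r : α → ℕ} {E : α → List (List ℕ)}
    (hhh : Poly (fun z : α × List ℕ × ℕ => hh z.1 z.2.1 z.2.2)) (hR : Poly R) (hQ : Poly Q) (hr : Poly r)
    (hE : Poly E) : Poly (fun x => frm1 d (hh x) (R x) (max (Q x) 2) (r x) (E x)) := by
  unfold frm1
  refine pflatMap hE ?_
  refine pflatMap (Poly.comp (ptuples d hR) Poly.fst) ?_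
  have h := psecs (α := (α × List ℕ) × List ℕ)
    ((List.range d).map fun i z => slot (hh z.1.1) (max (Q z.1.1) 2) (r z.1.1) z.1.2 z.2 i) (by
      intro A hA
      obtain ⟨i, -, rfl⟩ := List.mem_map.1 hA
      refine pslot (hh := fun z : (α × List ℕ) × List ℕ => hh z.1.1) i ?_
        (pfc (pfc hQ)) (pfc (pfc hr))
        (psnd Poly.fst) Poly.snd
      exact Poly.comp hhh (Poly.pair (pfst (pfst Poly.fst)) Poly.snd))
  simpa only [List.map_map, Function.comp_def] using h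

private theorem pfrm2 (d : ℕ) {R M Q : α → ℕ} (hR : Poly R) (hM : Poly M) (hQ : Poly Q) :
    Poly (fun x => frm2 d (R x) (M x) (Q x)) := by
  unfold frm2
  refine pflatMap (prange (Poly.const d)) ?_
  refine pflatMap (prange (Poly.comp hR Poly.fst)) ?_
  refine pflatMap (prange (Poly.comp hM (pfst Poly.fst))) ?_
  refine pflatMap (prange (Poly.comp hQ (pfst (pfst Poly.fst)))) ?_
  refine pmap (prange (Poly.comp hQ (pfst (pfst (pfst Poly.fst))))) ?_
  have hi : Poly (fun z : ((((α × ℕ) × ℕ) × ℕ) × ℕ) × ℕ => z.1.1.1.1.2) := psnd (pfst (pfst (pfst Poly.fst)))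
  have hs : Poly (fun z : ((((α × ℕ) × ℕ) × ℕ) × ℕ) × ℕ => z.1.1.1.2) := psnd (pfst (pfst Poly.fst))
  have hg : Poly (fun z : ((((α × ℕ) × ℕ) × ℕ) × ℕ) × ℕ => z.1.1.2) := psnd (pfst Poly.fst)
  have hγ : Poly (fun z : ((((α × ℕ) × ℕ) × ℕ) × ℕ) × ℕ => z.1.2) := psnd Poly.fst
  have hδ : Poly (fun z : ((((α × ℕ) × ℕ) × ℕ) × ℕ) × ℕ => z.2) := Poly.snd
  have hN : Poly (fun _ : ((((α × ℕ) × ℕ) × ℕ) × ℕ) × ℕ => ([] : List ℕ)) := Poly.const []
  have hN2 : Poly (fun _ : ((((α × ℕ) × ℕ) × ℕ) × ℕ) × ℕ => ([] : List Name)) := Poly.const []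
  exact pcons (pcons (Poly.const 0) (pcons (Poly.const 0) (pcons hi (pcons hs (pcons hg (pcons hγ (pcons hδ hN)))))))
    (pcons (pcons (Poly.const 0) (pcons (Poly.const 2) (pcons hi (pcons hs hN))))
    (pcons (pcons (Poly.const 1) (pcons (Poly.const 1) (pcons hg (pcons hγ (pcons hδ hN))))) hN2))

private theorem pfrm3 (d : ℕ) {R : α → ℕ} (hR : Poly R) : Poly (fun x => frm3 d (R x)) := by
  unfold frm3
  refine pflatMap (prange (Poly.const d)) ?_
  have hi : Poly (fun z : α × ℕ => z.2) := Poly.snd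
  have hR' : Poly (fun z : α × ℕ => R z.1) := Poly.comp hR Poly.fst
  have hN : Poly (fun _ : α × ℕ => ([] : List ℕ)) := Poly.const []
  have hN2 : Poly (fun _ : α × ℕ => ([] : List Name)) := Poly.const []
  have hN3 : Poly (fun _ : α × ℕ => ([] : List (List Name))) := Poly.const []
  refine pappend (pcons (pcons (pcons (Poly.const 1) (pcons (Poly.const 3) (pcons hi (pcons (Poly.const 0) hN)))) hN2)
    (pcons (pcons (pcons (Poly.const 0) (pcons (Poly.const 3) (pcons hi (pcons hR' hN)))) hN2) hN3)) ?_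
  refine pmap (prange hR') ?_
  have ji : Poly (fun z : (α × ℕ) × ℕ => z.1.2) := psnd Poly.fst
  have js : Poly (fun z : (α × ℕ) × ℕ => z.2) := Poly.snd
  have jN : Poly (fun _ : (α × ℕ) × ℕ => ([] : List ℕ)) := Poly.const []
  have jN2 : Poly (fun _ : (α × ℕ) × ℕ => ([] : List Name)) := Poly.const []
  exact pcons (pcons (Poly.const 0) (pcons (Poly.const 3) (pcons ji (pcons js jN))))
    (pcons (pcons (Poly.const 1) (pcons (Poly.const 2) (pcons ji (pcons js jN))))
    (pcons (pcons (Poly.const 1) (pcons (Poly.const 3) (pcons ji (pcons (padd js (Poly.const 1)) jN)))) jN2))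

private theorem pfrm4 {M t Q μ m : α → ℕ} (hM : Poly M) (ht : Poly t) (hQ : Poly Q) (hμ : Poly μ) (hm : Poly m) :
    Poly (fun x => frm4 (M x) (t x) (Q x) (μ x) (m x)) := by
  unfold frm4
  refine pflatMap (prange hM) ?_
  refine pflatMap (prange (Poly.comp hQ Poly.fst)) ?_
  have hg : Poly (fun z : (α × ℕ) × ℕ => z.1.2) := psnd Poly.fst
  have hγ : Poly (fun z : (α × ℕ) × ℕ => z.2) := Poly.snd
  have hN : Poly (fun _ : (α × ℕ) × ℕ => ([] : List ℕ)) := Poly.const []
  have hN2 : Poly (fun _ : (α × ℕ) × ℕ => ([] : List Name)) := Poly.const []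
  have hN3 : Poly (fun _ : (α × ℕ) × ℕ => ([] : List (List Name))) := Poly.const []
  have ht' : Poly (fun z : (α × ℕ) × ℕ => t z.1.1) := Poly.comp ht (pfst Poly.fst)
  have hQ' : Poly (fun z : (α × ℕ) × ℕ => Q z.1.1) := Poly.comp hQ (pfst Poly.fst)
  have hμ' : Poly (fun z : (α × ℕ) × ℕ => μ z.1.1) := Poly.comp hμ (pfst Poly.fst)
  have hm' : Poly (fun z : (α × ℕ) × ℕ => m z.1.1) := Poly.comp hm (pfst Poly.fst)
  refine pappend (pappend (pappend (ptot (pcons (Poly.const 4) (pcons hg (pcons hγ hN))) hμ' hm') ?_) ?_) ?_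
  · refine pmap (prange hQ') ?_
    have ig : Poly (fun z : ((α × ℕ) × ℕ) × ℕ => z.1.1.2) := psnd (pfst Poly.fst)
    have iγ : Poly (fun z : ((α × ℕ) × ℕ) × ℕ => z.1.2) := psnd Poly.fst
    have iδ : Poly (fun z : ((α × ℕ) × ℕ) × ℕ => z.2) := Poly.snd
    have iN : Poly (fun _ : ((α × ℕ) × ℕ) × ℕ => ([] : List ℕ)) := Poly.const []
    have iN2 : Poly (fun _ : ((α × ℕ) × ℕ) × ℕ => ([] : List Name)) := Poly.const []
    exact pcons (pcons (Poly.const 0) (pcons (Poly.const 1) (pcons ig (pcons iγ (pcons iδ iN)))))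
      (pcons (pcons (Poly.const 1) (pcons (Poly.const 4) (pcons ig (pcons iγ (pcons (Poly.const 0) (pcons iδ
        (pcons (Poly.const 1) iN))))))) iN2)
  · refine pmap (prange ht') ?_
    have ig : Poly (fun z : ((α × ℕ) × ℕ) × ℕ => z.1.1.2) := psnd (pfst Poly.fst)
    have iγ : Poly (fun z : ((α × ℕ) × ℕ) × ℕ => z.1.2) := psnd Poly.fst
    have ic : Poly (fun z : ((α × ℕ) × ℕ) × ℕ => z.2) := Poly.snd
    have iμ : Poly (fun z : ((α × ℕ) × ℕ) × ℕ => μ z.1.1.1) := Poly.comp hμ (pfst (pfst Poly.fst))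
    have iN : Poly (fun _ : ((α × ℕ) × ℕ) × ℕ => ([] : List ℕ)) := Poly.const []
    have iN2 : Poly (fun _ : ((α × ℕ) × ℕ) × ℕ => ([] : List Name)) := Poly.const []
    exact pcons (pcons (Poly.const 0) (pcons (Poly.const 4) (pcons ig (pcons iγ (pcons iμ (pcons (Poly.const 0)
      (pcons (padd ic (Poly.const 1)) iN)))))))
      (pcons (pcons (Poly.const 1) (pcons (Poly.const 6) (pcons ig (pcons ic iN)))) iN2)
  · exact pcons (pcons (pcons (Poly.const 0) (pcons (Poly.const 4) (pcons hg (pcons hγ (pcons hμ' (pcons (Poly.const 0)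
      (pcons (padd ht' (Poly.const 1)) hN))))))) hN2) hN3

private theorem pfrm5 {M t k μ m : α → ℕ} (hM : Poly M) (ht : Poly t) (hk : Poly k) (hμ : Poly μ) (hm : Poly m) :
    Poly (fun x => frm5 (M x) (t x) (k x) (μ x) (m x)) := by
  unfold frm5
  refine pappend (pappend (ptot (Poly.const [5]) hμ hm) ?_) ?_
  · refine pflatMap (prange hM) ?_
    refine pmap (prange (Poly.comp ht Poly.fst)) ?_
    have ig : Poly (fun z : (α × ℕ) × ℕ => z.1.2) := psnd Poly.fst
    have ic : Poly (fun z : (α × ℕ) × ℕ => z.2) := Poly.snd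
    have it : Poly (fun z : (α × ℕ) × ℕ => t z.1.1) := Poly.comp ht (pfst Poly.fst)
    have iN : Poly (fun _ : (α × ℕ) × ℕ => ([] : List ℕ)) := Poly.const []
    have iN2 : Poly (fun _ : (α × ℕ) × ℕ => ([] : List Name)) := Poly.const []
    exact pcons (pcons (Poly.const 0) (pcons (Poly.const 6) (pcons ig (pcons ic iN))))
      (pcons (pcons (Poly.const 1) (pcons (Poly.const 5) (pcons (Poly.const 0) (pcons (padd (pmul ig it) ic)
        (pcons (Poly.const 1) iN))))) iN2)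
  · have hN : Poly (fun _ : α => ([] : List ℕ)) := Poly.const []
    have hN2 : Poly (fun _ : α => ([] : List Name)) := Poly.const []
    have hN3 : Poly (fun _ : α => ([] : List (List Name))) := Poly.const []
    exact pcons (pcons (pcons (Poly.const 0) (pcons (Poly.const 5) (pcons hμ (pcons (Poly.const 0)
      (pcons (padd hk (Poly.const 1)) hN))))) hN2) hN3

theorem pfrm (d : ℕ) {hh : α → List ℕ → ℕ → ℕ} {R M t k Q r μ₁ m₁ μ₂ m₂ : α → ℕ} {E : α → List (List ℕ)}
    (hhh : Poly (fun z : α × List ℕ × ℕ => hh z.1 z.2.1 z.2.2)) (hR : Poly R) (hM : Poly M) (ht : Poly t) (hk : Poly k)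
    (hQ : Poly Q) (hr : Poly r) (h1 : Poly μ₁) (h2 : Poly m₁) (h3 : Poly μ₂) (h4 : Poly m₂) (hE : Poly E) :
    Poly (fun x => frm d (hh x) (R x) (M x) (t x) (k x) (max (Q x) 2) (r x) (μ₁ x) (m₁ x) (μ₂ x) (m₂ x) (E x)) := by
  unfold frm
  have hQ2 : Poly (fun x => max (Q x) 2) := fpo_max hQ (Poly.const 2)
  exact pappend (pappend (pappend (pappend (pfrm1 d hhh hR hQ hr hE) (pfrm2 d hR hM hQ2)) (pfrm3 d hR))
    (pfrm4 hM ht hQ2 h1 h2)) (pfrm5 hM ht hk h3 h4)

end KRN
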