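import Pool.Agent.KRN.FA2
import Pool.Agent.KRN.BOX

/-!
# KRN NUJ: the number of vertices with one seed

As in NUD with one seed per slot: `NB d 1 … ≤ C * (k + 1) ^ (s / (s - 1)) * (1 + log (k + 1)) ^ C`.
-/

set_option autoImplicit false

namespace KRN

private theorem NUJ_root (x y a b : ℕ) (hb : b ≠ 0) (h : x ^ b ≤ y ^ a) : (x : ℝ) ≤ (y : ℝ) ^ ((a : ℝ) / b) := by
  have h1 : ((x : ℝ) ^ b) ≤ (y : ℝ) ^ a := by exact_mod_cast h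
  have h2 : ((x : ℝ) ^ b) ^ ((b : ℝ)⁻¹) ≤ ((y : ℝ) ^ a) ^ ((b : ℝ)⁻¹) :=
    Real.rpow_le_rpow (by positivity) h1 (by positivity)
  rw [Real.pow_rpow_inv_natCast (Nat.cast_nonneg x) hb, ← Real.rpow_natCast, ← Real.rpow_mul (Nat.cast_nonneg y)] at h2
  rw [div_eq_mul_inv]
  exact h2

private theorem NUJ_log (x : ℕ) : (Nat.log 2 x : ℝ) ≤ 2 * Real.log x := by
  rcases Nat.eq_zero_or_pos x with rfl | hx
  · simp
  have h1 : 2 ^ Nat.log 2 x ≤ x := Nat.pow_log_le_self 2 (by omega)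
  have h2 : ((2 : ℝ) ^ Nat.log 2 x) ≤ (x : ℝ) := by exact_mod_cast h1
  have h3 : Real.log ((2 : ℝ) ^ Nat.log 2 x) ≤ Real.log x := Real.log_le_log (by positivity) h2
  rw [Real.log_pow] at h3
  have h4 : (0.6931471803 : ℝ) < Real.log 2 := Real.log_two_gt_d9
  have h5 : (0 : ℝ) ≤ (Nat.log 2 x : ℝ) := Nat.cast_nonneg _
  nlinarith

private theorem NUJ_le2 (x : ℕ) (hx : 1 ≤ x) : 2 ^ le2 x ≤ 2 * x := by
  unfold le2
  have h1 : 2 ^ Nat.log 2 x ≤ x := Nat.pow_log_le_self 2 (by omega)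
  rw [pow_succ]
  omega

/-- The bound for `QQ`. -/
private theorem NUJ_Q (d s k n : ℕ) (hd : 1 ≤ d) (hs : 2 ≤ s) (hn : n ≤ d * (k + 1) ^ d) :
    (QQ (s - 1) n : ℝ) ≤ (2 * (s : ℝ) ^ 2 * (2 * Real.log d + 2 * d + 1) + 2) * (1 + Real.log ((k : ℝ) + 1)) := by
  have h1 := (QQ_spec (s - 1) n).2.2
  have h2 : s - 1 + 1 = s := by omega
  rw [h2] at h1
  have h3 : (QQ (s - 1) n : ℝ) ≤ 2 * ((s : ℝ) ^ 2 * rr n) + 2 := by exact_mod_cast h1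
  have hk : (0 : ℝ) ≤ Real.log ((k : ℝ) + 1) := Real.log_nonneg (by have : (0 : ℝ) ≤ k := Nat.cast_nonneg k; linarith)
  have hd0 : (0 : ℝ) ≤ Real.log d := Real.log_natCast_nonneg d
  have h4 : Real.log (n : ℝ) ≤ Real.log d + d * Real.log ((k : ℝ) + 1) := by
    rcases Nat.eq_zero_or_pos n with rfl | hn0
    · simp
      positivity
    have h5 : (n : ℝ) ≤ (d : ℝ) * ((k : ℝ) + 1) ^ d := by exact_mod_cast hn
    have h6 : Real.log (n : ℝ) ≤ Real.log ((d : ℝ) * ((k : ℝ) + 1) ^ d) :=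
      Real.log_le_log (by exact_mod_cast hn0) h5
    have hd1 : (0 : ℝ) < d := by exact_mod_cast hd
    rw [Real.log_mul hd1.ne' (by positivity), Real.log_pow] at h6
    exact h6
  have h7 : (rr n : ℝ) ≤ 2 * Real.log n + 1 := by
    unfold rr
    push_cast
    linarith [NUJ_log n]
  have h8 : (rr n : ℝ) ≤ (2 * Real.log d + 2 * d + 1) * (1 + Real.log ((k : ℝ) + 1)) := by
    have hd' : (0 : ℝ) ≤ d := Nat.cast_nonneg d
    nlinarith [mul_nonneg hd0 hk, mul_nonneg hd' hk]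
  have hs2 : (0 : ℝ) ≤ (s : ℝ) ^ 2 := by positivity
  nlinarith [mul_le_mul_of_nonneg_left h8 hs2]

private theorem NUJ_M (s k : ℕ) (hs : 2 ≤ s) : (MD s k : ℝ) ≤ 5 * ((k : ℝ) + 1) ^ ((s : ℝ) / (s - 1)) := by
  obtain ⟨h1, -, -, h4⟩ := MD_spec s k hs
  have h5 := NUJ_root (MD s k - 1) (2 * (k + 1)) s (s - 1) (by omega) h4.le
  have h6 : ((s - 1 : ℕ) : ℝ) = (s : ℝ) - 1 := by
    rw [Nat.cast_sub (by omega)]
    simp
  have h7 : ((MD s k - 1 : ℕ) : ℝ) = (MD s k : ℝ) - 1 := by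
    rw [Nat.cast_sub h1]
    simp
  rw [h6, h7] at h5
  push_cast at h5
  have hs1 : (1 : ℝ) ≤ (s : ℝ) - 1 := by
    have : (2 : ℝ) ≤ s := by exact_mod_cast hs
    linarith
  have hk1 : (1 : ℝ) ≤ (k : ℝ) + 1 := by
    have : (0 : ℝ) ≤ k := Nat.cast_nonneg k
    linarith
  rw [Real.mul_rpow (by norm_num) (by positivity)] at h5
  have h8 : (s : ℝ) / (s - 1) ≤ 2 := by
    rw [div_le_iff₀ (by linarith)]
    linarith
  have h9 : (2 : ℝ) ^ ((s : ℝ) / (s - 1)) ≤ (2 : ℝ) ^ (2 : ℝ) :=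
    Real.rpow_le_rpow_of_exponent_le (by norm_num) h8
  have h10 : (2 : ℝ) ^ (2 : ℝ) = 4 := by
    rw [show (2 : ℝ) = ((2 : ℕ) : ℝ) from by norm_num, Real.rpow_natCast]
    norm_num
  rw [h10] at h9
  have h11 : (1 : ℝ) ≤ ((k : ℝ) + 1) ^ ((s : ℝ) / (s - 1)) :=
    Real.one_le_rpow hk1 (by positivity)
  nlinarith [mul_le_mul_of_nonneg_right h9 (show (0 : ℝ) ≤ ((k : ℝ) + 1) ^ ((s : ℝ) / (s - 1)) by linarith)]

private theorem NUJ_mu (s k : ℕ) (hs : 2 ≤ s) :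
    (le2 (MD s k * (s - 1)) : ℝ) ≤ (2 * Real.log (4 * (s : ℝ)) + 5) * (1 + Real.log ((k : ℝ) + 1)) := by
  obtain ⟨h1, -, h3, -⟩ := MD_spec s k hs
  have hk : (0 : ℝ) ≤ Real.log ((k : ℝ) + 1) := Real.log_nonneg (by have : (0 : ℝ) ≤ k := Nat.cast_nonneg k; linarith)
  have h4 : MD s k * (s - 1) ≤ (2 * (k + 1)) ^ 2 * s := Nat.mul_le_mul h3 (by omega)
  have h5 : (1 : ℕ) ≤ MD s k * (s - 1) := Nat.mul_pos h1 (by omega)
  have hs0 : (0 : ℝ) < s := by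
    have : (2 : ℝ) ≤ s := by exact_mod_cast hs
    linarith
  have h6 : ((MD s k * (s - 1) : ℕ) : ℝ) ≤ (4 * (s : ℝ)) * ((k : ℝ) + 1) ^ 2 := by
    have : ((MD s k * (s - 1) : ℕ) : ℝ) ≤ (2 * ((k : ℝ) + 1)) ^ 2 * s := by exact_mod_cast h4
    nlinarith
  have h7 : Real.log ((MD s k * (s - 1) : ℕ) : ℝ) ≤ Real.log ((4 * (s : ℝ)) * ((k : ℝ) + 1) ^ 2) :=
    Real.log_le_log (by exact_mod_cast h5) h6
  rw [Real.log_mul (by positivity) (by positivity), Real.log_pow] at h7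
  have h8 := NUJ_log (MD s k * (s - 1))
  unfold le2
  push_cast at h7 h8 ⊢
  have h9 : (0 : ℝ) ≤ Real.log (4 * (s : ℝ)) := Real.log_nonneg (by
    have : (2 : ℝ) ≤ s := by exact_mod_cast hs
    linarith)
  nlinarith [mul_nonneg h9 hk]

private theorem NUJ_alg (d s M R Q m μ ℓ A B cR cQ c₂ : ℝ) (hd : 0 ≤ d) (hs : 0 ≤ s) (hM0 : 0 ≤ M) (hR0 : 0 ≤ R)
    (hQ0 : 0 ≤ Q) (hμ0 : 0 ≤ μ) (hA : 1 ≤ A) (hB : 1 ≤ B) (hℓ : 1 ≤ ℓ) (hcR : 0 ≤ cR) (hcQ : 0 ≤ cQ)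
    (hc₂ : 0 ≤ c₂) (hM : M ≤ 5 * A) (hR : R ≤ cR * B) (hQ : Q ≤ cQ * ℓ) (hm : m ≤ 10 * (Q * Q)) (hμ : μ ≤ c₂ * ℓ) :
    d * R * M * Q * Q + M * Q * Q + d * R + d * (R + 1) + M * Q * (m + s + 2) + ((μ + 3) * (2 * (M * s)) + M * s + 2) +
      M * s ≤ (d * cR * 5 * (cQ * cQ) + 5 * (cQ * cQ) + 2 * (d * cR) + d + 5 * cQ * (10 * (cQ * cQ) + s + 2) +
        ((c₂ + 3) * (2 * (5 * s)) + 5 * s + 2) + 5 * s) * (A * B * ℓ ^ 3) := by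
  have hℓ0 : 0 ≤ ℓ := by linarith
  have hA0 : 0 ≤ A := by linarith
  have hB0 : 0 ≤ B := by linarith
  have hl2 : 1 ≤ ℓ ^ 2 := one_le_pow₀ hℓ
  have hl3 : 1 ≤ ℓ ^ 3 := one_le_pow₀ hℓ
  have hAB : A ≤ A * B := le_mul_of_one_le_right hA0 hB
  have hBA : B ≤ A * B := le_mul_of_one_le_left hB0 hA
  have hAB1 : 1 ≤ A * B := hA.trans hAB
  have hX1 : 1 ≤ A * B * ℓ ^ 3 := one_le_mul_of_one_le_of_one_le hAB1 hl3
  have hXAB : A * B ≤ A * B * ℓ ^ 3 := le_mul_of_one_le_right (by linarith) hl3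
  have hl23 : ℓ * ℓ ≤ ℓ ^ 3 := by nlinarith [mul_nonneg hℓ0 hℓ0]
  have hl13 : ℓ ≤ ℓ ^ 3 := by nlinarith [mul_nonneg hℓ0 hℓ0]
  have hXAB2 : A * B * (ℓ * ℓ) ≤ A * B * ℓ ^ 3 := mul_le_mul_of_nonneg_left hl23 (by linarith)
  have hXAB1 : A * B * ℓ ≤ A * B * ℓ ^ 3 := mul_le_mul_of_nonneg_left hl13 (by linarith)
  have hQQ : Q * Q ≤ (cQ * cQ) * (ℓ * ℓ) := by
    calc Q * Q ≤ (cQ * ℓ) * (cQ * ℓ) := mul_le_mul hQ hQ hQ0 (by positivity)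
      _ = _ := by ring
  have hMQQ : M * Q * Q ≤ (5 * (cQ * cQ)) * (A * (ℓ * ℓ)) := by
    calc M * Q * Q = M * (Q * Q) := by ring
      _ ≤ (5 * A) * ((cQ * cQ) * (ℓ * ℓ)) := mul_le_mul hM hQQ (by positivity) (by positivity)
      _ = _ := by ring
  have hMQQ' : M * Q * Q ≤ (5 * (cQ * cQ)) * (A * B * ℓ ^ 3) := by
    refine hMQQ.trans (mul_le_mul_of_nonneg_left ?_ (by positivity))
    exact (mul_le_mul_of_nonneg_right hAB (by positivity)).trans hXAB2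
  have h1 : d * R * M * Q * Q ≤ (d * cR * 5 * (cQ * cQ)) * (A * B * ℓ ^ 3) := by
    calc d * R * M * Q * Q = (d * R) * (M * Q * Q) := by ring
      _ ≤ (d * (cR * B)) * ((5 * (cQ * cQ)) * (A * (ℓ * ℓ))) :=
        mul_le_mul (mul_le_mul_of_nonneg_left hR hd) hMQQ (by positivity) (by positivity)
      _ = (d * cR * 5 * (cQ * cQ)) * (A * B * (ℓ * ℓ)) := by ring
      _ ≤ _ := mul_le_mul_of_nonneg_left hXAB2 (by positivity)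
  have h2 : d * R ≤ (d * cR) * (A * B * ℓ ^ 3) := by
    calc d * R ≤ d * (cR * B) := mul_le_mul_of_nonneg_left hR hd
      _ = (d * cR) * B := by ring
      _ ≤ _ := mul_le_mul_of_nonneg_left (hBA.trans hXAB) (by positivity)
  have h3 : d * (R + 1) ≤ (d * cR) * (A * B * ℓ ^ 3) + d * (A * B * ℓ ^ 3) := by
    calc d * (R + 1) = d * R + d * 1 := by ring
      _ ≤ _ := add_le_add h2 (mul_le_mul_of_nonneg_left hX1 hd)
  have hm2 : m + s + 2 ≤ (10 * (cQ * cQ) + s + 2) * (ℓ * ℓ) := by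
    have : 1 ≤ ℓ * ℓ := by nlinarith
    nlinarith
  have hMQ : M * Q ≤ (5 * cQ) * (A * ℓ) := by
    calc M * Q ≤ (5 * A) * (cQ * ℓ) := mul_le_mul hM hQ hQ0 (by positivity)
      _ = _ := by ring
  have h4 : M * Q * (m + s + 2) ≤ (5 * cQ * (10 * (cQ * cQ) + s + 2)) * (A * B * ℓ ^ 3) := by
    calc M * Q * (m + s + 2) ≤ M * Q * ((10 * (cQ * cQ) + s + 2) * (ℓ * ℓ)) :=
          mul_le_mul_of_nonneg_left hm2 (by positivity)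
      _ ≤ ((5 * cQ) * (A * ℓ)) * ((10 * (cQ * cQ) + s + 2) * (ℓ * ℓ)) :=
          mul_le_mul_of_nonneg_right hMQ (by positivity)
      _ = (5 * cQ * (10 * (cQ * cQ) + s + 2)) * (A * ℓ ^ 3) := by ring
      _ ≤ _ := mul_le_mul_of_nonneg_left (mul_le_mul_of_nonneg_right hAB (by positivity)) (by positivity)
  have hMs : M * s ≤ (5 * s) * (A * B * ℓ ^ 3) := by
    calc M * s ≤ (5 * A) * s := mul_le_mul_of_nonneg_right hM hs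
      _ = (5 * s) * A := by ring
      _ ≤ _ := mul_le_mul_of_nonneg_left (hAB.trans hXAB) (by positivity)
  have hμ3 : μ + 3 ≤ (c₂ + 3) * ℓ := by nlinarith
  have h5 : (μ + 3) * (2 * (M * s)) ≤ ((c₂ + 3) * (2 * (5 * s))) * (A * B * ℓ ^ 3) := by
    have hMs' : M * s ≤ (5 * s) * A := by
      calc M * s ≤ (5 * A) * s := mul_le_mul_of_nonneg_right hM hs
        _ = (5 * s) * A := by ring
    calc (μ + 3) * (2 * (M * s)) ≤ ((c₂ + 3) * ℓ) * (2 * ((5 * s) * A)) :=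
          mul_le_mul hμ3 (by linarith) (by positivity) (by positivity)
      _ = ((c₂ + 3) * (2 * (5 * s))) * (A * ℓ) := by ring
      _ ≤ ((c₂ + 3) * (2 * (5 * s))) * (A * B * ℓ) :=
          mul_le_mul_of_nonneg_left (mul_le_mul_of_nonneg_right hAB hℓ0) (by positivity)
      _ ≤ _ := mul_le_mul_of_nonneg_left hXAB1 (by positivity)
  linarith

private theorem NUJ_fin (x T A B ℓ : ℝ) (C₀ : ℕ) (hA : 0 ≤ A) (hB : 0 ≤ B) (hℓ : 1 ≤ ℓ) (hC : 2 * T ≤ (C₀ : ℝ))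
    (hx : x ≤ (2 * T) * (A * B * ℓ ^ 3)) :
    x ≤ ((max C₀ 3 : ℕ) : ℝ) * (A * B) * ℓ ^ (max C₀ 3) := by
  have hX : 0 ≤ A * B * ℓ ^ 3 := by positivity
  have hpow : ℓ ^ 3 ≤ ℓ ^ (max C₀ 3) := pow_le_pow_right₀ hℓ (le_max_right _ _)
  have hC0 : ((C₀ : ℕ) : ℝ) ≤ ((max C₀ 3 : ℕ) : ℝ) := Nat.cast_le.2 (le_max_left C₀ 3)
  have hC1 : (2 * T : ℝ) ≤ ((max C₀ 3 : ℕ) : ℝ) := hC.trans hC0
  calc x ≤ (2 * T) * (A * B * ℓ ^ 3) := hx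
    _ ≤ ((max C₀ 3 : ℕ) : ℝ) * (A * B * ℓ ^ 3) := mul_le_mul_of_nonneg_right hC1 hX
    _ ≤ ((max C₀ 3 : ℕ) : ℝ) * (A * B * ℓ ^ (max C₀ 3)) :=
        mul_le_mul_of_nonneg_left (mul_le_mul_of_nonneg_left hpow (by positivity)) (Nat.cast_nonneg _)
    _ = _ := by ring

theorem nuj (d s : ℕ) (hd : 1 ≤ d) (hs : 2 ≤ s) : ∃ C : ℕ, ∀ k n : ℕ, n ≤ d * (k + 1) ^ d →
    (2 * NB d 1 (MD s k) (s - 1) (QQ (s - 1) n) (le2 (QQ (s - 1) n)) (le2 (MD s k * (s - 1))) : ℝ) ≤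
      C * ((k : ℝ) + 1) ^ ((s : ℝ) / (s - 1)) * (1 + Real.log ((k : ℝ) + 1)) ^ C := by
  obtain ⟨cR, hcR⟩ : ∃ cR : ℝ, cR = 1 := ⟨1, rfl⟩
  set cQ : ℝ := 2 * (s : ℝ) ^ 2 * (2 * Real.log d + 2 * d + 1) + 2 with hcQ
  set c₂ : ℝ := 2 * Real.log (4 * (s : ℝ)) + 5 with hc₂
  set T : ℝ := (d : ℝ) * cR * 5 * (cQ * cQ) + 5 * (cQ * cQ) + 2 * (d * cR) + d + 5 * cQ * (10 * (cQ * cQ) + s + 2) +
        ((c₂ + 3) * (2 * (5 * s)) + 5 * s + 2) + 5 * s with hT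
  obtain ⟨C₀, hC₀⟩ := exists_nat_ge (2 * T)
  have hs2 : (2 : ℝ) ≤ s := by exact_mod_cast hs
  have hd1 : (1 : ℝ) ≤ d := by exact_mod_cast hd
  have hcQ0 : 0 ≤ cQ := by
    have : (0 : ℝ) ≤ Real.log d := Real.log_natCast_nonneg d
    positivity
  have hcR0 : 0 ≤ cR := by rw [hcR]; norm_num
  have hc₂0 : 0 ≤ c₂ := by
    have : (0 : ℝ) ≤ Real.log (4 * (s : ℝ)) := Real.log_nonneg (by linarith)
    positivity
  refine ⟨max C₀ 3, fun k n hn => ?_⟩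
  have hk1 : (1 : ℝ) ≤ (k : ℝ) + 1 := by
    have : (0 : ℝ) ≤ k := Nat.cast_nonneg k
    linarith
  have hk : (0 : ℝ) ≤ Real.log ((k : ℝ) + 1) := Real.log_nonneg hk1
  set ℓ : ℝ := 1 + Real.log ((k : ℝ) + 1) with hℓ
  have hℓ1 : 1 ≤ ℓ := by linarith
  set A : ℝ := ((k : ℝ) + 1) ^ ((s : ℝ) / (s - 1)) with hA
  obtain ⟨B, hB⟩ : ∃ B : ℝ, B = 1 := ⟨1, rfl⟩
  have hA1 : 1 ≤ A := Real.one_le_rpow hk1 (div_nonneg (by linarith) (by linarith))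
  have hB1 : 1 ≤ B := by rw [hB]
  have hM := NUJ_M s k hs
  obtain ⟨R, hRdef⟩ : ∃ R : ℕ, R = 1 := ⟨1, rfl⟩
  have hR : (R : ℝ) ≤ cR * B := by rw [hRdef, hcR, hB]; norm_num
  have hAB : A = A * B := by rw [hB, mul_one]
  suffices hsuf : 2 * ((NB d R (MD s k) (s - 1) (QQ (s - 1) n) (le2 (QQ (s - 1) n)) (le2 (MD s k * (s - 1))) : ℕ) : ℝ) ≤
      ((max C₀ 3 : ℕ) : ℝ) * (A * B) * ℓ ^ (max C₀ 3) by
    rw [hRdef, ← hAB] at hsuf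
    exact hsuf
  have hQ := NUJ_Q d s k n hd hs hn
  have hμ := NUJ_mu s k hs
  set Q : ℕ := QQ (s - 1) n with hQdef
  set M : ℕ := MD s k with hMdef
  have hQ1 : 1 ≤ Q := (QQ_spec (s - 1) n).1.one_lt.le
  have hM1 : 1 ≤ M := (MD_spec s k hs).1
  have hm : (le2 Q + 3) * 2 ^ le2 Q ≤ 10 * (Q * Q) := by
    have h1 := NUJ_le2 Q hQ1
    have h2 : le2 Q ≤ Q + 1 := by
      unfold le2
      have := Nat.log_le_self 2 Q
      omega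
    calc (le2 Q + 3) * 2 ^ le2 Q ≤ (Q + 1 + 3) * (2 * Q) := Nat.mul_le_mul (by omega) h1
      _ ≤ 10 * (Q * Q) := by nlinarith
  have hm' : (((le2 Q + 3) * 2 ^ le2 Q : ℕ) : ℝ) ≤ 10 * ((Q : ℝ) * Q) := by exact_mod_cast hm
  have h2 : 2 ^ le2 (M * (s - 1)) ≤ 2 * (M * s) := by
    refine (NUJ_le2 _ (Nat.mul_pos hM1 (by omega))).trans ?_
    exact Nat.mul_le_mul_left 2 (Nat.mul_le_mul_left M (by omega))
  have hNB : (NB d R M (s - 1) Q (le2 Q) (le2 (M * (s - 1))) : ℝ) ≤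
      (d : ℝ) * R * M * Q * Q + (M : ℝ) * Q * Q + (d : ℝ) * R + (d : ℝ) * (R + 1) +
        (M : ℝ) * Q * ((((le2 Q + 3) * 2 ^ le2 Q : ℕ) : ℝ) + s + 2) +
        (((le2 (M * (s - 1)) : ℝ) + 3) * (2 * ((M : ℝ) * s)) + (M : ℝ) * s + 2) + (M : ℝ) * s := by
    have : NB d R M (s - 1) Q (le2 Q) (le2 (M * (s - 1))) ≤
        d * R * M * Q * Q + M * Q * Q + d * R + d * (R + 1) + M * Q * ((le2 Q + 3) * 2 ^ le2 Q + s + 2) +
          ((le2 (M * (s - 1)) + 3) * (2 * (M * s)) + M * s + 2) + M * s := by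
      unfold NB
      have e1 : M * Q * ((le2 Q + 3) * 2 ^ le2 Q + (s - 1) + 2) ≤ M * Q * ((le2 Q + 3) * 2 ^ le2 Q + s + 2) :=
        Nat.mul_le_mul_left _ (by omega)
      have e2 : M * (s - 1) ≤ M * s := Nat.mul_le_mul_left _ (by omega)
      have e3 : (le2 (M * (s - 1)) + 3) * 2 ^ le2 (M * (s - 1)) ≤ (le2 (M * (s - 1)) + 3) * (2 * (M * s)) :=
        Nat.mul_le_mul_left _ h2
      omega
    exact_mod_cast this
  rw [← hA] at hM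
  rw [← hcQ, ← hℓ] at hQ
  rw [← hc₂, ← hℓ] at hμ
  clear_value T cQ c₂ ℓ A Q M
  have hfin := NUJ_alg (d : ℝ) (s : ℝ) (M : ℝ) (R : ℝ) (Q : ℝ) ((((le2 Q + 3) * 2 ^ le2 Q : ℕ) : ℝ))
    (le2 (M * (s - 1)) : ℝ) ℓ A B cR cQ c₂ (by linarith) (by linarith) (Nat.cast_nonneg _) (Nat.cast_nonneg _)
    (Nat.cast_nonneg _) (Nat.cast_nonneg _) hA1 hB1 hℓ1 hcR0 hcQ0 hc₂0 hM hR hQ hm' hμ
  rw [← hT] at hfin
  have hX : 0 ≤ A * B * ℓ ^ 3 := by positivity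
  have hT2 : 2 * (NB d R M (s - 1) Q (le2 Q) (le2 (M * (s - 1))) : ℝ) ≤ (2 * T) * (A * B * ℓ ^ 3) := by linarith
  exact NUJ_fin _ T A B ℓ C₀ (by linarith) (by linarith) hℓ1 hC₀ hT2

end KRN
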