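import Pool.Agent.KRN.PRA

/-!
# KRN PRB: the preliminary kernel is correct

Start: `E₀ = allc.filter (∃ e ∈ I.2.2, canon V e = f)`, duplicate free, nonempty edges, a set of size `d` is contained in at most one
edge (`(k + 1) ^ 0 = 1`), and hitting `E₀` is the same as hitting the given edges.  Induction over the steps with `step_hit`,
`step_cnt`, `step_mem`.  At the end every single vertex is in at most `(k + 1) ^ (d - 1)` edges, so a hitting set with at most
`k` elements forces fewer than `(k + 1) ^ d` edges.  `posN W` is injective on `W` with values `< W.length`.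
In the first case the output is a no-instance: `k + 1` disjoint edges.
-/

set_option autoImplicit false

namespace KRN

private theorem prb_fold1 (v : Name) : ∀ (W : List Name) (a : ℕ),
    W.foldl (fun (s : ℕ × ℕ) w => if s.2 = 1 then s else if w = v then (s.1, 1) else (s.1 + 1, 0)) (a, 1) = (a, 1)
  | [], _ => rfl
  | w :: W, a => by
    rw [List.foldl_cons]
    simp only [if_true]
    exact prb_fold1 v W a

private theorem prb_fold0 (v : Name) : ∀ (W : List Name) (a : ℕ),
    (W.foldl (fun (s : ℕ × ℕ) w => if s.2 = 1 then s else if w = v then (s.1, 1) else (s.1 + 1, 0)) (a, 0)).1 =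
      a + W.idxOf v
  | [], _ => rfl
  | w :: W, a => by
    rw [List.foldl_cons]
    by_cases h : w = v
    · subst h
      simp only [Nat.zero_ne_one, if_false, if_true]
      rw [prb_fold1, List.idxOf_cons_self]
      rfl
    · simp only [Nat.zero_ne_one, if_false, if_neg h]
      rw [prb_fold0 v W (a + 1), List.idxOf_cons_ne _ h]
      omega

private theorem prb_posN (W : List Name) (v : Name) : posN W v = W.idxOf v := by
  unfold posN
  rw [prb_fold0, Nat.zero_add]

private theorem prb_allc {V : List Name} (hV : V.Nodup) {d : ℕ} {f : List Name} (hf : f ∈ allc V d) :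
    f.Nodup ∧ f.length ≤ d ∧ canon V f = f ∧ ∀ v ∈ f, v ∈ V := by
  obtain ⟨h1, h2⟩ := (mem_allc hV).1 hf
  refine ⟨?_, h1, h2, ?_⟩
  · rw [← h2]
    exact hV.filter _
  · intro v hv
    rw [← h2] at hv
    exact (mem_canon.1 hv).1

private theorem prb_inv {V : List Name} (hV : V.Nodup) (d k : ℕ) (hd : 1 ≤ d) (E₀ : List (List Name)) (h0n : E₀.Nodup)
    (h0A : ∀ e ∈ E₀, e ∈ allc V d ∧ e ≠ []) (h0c : ∀ g ∈ allc V d, g.length = d → cnt E₀ g ≤ 1) :
    ∀ j, j ≤ d - 1 → (runP d k (allc V d) E₀ j).Nodup ∧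
      (∀ e ∈ runP d k (allc V d) E₀ j, e ∈ allc V d ∧ e ≠ []) ∧
      (∀ g ∈ allc V d, g.length = d - j → cnt (runP d k (allc V d) E₀ j) g ≤ (k + 1) ^ j) ∧
      ∀ S : Finset Name, S.card ≤ k →
        ((∀ e ∈ E₀, ∃ v ∈ e, v ∈ S) ↔ ∀ e ∈ runP d k (allc V d) E₀ j, ∃ v ∈ e, v ∈ S) := by
  intro j
  induction j with
  | zero =>
    intro _
    refine ⟨h0n, h0A, ?_, fun S _ => Iff.rfl⟩
    intro g hg hl
    have := h0c g hg (by omega)
    rw [Nat.pow_zero]
    exact this
  | succ j ih =>
    intro hj
    obtain ⟨i1, i2, i3, i4⟩ := ih (by omega)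
    have hi0 : 1 ≤ d - 1 - j := by omega
    have hi : d - 1 - j < d := by omega
    have e1 : runP d k (allc V d) E₀ (j + 1) = stepP d k (d - 1 - j) (allc V d) (runP d k (allc V d) E₀ j) := rfl
    have hm := step_mem hV d k (d - 1 - j) hi hi0 (runP d k (allc V d) E₀ j) (fun e he => (i2 e he).1)
      (fun e he => (i2 e he).2)
    have hc := step_cnt hV d k (d - 1 - j) hi (runP d k (allc V d) E₀ j) (fun e he => (i2 e he).1) i1
    rw [e1]
    refine ⟨hm.1, hm.2, ?_, ?_⟩
    · intro g hg hl
      have h1 := hc g hg (by omega)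
      have e2 : d - (d - 1 - j) = j + 1 := by omega
      rwa [e2] at h1
    · intro S hS
      rw [i4 S hS]
      apply step_hit hV d k (d - 1 - j) hi (runP d k (allc V d) E₀ j) (fun e he => (i2 e he).1) i1 ?_ S hS
        (fun e he => (i2 e he).2) hi0
      intro g hg hl
      have h1 := i3 g hg (by omega)
      have e2 : d - (d - 1 - j + 1) = j := by omega
      rwa [e2]

private theorem prb_canon_single {V : List Name} (hV : V.Nodup) {s : Name} (hs : s ∈ V) : canon V [s] = [s] := by
  have h1 : canon V [s] = V.filter (fun v => v == s) := by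
    unfold canon
    apply List.filter_congr
    intro x _
    rw [Bool.eq_iff_iff, decide_eq_true_eq, List.mem_singleton, beq_iff_eq]
  rw [h1, List.filter_beq, List.count_eq_one_of_mem hV hs]
  rfl

private theorem prb_card {V : List Name} (hV : V.Nodup) (d k : ℕ) (hd : 1 ≤ d) (E : List (List Name)) (hn : E.Nodup)
    (hA : ∀ e ∈ E, e ∈ allc V d) (hc : ∀ g ∈ allc V d, g.length = 1 → cnt E g ≤ (k + 1) ^ (d - 1))
    (S : Finset Name) (hS : S.card ≤ k) (hh : ∀ e ∈ E, ∃ v ∈ e, v ∈ S) : E.length < (k + 1) ^ d := by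
  have h1 : ∀ s, cnt E [s] ≤ (k + 1) ^ (d - 1) := by
    intro s
    by_cases hs : s ∈ V
    · exact hc [s] ((mem_allc hV).2 ⟨by simpa using hd, prb_canon_single hV hs⟩) rfl
    · have h0 : E.filter (fun e => decide (∀ v ∈ [s], v ∈ e)) = [] := by
        rw [List.filter_eq_nil_iff]
        intro e he hcon
        rw [decide_eq_true_eq] at hcon
        exact hs ((prb_allc hV (hA e he)).2.2.2 s (hcon s (by simp)))
      unfold cnt
      rw [h0]
      exact Nat.zero_le _
  have h2 : E.toFinset ⊆ S.biUnion fun s => (E.filter fun e => decide (∀ v ∈ [s], v ∈ e)).toFinset := by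
    intro e he
    rw [List.mem_toFinset] at he
    obtain ⟨v, hv, hvS⟩ := hh e he
    rw [Finset.mem_biUnion]
    refine ⟨v, hvS, ?_⟩
    rw [List.mem_toFinset, List.mem_filter]
    refine ⟨he, ?_⟩
    rw [decide_eq_true_eq]
    intro w hw
    rw [List.mem_singleton] at hw
    rw [hw]; exact hv
  have h3 : E.length ≤ S.card * (k + 1) ^ (d - 1) := by
    calc E.length = E.toFinset.card := (List.toFinset_card_of_nodup hn).symm
      _ ≤ (S.biUnion fun s => (E.filter fun e => decide (∀ v ∈ [s], v ∈ e)).toFinset).card := Finset.card_le_card h2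
      _ ≤ ∑ s ∈ S, (E.filter fun e => decide (∀ v ∈ [s], v ∈ e)).toFinset.card := Finset.card_biUnion_le
      _ ≤ ∑ _s ∈ S, (k + 1) ^ (d - 1) := by
          apply Finset.sum_le_sum
          intro s _
          exact (List.toFinset_card_le _).trans (h1 s)
      _ = S.card * (k + 1) ^ (d - 1) := by rw [Finset.sum_const, smul_eq_mul]
  obtain ⟨c, rfl⟩ : ∃ c, d = c + 1 := ⟨d - 1, by omega⟩
  have h4 : S.card * (k + 1) ^ c ≤ k * (k + 1) ^ c := Nat.mul_le_mul_right _ hS
  have h5 : (k + 1) ^ (c + 1) = k * (k + 1) ^ c + (k + 1) ^ c := by ring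
  have h6 : 0 < (k + 1) ^ c := Nat.pow_pos (Nat.succ_pos k)
  rw [Nat.add_sub_cancel] at h3
  omega

/-- The first list of edges. -/
private def prbE0 (d : ℕ) (I : Inst) : List (List Name) :=
  (allc I.1.dedup d).filter fun f => decide (∃ e ∈ I.2.2, canon I.1.dedup e = f)

private theorem prb_start (d : ℕ) (I : Inst) (hI : WF d I) :
    (prbE0 d I).Nodup ∧ (∀ e ∈ prbE0 d I, e ∈ allc I.1.dedup d ∧ e ≠ []) ∧
      (∀ g ∈ allc I.1.dedup d, g.length = d → cnt (prbE0 d I) g ≤ 1) ∧
      ∀ S : Finset Name, (∀ e ∈ I.2.2, ∃ v ∈ e, v ∈ S) ↔ ∀ e ∈ prbE0 d I, ∃ v ∈ e, v ∈ S := by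
  have hV : I.1.dedup.Nodup := List.nodup_dedup _
  have hn : (prbE0 d I).Nodup := by
    unfold prbE0 allc
    exact (List.nodup_dedup _).filter _
  have hmem : ∀ f, f ∈ prbE0 d I ↔ f ∈ allc I.1.dedup d ∧ ∃ e ∈ I.2.2, canon I.1.dedup e = f := by
    intro f
    unfold prbE0
    rw [List.mem_filter, decide_eq_true_eq]
  refine ⟨hn, ?_, ?_, ?_⟩
  · intro f hf
    obtain ⟨h1, e, he, rfl⟩ := (hmem f).1 hf
    refine ⟨h1, ?_⟩
    obtain ⟨h2, h3, h4⟩ := hI e he
    obtain ⟨v, hv⟩ := List.exists_mem_of_ne_nil e h2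
    have h5 : v ∈ canon I.1.dedup e := mem_canon.2 ⟨List.mem_dedup.2 (h4 v hv), hv⟩
    exact List.ne_nil_of_mem h5
  · intro g hg hl
    have hgs := prb_allc hV hg
    have hsub : ((prbE0 d I).filter fun e => decide (∀ v ∈ g, v ∈ e)).toFinset ⊆ {g} := by
      intro e he
      rw [List.mem_toFinset, List.mem_filter, decide_eq_true_eq] at he
      obtain ⟨h1, h2⟩ := he
      have hes := prb_allc hV ((hmem e).1 h1).1
      have hsubf : g.toFinset ⊆ e.toFinset := by
        intro v hv
        rw [List.mem_toFinset] at hv ⊢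
        exact h2 v hv
      have hcard : e.toFinset.card ≤ g.toFinset.card := by
        rw [List.toFinset_card_of_nodup hgs.1, hl]
        exact (List.toFinset_card_le _).trans hes.2.1
      have heq := Finset.eq_of_subset_of_card_le hsubf hcard
      have h3 : canon I.1.dedup g = canon I.1.dedup e := by
        unfold canon
        apply List.filter_congr
        intro x _
        have h4 : x ∈ g ↔ x ∈ e := by
          rw [← List.mem_toFinset, heq, List.mem_toFinset]
        exact decide_eq_decide.2 h4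
      rw [hgs.2.2.1, hes.2.2.1] at h3
      rw [Finset.mem_singleton, h3]
    have h5 := Finset.card_le_card hsub
    rw [List.toFinset_card_of_nodup (hn.filter _), Finset.card_singleton] at h5
    exact h5
  · intro S
    constructor
    · intro h f hf
      obtain ⟨h1, e, he, rfl⟩ := (hmem f).1 hf
      obtain ⟨v, hv, hvS⟩ := h e he
      exact ⟨v, mem_canon.2 ⟨List.mem_dedup.2 ((hI e he).2.2 v hv), hv⟩, hvS⟩
    · intro h e he
      have h1 : canon I.1.dedup e ∈ prbE0 d I := by
        rw [hmem]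
        refine ⟨(mem_allc hV).2 ⟨?_, canon_canon _ _⟩, e, he, rfl⟩
        have h2 : (canon I.1.dedup e).Nodup := hV.filter _
        rw [← List.toFinset_card_of_nodup h2]
        refine le_trans (Finset.card_le_card ?_) (hI e he).2.1
        intro v hv
        rw [List.mem_toFinset] at hv ⊢
        exact (mem_canon.1 hv).2
      obtain ⟨v, hv, hvS⟩ := h _ h1
      exact ⟨v, (mem_canon.1 hv).2, hvS⟩

private theorem prb_red (d : ℕ) (hd : 1 ≤ d) (I : Inst) (hI : WF d I) :
    (redE d I).Nodup ∧ (∀ e ∈ redE d I, e ∈ allc I.1.dedup d ∧ e ≠ []) ∧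
      (∀ g ∈ allc I.1.dedup d, g.length = 1 → cnt (redE d I) g ≤ (I.2.1 + 1) ^ (d - 1)) ∧
      ∀ S : Finset Name, S.card ≤ I.2.1 →
        ((∀ e ∈ I.2.2, ∃ v ∈ e, v ∈ S) ↔ ∀ e ∈ redE d I, ∃ v ∈ e, v ∈ S) := by
  obtain ⟨s1, s2, s3, s4⟩ := prb_start d I hI
  obtain ⟨i1, i2, i3, i4⟩ := prb_inv (List.nodup_dedup I.1) d I.2.1 hd (prbE0 d I) s1 s2 s3 (d - 1) le_rfl
  have e1 : redE d I = runP d I.2.1 (allc I.1.dedup d) (prbE0 d I) (d - 1) := rfl
  rw [e1]
  refine ⟨i1, i2, ?_, ?_⟩
  · intro g hg hl
    exact i3 g hg (by omega)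
  · intro S hS
    rw [s4 S]
    exact i4 S hS

theorem pre_spec (d : ℕ) (hd : 1 ≤ d) (I : Inst) (hI : WF d I) :
    (pre d I).2.1 = I.2.1 ∧ (pre d I).1 ≤ d * (I.2.1 + 1) ^ d ∧ (pre d I).2.2.length ≤ (I.2.1 + 1) ^ d ∧
      (∀ e ∈ (pre d I).2.2, e ≠ [] ∧ e.length ≤ d ∧ ∀ u ∈ e, u < (pre d I).1) ∧ (YesI (pre d I) ↔ Yes I) := by
  obtain ⟨r1, r2, r3, r4⟩ := prb_red d hd I hI
  have hV : I.1.dedup.Nodup := List.nodup_dedup _
  have hpk : I.2.1 + 1 ≤ (I.2.1 + 1) ^ d := Nat.le_self_pow (by omega) _
  by_cases hcase : (I.2.1 + 1) ^ d ≤ (redE d I).length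
  · have e1 : pre d I = (I.2.1 + 1, I.2.1, (List.range (I.2.1 + 1)).map fun i => [i]) := by
      unfold pre
      simp only
      rw [if_pos hcase]
    rw [e1]
    refine ⟨rfl, ?_, ?_, ?_, ?_⟩
    · show I.2.1 + 1 ≤ d * (I.2.1 + 1) ^ d
      exact hpk.trans (Nat.le_mul_of_pos_left _ (by omega))
    · show ((List.range (I.2.1 + 1)).map fun i => [i]).length ≤ (I.2.1 + 1) ^ d
      rw [List.length_map, List.length_range]
      exact hpk
    · intro e he
      obtain ⟨i, hi, rfl⟩ := List.mem_map.1 he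
      refine ⟨by simp, by simpa using hd, ?_⟩
      intro u hu
      rw [List.mem_singleton] at hu
      rw [hu]
      exact List.mem_range.1 hi
    · constructor
      · rintro ⟨S, _, hS2, hS3⟩
        exfalso
        have h1 : Finset.range (I.2.1 + 1) ⊆ S := by
          intro i hi
          rw [Finset.mem_range] at hi
          obtain ⟨u, hu, huS⟩ := hS3 [i] (List.mem_map.2 ⟨i, List.mem_range.2 hi, rfl⟩)
          rw [List.mem_singleton] at hu
          rw [← hu]; exact huS
        have h2 := Finset.card_le_card h1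
        rw [Finset.card_range] at h2
        simp only at hS2
        omega
      · rintro ⟨S, _, hS2, hS3⟩
        exfalso
        have h1 := prb_card hV d I.2.1 hd (redE d I) r1 (fun e he => (r2 e he).1) r3 S hS2 ((r4 S hS2).1 hS3)
        omega
  · set W : List Name := I.1.dedup.filter fun v => decide (∃ e ∈ redE d I, v ∈ e) with hW
    have e1 : pre d I = (W.length, I.2.1, (redE d I).map fun e => e.map (posN W)) := by
      unfold pre
      simp only
      rw [if_neg hcase]
    have hWn : W.Nodup := hV.filter _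
    have hWm : ∀ v, v ∈ W ↔ v ∈ I.1 ∧ ∃ e ∈ redE d I, v ∈ e := by
      intro v
      rw [hW, List.mem_filter, List.mem_dedup, decide_eq_true_eq]
    have hEW : ∀ e ∈ redE d I, ∀ v ∈ e, v ∈ W := by
      intro e he v hv
      rw [hWm]
      exact ⟨List.mem_dedup.1 ((prb_allc hV (r2 e he).1).2.2.2 v hv), e, he, hv⟩
    have hpos : ∀ v ∈ W, posN W v < W.length := by
      intro v hv
      rw [prb_posN]
      exact List.idxOf_lt_length_of_mem hv
    have hinj : ∀ v ∈ W, ∀ w ∈ W, posN W v = posN W w → v = w := by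
      intro v hv w _ heq
      rw [prb_posN, prb_posN] at heq
      exact (List.idxOf_inj hv).1 heq
    rw [e1]
    refine ⟨rfl, ?_, ?_, ?_, ?_⟩
    · show W.length ≤ d * (I.2.1 + 1) ^ d
      have h1 : W.toFinset ⊆ (redE d I).toFinset.biUnion fun e => e.toFinset := by
        intro v hv
        rw [List.mem_toFinset, hWm] at hv
        obtain ⟨_, e, he, hve⟩ := hv
        rw [Finset.mem_biUnion]
        exact ⟨e, List.mem_toFinset.2 he, List.mem_toFinset.2 hve⟩
      calc W.length = W.toFinset.card := (List.toFinset_card_of_nodup hWn).symm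
        _ ≤ ((redE d I).toFinset.biUnion fun e => e.toFinset).card := Finset.card_le_card h1
        _ ≤ ∑ e ∈ (redE d I).toFinset, e.toFinset.card := Finset.card_biUnion_le
        _ ≤ ∑ _e ∈ (redE d I).toFinset, d := by
            apply Finset.sum_le_sum
            intro e he
            exact (List.toFinset_card_le _).trans (prb_allc hV (r2 e (List.mem_toFinset.1 he)).1).2.1
        _ = (redE d I).toFinset.card * d := by rw [Finset.sum_const, smul_eq_mul]
        _ ≤ (I.2.1 + 1) ^ d * d := by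
            apply Nat.mul_le_mul_right
            rw [List.toFinset_card_of_nodup r1]
            omega
        _ = d * (I.2.1 + 1) ^ d := Nat.mul_comm _ _
    · show ((redE d I).map fun e => e.map (posN W)).length ≤ (I.2.1 + 1) ^ d
      rw [List.length_map]
      omega
    · intro e' he'
      obtain ⟨e, he, rfl⟩ := List.mem_map.1 he'
      refine ⟨?_, ?_, ?_⟩
      · intro hcon
        exact (r2 e he).2 (List.map_eq_nil_iff.1 hcon)
      · rw [List.length_map]
        exact (prb_allc hV (r2 e he).1).2.1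
      · intro u hu
        obtain ⟨v, hv, rfl⟩ := List.mem_map.1 hu
        exact hpos v (hEW e he v hv)
    · constructor
      · rintro ⟨S', _, hS2, hS3⟩
        have hcard : (W.toFinset.filter fun v => posN W v ∈ S').card ≤ I.2.1 := by
          refine le_trans ?_ hS2
          apply Finset.card_le_card_of_injOn (posN W)
          · intro v hv
            exact (Finset.mem_filter.1 hv).2
          · intro v hv w hw heq
            exact hinj v (List.mem_toFinset.1 (Finset.mem_filter.1 hv).1) w
              (List.mem_toFinset.1 (Finset.mem_filter.1 hw).1) heq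
        refine ⟨W.toFinset.filter fun v => posN W v ∈ S', ?_, hcard, ?_⟩
        · intro v hv
          rw [List.mem_toFinset]
          exact ((hWm v).1 (List.mem_toFinset.1 (Finset.mem_filter.1 hv).1)).1
        · rw [r4 _ hcard]
          intro e he
          obtain ⟨u, hu, huS⟩ := hS3 (e.map (posN W)) (List.mem_map.2 ⟨e, he, rfl⟩)
          obtain ⟨v, hv, rfl⟩ := List.mem_map.1 hu
          exact ⟨v, hv, Finset.mem_filter.2 ⟨List.mem_toFinset.2 (hEW e he v hv), huS⟩⟩
      · rintro ⟨S, _, hS2, hS3⟩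
        refine ⟨(S.filter fun v => v ∈ W).image (posN W), ?_, ?_, ?_⟩
        · intro u hu
          obtain ⟨v, hv, rfl⟩ := Finset.mem_image.1 hu
          exact hpos v (Finset.mem_filter.1 hv).2
        · exact (Finset.card_image_le.trans (Finset.card_filter_le _ _)).trans hS2
        · intro e' he'
          obtain ⟨e, he, rfl⟩ := List.mem_map.1 he'
          obtain ⟨v, hv, hvS⟩ := (r4 S hS2).1 hS3 e he
          exact ⟨posN W v, List.mem_map.2 ⟨v, hv, rfl⟩,
            Finset.mem_image.2 ⟨v, Finset.mem_filter.2 ⟨hvS, hEW e he v hv⟩, rfl⟩⟩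

end KRN
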