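import Pool.Agent.KRN.Frm

/-!
# KRN PRD: the preliminary kernel: definitions

`V` is the duplicate free list of the vertices.  A set of vertices is represented by the sublist of `V` of its elements
(canonical lists).  `allc V d`: all canonical lists with at most `d` elements.  `cnt E f`: the number of edges which contain `f`.
`stepP d k i A E`: every set `f` of size `i` which is contained in at least `(k + 1) ^ (d - i)` edges becomes an edge, and the
edges which contain such a set are removed.
`pre d I`: the steps `i = d - 1, …, 1`; if at least `(k + 1) ^ d` edges are left, the output is the no-instance with `k + 1`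
disjoint edges; otherwise the vertices of the remaining edges are numbered.
-/

set_option autoImplicit false

namespace KRN

/-- All lists of length `j` with entries in `V`. -/
def tupN (V : List Name) : ℕ → List (List Name)
  | 0 => [[]]
  | j + 1 => V.flatMap fun v => (tupN V j).map fun l => v :: l

/-- The sublist of `V` of the elements of `e`. -/
def canon (V : List Name) (e : List Name) : List Name := V.filter fun v => decide (v ∈ e)

/-- All canonical lists with at most `d` elements. -/
def allc (V : List Name) (d : ℕ) : List (List Name) :=
  ((List.range (d + 1)).flatMap fun j => (tupN V j).filter fun f => decide (canon V f = f)).dedup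

/-- The number of the edges which contain `f`. -/
def cnt (E : List (List Name)) (f : List Name) : ℕ := (E.filter fun e => decide (∀ v ∈ f, v ∈ e)).length

/-- One step. -/
def stepP (d k i : ℕ) (A E : List (List Name)) : List (List Name) :=
  A.filter fun f => decide ((f.length = i ∧ (k + 1) ^ (d - i) ≤ cnt E f) ∨
    (f ∈ E ∧ ∀ g ∈ A, g.length = i → (k + 1) ^ (d - i) ≤ cnt E g → ¬ ∀ v ∈ g, v ∈ f))

/-- The steps `d - 1, d - 2, …, d - j`. -/
def runP (d k : ℕ) (A E : List (List Name)) : ℕ → List (List Name)
  | 0 => E
  | j + 1 => stepP d k (d - 1 - j) A (runP d k A E j)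

/-- The position of `v` in the list `W`. -/
def posN (W : List Name) (v : Name) : ℕ :=
  (W.foldl (fun (s : ℕ × ℕ) w => if s.2 = 1 then s else if w = v then (s.1, 1) else (s.1 + 1, 0)) (0, 0)).1

/-- The edges after all steps. -/
def redE (d : ℕ) (I : Inst) : List (List Name) :=
  let V := I.1.dedup
  let A := allc V d
  runP d I.2.1 A (A.filter fun f => decide (∃ e ∈ I.2.2, canon V e = f)) (d - 1)

/-- The preliminary kernel. -/
def pre (d : ℕ) (I : Inst) : IInst :=
  let E := redE d I
  let W := I.1.dedup.filter fun v => decide (∃ e ∈ E, v ∈ e)
  if (I.2.1 + 1) ^ d ≤ E.length then (I.2.1 + 1, I.2.1, (List.range (I.2.1 + 1)).map fun i => [i])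
  else (W.length, I.2.1, E.map fun e => e.map (posN W))

end KRN
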