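import Pool.Agent.KRN.PLY
import Pool.Agent.KRN.PRD

/-!
# KRN PRC: the preliminary kernel is computed in polynomial time

`d` is fixed: `tupN V j` and `runP … j` by induction on `j`, everything else with the rules of PLY (`pfilter`, `dall`, `dex`,
`dmem`, `deq`, `dle`, `ppow`, `pfold` for `posN`).  `(k + 1) ^ (d - i)` with fixed `d` and `i` is a `ppow`; `List.range (d + 1)` is a
constant list, but `tupN V j` with `j` from this list is not in the form of the rules: first rewrite
`(List.range (d + 1)).flatMap f` as an iterated append (induction on `d`, `List.range_succ`).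
-/

set_option autoImplicit false

namespace KRN

variable {α : Type} [Dat α]

private theorem prc_tup {V : α → List Name} (hV : Poly V) (j : ℕ) : Poly (fun x => tupN (V x) j) := by
  induction j generalizing α with
  | zero => exact Poly.const _
  | succ j ih =>
    refine pflatMap (l := V) (f := fun x v => (tupN (V x) j).map fun l => v :: l) hV ?_
    refine pmap (l := fun z : α × Name => tupN (V z.1) j) (f := fun z l => z.2 :: l)
      (ih (Poly.comp hV Poly.fst)) ?_
    exact pcons (psnd Poly.fst) Poly.snd

private theorem prc_canon {V e : α → List Name} (hV : Poly V) (he : Poly e) :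
    Poly (fun x => canon (V x) (e x)) := by
  refine pfilter (l := V) (p := fun x v => v ∈ e x) hV ?_
  exact dmem Poly.snd (Poly.comp he Poly.fst)

private theorem prc_flat {V : α → List Name} (hV : Poly V) (n : ℕ) :
    Poly (fun x => (List.range n).flatMap fun j => (tupN (V x) j).filter
      fun f => decide (canon (V x) f = f)) := by
  induction n with
  | zero => exact Poly.const _
  | succ n ih =>
    have e : (fun x => (List.range (n + 1)).flatMap fun j => (tupN (V x) j).filter
        fun f => decide (canon (V x) f = f)) = fun x => ((List.range n).flatMap fun j =>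
          (tupN (V x) j).filter fun f => decide (canon (V x) f = f)) ++
          (tupN (V x) n).filter fun f => decide (canon (V x) f = f) := by
      funext x
      rw [List.range_succ, List.flatMap_append]
      simp
    rw [e]
    refine pappend ih ?_
    refine pfilter (l := fun x => tupN (V x) n) (p := fun x f => canon (V x) f = f) (prc_tup hV n) ?_
    exact deq (prc_canon (Poly.comp hV Poly.fst) Poly.snd) Poly.snd

private theorem prc_allc {V : α → List Name} (hV : Poly V) (d : ℕ) : Poly (fun x => allc (V x) d) :=
  pdedup (prc_flat hV (d + 1))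

private theorem prc_sub {f e : α → List Name} (hf : Poly f) (he : Poly e) :
    PDec (fun x => ∀ v ∈ f x, v ∈ e x) :=
  dall (l := f) (p := fun x v => v ∈ e x) hf (dmem Poly.snd (Poly.comp he Poly.fst))

private theorem prc_cnt {E : α → List (List Name)} {f : α → List Name} (hE : Poly E) (hf : Poly f) :
    Poly (fun x => cnt (E x) (f x)) := by
  refine plength ?_
  refine pfilter (l := E) (p := fun x e => ∀ v ∈ f x, v ∈ e) hE ?_
  exact prc_sub (Poly.comp hf Poly.fst) Poly.snd

private theorem prc_pow {k : α → ℕ} (hk : Poly k) (n : ℕ) : Poly (fun x => (k x + 1) ^ n) :=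
  ppow (padd hk (Poly.const 1)) n

private theorem prc_step {k : α → ℕ} {A E : α → List (List Name)} (d i : ℕ) (hk : Poly k) (hA : Poly A)
    (hE : Poly E) : Poly (fun x => stepP d (k x) i (A x) (E x)) := by
  refine pfilter (l := A) (p := fun x f => (f.length = i ∧ (k x + 1) ^ (d - i) ≤ cnt (E x) f) ∨
    (f ∈ E x ∧ ∀ g ∈ A x, g.length = i → (k x + 1) ^ (d - i) ≤ cnt (E x) g → ¬ ∀ v ∈ g, v ∈ f)) hA ?_
  refine dor (dand (deq (plength Poly.snd) (Poly.const i)) (dle (prc_pow (Poly.comp hk Poly.fst) _)
    (prc_cnt (Poly.comp hE Poly.fst) Poly.snd))) (dand (dmem Poly.snd (Poly.comp hE Poly.fst)) ?_)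
  refine dall (l := fun z : α × List Name => A z.1) (p := fun z g => g.length = i →
    (k z.1 + 1) ^ (d - i) ≤ cnt (E z.1) g → ¬ ∀ v ∈ g, v ∈ z.2) (Poly.comp hA Poly.fst) ?_
  refine dimp (deq (plength Poly.snd) (Poly.const i)) (dimp (dle (prc_pow
    (Poly.comp hk (Poly.comp Poly.fst Poly.fst)) _)
    (prc_cnt (Poly.comp hE (Poly.comp Poly.fst Poly.fst)) Poly.snd)) (dnot ?_))
  exact prc_sub Poly.snd (psnd Poly.fst)

private theorem prc_run {k : α → ℕ} {A E : α → List (List Name)} (d : ℕ) (hk : Poly k) (hA : Poly A)
    (hE : Poly E) (j : ℕ) : Poly (fun x => runP d (k x) (A x) (E x) j) := by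
  induction j with
  | zero => exact hE
  | succ j ih => exact prc_step d (d - 1 - j) hk hA ih

private theorem prc_red (d : ℕ) : Poly (fun I : Inst => redE d I) := by
  have hV : Poly (fun I : Inst => I.1.dedup) := pdedup Poly.fst
  have hA : Poly (fun I : Inst => allc I.1.dedup d) := prc_allc hV d
  refine prc_run d (k := fun I : Inst => I.2.1) (A := fun I : Inst => allc I.1.dedup d)
    (E := fun I : Inst => (allc I.1.dedup d).filter fun f => decide (∃ e ∈ I.2.2, canon I.1.dedup e = f))
    (pfst Poly.snd) hA ?_ (d - 1)
  refine pfilter (l := fun I : Inst => allc I.1.dedup d)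
    (p := fun I f => ∃ e ∈ I.2.2, canon I.1.dedup e = f) hA ?_
  refine dex (l := fun z : Inst × List Name => z.1.2.2) (p := fun z e => canon z.1.1.dedup e = z.2)
    (psnd (psnd Poly.fst)) ?_
  exact deq (prc_canon (pdedup (pfst (Poly.comp Poly.fst Poly.fst))) Poly.snd) (psnd Poly.fst)

private theorem prc_fold_sz (v : Name) (l : List Name) (s : ℕ × ℕ) :
    sz (l.foldl (fun (s : ℕ × ℕ) w => if s.2 = 1 then s else if w = v then (s.1, 1)
      else (s.1 + 1, 0)) s) ≤ sz s + l.length := by
  induction l generalizing s with
  | nil => exact le_rfl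
  | cons w l ih =>
    rw [List.foldl_cons, List.length_cons]
    refine (ih _).trans ?_
    have h : sz (if s.2 = 1 then s else if w = v then (s.1, 1) else (s.1 + 1, 0)) ≤ sz s + 1 := by
      split_ifs
      · omega
      · simp only [sz_pair, sz_nat]
        omega
      · simp only [sz_pair, sz_nat]
        omega
    omega

private theorem prc_pos {W : α → List Name} {v : α → Name} (hW : Poly W) (hv : Poly v) :
    Poly (fun x => posN (W x) (v x)) := by
  have h : Poly (fun x : Name × List Name => posN x.2 x.1) := by
    refine pfst ?_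
    refine pfold (f := fun (x : Name × List Name) (s : ℕ × ℕ) (w : Name) => if s.2 = 1 then s else
      if w = x.1 then (s.1, 1) else (s.1 + 1, 0)) (l := fun x => x.2) (s := fun _ => ((0 : ℕ), (0 : ℕ)))
      1 ?_ Poly.snd (Poly.const _) ?_
    · refine pite (p := fun z : (Name × List Name) × (ℕ × ℕ) × Name => z.2.1.2 = 1)
        (deq (psnd (pfst Poly.snd)) (Poly.const 1)) (pfst Poly.snd) ?_
      refine pite (p := fun z : (Name × List Name) × (ℕ × ℕ) × Name => z.2.2 = z.1.1)
        (deq (psnd Poly.snd) (pfst Poly.fst)) (Poly.pair (pfst (pfst Poly.snd)) (Poly.const 1))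
        (Poly.pair (padd (pfst (pfst Poly.snd)) (Poly.const 1)) (Poly.const 0))
    · intro x l s
      have h1 := prc_fold_sz x.1 l s
      have h2 := length_lt_sz l
      rw [pow_one, one_mul]
      omega
  exact Poly.comp (f := fun x => (v x, W x)) (g := fun x : Name × List Name => posN x.2 x.1) h
    (Poly.pair hv hW)

theorem ppre (d : ℕ) : Poly (pre d) := by
  have hE := prc_red d
  have hW : Poly (fun I : Inst => I.1.dedup.filter fun v => decide (∃ e ∈ redE d I, v ∈ e)) := by
    refine pfilter (l := fun I : Inst => I.1.dedup) (p := fun I v => ∃ e ∈ redE d I, v ∈ e)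
      (pdedup Poly.fst) ?_
    exact dex (l := fun z : Inst × Name => redE d z.1) (p := fun z e => z.2 ∈ e)
      (Poly.comp hE Poly.fst) (dmem (psnd Poly.fst) Poly.snd)
  have hk : Poly (fun I : Inst => I.2.1) := pfst Poly.snd
  refine pite (p := fun I : Inst => (I.2.1 + 1) ^ d ≤ (redE d I).length)
    (f := fun I : Inst => (I.2.1 + 1, I.2.1, (List.range (I.2.1 + 1)).map fun i => [i]))
    (g := fun I : Inst => ((I.1.dedup.filter fun v => decide (∃ e ∈ redE d I, v ∈ e)).length, I.2.1,
      (redE d I).map fun e => e.map (posN (I.1.dedup.filter fun v => decide (∃ e ∈ redE d I, v ∈ e)))))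
    (dle (prc_pow hk d) (plength hE)) ?_ ?_
  · refine Poly.pair (padd hk (Poly.const 1)) (Poly.pair hk ?_)
    exact pmap (l := fun I : Inst => List.range (I.2.1 + 1)) (f := fun _ i => [i])
      (prange (padd hk (Poly.const 1))) (pcons Poly.snd (Poly.const []))
  · refine Poly.pair (plength hW) (Poly.pair hk ?_)
    refine pmap (l := fun I : Inst => redE d I) (f := fun I e => e.map (posN (I.1.dedup.filter
      fun v => decide (∃ e ∈ redE d I, v ∈ e)))) hE ?_
    refine pmap (l := fun z : Inst × List Name => z.2) (f := fun z v => posN (z.1.1.dedup.filter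
      fun v => decide (∃ e ∈ redE d z.1, v ∈ e)) v) Poly.snd ?_
    exact prc_pos (Poly.comp hW (Poly.comp Poly.fst Poly.fst)) Poly.snd

end KRN
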