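import Pool.Agent.KRN.SZB
import Pool.Agent.KRN.PRD

/-!
# KRN SZJ: the size of index instances

`sz J ≤ (J.1 + 1) + (J.2.1 + 1) + (J.2.2.length * (d * (J.1 + 1) + 1) + 1) + 2` when the edges have length at most `d` and entries
`< J.1`; everything is polynomial in `k + 1`.
-/

set_option autoImplicit false

namespace KRN

theorem sz_list_le {α : Type} [Dat α] (B : ℕ) (l : List α) (h : ∀ a ∈ l, sz a ≤ B) :
    sz l ≤ l.length * B + 1 := by
  have h1 : sz l = (l.map sz).sum + 1 := rfl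
  rw [h1]
  refine Nat.succ_le_succ ?_
  have h2 := List.sum_le_card_nsmul (l.map sz) B (by
    intro x hx
    rw [List.mem_map] at hx
    obtain ⟨a, ha, rfl⟩ := hx
    exact h a ha)
  rwa [List.length_map, smul_eq_mul] at h2

theorem szJ (d : ℕ) : ∃ C : ℕ, ∀ J : IInst, J.1 ≤ d * (J.2.1 + 1) ^ d → J.2.2.length ≤ (J.2.1 + 1) ^ d →
    (∀ e ∈ J.2.2, e.length ≤ d ∧ ∀ u ∈ e, u < J.1) → sz J ≤ C * (J.2.1 + 1) ^ C := by
  refine ⟨d * d + d + 6 + (2 * d + 1), ?_⟩
  rintro ⟨m, k, E⟩ h1 h2 h3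
  simp only at h1 h2 h3 ⊢
  have e1 : sz ((m, k, E) : IInst) = (m + 1) + ((k + 1) + sz E + 1) + 1 := rfl
  have h4 : ∀ e ∈ E, sz e ≤ d * m + 1 := by
    intro e he
    obtain ⟨h5, h6⟩ := h3 e he
    have h7 := sz_list_le m e (fun u hu => by
      have h8 : sz u = u + 1 := rfl
      rw [h8]
      exact h6 u hu)
    exact h7.trans (Nat.succ_le_succ (Nat.mul_le_mul_right _ h5))
  have h5 := sz_list_le _ E h4
  set x := (k + 1) ^ d with hx
  have hx1 : 1 ≤ x := Nat.one_le_iff_ne_zero.2 (by positivity)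
  set y := (k + 1) ^ (2 * d + 1) with hy
  have hyx : y = x * x * (k + 1) := by
    rw [hy, hx, pow_succ, two_mul, pow_add]
  have g1 : x * x ≤ y := by rw [hyx]; exact Nat.le_mul_of_pos_right _ (Nat.succ_pos k)
  have g2 : x ≤ x * x := Nat.le_mul_of_pos_left _ hx1
  have g3 : k + 1 ≤ y := by rw [hyx]; exact Nat.le_mul_of_pos_left _ (Nat.mul_pos hx1 hx1)
  have g4 : 1 ≤ y := hx1.trans (g2.trans g1)
  have h6 : E.length * (d * m + 1) ≤ d * d * y + y := by
    calc E.length * (d * m + 1) ≤ x * (d * (d * x) + 1) :=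
          Nat.mul_le_mul h2 (Nat.succ_le_succ (Nat.mul_le_mul_left _ h1))
      _ = d * d * (x * x) + x := by ring
      _ ≤ d * d * y + y := Nat.add_le_add (Nat.mul_le_mul_left _ g1) (g2.trans g1)
  have h7 : m ≤ d * y := h1.trans (Nat.mul_le_mul_left _ (g2.trans g1))
  have h8 : sz ((m, k, E) : IInst) ≤ (d * d + d + 6) * y := by
    rw [e1]
    have h9 : (d * d + d + 6) * y = d * d * y + d * y + 6 * y := by ring
    rw [h9]
    omega
  refine h8.trans ?_
  refine Nat.mul_le_mul (by omega) ?_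
  rw [hy]
  exact Nat.pow_le_pow_right (Nat.succ_pos k) (by omega)

theorem sz_bits {L : ℕ} (w : Fin L → Bool) : sz (bits w) ≤ 2 * L + 1 := by
  have h1 := sz_list_le 2 (bits w) (by
    intro a ha
    unfold bits at ha
    rw [List.mem_ofFn] at ha
    obtain ⟨i, rfl⟩ := ha
    have h8 : sz (if w i then 1 else 0 : ℕ) = (if w i then 1 else 0) + 1 := rfl
    rw [h8]
    split_ifs <;> omega)
  have h2 : (bits w).length = L := by unfold bits; rw [List.length_ofFn]
  rw [h2] at h1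
  omega

/-- Composition of polynomial bounds. -/
theorem comp_bound (C C' : ℕ) : ∃ D : ℕ, ∀ x k : ℕ, x ≤ C * (k + 1) ^ C → C' * x ^ C' ≤ D * (k + 1) ^ D := by
  refine ⟨C' * C ^ C' + C * C', fun x k h => ?_⟩
  calc C' * x ^ C' ≤ C' * (C * (k + 1) ^ C) ^ C' := Nat.mul_le_mul_left _ (Nat.pow_le_pow_left h _)
    _ = C' * C ^ C' * (k + 1) ^ (C * C') := by rw [mul_pow, ← pow_mul]; ring
    _ ≤ (C' * C ^ C' + C * C') * (k + 1) ^ (C' * C ^ C' + C * C') :=
      Nat.mul_le_mul (Nat.le_add_right _ _) (Nat.pow_le_pow_right (Nat.succ_pos k) (Nat.le_add_left _ _))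

end KRN
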