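import Pool.Agent.KRN.ASB
import Pool.Agent.KRN.FPO
import Pool.Agent.KRN.CNP
import Pool.Agent.KRN.PRB
import Pool.Agent.KRN.PRC
import Pool.Agent.KRN.SZJ
import Pool.Agent.KRN.FAM
import Pool.Agent.KRN.FA2
import Pool.Agent.KRN.NUJ

/-!
# KRN DSJ: disjunctive kernelization

One instance for every hash function of the explicit family.
-/

set_option autoImplicit false

namespace KRN

/-- A disjunctive kernelization for `p-d-Hitting-Set`: a (deterministic) polynomial time algorithm which maps every instance to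
a list of instances, each with at most `g k` vertices, such that the given instance is a yes-instance if and only if one of the
instances of the list is a yes-instance; the size of the whole list is bounded by a polynomial in `k`. -/
structure IsDisjKernel (d : ℕ) (g : ℕ → ℝ) (K : Inst → List Inst) : Prop where
  poly : Poly K
  wf : ∀ I, WF d I → ∀ I' ∈ K I, WF d I'
  iff : ∀ I, WF d I → ((∃ I' ∈ K I, Yes I') ↔ Yes I)
  vert : ∀ I, WF d I → ∀ I' ∈ K I, (vert I' : ℝ) ≤ g I.2.1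
  size : ∃ C : ℕ, ∀ I, WF d I → sz (K I) ≤ C * (I.2.1 + 1) ^ C

/-- The kernel of an index instance for the hash function with the number `N`. -/
def kerS (d s : ℕ) (x : IInst × ℕ) : Inst :=
  toHS (frm d (fun _ u => buc (PD d x.1.2.1) s d (MD s x.1.2.1) x.2 u) 1 (MD s x.1.2.1) (s - 1)
    x.1.2.1 (QQ (s - 1) x.1.1) (rr x.1.1) (le2 (QQ (s - 1) x.1.1)) (up2 (QQ (s - 1) x.1.1))
    (le2 (MD s x.1.2.1 * (s - 1))) (up2 (MD s x.1.2.1 * (s - 1))) x.1.2.2)

/-- All kernels of an index instance. -/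
def kerL (d s : ℕ) (x : IInst) : List Inst := (List.range (PD d x.2.1 ^ (s + 1))).map fun N => kerS d s (x, N)

/-- The disjunctive kernelization. -/
def kernS (d s : ℕ) (I : Inst) : List Inst := kerL d s (pre d I)

section

variable {α : Type} [Dat α]

private theorem dsj_rr {f : α → ℕ} (hf : Poly f) : Poly (fun x => rr (f x)) :=
  padd (plog hf) (Poly.const 1)

private theorem dsj_QQ {f g : α → ℕ} (hf : Poly f) (hg : Poly g) : Poly (fun x => QQ (f x) (g x)) :=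
  pnpr (pmul (ppow (padd hf (Poly.const 1)) 2) (dsj_rr hg))

private theorem dsj_le2 {f : α → ℕ} (hf : Poly f) : Poly (fun x => le2 (f x)) :=
  padd (plog hf) (Poly.const 1)

private theorem dsj_up2 {f : α → ℕ} (hf : Poly f) : Poly (fun x => up2 (f x)) :=
  pcp (dsj_le2 hf) (pmul (Poly.const 2) hf)

private theorem dsj_PD (d : ℕ) {f : α → ℕ} (hf : Poly f) : Poly (fun x => PD d (f x)) :=
  pnpr (pmul (ppow (pmul (Poly.const 2) (padd hf (Poly.const 1))) 2) (Poly.const (d + 1)))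

private theorem dsj_MD (s : ℕ) {f : α → ℕ} (hf : Poly f) : Poly (fun x => MD s (f x)) := by
  have h1 : Poly (fun x => (2 * (f x + 1)) ^ s) :=
    ppow (pmul (Poly.const 2) (padd hf (Poly.const 1))) s
  refine pheadD (pfilter (p := fun x M => (2 * (f x + 1)) ^ s ≤ M ^ (s - 1))
    (prange (padd h1 (Poly.const 1))) ?_) (Poly.const 0)
  exact dle (Poly.comp h1 Poly.fst) (ppow Poly.snd (s - 1))

private theorem dsj_buc {p s r M N u : α → ℕ} (hp : Poly p) (hs : Poly s) (hr : Poly r)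
    (hM : Poly M) (hN : Poly N) (hu : Poly u) (hp2 : ∀ x, 2 ≤ p x) :
    Poly (fun x => buc (p x) (s x) (r x) (M x) (N x) (u x)) := by
  have h1 := pcode hp hr hu (pmod hN hp)
  have h2 := pcode hp hs (pdiv hN hp) h1
  have h3 := pmod h2 hM
  have e : ∀ x, max (p x) 2 = p x := fun x => max_eq_left (hp2 x)
  simp only [e] at h3
  exact h3

end

theorem pkerS (d s : ℕ) : Poly (kerS d s) := by
  have hn : Poly (fun x : IInst × ℕ => x.1.1) := pfst Poly.fst
  have hk : Poly (fun x : IInst × ℕ => x.1.2.1) := pfst (psnd Poly.fst)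
  have hE : Poly (fun x : IInst × ℕ => x.1.2.2) := psnd (psnd Poly.fst)
  have hM := dsj_MD s hk
  have ht : Poly (fun _ : IInst × ℕ => s - 1) := Poly.const (s - 1)
  have hQ := dsj_QQ ht hn
  have hMt := pmul hM ht
  have hk' : Poly (fun z : (IInst × ℕ) × List ℕ × ℕ => z.1.1.2.1) := pfst (psnd (pfst Poly.fst))
  have hN' : Poly (fun z : (IInst × ℕ) × List ℕ × ℕ => z.1.2) := psnd Poly.fst
  have hhh : Poly (fun z : (IInst × ℕ) × List ℕ × ℕ =>
      buc (PD d z.1.1.2.1) s d (MD s z.1.1.2.1) z.1.2 z.2.2) :=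
    dsj_buc (dsj_PD d hk') (Poly.const s) (Poly.const d) (dsj_MD s hk') hN' (psnd Poly.snd)
      (fun z => (npr_spec _).1.two_le)
  have h := toHS_poly (pfrm d (hh := fun (x : IInst × ℕ) _ u =>
      buc (PD d x.1.2.1) s d (MD s x.1.2.1) x.2 u) hhh (Poly.const 1) hM ht hk hQ (dsj_rr hn)
    (dsj_le2 hQ) (dsj_up2 hQ) (dsj_le2 hMt) (dsj_up2 hMt) hE)
  have e : ∀ x : IInst × ℕ, max (QQ (s - 1) x.1.1) 2 = QQ (s - 1) x.1.1 :=
    fun x => max_eq_left (QQ_spec _ _).1.two_le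
  simp only [e] at h
  exact h

theorem pkerL (d s : ℕ) : Poly (kerL d s) := by
  have hk : Poly (fun x : IInst => x.2.1) := pfst Poly.snd
  exact pmap (f := fun (x : IInst) (N : ℕ) => kerS d s (x, N)) (prange (ppow (dsj_PD d hk) (s + 1))) (pkerS d s)

/-- Index instances as produced by the preliminary kernel. -/
structure GoodS (d : ℕ) (J : IInst) : Prop where
  n : J.1 ≤ d * (J.2.1 + 1) ^ d
  m : J.2.2.length ≤ (J.2.1 + 1) ^ d
  e : ∀ e ∈ J.2.2, e ≠ [] ∧ e.length ≤ d ∧ ∀ u ∈ e, u < J.1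

theorem goodS_pre (d : ℕ) (hd : 3 ≤ d) (I : Inst) (hI : WF d I) : GoodS d (pre d I) := by
  obtain ⟨h1, h2, h3, h4, -⟩ := pre_spec d (by omega) I hI
  exact ⟨by rw [h1]; exact h2, by rw [h1]; exact h3, h4⟩

private theorem PS_spec (d k : ℕ) : (PD d k).Prime ∧ (2 * (k + 1)) ^ 2 * (d + 1) < PD d k := by
  have h := npr_spec ((2 * (k + 1)) ^ 2 * (d + 1))
  exact ⟨h.1, h.2.1⟩

private theorem le_PS_pow (d k n : ℕ) (hn : n ≤ d * (k + 1) ^ d) : n ≤ PD d k ^ d := by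
  have h := (PS_spec d k).2
  refine hn.trans ?_
  have h1 : 4 * (k + 1) ≤ PD d k := by
    have h2 : (2 * (k + 1)) ^ 2 * (d + 1) = 4 * (k + 1) * ((k + 1) * (d + 1)) := by ring
    have h3 : 4 * (k + 1) * 1 ≤ 4 * (k + 1) * ((k + 1) * (d + 1)) :=
      Nat.mul_le_mul_left _ (Nat.mul_pos (by omega) (by omega))
    omega
  calc d * (k + 1) ^ d ≤ 4 ^ d * (k + 1) ^ d := Nat.mul_le_mul_right _ (Nat.lt_pow_self (by norm_num)).le
    _ = (4 * (k + 1)) ^ d := (mul_pow _ _ _).symm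
    _ ≤ PD d k ^ d := Nat.pow_le_pow_left h1 d

theorem goodS (d s : ℕ) (hs : 2 ≤ s) (J : IInst) (hJ : GoodS d J) (N : ℕ) :
    Good d (fun _ u => buc (PD d J.2.1) s d (MD s J.2.1) N u) 1 (MD s J.2.1) (s - 1)
      (QQ (s - 1) J.1) (rr J.1) (le2 (QQ (s - 1) J.1)) (up2 (QQ (s - 1) J.1))
      (le2 (MD s J.2.1 * (s - 1))) (up2 (MD s J.2.1 * (s - 1))) J.1 J.2.2 := by
  have hQ := QQ_spec (s - 1) J.1
  have hM := MD_spec s J.2.1 hs
  have h0 : 1 ≤ MD s J.2.1 * (s - 1) := Nat.mul_pos hM.1 (by omega)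
  exact {
    hM := fun ρ _ u _ => Nat.mod_lt _ hM.1
    hQ := hQ.1
    hn := le_QQ_pow _ _
    ht := hQ.2.1
    h1 := (up2_eq hQ.1.one_lt.le).1
    hQ1 := (up2_eq hQ.1.one_lt.le).2.1
    h2 := (up2_eq h0).1
    hM2 := (up2_eq h0).2.1
    hE := hJ.e }

theorem kerS_yes (d s : ℕ) (hd : 3 ≤ d) (hs : 2 ≤ s) (J : IInst) (hJ : GoodS d J) (hY : YesI J) :
    ∃ N < PD d J.2.1 ^ (s + 1), Yes (kerS d s (J, N)) := by
  obtain ⟨S, hS, hk, hE⟩ := hY
  have hP := PS_spec d J.2.1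
  have hM := MD_spec s J.2.1 hs
  have h1 : MD s J.2.1 ≤ PD d J.2.1 := by
    have h2 : (2 * (J.2.1 + 1)) ^ 2 * 1 ≤ (2 * (J.2.1 + 1)) ^ 2 * (d + 1) := Nat.mul_le_mul_left _ (by omega)
    omega
  have h2 : J.2.1 ^ 2 * d < PD d J.2.1 := by
    have h3 : J.2.1 ^ 2 * d ≤ (2 * (J.2.1 + 1)) ^ 2 * (d + 1) :=
      Nat.mul_le_mul (Nat.pow_le_pow_left (by omega) 2) (by omega)
    omega
  obtain ⟨N, hN, hl⟩ := fam (PD d J.2.1) d s J.2.1 (MD s J.2.1) hP.1 hs hM.1 h1 h2 hM.2.1 S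
    (fun u hu => lt_of_lt_of_le (hS u hu) (le_PS_pow d J.2.1 J.1 hJ.n)) hk
  refine ⟨N, hN, ?_⟩
  have hρ : List.replicate d 0 ∈ tuples 1 d := by
    rw [mem_tuples]
    refine ⟨List.length_replicate, ?_⟩
    intro s hs
    rw [List.eq_of_mem_replicate hs]
    exact Nat.one_pos
  have h := ker_yes (k := J.2.1) hd (goodS d s hs J hJ N) (List.replicate d 0) hρ S hk hE (by
    intro g
    exact hl g)
  exact h

theorem kerS_wf (d s : ℕ) (hd : 3 ≤ d) (hs : 2 ≤ s) (J : IInst) (hJ : GoodS d J) (N : ℕ) : WF d (kerS d s (J, N)) := by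
  have h := ker_wf hd (goodS d s hs J hJ N) J.2.1
  exact h

theorem kerS_no (d s : ℕ) (hd : 3 ≤ d) (hs : 2 ≤ s) (J : IInst) (hJ : GoodS d J) (N : ℕ) (h : Yes (kerS d s (J, N))) :
    YesI J := by
  have h1 := ker_no (k := J.2.1) hd (goodS d s hs J hJ N) h
  exact h1

theorem kerS_vert (d s : ℕ) (hd : 3 ≤ d) (hs : 2 ≤ s) (J : IInst) (hJ : GoodS d J) (N : ℕ) :
    vert (kerS d s (J, N)) ≤ 2 * NB d 1 (MD s J.2.1) (s - 1) (QQ (s - 1) J.1) (le2 (QQ (s - 1) J.1))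
      (le2 (MD s J.2.1 * (s - 1))) := by
  have h := ker_vert hd (goodS d s hs J hJ N) J.2.1
  exact h

theorem kerL_size (d s : ℕ) : ∃ C : ℕ, ∀ J : IInst, GoodS d J → sz (kerL d s J) ≤ C * (J.2.1 + 1) ^ C := by
  obtain ⟨C₁, hC₁⟩ := szJ d
  obtain ⟨C₂, hC₂⟩ := Poly.size_bound (pkerL d s)
  obtain ⟨D, hD⟩ := comp_bound C₁ C₂
  exact ⟨D, fun J hJ => (hC₂ J).trans (hD _ _ (hC₁ J hJ.n hJ.m (fun e he => (hJ.e e he).2)))⟩

theorem disjunctive (d s : ℕ) (hd : 3 ≤ d) (hs : 2 ≤ s) : ∃ C : ℕ,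
    IsDisjKernel d (fun k => C * ((k : ℝ) + 1) ^ ((s : ℝ) / (s - 1)) * (1 + Real.log ((k : ℝ) + 1)) ^ C)
      (kernS d s) := by
  obtain ⟨C, hC⟩ := nuj d s (by omega) hs
  obtain ⟨D, hD⟩ := kerL_size d s
  have hmem : ∀ I : Inst, ∀ I' : Inst, I' ∈ kernS d s I ↔
      ∃ N < PD d (pre d I).2.1 ^ (s + 1), kerS d s (pre d I, N) = I' := by
    intro I I'
    unfold kernS kerL
    rw [List.mem_map]
    simp only [List.mem_range]
  refine ⟨C, ?_⟩
  refine ⟨?_, ?_, ?_, ?_, ?_⟩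
  · exact Poly.comp (g := kerL d s) (f := pre d) (pkerL d s) (ppre d)
  · intro I hI I' hI'
    obtain ⟨N, -, rfl⟩ := (hmem I I').mp hI'
    exact kerS_wf d s hd hs (pre d I) (goodS_pre d hd I hI) N
  · intro I hI
    have hp := (pre_spec d (by omega) I hI).2.2.2.2
    constructor
    · rintro ⟨I', hI', h⟩
      obtain ⟨N, -, rfl⟩ := (hmem I I').mp hI'
      exact hp.mp (kerS_no d s hd hs (pre d I) (goodS_pre d hd I hI) N h)
    · intro h
      obtain ⟨N, hN, hY⟩ := kerS_yes d s hd hs (pre d I) (goodS_pre d hd I hI) (hp.mpr h)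
      exact ⟨kerS d s (pre d I, N), (hmem I _).mpr ⟨N, hN, rfl⟩, hY⟩
  · intro I hI I' hI'
    obtain ⟨N, -, rfl⟩ := (hmem I I').mp hI'
    have h := kerS_vert d s hd hs (pre d I) (goodS_pre d hd I hI) N
    have h3 := hC (pre d I).2.1 (pre d I).1 (goodS_pre d hd I hI).n
    have h5 : (vert (kerS d s (pre d I, N)) : ℝ) ≤ ((2 * NB d 1 (MD s (pre d I).2.1) (s - 1)
      (QQ (s - 1) (pre d I).1) (le2 (QQ (s - 1) (pre d I).1)) (le2 (MD s (pre d I).2.1 * (s - 1))) : ℕ) : ℝ) :=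
      Nat.cast_le.mpr h
    refine h5.trans ?_
    push_cast
    refine h3.trans (le_of_eq ?_)
    rw [(pre_spec d (by omega) I hI).1]
  · refine ⟨D, fun I hI => ?_⟩
    calc sz (kernS d s I) ≤ D * ((pre d I).2.1 + 1) ^ D := hD (pre d I) (goodS_pre d hd I hI)
      _ = D * (I.2.1 + 1) ^ D := by rw [(pre_spec d (by omega) I hI).1]

end KRN
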