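import Mathlib

/-!
# KRN: near-linear vertex kernels for d-Hitting-Set: definitions (MP_595d8c_lc)

Part 1.  Data and polynomial time.  The data are built from natural numbers (written in unary), pairs and lists; `sz` is
the size.  `Poly f` is an inductively defined class of functions on such data; every rule yields functions which can be
computed in polynomial time (arithmetic of unary numbers, case distinction, pairs, lists, `map`, and a loop over a list all
of whose intermediate states have polynomially bounded size: this is Cobham's bounded recursion).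

Part 2.  Instances of `p-d-Hitting-Set`: the list of the vertices (a vertex is named by a list of natural numbers), the
parameter `k`, and the list of the edges, each edge given by the list of its vertices.
-/

set_option autoImplicit false

namespace KRN

/-- Representations of data: natural numbers, pairs, lists. -/
class inductive Dat : Type → Type 1
  | nat : Dat ℕ
  | prod {α β : Type} : Dat α → Dat β → Dat (α × β)
  | list {α : Type} : Dat α → Dat (List α)

instance : Dat ℕ := Dat.nat
instance {α β : Type} [a : Dat α] [b : Dat β] : Dat (α × β) := Dat.prod a b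
instance {α : Type} [a : Dat α] : Dat (List α) := Dat.list a

/-- The size; natural numbers are written in unary. -/
def Dat.size : {α : Type} → Dat α → α → ℕ
  | _, .nat, n => n + 1
  | _, .prod a b, x => a.size x.1 + b.size x.2 + 1
  | _, .list a, l => (l.map a.size).sum + 1

/-- The size of an object. -/
def sz {α : Type} [a : Dat α] (x : α) : ℕ := a.size x

/-- Functions built by operations which keep polynomial time. -/
inductive Poly : {α β : Type} → [Dat α] → [Dat β] → (α → β) → Prop
  /-- the identity -/
  | id {α : Type} [Dat α] : Poly (fun x : α => x)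
  /-- constants -/
  | const {α β : Type} [Dat α] [Dat β] (c : β) : Poly (fun _ : α => c)
  /-- composition -/
  | comp {α β γ : Type} [Dat α] [Dat β] [Dat γ] {g : β → γ} {f : α → β} :
      Poly g → Poly f → Poly (fun x => g (f x))
  /-- pairs and projections -/
  | pair {α β γ : Type} [Dat α] [Dat β] [Dat γ] {f : α → β} {g : α → γ} :
      Poly f → Poly g → Poly (fun x => (f x, g x))
  | fst {α β : Type} [Dat α] [Dat β] : Poly (fun x : α × β => x.1)
  | snd {α β : Type} [Dat α] [Dat β] : Poly (fun x : α × β => x.2)
  /-- arithmetic of unary numbers -/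
  | add : Poly (fun x : ℕ × ℕ => x.1 + x.2)
  | sub : Poly (fun x : ℕ × ℕ => x.1 - x.2)
  | mul : Poly (fun x : ℕ × ℕ => x.1 * x.2)
  | div : Poly (fun x : ℕ × ℕ => x.1 / x.2)
  | mod : Poly (fun x : ℕ × ℕ => x.1 % x.2)
  /-- case distinctions -/
  | ite_le {α β : Type} [Dat α] [Dat β] {p q : α → ℕ} {f g : α → β} :
      Poly p → Poly q → Poly f → Poly g → Poly (fun x => if p x ≤ q x then f x else g x)
  | ite_eq {α β γ : Type} [Dat α] [Dat β] [Dat γ] [DecidableEq γ] {p q : α → γ} {f g : α → β} :
      Poly p → Poly q → Poly f → Poly g → Poly (fun x => if p x = q x then f x else g x)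
  /-- lists -/
  | cons {α : Type} [Dat α] : Poly (fun x : α × List α => x.1 :: x.2)
  | head {α : Type} [Dat α] : Poly (fun x : α × List α => x.2.headD x.1)
  | tail {α : Type} [Dat α] : Poly (fun x : List α => x.tail)
  | length {α : Type} [Dat α] : Poly (fun x : List α => x.length)
  | range : Poly (fun x : ℕ => List.range x)
  | flatten {α : Type} [Dat α] : Poly (fun x : List (List α) => x.flatten)
  | map {α β γ : Type} [Dat α] [Dat β] [Dat γ] {f : α × β → γ} :
      Poly f → Poly (fun x : α × List β => x.2.map (fun y => f (x.1, y)))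
  /-- a loop over a list, the size of the state stays polynomially bounded -/
  | fold {α β γ : Type} [Dat α] [Dat β] [Dat γ] {f : α × γ × β → γ} (C : ℕ) :
      Poly f → (∀ (x : α) (l : List β) (s : γ), sz (l.foldl (fun s y => f (x, s, y)) s) ≤ C * (sz x + sz l + sz s) ^ C) →
      Poly (fun x : α × List β × γ => x.2.1.foldl (fun s y => f (x.1, s, y)) x.2.2)

/-- Names of vertices. -/
abbrev Name : Type := List ℕ

/-- Instances: the vertices, the parameter, the edges. -/
abbrev Inst : Type := List Name × ℕ × List (List Name)

/-- Well-formed instances of `p-d-Hitting-Set`: the edges are nonempty sets of at most `d` vertices. -/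
def WF (d : ℕ) (I : Inst) : Prop := ∀ e ∈ I.2.2, e ≠ [] ∧ e.toFinset.card ≤ d ∧ ∀ v ∈ e, v ∈ I.1

/-- There is a hitting set with at most `k` elements. -/
def Yes (I : Inst) : Prop := ∃ S : Finset Name, S ⊆ I.1.toFinset ∧ S.card ≤ I.2.1 ∧ ∀ e ∈ I.2.2, ∃ v ∈ e, v ∈ S

/-- The number of vertices. -/
def vert (I : Inst) : ℕ := I.1.toFinset.card

/-- A (deterministic) kernelization for `p-d-Hitting-Set` with at most `g k` vertices; the size of the kernel is bounded by a
polynomial in `k`. -/
structure IsKernel (d : ℕ) (g : ℕ → ℝ) (K : Inst → Inst) : Prop where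
  poly : Poly K
  wf : ∀ I, WF d I → WF d (K I)
  iff : ∀ I, WF d I → (Yes (K I) ↔ Yes I)
  vert : ∀ I, WF d I → (vert (K I) : ℝ) ≤ g I.2.1
  size : ∃ C : ℕ, ∀ I, WF d I → sz (K I) ≤ C * (I.2.1 + 1) ^ C

/-- The list of the values of a string of random bits. -/
def bits {L : ℕ} (w : Fin L → Bool) : List ℕ := List.ofFn fun i => if w i then 1 else 0

/-- A randomized kernelization for `p-d-Hitting-Set` with at most `g k` vertices: the algorithm reads the instance `I` and
`ℓ I` random bits; on a no-instance the output is always a no-instance; on a yes-instance the output is a yes-instance with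
probability at least `1 - 1 / (k + 1)`. -/
structure IsRandKernel (d : ℕ) (g : ℕ → ℝ) (ℓ : Inst → ℕ) (K : Inst × List ℕ → Inst) : Prop where
  poly : Poly K
  polyℓ : Poly ℓ
  wf : ∀ I, WF d I → ∀ w : Fin (ℓ I) → Bool, WF d (K (I, bits w))
  no : ∀ I, WF d I → ∀ w : Fin (ℓ I) → Bool, Yes (K (I, bits w)) → Yes I
  yes : ∀ I, WF d I → Yes I →
    (1 - 1 / ((I.2.1 : ℝ) + 1)) * (Fintype.card (Fin (ℓ I) → Bool) : ℝ) ≤
      (Nat.card {w : Fin (ℓ I) → Bool // Yes (K (I, bits w))} : ℝ)
  vert : ∀ I, WF d I → ∀ w : Fin (ℓ I) → Bool, (vert (K (I, bits w)) : ℝ) ≤ g I.2.1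
  size : ∃ C : ℕ, ∀ I, WF d I → ∀ w : Fin (ℓ I) → Bool, sz (K (I, bits w)) ≤ C * (I.2.1 + 1) ^ C

end KRN
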