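import Mathlib

/-!
# KRN NUE: the exponent tends to one

For `s = ⌈4 / ε⌉ + 2` and `d ≥ 4 * (2 * s + 2) / ε` the exponent is at most `1 + ε / 2`, and the power of the logarithm is at most
`C' * (k + 1) ^ (ε / 2)` (`isLittleO_log_rpow_atTop` / `Real.log_le_rpow_div`, or `Real.add_one_le_exp`).
-/

set_option autoImplicit false

namespace KRN

private theorem NUE_log (η : ℝ) (hη : 0 < η) (C : ℕ) (x : ℝ) (hx : 1 ≤ x) :
    (1 + Real.log x) ^ C ≤ (1 + 1 / (η / (C + 1))) ^ C * x ^ η := by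
  have hC : (0 : ℝ) < C + 1 := by positivity
  have hδ : 0 < η / (C + 1) := div_pos hη hC
  have hx0 : (0 : ℝ) ≤ x := by linarith
  have h1 : Real.log x ≤ x ^ (η / (C + 1)) / (η / (C + 1)) := Real.log_le_rpow_div hx0 hδ
  have h2 : (1 : ℝ) ≤ x ^ (η / (C + 1)) := Real.one_le_rpow hx hδ.le
  have h3 : 1 + Real.log x ≤ (1 + 1 / (η / (C + 1))) * x ^ (η / (C + 1)) := by
    have h4 : x ^ (η / (C + 1)) / (η / (C + 1)) = 1 / (η / (C + 1)) * x ^ (η / (C + 1)) := by ring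
    rw [h4] at h1
    nlinarith
  have h0 : 0 ≤ 1 + Real.log x := by
    have := Real.log_nonneg hx
    linarith
  calc (1 + Real.log x) ^ C ≤ ((1 + 1 / (η / (C + 1))) * x ^ (η / (C + 1))) ^ C :=
        pow_le_pow_left₀ h0 h3 C
    _ = (1 + 1 / (η / (C + 1))) ^ C * x ^ (η / (C + 1) * C) := by
        rw [mul_pow, ← Real.rpow_natCast (x ^ (η / (C + 1))) C, ← Real.rpow_mul hx0]
    _ ≤ (1 + 1 / (η / (C + 1))) ^ C * x ^ η := by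
        apply mul_le_mul_of_nonneg_left _ (by positivity)
        apply Real.rpow_le_rpow_of_exponent_le hx
        rw [div_mul_eq_mul_div, div_le_iff₀ hC]
        nlinarith

theorem nue (ε : ℝ) (hε : 0 < ε) : ∃ s : ℕ, 2 ≤ s ∧ ∃ d₀ : ℕ, ∀ d : ℕ, d₀ ≤ d → ∀ C : ℕ, ∃ C' : ℝ, ∀ k : ℕ,
    C * ((k : ℝ) + 1) ^ ((s : ℝ) / (s - 1) + (2 * s + 2) / d) * (1 + Real.log ((k : ℝ) + 1)) ^ C ≤
      C' * ((k : ℝ) + 1) ^ (1 + ε) := by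
  refine ⟨⌈4 / ε⌉₊ + 2, by omega, ?_⟩
  set s : ℕ := ⌈4 / ε⌉₊ + 2 with hs
  have hs1 : 4 / ε ≤ (s : ℝ) - 1 := by
    have h1 : 4 / ε ≤ (⌈4 / ε⌉₊ : ℝ) := Nat.le_ceil _
    have h2 : (s : ℝ) = (⌈4 / ε⌉₊ : ℝ) + 2 := by rw [hs]; push_cast; ring
    linarith
  have hs0 : 0 < (s : ℝ) - 1 := lt_of_lt_of_le (by positivity) hs1
  have hs2 : (s : ℝ) / (s - 1) ≤ 1 + ε / 4 := by
    rw [div_le_iff₀ hs0]
    have h1 : 4 ≤ ((s : ℝ) - 1) * ε := by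
      rwa [div_le_iff₀ hε] at hs1
    nlinarith
  refine ⟨⌈4 * (2 * (s : ℝ) + 2) / ε⌉₊ + 1, ?_⟩
  intro d hd C
  have hd1 : 4 * (2 * (s : ℝ) + 2) / ε ≤ (d : ℝ) := by
    have h1 : 4 * (2 * (s : ℝ) + 2) / ε ≤ (⌈4 * (2 * (s : ℝ) + 2) / ε⌉₊ : ℝ) := Nat.le_ceil _
    have h2 : ((⌈4 * (2 * (s : ℝ) + 2) / ε⌉₊ + 1 : ℕ) : ℝ) ≤ (d : ℝ) := Nat.cast_le.mpr hd
    push_cast at h2
    linarith
  have hd0 : 0 < (d : ℝ) := lt_of_lt_of_le (by positivity) hd1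
  have hd2 : (2 * (s : ℝ) + 2) / d ≤ ε / 4 := by
    rw [div_le_iff₀ hd0]
    rw [div_le_iff₀ hε] at hd1
    nlinarith
  refine ⟨C * (1 + 1 / (ε / 2 / (C + 1))) ^ C, ?_⟩
  intro k
  have hx : (1 : ℝ) ≤ (k : ℝ) + 1 := by
    have : (0 : ℝ) ≤ (k : ℝ) := Nat.cast_nonneg k
    linarith
  have hx0 : (0 : ℝ) < (k : ℝ) + 1 := by linarith
  have h1 : ((k : ℝ) + 1) ^ ((s : ℝ) / (s - 1) + (2 * s + 2) / d) ≤ ((k : ℝ) + 1) ^ (1 + ε / 2) :=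
    Real.rpow_le_rpow_of_exponent_le hx (by linarith)
  have h2 := NUE_log (ε / 2) (by linarith) C ((k : ℝ) + 1) hx
  have h3 : ((k : ℝ) + 1) ^ (1 + ε) = ((k : ℝ) + 1) ^ (1 + ε / 2) * ((k : ℝ) + 1) ^ (ε / 2) := by
    rw [← Real.rpow_add hx0]
    congr 1
    ring
  have hl : 0 ≤ (1 + Real.log ((k : ℝ) + 1)) ^ C := by
    have := Real.log_nonneg hx
    positivity
  calc C * ((k : ℝ) + 1) ^ ((s : ℝ) / (s - 1) + (2 * s + 2) / d) * (1 + Real.log ((k : ℝ) + 1)) ^ C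
      ≤ C * ((k : ℝ) + 1) ^ (1 + ε / 2) * ((1 + 1 / (ε / 2 / (C + 1))) ^ C * ((k : ℝ) + 1) ^ (ε / 2)) := by
        apply mul_le_mul _ h2 hl (by positivity)
        exact mul_le_mul_of_nonneg_left h1 (Nat.cast_nonneg C)
    _ = C * (1 + 1 / (ε / 2 / (C + 1))) ^ C * ((k : ℝ) + 1) ^ (1 + ε) := by
        rw [h3]; ring

end KRN
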