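import Pool.Agent.KRN.PAR
import Pool.Agent.KRN.FPO
import Pool.Agent.KRN.CNP

/-!
# KRN PPA: the kernels of index instances are computed in polynomial time

`kerR`: `pfrm` with the context `x : IInst × List ℕ`; `max (QQ t n) 2 = QQ t n` (a prime).
`kerD`: the powers have fixed exponents `s`, `d`, `s - 1`, `s + 1`; `seedN R ρ d` by induction on `d`; `code p …` with a prime `p`:
`max p 2 = p`.
-/

set_option autoImplicit false

namespace KRN

theorem pmm {α : Type} [Dat α] {f : α → ℕ} (hf : Poly f) : Poly (fun x => mm (f x)) :=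
  padd (plog (padd hf (Poly.const 1))) (Poly.const 2)

section

variable {α : Type} [Dat α]

private theorem ppa_MM {f : α → ℕ} (hf : Poly f) : Poly (fun x => MM (f x)) :=
  pcp (pmm hf) (pmul (Poly.const 4) (padd hf (Poly.const 1)))

private theorem ppa_rr {f : α → ℕ} (hf : Poly f) : Poly (fun x => rr (f x)) :=
  padd (plog hf) (Poly.const 1)

private theorem ppa_QQ {f g : α → ℕ} (hf : Poly f) (hg : Poly g) : Poly (fun x => QQ (f x) (g x)) :=
  pnpr (pmul (ppow (padd hf (Poly.const 1)) 2) (ppa_rr hg))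

private theorem ppa_le2 {f : α → ℕ} (hf : Poly f) : Poly (fun x => le2 (f x)) :=
  padd (plog hf) (Poly.const 1)

private theorem ppa_up2 {f : α → ℕ} (hf : Poly f) : Poly (fun x => up2 (f x)) :=
  pcp (ppa_le2 hf) (pmul (Poly.const 2) hf)

private theorem ppa_PD (d : ℕ) {f : α → ℕ} (hf : Poly f) : Poly (fun x => PD d (f x)) :=
  pnpr (pmul (ppow (pmul (Poly.const 2) (padd hf (Poly.const 1))) 2) (Poly.const (d + 1)))

private theorem ppa_MD (s : ℕ) {f : α → ℕ} (hf : Poly f) : Poly (fun x => MD s (f x)) := by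
  have h1 : Poly (fun x => (2 * (f x + 1)) ^ s) :=
    ppow (pmul (Poly.const 2) (padd hf (Poly.const 1))) s
  refine pheadD (pfilter (p := fun x M => (2 * (f x + 1)) ^ s ≤ M ^ (s - 1))
    (prange (padd h1 (Poly.const 1))) ?_) (Poly.const 0)
  exact dle (Poly.comp h1 Poly.fst) (ppow Poly.snd (s - 1))

private theorem ppa_RD (d s : ℕ) {f : α → ℕ} (hf : Poly f) : Poly (fun x => RD d s (f x)) := by
  have h1 : Poly (fun x => PD d (f x) ^ (s + 1)) := ppow (ppa_PD d hf) (s + 1)
  refine pheadD (pfilter (p := fun x R => PD d (f x) ^ (s + 1) ≤ R ^ d)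
    (prange (padd h1 (Poly.const 1))) ?_) (Poly.const 0)
  exact dle (Poly.comp h1 Poly.fst) (ppow Poly.snd d)

private theorem ppa_seedN {R : α → ℕ} {ρ : α → List ℕ} (hR : Poly R) (hρ : Poly ρ) (j : ℕ) :
    Poly (fun x => seedN (R x) (ρ x) j) := by
  induction j with
  | zero => exact Poly.const 0
  | succ j ih => exact padd ih (pmul (pgetD hρ (Poly.const j) (Poly.const 0)) (ppow hR j))

private theorem ppa_buc {p s r M N u : α → ℕ} (hp : Poly p) (hs : Poly s) (hr : Poly r)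
    (hM : Poly M) (hN : Poly N) (hu : Poly u) (hp2 : ∀ x, 2 ≤ p x) :
    Poly (fun x => buc (p x) (s x) (r x) (M x) (N x) (u x)) := by
  have h1 := pcode hp hr hu (pmod hN hp)
  have h2 := pcode hp hs (pdiv hN hp) h1
  have h3 := pmod h2 hM
  have e : ∀ x, max (p x) 2 = p x := fun x => max_eq_left (hp2 x)
  simp only [e] at h3
  exact h3

end

theorem pkerR (d : ℕ) : Poly (kerR d) := by
  have hn : Poly (fun x : IInst × List ℕ => x.1.1) := pfst Poly.fst
  have hk : Poly (fun x : IInst × List ℕ => x.1.2.1) := pfst (psnd Poly.fst)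
  have hE : Poly (fun x : IInst × List ℕ => x.1.2.2) := psnd (psnd Poly.fst)
  have hm := pmm hk
  have hM := ppa_MM hk
  have ht := pmul (Poly.const (α := IInst × List ℕ) 2) hm
  have hQ := ppa_QQ ht hn
  have hMt := pmul hM ht
  have hhh : Poly (fun z : (IInst × List ℕ) × List ℕ × ℕ =>
      hval z.1.2 (mm z.1.1.2.1) (MM z.1.1.2.1) z.2.2) :=
    phval (psnd Poly.fst) (pmm (pfst (psnd (pfst Poly.fst)))) (ppa_MM (pfst (psnd (pfst Poly.fst))))
      (psnd Poly.snd)
  have h := toHS_poly (pfrm d (hh := fun (x : IInst × List ℕ) _ u =>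
      hval x.2 (mm x.1.2.1) (MM x.1.2.1) u) hhh (Poly.const 1) hM ht hk hQ (ppa_rr hn)
    (ppa_le2 hQ) (ppa_up2 hQ) (ppa_le2 hMt) (ppa_up2 hMt) hE)
  have e : ∀ x : IInst × List ℕ, max (QQ (2 * mm x.1.2.1) x.1.1) 2 = QQ (2 * mm x.1.2.1) x.1.1 :=
    fun x => max_eq_left (QQ_spec _ _).1.two_le
  simp only [e] at h
  exact h

theorem pkerD (d s : ℕ) : Poly (kerD d s) := by
  have hn : Poly (fun x : IInst => x.1) := Poly.fst
  have hk : Poly (fun x : IInst => x.2.1) := pfst Poly.snd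
  have hE : Poly (fun x : IInst => x.2.2) := psnd Poly.snd
  have hM := ppa_MD s hk
  have hR := ppa_RD d s hk
  have ht : Poly (fun _ : IInst => s - 1) := Poly.const (s - 1)
  have hQ := ppa_QQ ht hn
  have hMt := pmul hM ht
  have hk' : Poly (fun z : IInst × List ℕ × ℕ => z.1.2.1) := pfst (psnd Poly.fst)
  have hp : Poly (fun z : IInst × List ℕ × ℕ => PD d z.1.2.1) := ppa_PD d hk'
  have hN : Poly (fun z : IInst × List ℕ × ℕ => seedN (RD d s z.1.2.1) z.2.1 d) :=
    ppa_seedN (ppa_RD d s hk') (pfst Poly.snd) d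
  have hhh : Poly (fun z : IInst × List ℕ × ℕ =>
      buc (PD d z.1.2.1) s d (MD s z.1.2.1) (seedN (RD d s z.1.2.1) z.2.1 d) z.2.2) :=
    ppa_buc hp (Poly.const s) (Poly.const d) (ppa_MD s hk') hN (psnd Poly.snd)
      (fun z => (npr_spec _).1.two_le)
  have h := toHS_poly (pfrm d (hh := fun (x : IInst) ρ u =>
      buc (PD d x.2.1) s d (MD s x.2.1) (seedN (RD d s x.2.1) ρ d) u) hhh hR hM ht hk hQ (ppa_rr hn)
    (ppa_le2 hQ) (ppa_up2 hQ) (ppa_le2 hMt) (ppa_up2 hMt) hE)
  have e : ∀ x : IInst, max (QQ (s - 1) x.1) 2 = QQ (s - 1) x.1 :=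
    fun x => max_eq_left (QQ_spec _ _).1.two_le
  simp only [e] at h
  exact h

end KRN
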