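import Pool.Agent.KRN.ASB
import Pool.Agent.KRN.PPA
import Pool.Agent.KRN.PRB
import Pool.Agent.KRN.PRC
import Pool.Agent.KRN.SZJ
import Pool.Agent.KRN.FAM
import Pool.Agent.KRN.FA2
import Pool.Agent.KRN.NUD
import Pool.Agent.KRN.NUE

/-!
# KRN FND: the deterministic kernelizations
-/

set_option autoImplicit false

namespace KRN

/-- Index instances as produced by the preliminary kernel. -/
structure GoodI (d : ℕ) (J : IInst) : Prop where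
  n : J.1 ≤ d * (J.2.1 + 1) ^ d
  m : J.2.2.length ≤ (J.2.1 + 1) ^ d
  e : ∀ e ∈ J.2.2, e ≠ [] ∧ e.length ≤ d ∧ ∀ u ∈ e, u < J.1

theorem goodI_pre (d : ℕ) (hd : 3 ≤ d) (I : Inst) (hI : WF d I) : GoodI d (pre d I) := by
  obtain ⟨h1, h2, h3, h4, -⟩ := pre_spec d (by omega) I hI
  exact ⟨by rw [h1]; exact h2, by rw [h1]; exact h3, h4⟩

theorem PD_spec (d k : ℕ) : (PD d k).Prime ∧ (2 * (k + 1)) ^ 2 * (d + 1) < PD d k := by
  have h := npr_spec ((2 * (k + 1)) ^ 2 * (d + 1))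
  exact ⟨h.1, h.2.1⟩

theorem le_PD_pow (d k n : ℕ) (hn : n ≤ d * (k + 1) ^ d) : n ≤ PD d k ^ d := by
  have h := (PD_spec d k).2
  refine hn.trans ?_
  have h1 : 4 * (k + 1) ≤ PD d k := by
    have h2 : (2 * (k + 1)) ^ 2 * (d + 1) = 4 * (k + 1) * ((k + 1) * (d + 1)) := by ring
    have h3 : 4 * (k + 1) * 1 ≤ 4 * (k + 1) * ((k + 1) * (d + 1)) :=
      Nat.mul_le_mul_left _ (Nat.mul_pos (by omega) (by omega))
    omega
  calc d * (k + 1) ^ d ≤ 4 ^ d * (k + 1) ^ d := Nat.mul_le_mul_right _ (Nat.lt_pow_self (by norm_num)).le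
    _ = (4 * (k + 1)) ^ d := (mul_pow _ _ _).symm
    _ ≤ PD d k ^ d := Nat.pow_le_pow_left h1 d

theorem goodD (d s : ℕ) (hs : 2 ≤ s) (J : IInst) (hJ : GoodI d J) :
    Good d (fun ρ u => buc (PD d J.2.1) s d (MD s J.2.1) (seedN (RD d s J.2.1) ρ d) u) (RD d s J.2.1) (MD s J.2.1) (s - 1)
      (QQ (s - 1) J.1) (rr J.1) (le2 (QQ (s - 1) J.1)) (up2 (QQ (s - 1) J.1))
      (le2 (MD s J.2.1 * (s - 1))) (up2 (MD s J.2.1 * (s - 1))) J.1 J.2.2 := by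
  have hQ := QQ_spec (s - 1) J.1
  have hM := MD_spec s J.2.1 hs
  have h0 : 1 ≤ MD s J.2.1 * (s - 1) := Nat.mul_pos hM.1 (by omega)
  exact {
    hM := fun ρ _ u _ => Nat.mod_lt _ hM.1
    hQ := hQ.1
    hn := le_QQ_pow _ _
    ht := hQ.2.1
    h1 := (up2_eq hQ.1.one_lt.le).1
    hQ1 := (up2_eq hQ.1.one_lt.le).2.1
    h2 := (up2_eq h0).1
    hM2 := (up2_eq h0).2.1
    hE := hJ.e }

theorem kerD_yes (d s : ℕ) (hd : 3 ≤ d) (hs : 2 ≤ s) (J : IInst) (hJ : GoodI d J) (hY : YesI J) : Yes (kerD d s J) := by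
  obtain ⟨S, hS, hk, hE⟩ := hY
  have hP := PD_spec d J.2.1
  have hM := MD_spec s J.2.1 hs
  have hR := RD_spec d s J.2.1 (by omega)
  have h1 : MD s J.2.1 ≤ PD d J.2.1 := by
    have h2 : (2 * (J.2.1 + 1)) ^ 2 * 1 ≤ (2 * (J.2.1 + 1)) ^ 2 * (d + 1) := Nat.mul_le_mul_left _ (by omega)
    omega
  have h2 : J.2.1 ^ 2 * d < PD d J.2.1 := by
    have h3 : J.2.1 ^ 2 * d ≤ (2 * (J.2.1 + 1)) ^ 2 * (d + 1) :=
      Nat.mul_le_mul (Nat.pow_le_pow_left (by omega) 2) (by omega)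
    omega
  obtain ⟨N, hN, hl⟩ := fam (PD d J.2.1) d s J.2.1 (MD s J.2.1) hP.1 hs hM.1 h1 h2 hM.2.1 S
    (fun u hu => lt_of_lt_of_le (hS u hu) (le_PD_pow d J.2.1 J.1 hJ.n)) hk
  obtain ⟨ρ, hρ1, hρ2, hρ3⟩ := seed_surj (RD d s J.2.1) d N (lt_of_lt_of_le hN hR.2.1)
  have h := ker_yes (k := J.2.1) hd (goodD d s hs J hJ) ρ (mem_tuples.mpr ⟨hρ1, hρ2⟩) S hk hE (by
    intro g
    change (S.filter fun u => buc (PD d J.2.1) s d (MD s J.2.1) (seedN (RD d s J.2.1) ρ d) u = g).card ≤ s - 1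
    rw [hρ3]
    exact hl g)
  exact h

theorem kerD_wf (d s : ℕ) (hd : 3 ≤ d) (hs : 2 ≤ s) (J : IInst) (hJ : GoodI d J) : WF d (kerD d s J) := by
  have h := ker_wf hd (goodD d s hs J hJ) J.2.1
  exact h

theorem kerD_no (d s : ℕ) (hd : 3 ≤ d) (hs : 2 ≤ s) (J : IInst) (hJ : GoodI d J) (h : Yes (kerD d s J)) : YesI J := by
  have h1 := ker_no (k := J.2.1) hd (goodD d s hs J hJ) h
  exact h1

theorem kerD_vert (d s : ℕ) (hd : 3 ≤ d) (hs : 2 ≤ s) (J : IInst) (hJ : GoodI d J) :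
    vert (kerD d s J) ≤ 2 * NB d (RD d s J.2.1) (MD s J.2.1) (s - 1) (QQ (s - 1) J.1) (le2 (QQ (s - 1) J.1))
      (le2 (MD s J.2.1 * (s - 1))) := by
  have h := ker_vert hd (goodD d s hs J hJ) J.2.1
  exact h

theorem kerD_size (d s : ℕ) : ∃ C : ℕ, ∀ J : IInst, GoodI d J → sz (kerD d s J) ≤ C * (J.2.1 + 1) ^ C := by
  obtain ⟨C₁, hC₁⟩ := szJ d
  obtain ⟨C₂, hC₂⟩ := Poly.size_bound (pkerD d s)
  obtain ⟨D, hD⟩ := comp_bound C₁ C₂
  exact ⟨D, fun J hJ => (hC₂ J).trans (hD _ _ (hC₁ J hJ.n hJ.m (fun e he => (hJ.e e he).2)))⟩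

/-- The deterministic kernelization. -/
def kernD (d s : ℕ) (I : Inst) : Inst := kerD d s (pre d I)

theorem deterministic (d s : ℕ) (hd : 3 ≤ d) (hs : 2 ≤ s) : ∃ C : ℕ,
    IsKernel d (fun k => C * ((k : ℝ) + 1) ^ ((s : ℝ) / (s - 1) + (2 * s + 2) / d) * (1 + Real.log ((k : ℝ) + 1)) ^ C)
      (kernD d s) := by
  obtain ⟨C, hC⟩ := nud d s (by omega) hs
  obtain ⟨D, hD⟩ := kerD_size d s
  refine ⟨C, ?_⟩
  refine ⟨?_, ?_, ?_, ?_, ?_⟩
  · exact Poly.comp (g := kerD d s) (f := pre d) (pkerD d s) (ppre d)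
  · intro I hI
    exact kerD_wf d s hd hs (pre d I) (goodI_pre d hd I hI)
  · intro I hI
    have hp := (pre_spec d (by omega) I hI).2.2.2.2
    constructor
    · intro h
      exact hp.mp (kerD_no d s hd hs (pre d I) (goodI_pre d hd I hI) h)
    · intro h
      exact kerD_yes d s hd hs (pre d I) (goodI_pre d hd I hI) (hp.mpr h)
  · intro I hI
    have h := kerD_vert d s hd hs (pre d I) (goodI_pre d hd I hI)
    have h3 := hC (pre d I).2.1 (pre d I).1 (goodI_pre d hd I hI).n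
    have h5 : (vert (kernD d s I) : ℝ) ≤ ((2 * NB d (RD d s (pre d I).2.1) (MD s (pre d I).2.1) (s - 1)
      (QQ (s - 1) (pre d I).1) (le2 (QQ (s - 1) (pre d I).1)) (le2 (MD s (pre d I).2.1 * (s - 1))) : ℕ) : ℝ) :=
      Nat.cast_le.mpr h
    refine h5.trans ?_
    push_cast
    refine h3.trans (le_of_eq ?_)
    rw [(pre_spec d (by omega) I hI).1]
  · refine ⟨D, fun I hI => ?_⟩
    calc sz (kernD d s I) ≤ D * ((pre d I).2.1 + 1) ^ D := hD (pre d I) (goodI_pre d hd I hI)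
      _ = D * (I.2.1 + 1) ^ D := by rw [(pre_spec d (by omega) I hI).1]

theorem near_linear (ε : ℝ) (hε : 0 < ε) : ∃ d₀ : ℕ, ∀ d : ℕ, d₀ ≤ d → ∃ (C : ℝ) (K : Inst → Inst),
    IsKernel d (fun k => C * ((k : ℝ) + 1) ^ (1 + ε)) K := by
  obtain ⟨s, hs, d₀, hd₀⟩ := nue ε hε
  refine ⟨max d₀ 3, fun d hd => ?_⟩
  obtain ⟨C, hC⟩ := deterministic d s (le_trans (le_max_right _ _) hd) hs
  obtain ⟨C', hC'⟩ := hd₀ d (le_trans (le_max_left _ _) hd) C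
  exact ⟨C', kernD d s, hC.poly, hC.wf, hC.iff, fun I hI => (hC.vert I hI).trans (hC' I.2.1), hC.size⟩

end KRN
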