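import Pool.Agent.KRN.PAR
import Pool.Agent.KRN.BOX

/-!
# KRN NUR: the number of vertices of the randomized kernel

`mm k ≤ log₂ (k + 1) + 2`, `MM k ≤ 4 * (k + 1)`, `rr n ≤ log₂ n + 1 = O(1 + log (k + 1))` for `n ≤ d * (k + 1) ^ d`,
`QQ ≤ 2 * (2 * mm k + 1) ^ 2 * rr n + 2`, `2 ^ le2 x ≤ 2 * x`, `le2 x ≤ 1 + x`.  So `NB ≤ C * (k + 1) * (1 + log (k + 1)) ^ C`.
Put `L = 1 + Real.log (k + 1) ≥ 1`; bound every factor by `c * L` (`Nat.log 2 x ≤ Real.log x / Real.log 2`, `1 / Real.log 2 ≤ 2`).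
-/

set_option autoImplicit false

namespace KRN

private theorem nur_log (x : ℕ) (hx : 1 ≤ x) : (Nat.log 2 x : ℝ) ≤ 2 * Real.log x := by
  have h1 : (2 : ℝ) ^ Nat.log 2 x ≤ x := by exact_mod_cast Nat.pow_log_le_self 2 (by omega)
  have h2 : (Nat.log 2 x : ℝ) * Real.log 2 ≤ Real.log x := by
    rw [← Real.log_pow]
    exact Real.log_le_log (by positivity) h1
  have h3 : (0.5 : ℝ) ≤ Real.log 2 := by
    have := Real.log_two_gt_d9
    linarith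
  have h4 : (0 : ℝ) ≤ Nat.log 2 x := Nat.cast_nonneg _
  nlinarith

private theorem nur_le2 (x : ℕ) (hx : 1 ≤ x) : 2 ^ le2 x ≤ 2 * x := by
  have h := up2_eq hx
  rw [← h.1]
  exact h.2.2

theorem nur (d : ℕ) : ∃ C : ℕ, ∀ k n : ℕ, n ≤ d * (k + 1) ^ d →
    (2 * NB d 1 (MM k) (2 * mm k) (QQ (2 * mm k) n) (le2 (QQ (2 * mm k) n)) (le2 (MM k * (2 * mm k))) : ℝ) ≤
      C * ((k : ℝ) + 1) * (1 + Real.log ((k : ℝ) + 1)) ^ C := by
  obtain ⟨q, hq⟩ : ∃ q : ℕ, q = 200 * d + 52 := ⟨_, rfl⟩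
  obtain ⟨A, hA⟩ : ∃ A : ℕ, A = 2 * (4 * d * q ^ 2 + 4 * q ^ 2 + 3 * d + 4 * q * (8 * q ^ 2 + 6) + 482) :=
    ⟨_, rfl⟩
  refine ⟨A + 9, fun k n hn => ?_⟩
  set K : ℝ := (k : ℝ) + 1 with hK
  set L : ℝ := 1 + Real.log K with hL
  have hK1 : 1 ≤ K := by
    rw [hK]
    have : (0 : ℝ) ≤ k := Nat.cast_nonneg k
    linarith
  have hlogK : 0 ≤ Real.log K := Real.log_nonneg hK1
  have hL1 : 1 ≤ L := by linarith
  have hkK : ((k + 1 : ℕ) : ℝ) = K := by push_cast; rfl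
  -- mm
  have hmm : (mm k : ℝ) ≤ 2 * L := by
    unfold mm
    push_cast
    have := nur_log (k + 1) (by omega)
    rw [hkK] at this
    linarith
  have ht : ((2 * mm k : ℕ) : ℝ) ≤ 4 * L := by
    push_cast
    linarith
  have ht2 : 4 ≤ 2 * mm k := by unfold mm; omega
  -- rr
  have hrr : (rr n : ℝ) ≤ (4 * d + 1) * L := by
    unfold rr
    push_cast
    rcases Nat.eq_zero_or_pos n with h0 | h0
    · subst h0
      rw [Nat.log_zero_right]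
      push_cast
      have : (0 : ℝ) ≤ d := Nat.cast_nonneg d
      nlinarith
    · have h1 := nur_log n h0
      have hd0 : 1 ≤ d := by
        rcases Nat.eq_zero_or_pos d with h | h
        · subst h
          simp at hn
          omega
        · exact h
      have h2 : (n : ℝ) ≤ d * K ^ d := by
        rw [← hkK]
        exact_mod_cast hn
      have hdR : (1 : ℝ) ≤ d := by exact_mod_cast hd0
      have h3 : Real.log n ≤ Real.log d + d * Real.log K := by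
        have h4 : Real.log (d * K ^ d) = Real.log d + d * Real.log K := by
          rw [Real.log_mul (by positivity) (by positivity), Real.log_pow]
        rw [← h4]
        exact Real.log_le_log (by exact_mod_cast h0) h2
      have h5 : Real.log d ≤ d := (Real.log_le_sub_one_of_pos (by linarith)).trans (by linarith)
      have h6 : (d : ℝ) * Real.log K ≤ d * L := by
        apply mul_le_mul_of_nonneg_left _ (by linarith)
        linarith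
      have h7 : (d : ℝ) ≤ d * L := le_mul_of_one_le_right (by linarith) hL1
      linarith
  -- Q
  obtain ⟨Q, hQd⟩ : ∃ Q : ℕ, Q = QQ (2 * mm k) n := ⟨_, rfl⟩
  have hQs := QQ_spec (2 * mm k) n
  rw [← hQd] at hQs ⊢
  have hQ1 : 1 ≤ Q := hQs.1.one_lt.le
  have hQ : (Q : ℝ) ≤ q * L ^ 3 := by
    have h1 : (Q : ℝ) ≤ 2 * ((((2 * mm k : ℕ) : ℝ) + 1) ^ 2 * (rr n : ℝ)) + 2 := by exact_mod_cast hQs.2.2
    have h2 : (((2 * mm k : ℕ) : ℝ) + 1) ^ 2 * (rr n : ℝ) ≤ (5 * L) ^ 2 * ((4 * d + 1) * L) := by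
      apply mul_le_mul _ hrr (Nat.cast_nonneg _) (by positivity)
      apply pow_le_pow_left₀ (by positivity)
      linarith
    have h3 : (1 : ℝ) ≤ L ^ 3 := one_le_pow₀ hL1
    rw [hq]
    push_cast
    nlinarith
  -- M
  have hM := MM_eq k
  obtain ⟨M, hMd⟩ : ∃ M : ℕ, M = MM k := ⟨_, rfl⟩
  rw [← hMd] at hM ⊢
  have hMK : (M : ℝ) ≤ 4 * K := by
    rw [← hkK]
    exact_mod_cast hM.2.2
  have hM1 : 1 ≤ M := by omega
  obtain ⟨t, htd⟩ : ∃ t : ℕ, t = 2 * mm k := ⟨_, rfl⟩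
  rw [← htd] at ht ht2 ⊢
  have hE1 : (le2 Q + 3) * 2 ^ le2 Q ≤ 8 * Q ^ 2 := by
    have h1 := nur_le2 Q hQ1
    have h2 : le2 Q ≤ Q := by
      unfold le2
      exact Nat.log_lt_self 2 (by omega)
    calc (le2 Q + 3) * 2 ^ le2 Q ≤ (4 * Q) * (2 * Q) := Nat.mul_le_mul (by omega) h1
      _ = 8 * Q ^ 2 := by ring
  have hMt1 : 1 ≤ M * t := Nat.mul_pos (by omega) (by omega)
  have hMt : ((M * t : ℕ) : ℝ) ≤ 16 * K * L := by
    push_cast
    calc (M : ℝ) * t ≤ (4 * K) * (4 * L) := mul_le_mul hMK ht (Nat.cast_nonneg _) (by linarith)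
      _ = 16 * K * L := by ring
  have hmu : (le2 (M * t) : ℝ) ≤ 11 * L := by
    unfold le2
    push_cast
    have h1 := nur_log (M * t) hMt1
    have h2 : Real.log ((M * t : ℕ) : ℝ) ≤ 5 * L := by
      have h3 : Real.log ((M * t : ℕ) : ℝ) ≤ Real.log (16 * K * L) :=
        Real.log_le_log (by exact_mod_cast hMt1) hMt
      have h4 : Real.log (16 * K * L) = Real.log 16 + Real.log K + Real.log L := by
        rw [Real.log_mul (by positivity) (by positivity), Real.log_mul (by norm_num) (by positivity)]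
      have h5 : Real.log 16 ≤ 3 := by
        have h6 : Real.log 16 = 4 * Real.log 2 := by
          rw [show (16 : ℝ) = 2 ^ 4 by norm_num, Real.log_pow]
          norm_num
        have := Real.log_two_lt_d9
        linarith
      have h7 : Real.log L ≤ L := (Real.log_le_sub_one_of_pos (by linarith)).trans (by linarith)
      linarith
    linarith
  have hE2 : (((le2 (M * t) + 3) * 2 ^ le2 (M * t) : ℕ) : ℝ) ≤ 448 * K * L ^ 2 := by
    have h1 : ((2 ^ le2 (M * t) : ℕ) : ℝ) ≤ 2 * (16 * K * L) := by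
      have : ((2 ^ le2 (M * t) : ℕ) : ℝ) ≤ 2 * ((M * t : ℕ) : ℝ) := by
        exact_mod_cast nur_le2 (M * t) hMt1
      linarith
    rw [Nat.cast_mul]
    calc ((le2 (M * t) + 3 : ℕ) : ℝ) * ((2 ^ le2 (M * t) : ℕ) : ℝ) ≤ (14 * L) * (2 * (16 * K * L)) := by
          apply mul_le_mul _ h1 (Nat.cast_nonneg _) (by linarith)
          push_cast
          linarith
      _ = 448 * K * L ^ 2 := by ring
  -- the terms
  have hq0 : (0 : ℝ) ≤ q := Nat.cast_nonneg q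
  have hd0 : (0 : ℝ) ≤ d := Nat.cast_nonneg d
  have hQ0 : (0 : ℝ) ≤ Q := Nat.cast_nonneg Q
  have hM0 : (0 : ℝ) ≤ M := Nat.cast_nonneg M
  have hKL : ∀ a b : ℕ, a ≤ b → L ^ a ≤ L ^ b := fun a b h => pow_le_pow_right₀ hL1 h
  have hL9 : (1 : ℝ) ≤ L ^ 9 := one_le_pow₀ hL1
  have hKL9 : 1 ≤ K * L ^ 9 := by nlinarith
  have c1 : (M : ℝ) * Q * Q ≤ 4 * q ^ 2 * (K * L ^ 9) := by
    calc (M : ℝ) * Q * Q ≤ (4 * K) * (q * L ^ 3) * (q * L ^ 3) := by gcongr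
      _ = 4 * q ^ 2 * (K * L ^ 6) := by ring
      _ ≤ 4 * q ^ 2 * (K * L ^ 9) :=
        mul_le_mul_of_nonneg_left (mul_le_mul_of_nonneg_left (hKL 6 9 (by norm_num)) (by linarith))
          (by positivity)
  have c2 : (M : ℝ) * Q * ((((le2 Q + 3) * 2 ^ le2 Q : ℕ) : ℝ) + t + 2) ≤
      4 * q * (8 * q ^ 2 + 6) * (K * L ^ 9) := by
    have h1 : (((le2 Q + 3) * 2 ^ le2 Q : ℕ) : ℝ) ≤ 8 * q ^ 2 * L ^ 6 := by
      calc (((le2 Q + 3) * 2 ^ le2 Q : ℕ) : ℝ) ≤ 8 * (Q : ℝ) ^ 2 := by exact_mod_cast hE1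
        _ ≤ 8 * (q * L ^ 3) ^ 2 := by gcongr
        _ = 8 * q ^ 2 * L ^ 6 := by ring
    have h2 : L ≤ L ^ 6 := by
      calc L = L ^ 1 := (pow_one L).symm
        _ ≤ L ^ 6 := hKL 1 6 (by norm_num)
    have h3 : (((le2 Q + 3) * 2 ^ le2 Q : ℕ) : ℝ) + t + 2 ≤ (8 * q ^ 2 + 6) * L ^ 6 := by
      nlinarith
    calc (M : ℝ) * Q * ((((le2 Q + 3) * 2 ^ le2 Q : ℕ) : ℝ) + t + 2)
        ≤ (4 * K) * (q * L ^ 3) * ((8 * q ^ 2 + 6) * L ^ 6) := by gcongr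
      _ = 4 * q * (8 * q ^ 2 + 6) * (K * L ^ 9) := by ring
  have c3 : ((M * t : ℕ) : ℝ) ≤ 16 * (K * L ^ 9) := by
    refine hMt.trans ?_
    have : L ≤ L ^ 9 := by
      calc L = L ^ 1 := (pow_one L).symm
        _ ≤ L ^ 9 := hKL 1 9 (by norm_num)
    nlinarith
  have c4 : (((le2 (M * t) + 3) * 2 ^ le2 (M * t) : ℕ) : ℝ) ≤ 448 * (K * L ^ 9) := by
    refine hE2.trans ?_
    have : L ^ 2 ≤ L ^ 9 := hKL 2 9 (by norm_num)
    nlinarith
  have c0 : (NB d 1 M t Q (le2 Q) (le2 (M * t)) : ℝ) = d * ((M : ℝ) * Q * Q) + (M : ℝ) * Q * Q + 3 * d +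
      (M : ℝ) * Q * ((((le2 Q + 3) * 2 ^ le2 Q : ℕ) : ℝ) + t + 2) +
      ((((le2 (M * t) + 3) * 2 ^ le2 (M * t) : ℕ) : ℝ) + ((M * t : ℕ) : ℝ) + 2) + ((M * t : ℕ) : ℝ) := by
    unfold NB
    push_cast
    ring
  rw [c0]
  have c5 : (d : ℝ) * ((M : ℝ) * Q * Q) ≤ d * (4 * q ^ 2 * (K * L ^ 9)) :=
    mul_le_mul_of_nonneg_left c1 hd0
  have c6 : (3 : ℝ) * d ≤ 3 * d * (K * L ^ 9) := le_mul_of_one_le_right (by linarith) hKL9
  have c7 : 2 * (d * ((M : ℝ) * Q * Q) + (M : ℝ) * Q * Q + 3 * d +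
      (M : ℝ) * Q * ((((le2 Q + 3) * 2 ^ le2 Q : ℕ) : ℝ) + t + 2) +
      ((((le2 (M * t) + 3) * 2 ^ le2 (M * t) : ℕ) : ℝ) + ((M * t : ℕ) : ℝ) + 2) + ((M * t : ℕ) : ℝ)) ≤
      (A : ℝ) * (K * L ^ 9) := by
    rw [hA]
    push_cast at c2 c3 c4 ⊢
    linarith
  refine c7.trans ?_
  have c8 : L ^ 9 ≤ L ^ (A + 9) := hKL 9 _ (by omega)
  push_cast
  calc (A : ℝ) * (K * L ^ 9) ≤ ((A : ℝ) + 9) * (K * L ^ (A + 9)) := by
        gcongr
        linarith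
    _ = ((A : ℝ) + 9) * K * L ^ (A + 9) := by ring

end KRN
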