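import Pool.Agent.KRN.UNV
import Pool.Agent.KRN.BOX
import Pool.Agent.KRN.NUR

/-!
# KRN NUN: the number of vertices of the kernel with advice

As NUR, with `RN d k ≤ 1 + (2 * d * (k + 1)) ^ (1 / d) ≤ C * (k + 1) ^ (1 / d)`.
`szadv`: the size of a list of `RN d k ^ d * nmax d k` numbers below `MM k`.
-/

set_option autoImplicit false

namespace KRN

private theorem nun_NB (d R M t Q μ₁ μ₂ : ℕ) (hR : 1 ≤ R) :
    NB d R M t Q μ₁ μ₂ ≤ R * NB d 1 M t Q μ₁ μ₂ := by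
  unfold NB
  obtain ⟨r, rfl⟩ : ∃ r, R = r + 1 := ⟨R - 1, by omega⟩
  have e : (r + 1) * (d * 1 * M * Q * Q + M * Q * Q + d * 1 + d * (1 + 1) +
      M * Q * ((μ₁ + 3) * 2 ^ μ₁ + t + 2) + ((μ₂ + 3) * 2 ^ μ₂ + M * t + 2) + M * t) =
      (d * (r + 1) * M * Q * Q + M * Q * Q + d * (r + 1) + d * (r + 1 + 1) +
      M * Q * ((μ₁ + 3) * 2 ^ μ₁ + t + 2) + ((μ₂ + 3) * 2 ^ μ₂ + M * t + 2) + M * t) +
      (r * (M * Q * Q) + r * d + r * (M * Q * ((μ₁ + 3) * 2 ^ μ₁ + t + 2)) +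
        r * ((μ₂ + 3) * 2 ^ μ₂ + M * t + 2) + r * (M * t)) := by ring
  rw [e]
  exact Nat.le_add_right _ _

private theorem nun_RN (d k : ℕ) (hd : 1 ≤ d) :
    (RN d k : ℝ) ≤ (2 * d + 1) * ((k : ℝ) + 1) ^ (1 / (d : ℝ)) := by
  obtain ⟨h1, -, h3⟩ := RN_spec d k hd
  have hk : (1 : ℝ) ≤ (k : ℝ) + 1 := by
    have : (0 : ℝ) ≤ k := Nat.cast_nonneg k
    linarith
  have hd' : (1 : ℝ) ≤ d := by exact_mod_cast hd
  set y : ℝ := ((k : ℝ) + 1) ^ (1 / (d : ℝ)) with hy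
  have hy1 : 1 ≤ y := Real.one_le_rpow hk (by positivity)
  have hyd : y ^ d = (k : ℝ) + 1 := by
    rw [hy, ← Real.rpow_natCast, ← Real.rpow_mul (by linarith), one_div,
      inv_mul_cancel₀ (by positivity), Real.rpow_one]
  have h4 : ((RN d k - 1 : ℕ) : ℝ) ≤ 2 * d * y := by
    by_contra hcon
    push Not at hcon
    have h5 : (2 * d * y) ^ d < ((RN d k - 1 : ℕ) : ℝ) ^ d :=
      pow_lt_pow_left₀ hcon (by positivity) (by omega)
    have h6 : ((RN d k - 1 : ℕ) : ℝ) ^ d < 2 * d * ((k : ℝ) + 1) := by exact_mod_cast h3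
    have h7 : (2 * d * y) ^ d = (2 * (d : ℝ)) ^ d * ((k : ℝ) + 1) := by rw [mul_pow, hyd]
    have h8 : (2 * (d : ℝ)) ≤ (2 * (d : ℝ)) ^ d := le_self_pow₀ (by linarith) (by omega)
    have h9 : 2 * (d : ℝ) * ((k : ℝ) + 1) ≤ (2 * (d : ℝ)) ^ d * ((k : ℝ) + 1) :=
      mul_le_mul_of_nonneg_right h8 (by linarith)
    linarith
  rw [Nat.cast_sub h1] at h4
  push_cast at h4
  nlinarith

theorem nun (d : ℕ) (hd : 1 ≤ d) : ∃ C : ℕ, ∀ k n : ℕ, n ≤ d * (k + 1) ^ d →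
    (2 * NB d (RN d k) (MM k) (2 * mm k) (QQ (2 * mm k) n) (le2 (QQ (2 * mm k) n)) (le2 (MM k * (2 * mm k))) : ℝ) ≤
      C * ((k : ℝ) + 1) ^ (1 + 1 / (d : ℝ)) * (1 + Real.log ((k : ℝ) + 1)) ^ C := by
  obtain ⟨C, hC⟩ := nur d
  refine ⟨(2 * d + 1) * C + C, fun k n hn => ?_⟩
  have h1 := hC k n hn
  have hk : (1 : ℝ) ≤ (k : ℝ) + 1 := by
    have : (0 : ℝ) ≤ k := Nat.cast_nonneg k
    linarith
  have hlog : 0 ≤ Real.log ((k : ℝ) + 1) := Real.log_nonneg hk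
  have hd' : (1 : ℝ) ≤ d := by exact_mod_cast hd
  have h2 := nun_RN d k hd
  have h3 := nun_NB d (RN d k) (MM k) (2 * mm k) (QQ (2 * mm k) n) (le2 (QQ (2 * mm k) n))
    (le2 (MM k * (2 * mm k))) (RN_spec d k hd).1
  have h4 : (NB d (RN d k) (MM k) (2 * mm k) (QQ (2 * mm k) n) (le2 (QQ (2 * mm k) n))
      (le2 (MM k * (2 * mm k))) : ℝ) ≤ (RN d k : ℝ) * (NB d 1 (MM k) (2 * mm k) (QQ (2 * mm k) n)
        (le2 (QQ (2 * mm k) n)) (le2 (MM k * (2 * mm k))) : ℝ) := by exact_mod_cast h3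
  set K : ℝ := (k : ℝ) + 1 with hK
  set L : ℝ := 1 + Real.log K with hL
  have hL1 : 1 ≤ L := by linarith
  have hy : K ^ (1 + 1 / (d : ℝ)) = K * K ^ (1 / (d : ℝ)) := by
    rw [Real.rpow_add (by linarith), Real.rpow_one]
  have hy0 : 0 ≤ K ^ (1 / (d : ℝ)) := by positivity
  have hC0 : (0 : ℝ) ≤ C := Nat.cast_nonneg C
  have hR0 : (0 : ℝ) ≤ RN d k := Nat.cast_nonneg _
  have h5 : (2 : ℝ) * (NB d (RN d k) (MM k) (2 * mm k) (QQ (2 * mm k) n) (le2 (QQ (2 * mm k) n))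
      (le2 (MM k * (2 * mm k))) : ℝ) ≤ (RN d k : ℝ) * (C * K * L ^ C) := by
    calc (2 : ℝ) * (NB d (RN d k) (MM k) (2 * mm k) (QQ (2 * mm k) n) (le2 (QQ (2 * mm k) n))
        (le2 (MM k * (2 * mm k))) : ℝ) ≤ (RN d k : ℝ) * (2 * (NB d 1 (MM k) (2 * mm k)
          (QQ (2 * mm k) n) (le2 (QQ (2 * mm k) n)) (le2 (MM k * (2 * mm k))) : ℝ)) := by linarith
      _ ≤ (RN d k : ℝ) * (C * K * L ^ C) := mul_le_mul_of_nonneg_left h1 hR0
  refine h5.trans ?_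
  have h6 : (0 : ℝ) ≤ C * K * L ^ C := by positivity
  have h7 : (RN d k : ℝ) * (C * K * L ^ C) ≤ ((2 * d + 1) * K ^ (1 / (d : ℝ))) * (C * K * L ^ C) :=
    mul_le_mul_of_nonneg_right h2 h6
  refine h7.trans ?_
  have h8 : L ^ C ≤ L ^ ((2 * d + 1) * C + C) := pow_le_pow_right₀ hL1 (Nat.le_add_left _ _)
  rw [hy]
  calc ((2 * d + 1) * K ^ (1 / (d : ℝ))) * (C * K * L ^ C)
      = ((2 * d + 1) * C) * (K * K ^ (1 / (d : ℝ))) * L ^ C := by ring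
    _ ≤ ((2 * d + 1) * C + C) * (K * K ^ (1 / (d : ℝ))) * L ^ ((2 * d + 1) * C + C) := by
        gcongr
        linarith
    _ = _ := by push_cast; ring

theorem szadv (d : ℕ) (hd : 1 ≤ d) : ∃ C : ℕ, ∀ (k : ℕ) (w : List ℕ), w.length = RN d k ^ d * nmax d k →
    (∀ x ∈ w, x < MM k) → sz w ≤ C * (k + 1) ^ C := by
  refine ⟨4 * d * (2 * d) ^ d + 1 + (2 * d + 1), fun k w hw hx => ?_⟩
  obtain ⟨h1, -, h3⟩ := RN_spec d k hd
  have hR : RN d k ≤ 2 * d * (k + 1) := by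
    rcases Nat.eq_zero_or_pos (RN d k - 1) with h | h
    · have : 1 ≤ 2 * d * (k + 1) := Nat.mul_pos (by omega) (by omega)
      omega
    · have : RN d k - 1 ≤ (RN d k - 1) ^ d := Nat.le_self_pow (by omega) _
      omega
  have hsz : sz w ≤ w.length * MM k + 1 := by
    rw [sz_list]
    have : (w.map sz).sum ≤ (w.map sz).length • MM k := by
      refine List.sum_le_card_nsmul _ _ ?_
      intro y hy
      rw [List.mem_map] at hy
      obtain ⟨x, hxw, rfl⟩ := hy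
      rw [sz_nat]
      exact hx x hxw
    rw [List.length_map, smul_eq_mul] at this
    omega
  have hM := (MM_eq k).2.2
  have hR2 : RN d k ^ d ≤ (2 * d) ^ d * (k + 1) ^ d := by
    rw [← mul_pow]
    exact Nat.pow_le_pow_left hR d
  have h4 : w.length * MM k ≤ ((2 * d) ^ d * (k + 1) ^ d * (d * (k + 1) ^ d)) * (4 * (k + 1)) := by
    rw [hw]
    unfold nmax
    exact Nat.mul_le_mul (Nat.mul_le_mul_right _ hR2) hM
  have h5 : ((2 * d) ^ d * (k + 1) ^ d * (d * (k + 1) ^ d)) * (4 * (k + 1)) =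
      (4 * d * (2 * d) ^ d) * (k + 1) ^ (2 * d + 1) := by ring
  have h6 : 1 ≤ (k + 1) ^ (2 * d + 1) := Nat.one_le_pow _ _ (by omega)
  have h7 : (k + 1) ^ (2 * d + 1) ≤ (k + 1) ^ (4 * d * (2 * d) ^ d + 1 + (2 * d + 1)) :=
    Nat.pow_le_pow_right (by omega) (Nat.le_add_left _ _)
  calc sz w ≤ (4 * d * (2 * d) ^ d) * (k + 1) ^ (2 * d + 1) + 1 := by omega
    _ ≤ (4 * d * (2 * d) ^ d + 1) * (k + 1) ^ (2 * d + 1) := by
        rw [add_mul, one_mul]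
        omega
    _ ≤ (4 * d * (2 * d) ^ d + 1 + (2 * d + 1)) *
        (k + 1) ^ (4 * d * (2 * d) ^ d + 1 + (2 * d + 1)) :=
        Nat.mul_le_mul (Nat.le_add_right _ _) h7

end KRN
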