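import Pool.Agent.KRN.PAN
import Pool.Agent.KRN.PPA

/-!
# KRN PPN: the kernel with advice is computed in polynomial time

As `pkerR`, `pkerD` in PPA: `pfrm`, `pgetD`, powers with fixed exponents, `seedN R ρ d` by induction on `d`.
-/

set_option autoImplicit false

namespace KRN

section

variable {α : Type} [Dat α]

private theorem ppn_MM {f : α → ℕ} (hf : Poly f) : Poly (fun x => MM (f x)) :=
  pcp (pmm hf) (pmul (Poly.const 4) (padd hf (Poly.const 1)))

private theorem ppn_rr {f : α → ℕ} (hf : Poly f) : Poly (fun x => rr (f x)) :=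
  padd (plog hf) (Poly.const 1)

private theorem ppn_QQ {f g : α → ℕ} (hf : Poly f) (hg : Poly g) : Poly (fun x => QQ (f x) (g x)) :=
  pnpr (pmul (ppow (padd hf (Poly.const 1)) 2) (ppn_rr hg))

private theorem ppn_le2 {f : α → ℕ} (hf : Poly f) : Poly (fun x => le2 (f x)) :=
  padd (plog hf) (Poly.const 1)

private theorem ppn_up2 {f : α → ℕ} (hf : Poly f) : Poly (fun x => up2 (f x)) :=
  pcp (ppn_le2 hf) (pmul (Poly.const 2) hf)

private theorem ppn_nmax (d : ℕ) {f : α → ℕ} (hf : Poly f) : Poly (fun x => nmax d (f x)) :=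
  pmul (Poly.const d) (ppow (padd hf (Poly.const 1)) d)

private theorem ppn_RN (d : ℕ) {f : α → ℕ} (hf : Poly f) : Poly (fun x => RN d (f x)) := by
  have h1 : Poly (fun x => 2 * d * (f x + 1)) :=
    pmul (Poly.const (2 * d)) (padd hf (Poly.const 1))
  refine pheadD (pfilter (p := fun x R => 2 * d * (f x + 1) ≤ R ^ d)
    (prange (padd h1 (Poly.const 1))) ?_) (Poly.const 0)
  have h2 : Poly (fun z : α × ℕ => 2 * d * (f z.1 + 1)) :=
    pmul (Poly.const (2 * d)) (padd (Poly.comp hf Poly.fst) (Poly.const 1))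
  exact dle h2 (ppow Poly.snd d)

private theorem ppn_seedN {R : α → ℕ} {ρ : α → List ℕ} (hR : Poly R) (hρ : Poly ρ) (j : ℕ) :
    Poly (fun x => seedN (R x) (ρ x) j) := by
  induction j with
  | zero => exact Poly.const 0
  | succ j ih => exact padd ih (pmul (pgetD hρ (Poly.const j) (Poly.const 0)) (ppow hR j))

end

theorem pkerN (d : ℕ) : Poly (kerN d) := by
  have hn : Poly (fun x : IInst × List ℕ => x.1.1) := pfst Poly.fst
  have hk : Poly (fun x : IInst × List ℕ => x.1.2.1) := pfst (psnd Poly.fst)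
  have hE : Poly (fun x : IInst × List ℕ => x.1.2.2) := psnd (psnd Poly.fst)
  have hm := pmm hk
  have hM := ppn_MM hk
  have hR := ppn_RN d hk
  have ht := pmul (Poly.const (α := IInst × List ℕ) 2) hm
  have hQ := ppn_QQ ht hn
  have hMt := pmul hM ht
  have hk' : Poly (fun z : (IInst × List ℕ) × List ℕ × ℕ => z.1.1.2.1) :=
    pfst (psnd (pfst Poly.fst))
  have hR' := ppn_RN d hk'
  have hM' := ppn_MM hk'
  have hN' := ppn_nmax d hk'
  have hS' : Poly (fun z : (IInst × List ℕ) × List ℕ × ℕ =>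
      seedN (RN d z.1.1.2.1) z.2.1 d) := ppn_seedN hR' (pfst Poly.snd) d
  have hhh : Poly (fun z : (IInst × List ℕ) × List ℕ × ℕ =>
      hN d z.1.1.2.1 (MM z.1.1.2.1) z.1.2 z.2.1 z.2.2) :=
    pmod (pgetD (psnd Poly.fst) (padd (pmul hS' hN') (psnd Poly.snd)) (Poly.const 0)) hM'
  have h := toHS_poly (pfrm d (hh := fun (x : IInst × List ℕ) ρ u =>
      hN d x.1.2.1 (MM x.1.2.1) x.2 ρ u) hhh hR hM ht hk hQ (ppn_rr hn)
    (ppn_le2 hQ) (ppn_up2 hQ) (ppn_le2 hMt) (ppn_up2 hMt) hE)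
  have e : ∀ x : IInst × List ℕ, max (QQ (2 * mm x.1.2.1) x.1.1) 2 = QQ (2 * mm x.1.2.1) x.1.1 :=
    fun x => max_eq_left (QQ_spec _ _).1.two_le
  simp only [e] at h
  exact h

end KRN
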