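import Pool.Agent.KRN.NTH

/-!
# KRN RND: random values are spread evenly

`n * m` random bits give the values `hval (bits w) m (2 ^ m) u`, `u < n`: the number with the binary digits
`w (u * m), …, w (u * m + m - 1)`; it is `< 2 ^ m` and determines these digits.
`rnd`: for a set `B ⊆ {0, …, n - 1}` with `2 * m + 1` elements the strings `w` for which the value is constant on `B` number at most
`2 ^ (n * m) / 2 ^ (2 * m * m)`: fix `b ∈ B`; `w` is determined by its restriction to the positions which do not belong to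
`B ∖ {b}`.  There are at most `k ^ (2 * m + 1)` such sets inside `S`, and `(k + 1) ^ (2 * m + 2) ≤ 2 ^ ((m - 1) * (2 * m + 2))`
`= 2 ^ (2 * m * m - 2)` because `2 * (k + 1) ≤ 2 ^ m`.
-/

set_option autoImplicit false

namespace KRN

/-- the loop of `hval` -/
private def rndG (r : ℕ → ℕ) (M : ℕ) : ℕ → ℕ
  | 0 => 0
  | j + 1 => min (2 * rndG r M j + r j) M

private lemma rndG_foldl (r : ℕ → ℕ) (M j : ℕ) :
    (List.range j).foldl (fun s b => min (2 * s + r b) M) 0 = rndG r M j := by
  induction j with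
  | zero => rfl
  | succ j ih => rw [List.range_succ, List.foldl_append, ih]; rfl

private lemma rndG_lt (r : ℕ → ℕ) (M : ℕ) (hr : ∀ j, r j ≤ 1) (j : ℕ) : rndG r M j < 2 ^ j := by
  induction j with
  | zero => simp [rndG]
  | succ j ih =>
    have h1 : rndG r M (j + 1) ≤ 2 * rndG r M j + r j := min_le_left _ _
    have h2 := hr j
    rw [pow_succ]
    omega

private lemma rndG_succ (r : ℕ → ℕ) (M : ℕ) (hr : ∀ j, r j ≤ 1) (j : ℕ) (hj : 2 ^ (j + 1) ≤ M) :
    rndG r M (j + 1) = 2 * rndG r M j + r j := by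
  have h1 := rndG_lt r M hr j
  have h2 := hr j
  rw [pow_succ] at hj
  exact min_eq_left (by omega)

private lemma rndG_inj (r r' : ℕ → ℕ) (M : ℕ) (hr : ∀ j, r j ≤ 1) (hr' : ∀ j, r' j ≤ 1) (j : ℕ)
    (hj : 2 ^ j ≤ M) (h : rndG r M j = rndG r' M j) : ∀ b < j, r b = r' b := by
  induction j with
  | zero => intro b hb; omega
  | succ j ih =>
    rw [rndG_succ r M hr j hj, rndG_succ r' M hr' j hj] at h
    have h1 := hr j
    have h2 := hr' j
    have h3 : r j = r' j := by omega
    have h4 : rndG r M j = rndG r' M j := by omega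
    have h5 : 2 ^ j ≤ M := (Nat.pow_le_pow_right (by norm_num) (Nat.le_succ j)).trans hj
    intro b hb
    rcases Nat.lt_succ_iff_lt_or_eq.1 hb with hb | rfl
    · exact ih h5 h4 b hb
    · exact h3

private lemma rnd_hval (w : List ℕ) (m M u : ℕ) :
    hval w m M u = rndG (fun b => w.getD (u * m + b) 0) M m := by
  unfold hval
  exact rndG_foldl (fun b => w.getD (u * m + b) 0) M m

private lemma rnd_bits_getD {L : ℕ} (w : Fin L → Bool) (i : ℕ) :
    (bits w).getD i 0 = if h : i < L then (if w ⟨i, h⟩ then 1 else 0) else 0 := by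
  unfold bits
  split_ifs with h hw
  · rw [List.getD_eq_getElem _ _ (by simpa using h)]
    simp [hw]
  · rw [List.getD_eq_getElem _ _ (by simpa using h)]
    simp [hw]
  · rw [List.getD_eq_default _ _ (by simpa using h)]

private lemma rnd_bits_le {L : ℕ} (w : Fin L → Bool) (i : ℕ) : (bits w).getD i 0 ≤ 1 := by
  rw [rnd_bits_getD]
  split_ifs <;> simp

theorem hval_lt {n m : ℕ} (w : Fin (n * m) → Bool) (u : ℕ) (hu : u < n) : hval (bits w) m (2 ^ m) u < 2 ^ m := by
  rw [rnd_hval]
  exact rndG_lt _ _ (fun j => rnd_bits_le w _) m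

/-- the rows of a bit string -/
private def rndE (n m : ℕ) : (Fin (n * m) → Bool) ≃ (Fin n → Fin m → Bool) :=
  (Equiv.arrowCongr finProdFinEquiv.symm (Equiv.refl Bool)).trans (Equiv.curry (Fin n) (Fin m) Bool)

private lemma rndE_apply {n m : ℕ} (w : Fin (n * m) → Bool) (u : Fin n) (b : Fin m) :
    rndE n m w u b = w (finProdFinEquiv (u, b)) := by
  simp [rndE, Equiv.curry, Function.curry, Equiv.arrowCongr]

private lemma rnd_row_eq {n m : ℕ} (w : Fin (n * m) → Bool) (u u' : Fin n)
    (h : hval (bits w) m (2 ^ m) u = hval (bits w) m (2 ^ m) u') : rndE n m w u = rndE n m w u' := by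
  rw [rnd_hval, rnd_hval] at h
  have h1 := rndG_inj _ _ (2 ^ m) (fun j => rnd_bits_le w _) (fun j => rnd_bits_le w _) m le_rfl h
  funext b
  rw [rndE_apply, rndE_apply]
  have h2 := h1 b b.2
  have key : ∀ v : Fin n, (bits w).getD ((v : ℕ) * m + b) 0
      = if w (finProdFinEquiv (v, b)) then 1 else 0 := by
    intro v
    have hlt : (v : ℕ) * m + b < n * m := by
      have h3 : (v : ℕ) + 1 ≤ n := v.2
      have h4 : ((v : ℕ) + 1) * m ≤ n * m := Nat.mul_le_mul_right m h3
      have h5 := b.2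
      nlinarith
    rw [rnd_bits_getD, dif_pos hlt]
    have e : (⟨(v : ℕ) * m + b, hlt⟩ : Fin (n * m)) = finProdFinEquiv (v, b) := by
      apply Fin.ext
      simp [finProdFinEquiv]
      ring
    rw [e]
  have h6 : (if w (finProdFinEquiv (u, b)) then 1 else 0)
      = if w (finProdFinEquiv (u', b)) then 1 else 0 := by
    rw [← key u, ← key u']
    exact h2
  by_cases hu : w (finProdFinEquiv (u, b)) <;> by_cases hu' : w (finProdFinEquiv (u', b)) <;>
    simp_all

private lemma rnd_const {n m : ℕ} (B : Finset (Fin n)) (hB : B.card = 2 * m + 1) :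
    (Finset.univ.filter fun f : Fin n → Fin m → Bool => ∀ u ∈ B, ∀ v ∈ B, f u = f v).card
      ≤ (2 ^ m) ^ (n - 2 * m) := by
  classical
  obtain ⟨b, hb⟩ : B.Nonempty := by
    rw [← Finset.card_pos]; omega
  have h1 : (Finset.univ.filter fun f : Fin n → Fin m → Bool => ∀ u ∈ B, ∀ v ∈ B, f u = f v).card
      ≤ Fintype.card ({u // u ∈ (B.erase b)ᶜ} → Fin m → Bool) := by
    rw [← Fintype.card_coe]
    refine Fintype.card_le_of_injective
      (fun f (u : {u // u ∈ (B.erase b)ᶜ}) => f.1 u.1) ?_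
    intro f g hfg
    apply Subtype.ext
    have hf := (Finset.mem_filter.1 f.2).2
    have hg := (Finset.mem_filter.1 g.2).2
    have hb' : b ∈ (B.erase b)ᶜ := by simp
    have e1 : f.1 b = g.1 b := congrFun hfg ⟨b, hb'⟩
    funext u
    by_cases hu : u ∈ (B.erase b)ᶜ
    · exact congrFun hfg ⟨u, hu⟩
    · have hu' : u ∈ B := by
        rw [Finset.mem_compl, not_not] at hu
        exact Finset.mem_of_mem_erase hu
      rw [hf u hu' b hb, hg u hu' b hb, e1]
  refine h1.trans ?_
  rw [Fintype.card_fun, Fintype.card_coe, Finset.card_compl, Finset.card_erase_of_mem hb, hB]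
  simp

theorem rnd (n m k : ℕ) (S : Finset ℕ) (hS : ∀ u ∈ S, u < n) (hk : S.card ≤ k) (hm : 2 * (k + 1) ≤ 2 ^ m) :
    Nat.card {w : Fin (n * m) → Bool // ∃ g, 2 * m < (S.filter fun u => hval (bits w) m (2 ^ m) u = g).card} * (k + 1) ≤
      2 ^ (n * m) := by
  classical
  set S' : Finset (Fin n) := Finset.univ.filter fun u : Fin n => (u : ℕ) ∈ S with hS'
  have hSS : ∀ P : ℕ → Prop, [DecidablePred P] →
      (S.filter P).card = (S'.filter fun u : Fin n => P (u : ℕ)).card := by
    intro P _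
    have : S.filter P = (S'.filter fun u : Fin n => P (u : ℕ)).map Fin.valEmbedding := by
      ext u
      simp only [Finset.mem_filter, Finset.mem_map, Fin.valEmbedding_apply, hS', Finset.mem_univ, true_and]
      constructor
      · rintro ⟨h1, h2⟩
        exact ⟨⟨u, hS u h1⟩, ⟨h1, h2⟩, rfl⟩
      · rintro ⟨v, ⟨h1, h2⟩, rfl⟩
        exact ⟨h1, h2⟩
    rw [this, Finset.card_map]
  have hS'k : S'.card ≤ k := by
    have := hSS (fun _ => True)
    simp only [Finset.filter_true] at this
    omega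
  -- the bad functions
  set bad : Finset (Fin n → Fin m → Bool) :=
    (Finset.powersetCard (2 * m + 1) S').biUnion
      (fun B => Finset.univ.filter fun f : Fin n → Fin m → Bool => ∀ u ∈ B, ∀ v ∈ B, f u = f v) with hbad
  have h1 : Nat.card {w : Fin (n * m) → Bool // ∃ g, 2 * m < (S.filter fun u => hval (bits w) m (2 ^ m) u = g).card}
      ≤ bad.card := by
    have e : bad.card = Nat.card bad := by simp
    rw [e]
    refine Nat.card_le_card_of_injective
      (fun w => (⟨rndE n m w.1, ?_⟩ : bad)) ?_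
    · obtain ⟨w, g, hg⟩ := w
      rw [hSS] at hg
      obtain ⟨B, hB1, hB2⟩ := Finset.exists_subset_card_eq (Nat.succ_le_of_lt hg)
      rw [hbad, Finset.mem_biUnion]
      refine ⟨B, ?_, ?_⟩
      · rw [Finset.mem_powersetCard]
        exact ⟨hB1.trans (Finset.filter_subset _ _), hB2⟩
      · rw [Finset.mem_filter]
        refine ⟨Finset.mem_univ _, ?_⟩
        intro u hu v hv
        apply rnd_row_eq
        rw [(Finset.mem_filter.1 (hB1 hu)).2, (Finset.mem_filter.1 (hB1 hv)).2]
    · intro w w' hww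
      simp only [Subtype.mk.injEq] at hww
      exact Subtype.ext ((rndE n m).injective hww)
  have h2 : bad.card ≤ k ^ (2 * m + 1) * (2 ^ m) ^ (n - 2 * m) := by
    calc bad.card ≤ ∑ B ∈ Finset.powersetCard (2 * m + 1) S',
          (Finset.univ.filter fun f : Fin n → Fin m → Bool => ∀ u ∈ B, ∀ v ∈ B, f u = f v).card :=
          Finset.card_biUnion_le
      _ ≤ ∑ _B ∈ Finset.powersetCard (2 * m + 1) S', (2 ^ m) ^ (n - 2 * m) :=
          Finset.sum_le_sum fun B hB => rnd_const B (Finset.mem_powersetCard.1 hB).2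
      _ = (S'.card).choose (2 * m + 1) * (2 ^ m) ^ (n - 2 * m) := by
          rw [Finset.sum_const, Finset.card_powersetCard, smul_eq_mul]
      _ ≤ k ^ (2 * m + 1) * (2 ^ m) ^ (n - 2 * m) := by
          apply Nat.mul_le_mul_right
          exact (Nat.choose_le_pow _ _).trans (Nat.pow_le_pow_left hS'k _)
  rcases Nat.lt_or_ge n (2 * m + 1) with hn | hn
  · -- no bad string
    have h3 : bad = ∅ := by
      rw [hbad, Finset.powersetCard_eq_empty.2, Finset.biUnion_empty]
      calc S'.card ≤ (Finset.univ : Finset (Fin n)).card := Finset.card_le_univ _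
        _ < 2 * m + 1 := by simpa using hn
    have h4 : Nat.card {w : Fin (n * m) → Bool // ∃ g, 2 * m < (S.filter fun u => hval (bits w) m (2 ^ m) u = g).card} = 0 := by
      have : bad.card = 0 := by rw [h3]; simp
      omega
    rw [h4, zero_mul]
    exact Nat.zero_le _
  · obtain ⟨m', rfl⟩ : ∃ m', m = m' + 1 := by
      cases m with
      | zero =>
        exfalso
        simp at hm
        omega
      | succ m => exact ⟨m, rfl⟩
    have h5 : k + 1 ≤ 2 ^ m' := by
      rw [pow_succ] at hm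
      omega
    have h6 : k ^ (2 * (m' + 1) + 1) * (k + 1) ≤ 2 ^ (2 * (m' + 1) * (m' + 1)) := by
      calc k ^ (2 * (m' + 1) + 1) * (k + 1) ≤ (k + 1) ^ (2 * (m' + 1) + 1) * (k + 1) := by
            apply Nat.mul_le_mul_right
            exact Nat.pow_le_pow_left (Nat.le_succ k) _
        _ = (k + 1) ^ (2 * (m' + 1) + 2) := by rw [← pow_succ]
        _ ≤ (2 ^ m') ^ (2 * (m' + 1) + 2) := Nat.pow_le_pow_left h5 _
        _ = 2 ^ (m' * (2 * (m' + 1) + 2)) := by rw [← pow_mul]
        _ ≤ 2 ^ (2 * (m' + 1) * (m' + 1)) := by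
            apply Nat.pow_le_pow_right (by norm_num)
            nlinarith
    calc Nat.card {w : Fin (n * (m' + 1)) → Bool // ∃ g, 2 * (m' + 1) < (S.filter fun u => hval (bits w) (m' + 1) (2 ^ (m' + 1)) u = g).card} * (k + 1)
        ≤ (k ^ (2 * (m' + 1) + 1) * (2 ^ (m' + 1)) ^ (n - 2 * (m' + 1))) * (k + 1) :=
          Nat.mul_le_mul_right _ (h1.trans h2)
      _ = (k ^ (2 * (m' + 1) + 1) * (k + 1)) * (2 ^ (m' + 1)) ^ (n - 2 * (m' + 1)) := by ring
      _ ≤ 2 ^ (2 * (m' + 1) * (m' + 1)) * (2 ^ (m' + 1)) ^ (n - 2 * (m' + 1)) :=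
          Nat.mul_le_mul_right _ h6
      _ = 2 ^ (n * (m' + 1)) := by
          rw [← pow_mul, ← pow_add]
          congr 1
          obtain ⟨r, hr⟩ := Nat.exists_eq_add_of_le (show 2 * (m' + 1) ≤ n by omega)
          rw [hr, Nat.add_sub_cancel_left]
          ring

end KRN
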