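import Pool.Agent.KRN.PAN
import Pool.Agent.KRN.RND

/-!
# KRN UNV: a small family of functions which is good for all sets

`m = mm k`, `M = MM k = 2 ^ m ≥ 2 * (k + 1)`, `n = nmax d k`, `F = RN d k ^ d ≥ 2 * d * (k + 1)` functions.
For one set `S ⊆ {0, …, n - 1}` with at most `k` elements the functions `{0, …, n - 1} → {0, …, M - 1}` with a bucket with more than
`2 * m` elements of `S` are at most the fraction `1 / (k + 1)` of all functions (`rnd`: a function is the same as `n * m` bits).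
So the families (`F`-tuples) without a good function for `S` are at most the fraction `(k + 1) ^ (-F)`.  There are at most
`(n + 1) ^ k ≤ (k + 1) ^ (2 * d * k) < (k + 1) ^ F` sets `S` (`k ≥ 1`; for `k = 0` only `S = ∅`), because
`n + 1 ≤ (d + 1) * (k + 1) ^ d ≤ (k + 1) ^ (2 * d)`.  So some family is good for all `S`.  Easiest: count families
`W : Fin F → (Fin (n * m) → Bool)`, put `w.getD (N * n + u) 0 = hval (bits (W N)) m M u`.
-/

set_option autoImplicit false

namespace KRN

private theorem unv_head (n : ℕ) (p : ℕ → Prop) [DecidablePred p] (h : ∃ m < n, p m) :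
    p (((List.range n).filter fun m => decide (p m)).headD 0) ∧
      ∀ m < ((List.range n).filter fun m => decide (p m)).headD 0, ¬ p m := by
  obtain ⟨m0, h0, h1⟩ := h
  have hm0 : m0 ∈ (List.range n).filter fun m => decide (p m) := by
    rw [List.mem_filter, List.mem_range]
    exact ⟨h0, by simpa using h1⟩
  have hs : ((List.range n).filter fun m => decide (p m)).Pairwise (· < ·) :=
    List.Pairwise.filter _ List.pairwise_lt_range
  have hmem : ∀ m, m ∈ (List.range n).filter (fun m => decide (p m)) ↔ m < n ∧ p m := by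
    intro m
    rw [List.mem_filter, List.mem_range]
    simp
  rcases hL : (List.range n).filter fun m => decide (p m) with _ | ⟨x, t⟩
  · rw [hL] at hm0
    simp at hm0
  · rw [hL] at hs hmem
    simp only [List.headD_cons]
    have hx := (hmem x).1 List.mem_cons_self
    refine ⟨hx.2, fun m hm hpm => ?_⟩
    have h2 := (hmem m).2 ⟨by omega, hpm⟩
    rw [List.mem_cons] at h2
    rcases h2 with h2 | h2
    · omega
    · have := (List.pairwise_cons.1 hs).1 m h2
      omega

theorem RN_spec (d k : ℕ) (hd : 1 ≤ d) :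
    1 ≤ RN d k ∧ 2 * d * (k + 1) ≤ RN d k ^ d ∧ (RN d k - 1) ^ d < 2 * d * (k + 1) := by
  have hA : 1 ≤ 2 * d * (k + 1) := Nat.one_le_iff_ne_zero.2 (by positivity)
  obtain ⟨h1, h2⟩ := unv_head (2 * d * (k + 1) + 1) (fun R => 2 * d * (k + 1) ≤ R ^ d)
    ⟨2 * d * (k + 1), by omega, by
      calc 2 * d * (k + 1) = (2 * d * (k + 1)) ^ 1 := (pow_one _).symm
        _ ≤ (2 * d * (k + 1)) ^ d := Nat.pow_le_pow_right hA hd⟩
  change 2 * d * (k + 1) ≤ RN d k ^ d at h1
  change ∀ m < RN d k, ¬ 2 * d * (k + 1) ≤ m ^ d at h2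
  have h3 : 1 ≤ RN d k := by
    by_contra h
    have h4 : RN d k = 0 := by omega
    rw [h4, zero_pow (by omega)] at h1
    omega
  exact ⟨h3, h1, by have := h2 (RN d k - 1) (by omega); omega⟩

/-- the number of small subsets of `{0, …, n - 1}` -/
private theorem unv_sets (n k : ℕ) :
    ((Finset.range n).powerset.filter fun S => S.card ≤ k).card ≤ (n + 1) ^ k := by
  classical
  have h1 : ((Finset.range n).powerset.filter fun S => S.card ≤ k) ⊆
      (Finset.univ : Finset (Fin k → Fin (n + 1))).image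
        (fun f => ((Finset.univ.image fun i => (f i : ℕ)).filter fun x => x < n)) := by
    intro S hS
    rw [Finset.mem_filter, Finset.mem_powerset] at hS
    obtain ⟨hS1, hS2⟩ := hS
    rw [Finset.mem_image]
    have hlt : ∀ i : ℕ, S.toList.getD i n < n + 1 := by
      intro i
      by_cases hi : i < S.toList.length
      · rw [List.getD_eq_getElem _ _ hi]
        have : S.toList[i] ∈ S := by
          rw [← Finset.mem_toList]
          exact List.getElem_mem hi
        have := Finset.mem_range.1 (hS1 this)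
        omega
      · rw [List.getD_eq_default _ _ (by omega)]
        omega
    refine ⟨fun i => ⟨S.toList.getD i n, hlt i⟩, Finset.mem_univ _, ?_⟩
    ext x
    simp only [Finset.mem_filter, Finset.mem_image, Finset.mem_univ, true_and]
    constructor
    · rintro ⟨⟨i, hi⟩, hx⟩
      by_cases hi' : (i : ℕ) < S.toList.length
      · rw [List.getD_eq_getElem _ _ hi'] at hi
        rw [← hi, ← Finset.mem_toList]
        exact List.getElem_mem hi'
      · rw [List.getD_eq_default _ _ (by omega)] at hi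
        omega
    · intro hx
      refine ⟨?_, Finset.mem_range.1 (hS1 hx)⟩
      obtain ⟨i, hi, rfl⟩ := List.getElem_of_mem (Finset.mem_toList.2 hx)
      have hi' : i < k := by
        rw [Finset.length_toList] at hi
        omega
      exact ⟨⟨i, hi'⟩, List.getD_eq_getElem _ _ hi⟩
  calc _ ≤ _ := Finset.card_le_card h1
    _ ≤ (Finset.univ : Finset (Fin k → Fin (n + 1))).card := Finset.card_image_le
    _ = (n + 1) ^ k := by simp

/-- a family which is good for all small sets -/
private theorem unv_family (n m k F : ℕ) (hF : 1 ≤ F) (hm : 2 * (k + 1) ≤ 2 ^ m)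
    (hFk : 1 ≤ k → (n + 1) ^ k < (k + 1) ^ F) :
    ∃ W : Fin F → (Fin (n * m) → Bool), ∀ S : Finset ℕ, (∀ u ∈ S, u < n) → S.card ≤ k →
      ∃ N, ∀ g, (S.filter fun u => hval (bits (W N)) m (2 ^ m) u = g).card ≤ 2 * m := by
  classical
  rcases Nat.eq_zero_or_pos k with rfl | hk
  · refine ⟨fun _ _ => false, fun S _ hS => ⟨⟨0, hF⟩, fun g => ?_⟩⟩
    have : S = ∅ := Finset.card_eq_zero.1 (by omega)
    subst this
    simp
  set bad : Finset ℕ → Finset (Fin (n * m) → Bool) := fun S =>
    Finset.univ.filter fun w => ∃ g, 2 * m < (S.filter fun u => hval (bits w) m (2 ^ m) u = g).card with hbad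
  set 𝒮 := (Finset.range n).powerset.filter fun S => S.card ≤ k with h𝒮
  have hb : ∀ S ∈ 𝒮, (bad S).card * (k + 1) ≤ 2 ^ (n * m) := by
    intro S hS
    rw [h𝒮, Finset.mem_filter, Finset.mem_powerset] at hS
    have h1 := rnd n m k S (fun u hu => Finset.mem_range.1 (hS.1 hu)) hS.2 hm
    have h2 : (bad S).card = Nat.card {w : Fin (n * m) → Bool //
        ∃ g, 2 * m < (S.filter fun u => hval (bits w) m (2 ^ m) u = g).card} := by
      rw [Nat.card_eq_fintype_card, Fintype.card_subtype]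
    rw [h2]
    exact h1
  set B : Finset (Fin F → (Fin (n * m) → Bool)) := 𝒮.biUnion fun S => Fintype.piFinset fun _ => bad S with hB
  have h1 : B.card * (k + 1) ^ F < (k + 1) ^ F * (2 ^ (n * m)) ^ F := by
    calc B.card * (k + 1) ^ F ≤ (∑ S ∈ 𝒮, (Fintype.piFinset fun _ : Fin F => bad S).card) * (k + 1) ^ F :=
          Nat.mul_le_mul_right _ Finset.card_biUnion_le
      _ = ∑ S ∈ 𝒮, ((bad S).card * (k + 1)) ^ F := by
          rw [Finset.sum_mul]
          refine Finset.sum_congr rfl fun S _ => ?_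
          rw [Fintype.card_piFinset, Finset.prod_const, Finset.card_univ, Fintype.card_fin, mul_pow]
      _ ≤ ∑ _S ∈ 𝒮, (2 ^ (n * m)) ^ F := Finset.sum_le_sum fun S hS => Nat.pow_le_pow_left (hb S hS) _
      _ = 𝒮.card * (2 ^ (n * m)) ^ F := by rw [Finset.sum_const, smul_eq_mul]
      _ ≤ (n + 1) ^ k * (2 ^ (n * m)) ^ F := Nat.mul_le_mul_right _ (unv_sets n k)
      _ < (k + 1) ^ F * (2 ^ (n * m)) ^ F := Nat.mul_lt_mul_of_pos_right (hFk hk) (by positivity)
  have h2 : B.card < (2 ^ (n * m)) ^ F := by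
    rw [mul_comm ((k + 1) ^ F)] at h1
    exact Nat.lt_of_mul_lt_mul_right h1
  have h3 : ∃ W, W ∉ B := by
    by_contra h
    push Not at h
    have h4 : B = Finset.univ := Finset.eq_univ_iff_forall.2 h
    rw [h4, Finset.card_univ, Fintype.card_fun, Fintype.card_fun, Fintype.card_fin, Fintype.card_fin,
      Fintype.card_bool] at h2
    exact lt_irrefl _ h2
  obtain ⟨W, hW⟩ := h3
  refine ⟨W, fun S hS1 hS2 => ?_⟩
  by_contra hcon
  push Not at hcon
  apply hW
  rw [hB, Finset.mem_biUnion]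
  refine ⟨S, ?_, ?_⟩
  · rw [h𝒮, Finset.mem_filter, Finset.mem_powerset]
    exact ⟨fun u hu => Finset.mem_range.2 (hS1 u hu), hS2⟩
  · rw [Fintype.mem_piFinset]
    intro N
    rw [hbad]
    simp only [Finset.mem_filter, Finset.mem_univ, true_and]
    exact hcon N

private theorem unv_num (d k : ℕ) (hk : 1 ≤ k) (F : ℕ) (hF : 2 * d * (k + 1) ≤ F) (hd : 1 ≤ d) :
    (nmax d k + 1) ^ k < (k + 1) ^ F := by
  unfold nmax
  have h1 : d + 1 ≤ (k + 1) ^ d := by
    calc d + 1 ≤ 2 ^ d := Nat.lt_two_pow_self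
      _ ≤ (k + 1) ^ d := Nat.pow_le_pow_left (by omega) d
  have h2 : 1 ≤ (k + 1) ^ d := Nat.one_le_pow _ _ (by omega)
  have h3 : d * (k + 1) ^ d + 1 ≤ (k + 1) ^ (2 * d) := by
    calc d * (k + 1) ^ d + 1 ≤ (d + 1) * (k + 1) ^ d := by nlinarith
      _ ≤ (k + 1) ^ d * (k + 1) ^ d := Nat.mul_le_mul_right _ h1
      _ = (k + 1) ^ (2 * d) := by rw [← pow_add]; congr 1; ring
  calc (d * (k + 1) ^ d + 1) ^ k ≤ ((k + 1) ^ (2 * d)) ^ k := Nat.pow_le_pow_left h3 k
    _ = (k + 1) ^ (2 * d * k) := by rw [← pow_mul]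
    _ < (k + 1) ^ F := Nat.pow_lt_pow_right (by omega) (by nlinarith)

theorem unv (d k : ℕ) (hd : 1 ≤ d) : ∃ w : List ℕ, w.length = RN d k ^ d * nmax d k ∧ (∀ x ∈ w, x < MM k) ∧
    ∀ S : Finset ℕ, (∀ u ∈ S, u < nmax d k) → S.card ≤ k → ∃ N < RN d k ^ d, ∀ g,
      (S.filter fun u => w.getD (N * nmax d k + u) 0 = g).card ≤ 2 * mm k := by
  obtain ⟨-, hF, -⟩ := RN_spec d k hd
  obtain ⟨hM1, hM2, -⟩ := MM_eq k
  have hF1 : 1 ≤ RN d k ^ d := by
    have : 1 ≤ 2 * d * (k + 1) := Nat.one_le_iff_ne_zero.2 (by positivity)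
    omega
  have hn : 0 < nmax d k := by unfold nmax; positivity
  obtain ⟨W, hW⟩ := unv_family (nmax d k) (mm k) k (RN d k ^ d) hF1 (hM1 ▸ hM2)
    (fun hk => unv_num d k hk _ hF hd)
  rw [hM1]
  clear hF hM2 hM1
  revert hn hF1 hW
  revert W
  generalize RN d k ^ d = F
  generalize nmax d k = n
  generalize mm k = m
  intro W hF1 hn hW
  have hdiv : ∀ i : Fin (F * n), (i : ℕ) / n < F := fun i => by
    rw [Nat.div_lt_iff_lt_mul hn]
    exact i.2
  refine ⟨List.ofFn fun i : Fin (F * n) => hval (bits (W ⟨i / n, hdiv i⟩)) m (2 ^ m) (i % n), ?_, ?_, ?_⟩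
  · simp
  · intro x hx
    rw [List.mem_ofFn] at hx
    obtain ⟨i, rfl⟩ := hx
    exact hval_lt _ _ (Nat.mod_lt _ hn)
  · intro S hS1 hS2
    obtain ⟨N, hN⟩ := hW S hS1 hS2
    refine ⟨N, N.2, fun g => ?_⟩
    refine le_of_eq_of_le ?_ (hN g)
    congr 1
    apply Finset.filter_congr
    intro u hu
    have hu' := hS1 u hu
    have hlt : (N : ℕ) * n + u < F * n := by
      have h3 : (N : ℕ) + 1 ≤ F := N.2
      have h4 : ((N : ℕ) + 1) * n ≤ F * n := Nat.mul_le_mul_right n h3
      nlinarith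
    rw [List.getD_eq_getElem _ _ (by simpa using hlt)]
    have hq : ((N : ℕ) * n + u) / n = N := by
      rw [mul_comm, Nat.mul_add_div hn, Nat.div_eq_of_lt hu', add_zero]
    have hr : ((N : ℕ) * n + u) % n = u := by
      rw [mul_comm, Nat.mul_add_mod, Nat.mod_eq_of_lt hu']
    simp only [List.getElem_ofFn, hq, hr]

end KRN
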