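import Pool.Agent.KRN.FND
import Pool.Agent.KRN.UNV
import Pool.Agent.KRN.PPN
import Pool.Agent.KRN.NUN

/-!
# KRN FNN: the deterministic kernelization with polynomial advice and `O(k ^ (1 + 1 / d) polylog k)` vertices
-/

set_option autoImplicit false

namespace KRN

/-- The advice. -/
noncomputable def advN (d k : ℕ) : List ℕ := if h : 1 ≤ d then (unv d k h).choose else []

theorem advN_spec (d k : ℕ) (hd : 1 ≤ d) : (advN d k).length = RN d k ^ d * nmax d k ∧ (∀ x ∈ advN d k, x < MM k) ∧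
    ∀ S : Finset ℕ, (∀ u ∈ S, u < nmax d k) → S.card ≤ k → ∃ N < RN d k ^ d, ∀ g,
      (S.filter fun u => (advN d k).getD (N * nmax d k + u) 0 = g).card ≤ 2 * mm k := by
  unfold advN
  rw [dif_pos hd]
  exact (unv d k hd).choose_spec

theorem goodN (d : ℕ) (J : IInst) (hJ : GoodI d J) (w : List ℕ) :
    Good d (hN d J.2.1 (MM J.2.1) w) (RN d J.2.1) (MM J.2.1) (2 * mm J.2.1)
      (QQ (2 * mm J.2.1) J.1) (rr J.1) (le2 (QQ (2 * mm J.2.1) J.1)) (up2 (QQ (2 * mm J.2.1) J.1))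
      (le2 (MM J.2.1 * (2 * mm J.2.1))) (up2 (MM J.2.1 * (2 * mm J.2.1))) J.1 J.2.2 := by
  have hQ := QQ_spec (2 * mm J.2.1) J.1
  have hM := MM_eq J.2.1
  have h0 : 1 ≤ MM J.2.1 * (2 * mm J.2.1) := Nat.mul_pos (by omega) (by unfold mm; omega)
  exact {
    hM := fun ρ _ u _ => Nat.mod_lt _ (by omega)
    hQ := hQ.1
    hn := le_QQ_pow _ _
    ht := hQ.2.1
    h1 := (up2_eq hQ.1.one_lt.le).1
    hQ1 := (up2_eq hQ.1.one_lt.le).2.1
    h2 := (up2_eq h0).1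
    hM2 := (up2_eq h0).2.1
    hE := hJ.e }

theorem kerN_wf (d : ℕ) (hd : 3 ≤ d) (J : IInst) (hJ : GoodI d J) (w : List ℕ) : WF d (kerN d (J, w)) := by
  have h := ker_wf hd (goodN d J hJ w) J.2.1
  exact h

theorem kerN_no (d : ℕ) (hd : 3 ≤ d) (J : IInst) (hJ : GoodI d J) (w : List ℕ) (h : Yes (kerN d (J, w))) : YesI J := by
  have h1 := ker_no (k := J.2.1) hd (goodN d J hJ w) h
  exact h1

theorem kerN_vert (d : ℕ) (hd : 3 ≤ d) (J : IInst) (hJ : GoodI d J) (w : List ℕ) :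
    vert (kerN d (J, w)) ≤ 2 * NB d (RN d J.2.1) (MM J.2.1) (2 * mm J.2.1) (QQ (2 * mm J.2.1) J.1)
      (le2 (QQ (2 * mm J.2.1) J.1)) (le2 (MM J.2.1 * (2 * mm J.2.1))) := by
  have h := ker_vert hd (goodN d J hJ w) J.2.1
  exact h

theorem kerN_yes (d : ℕ) (hd : 3 ≤ d) (J : IInst) (hJ : GoodI d J) (hY : YesI J) :
    Yes (kerN d (J, advN d J.2.1)) := by
  obtain ⟨S, hS, hk, hE⟩ := hY
  obtain ⟨-, hA, hB⟩ := advN_spec d J.2.1 (by omega)
  obtain ⟨N, hN1, hl⟩ := hB S (fun u hu => lt_of_lt_of_le (hS u hu) hJ.n) hk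
  obtain ⟨ρ, hρ1, hρ2, hρ3⟩ := seed_surj (RN d J.2.1) d N hN1
  have hM := MM_eq J.2.1
  have h := ker_yes (k := J.2.1) hd (goodN d J hJ (advN d J.2.1)) ρ (mem_tuples.mpr ⟨hρ1, hρ2⟩) S hk hE (by
    intro g
    refine le_trans (Finset.card_le_card ?_) (hl g)
    intro u hu
    rw [Finset.mem_filter] at hu ⊢
    refine ⟨hu.1, ?_⟩
    have h1 := hu.2
    unfold hN at h1
    rw [hρ3] at h1
    rw [← h1]
    symm
    refine Nat.mod_eq_of_lt ?_
    rcases lt_or_ge (N * nmax d J.2.1 + u) (advN d J.2.1).length with h2 | h2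
    · rw [List.getD_eq_getElem _ _ h2]
      exact hA _ (List.getElem_mem h2)
    · rw [List.getD_eq_default _ _ h2]
      omega)
  exact h

theorem kerN_size (d : ℕ) (hd : 3 ≤ d) : ∃ C : ℕ, ∀ J : IInst, GoodI d J →
    sz (kerN d (J, advN d J.2.1)) ≤ C * (J.2.1 + 1) ^ C := by
  obtain ⟨C₁, hC₁⟩ := szJ d
  obtain ⟨C₃, hC₃⟩ := szadv d (by omega)
  obtain ⟨C₂, hC₂⟩ := Poly.size_bound (pkerN d)
  obtain ⟨D, hD⟩ := comp_bound (C₁ + C₃ + 1) C₂
  refine ⟨D, fun J hJ => (hC₂ _).trans (hD _ _ ?_)⟩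
  have h1 := hC₁ J hJ.n hJ.m (fun e he => (hJ.e e he).2)
  have h3 := hC₃ J.2.1 (advN d J.2.1) (advN_spec d J.2.1 (by omega)).1 (advN_spec d J.2.1 (by omega)).2.1
  have h4 : sz (J, advN d J.2.1) = sz J + sz (advN d J.2.1) + 1 := rfl
  rw [h4]
  set K := J.2.1 + 1 with hK
  have hK1 : 1 ≤ K := by omega
  have h6 : K ^ C₁ ≤ K ^ (C₁ + C₃ + 1) := Nat.pow_le_pow_right hK1 (by omega)
  have h7 : K ^ C₃ ≤ K ^ (C₁ + C₃ + 1) := Nat.pow_le_pow_right hK1 (by omega)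
  have h8 : 1 ≤ K ^ (C₁ + C₃ + 1) := Nat.one_le_pow _ _ hK1
  have h10 := Nat.mul_le_mul_left C₁ h6
  have h11 := Nat.mul_le_mul_left C₃ h7
  calc sz J + sz (advN d J.2.1) + 1 ≤ C₁ * K ^ (C₁ + C₃ + 1) + C₃ * K ^ (C₁ + C₃ + 1) + K ^ (C₁ + C₃ + 1) := by omega
    _ = (C₁ + C₃ + 1) * K ^ (C₁ + C₃ + 1) := by ring

/-- The kernelization with advice. -/
def kernN (d : ℕ) (x : Inst × List ℕ) : Inst := kerN d (pre d x.1, x.2)

theorem advice (d : ℕ) (hd : 3 ≤ d) : ∃ C : ℕ,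
    IsAdviceKernel d (fun k => C * ((k : ℝ) + 1) ^ (1 + 1 / (d : ℝ)) * (1 + Real.log ((k : ℝ) + 1)) ^ C) (advN d)
      (kernN d) := by
  obtain ⟨C, hC⟩ := nun d (by omega)
  obtain ⟨D, hD⟩ := kerN_size d hd
  refine ⟨C, ?_⟩
  have hp : Poly (fun x : Inst × List ℕ => (pre d x.1, x.2)) :=
    Poly.pair (Poly.comp (ppre d) Poly.fst) Poly.snd
  have hk : ∀ I, WF d I → I.2.1 = (pre d I).2.1 := fun I hI => (pre_spec d (by omega) I hI).1.symm
  have hkn : ∀ I, WF d I → kernN d (I, advN d I.2.1) = kerN d (pre d I, advN d (pre d I).2.1) := by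
    intro I hI
    rw [← hk I hI]
    rfl
  refine ⟨?_, ?_, ?_, ?_, ?_, ?_⟩
  · exact Poly.comp (g := kerN d) (f := fun x : Inst × List ℕ => (pre d x.1, x.2)) (pkerN d) hp
  · obtain ⟨C₃, hC₃⟩ := szadv d (by omega)
    exact ⟨C₃, fun k => hC₃ k (advN d k) (advN_spec d k (by omega)).1 (advN_spec d k (by omega)).2.1⟩
  · intro I hI
    rw [hkn I hI]
    exact kerN_wf d hd (pre d I) (goodI_pre d hd I hI) _
  · intro I hI
    rw [hkn I hI]
    have hp := (pre_spec d (by omega) I hI).2.2.2.2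
    constructor
    · intro h
      exact hp.mp (kerN_no d hd (pre d I) (goodI_pre d hd I hI) _ h)
    · intro h
      exact kerN_yes d hd (pre d I) (goodI_pre d hd I hI) (hp.mpr h)
  · intro I hI
    rw [hkn I hI]
    have h := kerN_vert d hd (pre d I) (goodI_pre d hd I hI) (advN d (pre d I).2.1)
    have h3 := hC (pre d I).2.1 (pre d I).1 (goodI_pre d hd I hI).n
    have h5 := (Nat.cast_le (α := ℝ)).mpr h
    refine h5.trans ?_
    push_cast
    refine h3.trans (le_of_eq ?_)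
    rw [← hk I hI]
  · refine ⟨D, fun I hI => ?_⟩
    rw [hkn I hI]
    calc sz (kerN d (pre d I, advN d (pre d I).2.1)) ≤ D * ((pre d I).2.1 + 1) ^ D := hD (pre d I) (goodI_pre d hd I hI)
      _ = D * (I.2.1 + 1) ^ D := by rw [← hk I hI]

end KRN
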