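import Pool.Agent.KRN.ASB
import Pool.Agent.KRN.PPA
import Pool.Agent.KRN.PRB
import Pool.Agent.KRN.PRC
import Pool.Agent.KRN.RND
import Pool.Agent.KRN.SZJ
import Pool.Agent.KRN.NUR

/-!
# KRN FNR: the randomized kernelization with `O(k polylog k)` vertices
-/

set_option autoImplicit false

namespace KRN

/-- Index instances as produced by the preliminary kernel. -/
structure GoodJ (d : ℕ) (J : IInst) : Prop where
  n : J.1 ≤ d * (J.2.1 + 1) ^ d
  m : J.2.2.length ≤ (J.2.1 + 1) ^ d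
  e : ∀ e ∈ J.2.2, e ≠ [] ∧ e.length ≤ d ∧ ∀ u ∈ e, u < J.1

theorem goodJ_pre (d : ℕ) (hd : 3 ≤ d) (I : Inst) (hI : WF d I) : GoodJ d (pre d I) := by
  obtain ⟨h1, h2, h3, h4, -⟩ := pre_spec d (by omega) I hI
  exact ⟨by rw [h1]; exact h2, by rw [h1]; exact h3, h4⟩

theorem goodR (d : ℕ) (J : IInst) (hJ : GoodJ d J) (w : Fin (J.1 * mm J.2.1) → Bool) :
    Good d (fun _ u => hval (bits w) (mm J.2.1) (MM J.2.1) u) 1 (MM J.2.1) (2 * mm J.2.1) (QQ (2 * mm J.2.1) J.1) (rr J.1)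
      (le2 (QQ (2 * mm J.2.1) J.1)) (up2 (QQ (2 * mm J.2.1) J.1)) (le2 (MM J.2.1 * (2 * mm J.2.1)))
      (up2 (MM J.2.1 * (2 * mm J.2.1))) J.1 J.2.2 := by
  refine good_R d J hJ.e (bits w) ?_
  intro u hu
  rw [(MM_eq _).1]
  exact hval_lt w u hu

theorem kerR_wf (d : ℕ) (hd : 3 ≤ d) (J : IInst) (hJ : GoodJ d J) (w : Fin (J.1 * mm J.2.1) → Bool) :
    WF d (kerR d (J, bits w)) := by
  have h := ker_wf hd (goodR d J hJ w) J.2.1
  exact h

theorem kerR_no (d : ℕ) (hd : 3 ≤ d) (J : IInst) (hJ : GoodJ d J) (w : Fin (J.1 * mm J.2.1) → Bool)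
    (h : Yes (kerR d (J, bits w))) : YesI J := by
  have h1 := ker_no (k := J.2.1) hd (goodR d J hJ w) h
  exact h1

theorem kerR_vert (d : ℕ) (hd : 3 ≤ d) (J : IInst) (hJ : GoodJ d J) (w : Fin (J.1 * mm J.2.1) → Bool) :
    vert (kerR d (J, bits w)) ≤ 2 * NB d 1 (MM J.2.1) (2 * mm J.2.1) (QQ (2 * mm J.2.1) J.1) (le2 (QQ (2 * mm J.2.1) J.1))
      (le2 (MM J.2.1 * (2 * mm J.2.1))) := by
  have h := ker_vert hd (goodR d J hJ w) J.2.1
  exact h

theorem kerR_yes (d : ℕ) (hd : 3 ≤ d) (J : IInst) (hJ : GoodJ d J) (hY : YesI J) :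
    (1 - 1 / ((J.2.1 : ℝ) + 1)) * (Fintype.card (Fin (J.1 * mm J.2.1) → Bool) : ℝ) ≤
      (Nat.card {w : Fin (J.1 * mm J.2.1) → Bool // Yes (kerR d (J, bits w))} : ℝ) := by
  classical
  obtain ⟨S, hS, hk, hE⟩ := hY
  have hM := MM_eq J.2.1
  have hr := rnd J.1 (mm J.2.1) J.2.1 S hS hk (by rw [← hM.1]; exact hM.2.1)
  have hyes : ∀ w : Fin (J.1 * mm J.2.1) → Bool,
      ¬ (∃ g, 2 * mm J.2.1 < (S.filter fun u => hval (bits w) (mm J.2.1) (2 ^ mm J.2.1) u = g).card) →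
        Yes (kerR d (J, bits w)) := by
    intro w hw
    have hρ : List.replicate d 0 ∈ tuples 1 d := by
      rw [mem_tuples]
      refine ⟨List.length_replicate, ?_⟩
      intro s hs
      rw [List.eq_of_mem_replicate hs]
      exact Nat.one_pos
    have h := ker_yes (k := J.2.1) hd (goodR d J hJ w) (List.replicate d 0) hρ S hk hE (by
      intro g
      by_contra hcon
      apply hw
      refine ⟨g, ?_⟩
      rw [hM.1] at hcon
      exact not_le.mp hcon)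
    exact h
  have h1 : Nat.card {w : Fin (J.1 * mm J.2.1) → Bool // Yes (kerR d (J, bits w))} +
      Nat.card {w : Fin (J.1 * mm J.2.1) → Bool // ∃ g, 2 * mm J.2.1 <
        (S.filter fun u => hval (bits w) (mm J.2.1) (2 ^ mm J.2.1) u = g).card} ≥
      Fintype.card (Fin (J.1 * mm J.2.1) → Bool) := by
    rw [Nat.card_eq_fintype_card, Nat.card_eq_fintype_card, Fintype.card_subtype, Fintype.card_subtype, ← Finset.card_univ]
    refine le_trans ?_ (Finset.card_union_le _ _)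
    refine Finset.card_le_card ?_
    intro w _
    rw [Finset.mem_union, Finset.mem_filter, Finset.mem_filter]
    by_cases hw : ∃ g, 2 * mm J.2.1 < (S.filter fun u => hval (bits w) (mm J.2.1) (2 ^ mm J.2.1) u = g).card
    · exact Or.inr ⟨Finset.mem_univ _, hw⟩
    · exact Or.inl ⟨Finset.mem_univ _, hyes w hw⟩
  set a := Nat.card {w : Fin (J.1 * mm J.2.1) → Bool // Yes (kerR d (J, bits w))} with ha
  set b := Nat.card {w : Fin (J.1 * mm J.2.1) → Bool // ∃ g, 2 * mm J.2.1 <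
        (S.filter fun u => hval (bits w) (mm J.2.1) (2 ^ mm J.2.1) u = g).card} with hb
  have hF : Fintype.card (Fin (J.1 * mm J.2.1) → Bool) = 2 ^ (J.1 * mm J.2.1) := by
    rw [Fintype.card_fun, Fintype.card_bool, Fintype.card_fin]
  rw [hF] at h1 ⊢
  set N := 2 ^ (J.1 * mm J.2.1) with hN
  have h2 : ((b : ℝ) * ((J.2.1 : ℝ) + 1)) ≤ N := by exact_mod_cast hr
  have h3 : (N : ℝ) ≤ a + b := by exact_mod_cast h1
  have h4 : (0 : ℝ) < (J.2.1 : ℝ) + 1 := by positivity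
  have h5 : (b : ℝ) ≤ N / ((J.2.1 : ℝ) + 1) := by
    rw [le_div_iff₀ h4]
    exact h2
  have h6 : (1 - 1 / ((J.2.1 : ℝ) + 1)) * (N : ℝ) = N - N / ((J.2.1 : ℝ) + 1) := by ring
  rw [h6]
  linarith

theorem kerR_size (d : ℕ) : ∃ C : ℕ, ∀ J : IInst, GoodJ d J → ∀ w : Fin (J.1 * mm J.2.1) → Bool,
    sz (kerR d (J, bits w)) ≤ C * (J.2.1 + 1) ^ C := by
  obtain ⟨C₁, hC₁⟩ := szJ d
  obtain ⟨C₂, hC₂⟩ := Poly.size_bound (pkerR d)
  obtain ⟨D, hD⟩ := comp_bound (C₁ + 6 * d + 2) C₂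
  refine ⟨D, fun J hJ w => ?_⟩
  refine (hC₂ (J, bits w)).trans (hD _ _ ?_)
  have h1 := hC₁ J hJ.n hJ.m (fun e he => (hJ.e e he).2)
  have h2 := sz_bits w
  have h3 : mm J.2.1 ≤ J.2.1 + 1 + 2 := by
    unfold mm
    have := Nat.log_le_self 2 (J.2.1 + 1)
    omega
  have h4 : sz (J, bits w) = sz J + sz (bits w) + 1 := rfl
  rw [h4]
  set K := J.2.1 + 1 with hK
  have hK1 : 1 ≤ K := by omega
  have h5 : J.1 * mm J.2.1 ≤ d * K ^ d * (3 * K) := Nat.mul_le_mul hJ.n (by omega)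
  have h6 : K ^ C₁ ≤ K ^ (C₁ + 6 * d + 2) := Nat.pow_le_pow_right hK1 (by omega)
  have h7 : K ^ (d + 1) ≤ K ^ (C₁ + 6 * d + 2) := Nat.pow_le_pow_right hK1 (by omega)
  have h8 : 1 ≤ K ^ (C₁ + 6 * d + 2) := Nat.one_le_pow _ _ hK1
  have h9 : d * K ^ d * (3 * K) = 3 * d * K ^ (d + 1) := by ring
  calc sz J + sz (bits w) + 1 ≤ C₁ * K ^ C₁ + (2 * (3 * d * K ^ (d + 1)) + 1) + 1 := by
        rw [h9] at h5
        omega
    _ = C₁ * K ^ C₁ + 6 * d * K ^ (d + 1) + 2 := by ring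
    _ ≤ C₁ * K ^ (C₁ + 6 * d + 2) + 6 * d * K ^ (C₁ + 6 * d + 2) + 2 * K ^ (C₁ + 6 * d + 2) := by
        have h10 := Nat.mul_le_mul_left C₁ h6
        have h11 := Nat.mul_le_mul_left (6 * d) h7
        omega
    _ = (C₁ + 6 * d + 2) * K ^ (C₁ + 6 * d + 2) := by ring

/-- The number of random bits. -/
def ellR (d : ℕ) (I : Inst) : ℕ := (pre d I).1 * mm (pre d I).2.1

/-- The randomized kernelization. -/
def kernR (d : ℕ) (x : Inst × List ℕ) : Inst := kerR d (pre d x.1, x.2)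

theorem randomized (d : ℕ) (hd : 3 ≤ d) : ∃ C : ℕ,
    IsRandKernel d (fun k => C * ((k : ℝ) + 1) * (1 + Real.log ((k : ℝ) + 1)) ^ C) (ellR d) (kernR d) := by
  obtain ⟨C, hC⟩ := nur d
  obtain ⟨D, hD⟩ := kerR_size d
  refine ⟨C, ?_⟩
  have hp : Poly (fun x : Inst × List ℕ => (pre d x.1, x.2)) :=
    Poly.pair (Poly.comp (ppre d) Poly.fst) Poly.snd
  refine ⟨?_, ?_, ?_, ?_, ?_, ?_, ?_⟩
  · exact Poly.comp (g := kerR d) (f := fun x : Inst × List ℕ => (pre d x.1, x.2)) (pkerR d) hp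
  · exact pmul (pfst (ppre d)) (pmm (pfst (psnd (ppre d))))
  · intro I hI w
    exact kerR_wf d hd (pre d I) (goodJ_pre d hd I hI) w
  · intro I hI w hw
    exact (pre_spec d (by omega) I hI).2.2.2.2.mp (kerR_no d hd (pre d I) (goodJ_pre d hd I hI) w hw)
  · intro I hI hy
    have h := kerR_yes d hd (pre d I) (goodJ_pre d hd I hI) ((pre_spec d (by omega) I hI).2.2.2.2.mpr hy)
    have e : (1 - 1 / ((I.2.1 : ℝ) + 1)) = (1 - 1 / (((pre d I).2.1 : ℝ) + 1)) := by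
      rw [(pre_spec d (by omega) I hI).1]
    rw [e]
    exact h
  · intro I hI w
    have h := kerR_vert d hd (pre d I) (goodJ_pre d hd I hI) w
    have h3 := hC (pre d I).2.1 (pre d I).1 (goodJ_pre d hd I hI).n
    have h5 : (vert (kernR d (I, bits w)) : ℝ) ≤ ((2 * NB d 1 (MM (pre d I).2.1) (2 * mm (pre d I).2.1)
      (QQ (2 * mm (pre d I).2.1) (pre d I).1) (le2 (QQ (2 * mm (pre d I).2.1) (pre d I).1))
      (le2 (MM (pre d I).2.1 * (2 * mm (pre d I).2.1))) : ℕ) : ℝ) := Nat.cast_le.mpr h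
    refine h5.trans ?_
    push_cast
    refine h3.trans (le_of_eq ?_)
    rw [(pre_spec d (by omega) I hI).1]
  · refine ⟨D, fun I hI w => ?_⟩
    have h := hD (pre d I) (goodJ_pre d hd I hI) w
    calc sz (kernR d (I, bits w)) ≤ D * ((pre d I).2.1 + 1) ^ D := h
      _ = D * (I.2.1 + 1) ^ D := by rw [(pre_spec d (by omega) I hI).1]

end KRN
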