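import Pool.Agent.KRN.Defs

/-!
# KRN Frm: the formula

A variable is a `Name`; the literals are `1 :: v` (positive) and `0 :: v` (negative); a clause is a list of literals.
Variables: `[0, i, s, g, γ, δ]` (slot `i`, seed value `s`, bucket `g`, column `γ`, symbol `δ`), `[1, g, γ, δ]` (the symbol is
selected), `[2, i, s]` (the seed of slot `i` is `s`), `[3, i, s]` (chain), `[4, g, γ, i, a, c]` (counting tree of a column),
`[5, i, a, c]` (global counting tree), `[6, g, c]` (bucket `g` holds more than `c` elements).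
-/

set_option autoImplicit false

namespace KRN

/-- A clause is satisfied. -/
def sat (σ : Name → Prop) (c : List Name) : Prop := ∃ v : Name, (1 :: v ∈ c ∧ σ v) ∨ (0 :: v ∈ c ∧ ¬ σ v)

/-- The variables of a formula. -/
def vars (F : List (List Name)) : List Name := (F.flatten.map List.tail).dedup

/-- The hitting set instance of a formula. -/
def toHS (F : List (List Name)) : Inst :=
  ((vars F).flatMap (fun v => [0 :: v, 1 :: v]), (vars F).length, (vars F).map (fun v => [0 :: v, 1 :: v]) ++ F)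

/-- All clauses are nonempty lists of literals. -/
def Lit (F : List (List Name)) : Prop := ∀ c ∈ F, c ≠ [] ∧ ∀ l ∈ c, ∃ v : Name, l = 0 :: v ∨ l = 1 :: v

/-- Capped powers of two. -/
def cp (i m : ℕ) : ℕ := min (2 ^ i) m

/-- The counting tree with `2 ^ μ` leaves (`m = 2 ^ μ`): `pre ++ [i, a, c]` says that at least `c` of the leaves
`a * 2 ^ i, …, (a + 1) * 2 ^ i - 1` are true; the leaf `x` is `pre ++ [0, x, 1]`. -/
def tot (pre : Name) (μ m : ℕ) : List (List Name) :=
  ((List.range (μ + 1)).flatMap fun i => (List.range (cp (μ - i) m)).map fun a => [1 :: (pre ++ [i, a, 0])]) ++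
  (List.range μ).flatMap fun i => (List.range (cp (μ - i - 1) m)).flatMap fun a =>
    (List.range (cp i m + 1)).flatMap fun c => (List.range (cp i m + 1)).map fun c' =>
      [0 :: (pre ++ [i, 2 * a, c]), 0 :: (pre ++ [i, 2 * a + 1, c']), 1 :: (pre ++ [i + 1, a, c + c'])]

/-- The value at `γ` modulo `Q` of the polynomial whose `r` coefficients are the last `r` digits of `u` in base `Q`. -/
def code (Q r u γ : ℕ) : ℕ :=
  ((List.range r).foldl (fun (s : ℕ × ℕ × ℕ) _ => (s.1 / Q, s.2.1 * γ % Q, (s.2.2 + s.1 % Q * s.2.1) % Q))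
    (u, 1 % Q, 0)).2.2

/-- All lists of length `j` with entries less than `R`. -/
def tuples (R : ℕ) : ℕ → List (List ℕ)
  | 0 => [[]]
  | j + 1 => (List.range R).flatMap fun s => (tuples R j).map fun l => s :: l

/-- All choices of one element from each list. -/
def secs : List (List Name) → List (List Name)
  | [] => [[]]
  | A :: L => A.flatMap fun a => (secs L).map fun l => a :: l

/-- The possible literals in slot `i` for the edge `e` and the seed `ρ`. -/
def slot (hh : List ℕ → ℕ → ℕ) (Q r : ℕ) (e ρ : List ℕ) (i : ℕ) : List Name :=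
  if i < e.length then
    (List.range Q).map fun γ => [1, 0, i, ρ.getD i 0, hh ρ (e.getD i 0), γ, code Q r (e.getD i 0) γ]
  else [[0, 2, i, ρ.getD i 0]]

/-- The clauses of the edges. -/
def frm1 (d : ℕ) (hh : List ℕ → ℕ → ℕ) (R Q r : ℕ) (E : List (List ℕ)) : List (List Name) :=
  E.flatMap fun e => (tuples R d).flatMap fun ρ => secs ((List.range d).map (slot hh Q r e ρ))

/-- Selected symbols. -/
def frm2 (d R M Q : ℕ) : List (List Name) :=
  (List.range d).flatMap fun i => (List.range R).flatMap fun s => (List.range M).flatMap fun g =>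
    (List.range Q).flatMap fun γ => (List.range Q).map fun δ =>
      [[0, 0, i, s, g, γ, δ], [0, 2, i, s], [1, 1, g, γ, δ]]

/-- Every slot has a seed. -/
def frm3 (d R : ℕ) : List (List Name) :=
  (List.range d).flatMap fun i => [[[1, 3, i, 0]], [[0, 3, i, R]]] ++
    (List.range R).map fun s => [[0, 3, i, s], [1, 2, i, s], [1, 3, i, s + 1]]

/-- The number of symbols in a column is bounded by the number of elements of the bucket, which is at most `t`. -/
def frm4 (M t Q μ m : ℕ) : List (List Name) :=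
  (List.range M).flatMap fun g => (List.range Q).flatMap fun γ =>
    tot [4, g, γ] μ m ++ ((List.range Q).map fun δ => [[0, 1, g, γ, δ], [1, 4, g, γ, 0, δ, 1]]) ++
      ((List.range t).map fun c => [[0, 4, g, γ, μ, 0, c + 1], [1, 6, g, c]]) ++ [[[0, 4, g, γ, μ, 0, t + 1]]]

/-- There are at most `k` elements. -/
def frm5 (M t k μ m : ℕ) : List (List Name) :=
  tot [5] μ m ++ ((List.range M).flatMap fun g => (List.range t).map fun c => [[0, 6, g, c], [1, 5, 0, g * t + c, 1]]) ++
    [[[0, 5, μ, 0, k + 1]]]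

/-- The formula. -/
def frm (d : ℕ) (hh : List ℕ → ℕ → ℕ) (R M t k Q r μ₁ m₁ μ₂ m₂ : ℕ) (E : List (List ℕ)) : List (List Name) :=
  frm1 d hh R Q r E ++ frm2 d R M Q ++ frm3 d R ++ frm4 M t Q μ₁ m₁ ++ frm5 M t k μ₂ m₂

/-- The parameters are as required. -/
structure Good (d : ℕ) (hh : List ℕ → ℕ → ℕ) (R M t Q r μ₁ m₁ μ₂ m₂ n : ℕ) (E : List (List ℕ)) : Prop where
  hM : ∀ ρ ∈ tuples R d, ∀ u, u < n → hh ρ u < M
  hQ : Q.Prime
  hn : n ≤ Q ^ r
  ht : (t + 1) ^ 2 * r < Q
  h1 : m₁ = 2 ^ μ₁
  hQ1 : Q ≤ m₁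
  h2 : m₂ = 2 ^ μ₂
  hM2 : M * t ≤ m₂
  hE : ∀ e ∈ E, e ≠ [] ∧ e.length ≤ d ∧ ∀ u ∈ e, u < n

/-- Index instances: the number of vertices, the parameter, the edges. -/
abbrev IInst : Type := ℕ × ℕ × List (List ℕ)

/-- Yes-instances. -/
def YesI (J : IInst) : Prop := ∃ S : Finset ℕ, (∀ u ∈ S, u < J.1) ∧ S.card ≤ J.2.1 ∧ ∀ e ∈ J.2.2, ∃ u ∈ e, u ∈ S

end KRN
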