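import Pool.Agent.KRN.PLY

/-!
# KRN NTH: logarithms, primes and random values in polynomial time

* `Nat.log 2 n = ((List.range n).filter fun i => cp (i + 1) (n + 1) ≤ n).length` (`cp i m = min (2 ^ i) m`;
  `2 ^ (i + 1) ≤ n ↔ i + 1 ≤ Nat.log 2 n` for `n ≠ 0`).
* `npr x`: the least prime larger than `x` in the list of the primes below `2 * x + 3` (Bertrand:
  `Nat.exists_prime_lt_and_le_two_mul`); primality of unary numbers by trial division.
* `hval`: a `pfold`; the state is at most `M` after each step.
-/

set_option autoImplicit false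

namespace KRN

/-- A prime larger than `x` and at most `2 * x + 2`. -/
def npr (x : ℕ) : ℕ := ((List.range (2 * x + 3)).filter fun p => decide (x < p ∧ p.Prime)).headD 0

/-- The number with the binary digits `w (u * m), …, w (u * m + m - 1)`, capped by `M`. -/
def hval (w : List ℕ) (m M u : ℕ) : ℕ := (List.range m).foldl (fun s b => min (2 * s + w.getD (u * m + b) 0) M) 0

theorem npr_spec (x : ℕ) : (npr x).Prime ∧ x < npr x ∧ npr x ≤ 2 * x + 2 := by
  have hex : ∃ p, p.Prime ∧ x < p ∧ p ≤ 2 * x + 2 := by
    rcases Nat.eq_zero_or_pos x with rfl | hx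
    · exact ⟨2, Nat.prime_two, by norm_num, by norm_num⟩
    · obtain ⟨p, hp, h1, h2⟩ := Nat.exists_prime_lt_and_le_two_mul x (by omega)
      exact ⟨p, hp, h1, by omega⟩
  obtain ⟨p, hp, h1, h2⟩ := hex
  have hmem : p ∈ (List.range (2 * x + 3)).filter (fun p => decide (x < p ∧ p.Prime)) := by
    rw [List.mem_filter, List.mem_range, decide_eq_true_iff]
    exact ⟨by omega, h1, hp⟩
  have hnpr : npr x ∈ (List.range (2 * x + 3)).filter (fun p => decide (x < p ∧ p.Prime)) := by
    unfold npr
    generalize (List.range (2 * x + 3)).filter (fun p => decide (x < p ∧ p.Prime)) = l at hmem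
    cases l with
    | nil => exact absurd hmem List.not_mem_nil
    | cons a l => exact List.mem_cons_self
  rw [List.mem_filter, List.mem_range, decide_eq_true_iff] at hnpr
  exact ⟨hnpr.2.2, hnpr.2.1, by omega⟩

private theorem NTH_range (L n : ℕ) : ((List.range n).filter (fun i => decide (i < L))).length = min n L := by
  induction n with
  | zero => simp
  | succ n ih =>
    rw [List.range_succ, List.filter_append, List.length_append, ih]
    by_cases h : n < L
    · simp only [List.filter_cons, List.filter_nil, h, decide_true, if_true, List.length_cons, List.length_nil]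
      omega
    · simp only [List.filter_cons, List.filter_nil, h, decide_false, Bool.false_eq_true, if_false, List.length_nil]
      omega

private theorem NTH_log (n : ℕ) :
    Nat.log 2 n = ((List.range n).filter (fun i => decide (cp (i + 1) (n + 1) ≤ n))).length := by
  rcases Nat.eq_zero_or_pos n with rfl | hn
  · simp
  · have h1 : (List.range n).filter (fun i => decide (cp (i + 1) (n + 1) ≤ n)) =
        (List.range n).filter (fun i => decide (i < Nat.log 2 n)) := by
      refine List.filter_congr fun i _ => ?_
      rw [decide_eq_decide]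
      unfold cp
      rw [Nat.lt_iff_add_one_le, Nat.le_log_iff_pow_le (by norm_num) (by omega)]
      constructor
      · intro h
        rcases min_le_iff.1 h with h | h
        · exact h
        · omega
      · intro h
        exact (min_le_left _ _).trans h
    rw [h1, NTH_range, min_eq_right]
    exact (Nat.log_lt_self 2 (by omega)).le

variable {α : Type} [Dat α]

theorem plog {f : α → ℕ} (hf : Poly f) : Poly (fun x => Nat.log 2 (f x)) := by
  have hf1 : Poly (fun z : α × ℕ => f z.1) := Poly.comp hf Poly.fst
  have h : Poly (fun x => ((List.range (f x)).filter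
      (fun i => decide (cp (i + 1) (f x + 1) ≤ f x))).length) :=
    plength (pfilter (p := fun x i => cp (i + 1) (f x + 1) ≤ f x) (prange hf)
      (dle (pcp (padd Poly.snd (Poly.const 1)) (padd hf1 (Poly.const 1))) hf1))
  have he : (fun x => Nat.log 2 (f x)) = (fun x => ((List.range (f x)).filter
      (fun i => decide (cp (i + 1) (f x + 1) ≤ f x))).length) := by
    funext x
    exact NTH_log (f x)
  rw [he]
  exact h

theorem pnpr {f : α → ℕ} (hf : Poly f) : Poly (fun x => npr (f x)) := by
  have hf1 : Poly (fun z : α × ℕ => f z.1) := Poly.comp hf Poly.fst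
  have hprime : PDec (fun z : α × ℕ => z.2.Prime) := by
    have h1 : PDec (fun z : α × ℕ => 2 ≤ z.2 ∧ ∀ m ∈ List.range z.2, 2 ≤ m → ¬ (z.2 % m = 0)) :=
      dand (dle (Poly.const 2) Poly.snd)
        (dall (l := fun z : α × ℕ => List.range z.2) (p := fun z m => 2 ≤ m → ¬ (z.2 % m = 0)) (prange Poly.snd)
          (dimp (dle (Poly.const 2) Poly.snd)
            (dnot (deq (pmod (Poly.comp Poly.snd Poly.fst) Poly.snd) (Poly.const 0)))))
    refine diff (fun z => ?_) h1
    rw [Nat.prime_def_lt']
    refine and_congr Iff.rfl ?_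
    constructor
    · intro h m h2 hm hd
      exact h m (List.mem_range.2 hm) h2 (Nat.mod_eq_zero_of_dvd hd)
    · intro h m hm h2 h0
      exact h m h2 (List.mem_range.1 hm) (Nat.dvd_of_mod_eq_zero h0)
  exact pheadD (pfilter (p := fun x p => f x < p ∧ p.Prime)
    (prange (padd (pmul (Poly.const 2) hf) (Poly.const 3))) (dand (dlt hf1 Poly.snd) hprime)) (Poly.const 0)

private theorem NTH_fold (g : ℕ → ℕ → ℕ) (M : ℕ) (l : List ℕ) (s : ℕ) :
    l.foldl (fun s b => min (g s b) M) s ≤ s + M := by
  induction l generalizing s with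
  | nil => simp
  | cons a l ih =>
    rw [List.foldl_cons]
    rcases l with _ | ⟨b, l⟩
    · exact (min_le_right _ _).trans (Nat.le_add_left _ _)
    · have key : ∀ (l : List ℕ) (s : ℕ), s ≤ M → l.foldl (fun s b => min (g s b) M) s ≤ M := by
        intro l
        induction l with
        | nil => intro s h; exact h
        | cons a l ih2 => intro s _; exact ih2 _ (min_le_right _ _)
      exact (key _ _ (min_le_right _ _)).trans (Nat.le_add_left _ _)

theorem phval {w : α → List ℕ} {m M u : α → ℕ} (hw : Poly w) (hm : Poly m) (hM : Poly M) (hu : Poly u) :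
    Poly (fun x => hval (w x) (m x) (M x) (u x)) := by
  have main : Poly (fun x : (List ℕ × ℕ) × ℕ × ℕ => hval x.1.1 x.1.2 x.2.1 x.2.2) := by
    refine pfold (f := fun (x : (List ℕ × ℕ) × ℕ × ℕ) s b =>
      min (2 * s + x.1.1.getD (x.2.2 * x.1.2 + b) 0) x.2.1) (l := fun x => List.range x.1.2)
      (s := fun _ => 0) 1 ?_ (prange (Poly.comp Poly.snd Poly.fst)) (Poly.const 0) ?_
    · have hx : Poly (fun z : ((List ℕ × ℕ) × ℕ × ℕ) × ℕ × ℕ => z.1) := Poly.fst
      have hs : Poly (fun z : ((List ℕ × ℕ) × ℕ × ℕ) × ℕ × ℕ => z.2.1) := pfst Poly.snd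
      have hb : Poly (fun z : ((List ℕ × ℕ) × ℕ × ℕ) × ℕ × ℕ => z.2.2) := psnd Poly.snd
      exact pmin (padd (pmul (Poly.const 2) hs)
        (pgetD (pfst (pfst hx)) (padd (pmul (psnd (psnd hx)) (psnd (pfst hx))) hb) (Poly.const 0)))
        (pfst (psnd hx))
    · intro x l s
      have h1 := NTH_fold (fun s b => 2 * s + x.1.1.getD (x.2.2 * x.1.2 + b) 0) x.2.1 l s
      rw [pow_one, one_mul, sz_nat, sz_nat, sz_pair, sz_pair x.2, sz_nat x.2.1]
      omega
  exact Poly.comp main (Poly.pair (Poly.pair hw hm) (Poly.pair hM hu))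

end KRN
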