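import Pool.Agent.KRN.PAR

/-!
# KRN PAN: kernelization with polynomial advice

The advice for the parameter `k` is a table of `RN d k ^ d` functions from `{0, …, d * (k + 1) ^ d - 1}` to the buckets.
-/

set_option autoImplicit false

namespace KRN

/-- A deterministic kernelization for `p-d-Hitting-Set` with at most `g k` vertices, computed in polynomial time with an
advice string `a k` which depends only on the parameter and has polynomial length. -/
structure IsAdviceKernel (d : ℕ) (g : ℕ → ℝ) (a : ℕ → List ℕ) (K : Inst × List ℕ → Inst) : Prop where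
  poly : Poly K
  adv : ∃ C : ℕ, ∀ k, sz (a k) ≤ C * (k + 1) ^ C
  wf : ∀ I, WF d I → WF d (K (I, a I.2.1))
  iff : ∀ I, WF d I → (Yes (K (I, a I.2.1)) ↔ Yes I)
  vert : ∀ I, WF d I → (vert (K (I, a I.2.1)) : ℝ) ≤ g I.2.1
  size : ∃ C : ℕ, ∀ I, WF d I → sz (K (I, a I.2.1)) ≤ C * (I.2.1 + 1) ^ C

/-- The largest number of vertices after the preliminary kernel. -/
def nmax (d k : ℕ) : ℕ := d * (k + 1) ^ d

/-- The number of seeds in a slot. -/
def RN (d k : ℕ) : ℕ := ((List.range (2 * d * (k + 1) + 1)).filter fun R => decide (2 * d * (k + 1) ≤ R ^ d)).headD 0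

/-- The bucket of `u` for the seed `ρ` and the table `w`. -/
def hN (d k M : ℕ) (w ρ : List ℕ) (u : ℕ) : ℕ := w.getD (seedN (RN d k) ρ d * nmax d k + u) 0 % M

/-- The kernel of an index instance with advice. -/
def kerN (d : ℕ) (x : IInst × List ℕ) : Inst :=
  toHS (frm d (hN d x.1.2.1 (MM x.1.2.1) x.2) (RN d x.1.2.1) (MM x.1.2.1) (2 * mm x.1.2.1) x.1.2.1
    (QQ (2 * mm x.1.2.1) x.1.1) (rr x.1.1) (le2 (QQ (2 * mm x.1.2.1) x.1.1)) (up2 (QQ (2 * mm x.1.2.1) x.1.1))
    (le2 (MM x.1.2.1 * (2 * mm x.1.2.1))) (up2 (MM x.1.2.1 * (2 * mm x.1.2.1))) x.1.2.2)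

end KRN
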