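import Pool.Agent.KRN.NTH
import Pool.Agent.KRN.PRD

/-!
# KRN PAR: the parameters of the two kernels

Randomized: `M = 2 ^ mm k` buckets with capacity `t = 2 * mm k`, one seed.
Deterministic (`s ≥ 2` fixed): capacity `s - 1`, `M = MD s k` buckets, the prime `PD d k`, `RD d s k` seeds per slot; the seed
`ρ` is the number `N = ∑ ρ_i R ^ i`; the bucket of `u` is the value modulo `M` of the polynomial with the digits of `N / p` at
the point `code p d u (N % p)`.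
-/

set_option autoImplicit false

namespace KRN

/-- `2 ^ mm k` is larger than `2 * (k + 1)` and at most `4 * (k + 1)`. -/
def mm (k : ℕ) : ℕ := Nat.log 2 (k + 1) + 2

/-- The number of buckets. -/
def MM (k : ℕ) : ℕ := cp (mm k) (4 * (k + 1))

/-- The number of digits. -/
def rr (n : ℕ) : ℕ := Nat.log 2 n + 1

/-- The number of columns and symbols. -/
def QQ (t n : ℕ) : ℕ := npr ((t + 1) ^ 2 * rr n)

/-- The exponent of a power of two which is at least `x`. -/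
def le2 (x : ℕ) : ℕ := Nat.log 2 x + 1

/-- A power of two which is at least `x`. -/
def up2 (x : ℕ) : ℕ := cp (le2 x) (2 * x)

/-- The randomized kernel of an index instance. -/
def kerR (d : ℕ) (x : IInst × List ℕ) : Inst :=
  toHS (frm d (fun _ u => hval x.2 (mm x.1.2.1) (MM x.1.2.1) u) 1 (MM x.1.2.1) (2 * mm x.1.2.1) x.1.2.1
    (QQ (2 * mm x.1.2.1) x.1.1) (rr x.1.1) (le2 (QQ (2 * mm x.1.2.1) x.1.1)) (up2 (QQ (2 * mm x.1.2.1) x.1.1))
    (le2 (MM x.1.2.1 * (2 * mm x.1.2.1))) (up2 (MM x.1.2.1 * (2 * mm x.1.2.1))) x.1.2.2)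

/-- The number of buckets (deterministic). -/
def MD (s k : ℕ) : ℕ :=
  ((List.range ((2 * (k + 1)) ^ s + 1)).filter fun M => decide ((2 * (k + 1)) ^ s ≤ M ^ (s - 1))).headD 0

/-- The prime (deterministic). -/
def PD (d k : ℕ) : ℕ := npr ((2 * (k + 1)) ^ 2 * (d + 1))

/-- The number of seeds in a slot (deterministic). -/
def RD (d s k : ℕ) : ℕ :=
  ((List.range (PD d k ^ (s + 1) + 1)).filter fun R => decide (PD d k ^ (s + 1) ≤ R ^ d)).headD 0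

/-- The number of the seed `ρ`. -/
def seedN (R : ℕ) (ρ : List ℕ) : ℕ → ℕ
  | 0 => 0
  | j + 1 => seedN R ρ j + ρ.getD j 0 * R ^ j

/-- The bucket of `u` for the number `N` of the seed. -/
def buc (p s r M N u : ℕ) : ℕ := code p s (N / p) (code p r u (N % p)) % M

/-- The deterministic kernel of an index instance. -/
def kerD (d s : ℕ) (x : IInst) : Inst :=
  toHS (frm d (fun ρ u => buc (PD d x.2.1) s d (MD s x.2.1) (seedN (RD d s x.2.1) ρ d) u) (RD d s x.2.1) (MD s x.2.1) (s - 1)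
    x.2.1 (QQ (s - 1) x.1) (rr x.1) (le2 (QQ (s - 1) x.1)) (up2 (QQ (s - 1) x.1))
    (le2 (MD s x.2.1 * (s - 1))) (up2 (MD s x.2.1 * (s - 1))) x.2.2)

theorem up2_eq {x : ℕ} (hx : 1 ≤ x) : up2 x = 2 ^ le2 x ∧ x ≤ up2 x ∧ up2 x ≤ 2 * x := by
  unfold up2 le2 cp
  have h1 : 2 ^ Nat.log 2 x ≤ x := Nat.pow_log_le_self 2 (by omega)
  have h2 : x < 2 ^ (Nat.log 2 x + 1) := Nat.lt_pow_succ_log_self (by norm_num) x
  have h3 : 2 ^ (Nat.log 2 x + 1) = 2 * 2 ^ Nat.log 2 x := by ring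
  rw [min_eq_left (by omega)]
  omega

theorem MM_eq (k : ℕ) : MM k = 2 ^ mm k ∧ 2 * (k + 1) ≤ MM k ∧ MM k ≤ 4 * (k + 1) := by
  unfold MM mm cp
  have h1 : 2 ^ Nat.log 2 (k + 1) ≤ k + 1 := Nat.pow_log_le_self 2 (by omega)
  have h2 : k + 1 < 2 ^ (Nat.log 2 (k + 1) + 1) := Nat.lt_pow_succ_log_self (by norm_num) (k + 1)
  have h3 : 2 ^ (Nat.log 2 (k + 1) + 1) = 2 * 2 ^ Nat.log 2 (k + 1) := by ring
  have h4 : 2 ^ (Nat.log 2 (k + 1) + 2) = 4 * 2 ^ Nat.log 2 (k + 1) := by ring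
  rw [min_eq_left (by omega)]
  omega

theorem QQ_spec (t n : ℕ) : (QQ t n).Prime ∧ (t + 1) ^ 2 * rr n < QQ t n ∧ QQ t n ≤ 2 * ((t + 1) ^ 2 * rr n) + 2 :=
  npr_spec _

theorem le_QQ_pow (t n : ℕ) : n ≤ QQ t n ^ rr n := by
  have h1 := (QQ_spec t n).1.two_le
  have h2 : n < 2 ^ (Nat.log 2 n + 1) := Nat.lt_pow_succ_log_self (by norm_num) n
  exact h2.le.trans (Nat.pow_le_pow_left h1 _)

theorem good_R (d : ℕ) (J : IInst) (hJ : ∀ e ∈ J.2.2, e ≠ [] ∧ e.length ≤ d ∧ ∀ u ∈ e, u < J.1) (w : List ℕ)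
    (hw : ∀ u, u < J.1 → hval w (mm J.2.1) (MM J.2.1) u < MM J.2.1) :
    Good d (fun _ u => hval w (mm J.2.1) (MM J.2.1) u) 1 (MM J.2.1) (2 * mm J.2.1) (QQ (2 * mm J.2.1) J.1) (rr J.1)
      (le2 (QQ (2 * mm J.2.1) J.1)) (up2 (QQ (2 * mm J.2.1) J.1)) (le2 (MM J.2.1 * (2 * mm J.2.1)))
      (up2 (MM J.2.1 * (2 * mm J.2.1))) J.1 J.2.2 := by
  have hQ := QQ_spec (2 * mm J.2.1) J.1
  have hM := MM_eq J.2.1
  have h0 : 1 ≤ MM J.2.1 * (2 * mm J.2.1) := Nat.mul_pos (by omega) (by unfold mm; omega)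
  exact {
    hM := fun ρ _ u hu => hw u hu
    hQ := hQ.1
    hn := le_QQ_pow _ _
    ht := hQ.2.1
    h1 := (up2_eq hQ.1.one_lt.le).1
    hQ1 := (up2_eq hQ.1.one_lt.le).2.1
    h2 := (up2_eq h0).1
    hM2 := (up2_eq h0).2.1
    hE := hJ }

end KRN
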