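import Pool.Agent.KRN.Frm

/-!
# KRN PL1: sizes and derived rules for polynomial time, in context form

Everything follows from the constructors of `Poly` by composition: e.g. `padd hf hg := Poly.comp Poly.add (Poly.pair hf hg)`.
`pfold`: the context of `Poly.fold` is `x`; compose with `x ↦ (x, l x, s x)`.
-/

set_option autoImplicit false

namespace KRN

variable {α β γ δ : Type} [Dat α] [Dat β] [Dat γ] [Dat δ]

theorem sz_nat (n : ℕ) : sz n = n + 1 := rfl
theorem sz_pair (x : α × β) : sz x = sz x.1 + sz x.2 + 1 := rfl
theorem sz_list (l : List α) : sz l = (l.map sz).sum + 1 := rfl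
theorem sz_nil : sz ([] : List α) = 1 := rfl
theorem sz_cons (a : α) (l : List α) : sz (a :: l) = sz a + sz l := by
  rw [sz_list, sz_list, List.map_cons, List.sum_cons, add_assoc]
theorem one_le_sz (x : α) : 1 ≤ sz x := by
  rename_i i1
  cases i1 <;> simp [sz, Dat.size]
theorem length_lt_sz (l : List α) : l.length < sz l := by
  induction l with
  | nil => rw [sz_nil]; simp
  | cons a l ih =>
    rw [sz_cons, List.length_cons]
    have := one_le_sz a
    omega
theorem sz_tail_le (l : List α) : sz l.tail ≤ sz l := by
  cases l with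
  | nil => exact le_refl _
  | cons a l =>
    rw [sz_cons, List.tail_cons]
    omega
theorem sz_sublist_le {l l' : List α} (h : l.Sublist l') : sz l ≤ sz l' := by
  induction h with
  | slnil => exact le_refl _
  | cons a _ ih =>
    rw [sz_cons]
    omega
  | cons_cons a _ ih =>
    rw [sz_cons, sz_cons]
    omega
theorem sz_mem_le {a : α} {l : List α} (h : a ∈ l) : sz a ≤ sz l := by
  have h1 := sz_sublist_le (List.singleton_sublist.2 h)
  rw [sz_cons] at h1
  omega
theorem sz_append (l l' : List α) : sz (l ++ l') + 1 = sz l + sz l' := by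
  rw [sz_list, sz_list, sz_list, List.map_append, List.sum_append]
  omega

theorem pfst {f : α → β × γ} (hf : Poly f) : Poly (fun x => (f x).1) := Poly.comp Poly.fst hf
theorem psnd {f : α → β × γ} (hf : Poly f) : Poly (fun x => (f x).2) := Poly.comp Poly.snd hf
theorem padd {f g : α → ℕ} (hf : Poly f) (hg : Poly g) : Poly (fun x => f x + g x) :=
  Poly.comp Poly.add (Poly.pair hf hg)
theorem psub {f g : α → ℕ} (hf : Poly f) (hg : Poly g) : Poly (fun x => f x - g x) :=
  Poly.comp Poly.sub (Poly.pair hf hg)
theorem pmul {f g : α → ℕ} (hf : Poly f) (hg : Poly g) : Poly (fun x => f x * g x) :=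
  Poly.comp Poly.mul (Poly.pair hf hg)
theorem pdiv {f g : α → ℕ} (hf : Poly f) (hg : Poly g) : Poly (fun x => f x / g x) :=
  Poly.comp Poly.div (Poly.pair hf hg)
theorem pmod {f g : α → ℕ} (hf : Poly f) (hg : Poly g) : Poly (fun x => f x % g x) :=
  Poly.comp Poly.mod (Poly.pair hf hg)
theorem pmin {f g : α → ℕ} (hf : Poly f) (hg : Poly g) : Poly (fun x => min (f x) (g x)) := by
  have e : (fun x => min (f x) (g x)) = fun x => if f x ≤ g x then f x else g x := by
    funext x
    rw [min_def]
  rw [e]
  exact Poly.ite_le hf hg hf hg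
theorem ppow {f : α → ℕ} (hf : Poly f) (n : ℕ) : Poly (fun x => f x ^ n) := by
  induction n with
  | zero =>
    have e : (fun x => f x ^ 0) = fun _ => 1 := by
      funext x
      rw [pow_zero]
    rw [e]
    exact Poly.const 1
  | succ n ih =>
    have e : (fun x => f x ^ (n + 1)) = fun x => f x ^ n * f x := by
      funext x
      rw [pow_succ]
    rw [e]
    exact pmul ih hf
theorem pcons {f : α → β} {g : α → List β} (hf : Poly f) (hg : Poly g) : Poly (fun x => f x :: g x) :=
  Poly.comp Poly.cons (Poly.pair hf hg)
theorem plength {f : α → List β} (hf : Poly f) : Poly (fun x => (f x).length) :=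
  Poly.comp Poly.length hf
theorem prange {f : α → ℕ} (hf : Poly f) : Poly (fun x => List.range (f x)) :=
  Poly.comp Poly.range hf
theorem ptail {f : α → List β} (hf : Poly f) : Poly (fun x => (f x).tail) :=
  Poly.comp Poly.tail hf
theorem pheadD {f : α → List β} {c : α → β} (hf : Poly f) (hc : Poly c) : Poly (fun x => (f x).headD (c x)) :=
  Poly.comp Poly.head (Poly.pair hc hf)
theorem pflatten {f : α → List (List β)} (hf : Poly f) : Poly (fun x => (f x).flatten) :=
  Poly.comp Poly.flatten hf
theorem pmap {l : α → List β} {f : α → β → γ} (hl : Poly l) (hf : Poly (fun z : α × β => f z.1 z.2)) :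
    Poly (fun x => (l x).map (f x)) :=
  Poly.comp (Poly.map hf) (Poly.pair Poly.id hl)
theorem pflatMap {l : α → List β} {f : α → β → List γ} (hl : Poly l) (hf : Poly (fun z : α × β => f z.1 z.2)) :
    Poly (fun x => (l x).flatMap (f x)) := by
  have e : (fun x => (l x).flatMap (f x)) = fun x => ((l x).map (f x)).flatten := by
    funext x
    rw [List.flatMap_def]
  rw [e]
  exact pflatten (pmap hl hf)
theorem pappend {f g : α → List β} (hf : Poly f) (hg : Poly g) : Poly (fun x => f x ++ g x) := by
  have e : (fun x => f x ++ g x) = fun x => (f x :: g x :: []).flatten := by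
    funext x
    simp
  rw [e]
  exact pflatten (pcons hf (pcons hg (Poly.const [])))
theorem pfold {f : α → γ → β → γ} {l : α → List β} {s : α → γ} (C : ℕ) (hf : Poly (fun z : α × γ × β => f z.1 z.2.1 z.2.2))
    (hl : Poly l) (hs : Poly s)
    (hC : ∀ (x : α) (l : List β) (s : γ), sz (l.foldl (f x) s) ≤ C * (sz x + sz l + sz s) ^ C) :
    Poly (fun x => (l x).foldl (f x) (s x)) :=
  Poly.comp (Poly.fold C hf hC) (Poly.pair Poly.id (Poly.pair hl hs))

end KRN
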