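import Pool.Agent.KRN.PL1

/-!
# KRN PLY: predicates, filter, membership, dedup

`PDec p`: the predicate `p` is decidable in polynomial time.  `Classical.dec` is used in the definition; `Subsingleton` /
`if_congr` / `split_ifs` allow every other instance.
`pite`: `if p x then f x else g x = if 1 ≤ (if p x then 1 else 0) then f x else g x` (`Poly.ite_le`).
`filter`: `(l x).filter p = ((l x).map fun y => if p x y then [y] else []).flatten` (induction).
Bounded quantifiers: `(∀ y ∈ l x, p x y) ↔ ((l x).filter (fun y => ¬ p x y)).length ≤ 0`.
`getD`: `l.getD i c = ((List.range i).foldl (fun s _ => s.tail) l).headD c`.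
`cp`: `(List.range i).foldl (fun s _ => min (2 * s) m) (min 1 m)`; state size `≤ sz s + sz m`.
`dedup`: Mathlib's `List.dedup` keeps the LAST occurrence: `l.dedup` is the list of the `l.getD i _`, `i` in
`(range l.length).filter (fun i => l.getD i _ ∉ l.drop (i + 1))`; or a `pfold` over the reversed list; prove by induction on `l`.
The size of the state in `Poly.fold` has to be bounded for ALL inputs.
-/

set_option autoImplicit false

namespace KRN

variable {α β γ δ : Type} [Dat α] [Dat β] [Dat γ] [Dat δ]

/-- Predicates which are decidable in polynomial time. -/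
def PDec (p : α → Prop) : Prop := Poly (fun x => @ite ℕ (p x) (Classical.dec _) 1 0)

theorem pite {p : α → Prop} [DecidablePred p] {f g : α → β} (hp : PDec p) (hf : Poly f) (hg : Poly g) :
    Poly (fun x => if p x then f x else g x) := by
  have e : (fun x => if p x then f x else g x) =
      fun x => if 1 ≤ (@ite ℕ (p x) (Classical.dec _) 1 0) then f x else g x := by
    funext x
    by_cases h : p x
    · simp [h]
    · simp [h]
  rw [e]
  exact Poly.ite_le (Poly.const 1) hp hf hg
theorem dle {f g : α → ℕ} (hf : Poly f) (hg : Poly g) : PDec (fun x => f x ≤ g x) := by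
  have e : (fun x => @ite ℕ (f x ≤ g x) (Classical.dec _) 1 0) =
      fun x => if f x ≤ g x then 1 else 0 := by
    funext x
    by_cases h : f x ≤ g x
    · simp [h]
    · simp [h]
  unfold PDec
  rw [e]
  exact Poly.ite_le hf hg (Poly.const 1) (Poly.const 0)
theorem dlt {f g : α → ℕ} (hf : Poly f) (hg : Poly g) : PDec (fun x => f x < g x) := by
  have e : (fun x => @ite ℕ (f x < g x) (Classical.dec _) 1 0) =
      fun x => if f x + 1 ≤ g x then 1 else 0 := by
    funext x
    by_cases h : f x < g x
    · rw [if_pos h, if_pos (Nat.succ_le_of_lt h)]
    · rw [if_neg h, if_neg (fun h2 => h (Nat.lt_of_succ_le h2))]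
  unfold PDec
  rw [e]
  exact Poly.ite_le (padd hf (Poly.const 1)) hg (Poly.const 1) (Poly.const 0)
theorem deq [DecidableEq β] {f g : α → β} (hf : Poly f) (hg : Poly g) : PDec (fun x => f x = g x) := by
  have e : (fun x => @ite ℕ (f x = g x) (Classical.dec _) 1 0) =
      fun x => if f x = g x then 1 else 0 := by
    funext x
    by_cases h : f x = g x
    · rw [if_pos h, if_pos h]
    · rw [if_neg h, if_neg h]
  unfold PDec
  rw [e]
  exact Poly.ite_eq hf hg (Poly.const 1) (Poly.const 0)
theorem dnot {p : α → Prop} (hp : PDec p) : PDec (fun x => ¬ p x) := by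
  classical
  have e : (fun x => @ite ℕ (¬ p x) (Classical.dec _) 1 0) =
      fun x => if p x then 0 else 1 := by
    funext x
    by_cases h : p x
    · rw [if_neg (not_not.2 h), if_pos h]
    · rw [if_pos h, if_neg h]
  unfold PDec
  rw [e]
  exact pite hp (Poly.const 0) (Poly.const 1)
theorem dand {p q : α → Prop} (hp : PDec p) (hq : PDec q) : PDec (fun x => p x ∧ q x) := by
  classical
  have e : (fun x => @ite ℕ (p x ∧ q x) (Classical.dec _) 1 0) =
      fun x => if p x then (if q x then 1 else 0) else 0 := by
    funext x
    by_cases h : p x
    · by_cases h2 : q x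
      · rw [if_pos ⟨h, h2⟩, if_pos h, if_pos h2]
      · rw [if_neg (fun h3 => h2 h3.2), if_pos h, if_neg h2]
    · rw [if_neg (fun h3 => h h3.1), if_neg h]
  unfold PDec
  rw [e]
  exact pite hp (pite hq (Poly.const 1) (Poly.const 0)) (Poly.const 0)
theorem dor {p q : α → Prop} (hp : PDec p) (hq : PDec q) : PDec (fun x => p x ∨ q x) := by
  classical
  have e : (fun x => @ite ℕ (p x ∨ q x) (Classical.dec _) 1 0) =
      fun x => if p x then 1 else (if q x then 1 else 0) := by
    funext x
    by_cases h : p x
    · rw [if_pos (Or.inl h), if_pos h]
    · by_cases h2 : q x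
      · rw [if_pos (Or.inr h2), if_neg h, if_pos h2]
      · rw [if_neg (fun h3 => h3.elim h h2), if_neg h, if_neg h2]
  unfold PDec
  rw [e]
  exact pite hp (Poly.const 1) (pite hq (Poly.const 1) (Poly.const 0))
theorem dimp {p q : α → Prop} (hp : PDec p) (hq : PDec q) : PDec (fun x => p x → q x) := by
  classical
  have e : (fun x => @ite ℕ (p x → q x) (Classical.dec _) 1 0) =
      fun x => if p x then (if q x then 1 else 0) else 1 := by
    funext x
    by_cases h : p x
    · by_cases h2 : q x
      · rw [if_pos (fun _ => h2), if_pos h, if_pos h2]
      · rw [if_neg (fun h3 => h2 (h3 h)), if_pos h, if_neg h2]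
    · rw [if_pos (fun h3 => absurd h3 h), if_neg h]
  unfold PDec
  rw [e]
  exact pite hp (pite hq (Poly.const 1) (Poly.const 0)) (Poly.const 1)
theorem diff {p q : α → Prop} (h : ∀ x, p x ↔ q x) (hp : PDec p) : PDec q := by
  have e : p = q := by
    funext x
    exact propext (h x)
  rw [← e]
  exact hp
theorem pfilter {l : α → List β} {p : α → β → Prop} [∀ x, DecidablePred (p x)] (hl : Poly l)
    (hp : PDec (fun z : α × β => p z.1 z.2)) : Poly (fun x => (l x).filter (fun y => decide (p x y))) := by
  have e : (fun x => (l x).filter (fun y => decide (p x y))) =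
      fun x => ((l x).map (fun y => if p x y then [y] else [])).flatten := by
    funext x
    induction (l x) with
    | nil => rfl
    | cons a t ih =>
      rw [List.map_cons, List.flatten_cons, ← ih]
      by_cases h : p x a
      · simp [h]
      · simp [h]
  rw [e]
  refine pflatten (pmap (f := fun x y => if p x y then [y] else []) hl ?_)
  have := pite (p := fun z : α × β => p z.1 z.2) (f := fun z => [z.2]) (g := fun _ => []) hp
    (pcons Poly.snd (Poly.const [])) (Poly.const [])
  exact this
theorem dall {l : α → List β} {p : α → β → Prop} (hl : Poly l) (hp : PDec (fun z : α × β => p z.1 z.2)) :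
    PDec (fun x => ∀ y ∈ l x, p x y) := by
  classical
  have h1 : PDec (fun x => ((l x).filter (fun y => decide (¬ p x y))).length ≤ 0) :=
    dle (plength (pfilter (p := fun x y => ¬ p x y) hl (dnot hp))) (Poly.const 0)
  refine diff (fun x => ?_) h1
  rw [Nat.le_zero, List.length_eq_zero_iff, List.filter_eq_nil_iff]
  constructor
  · intro h y hy
    have := h y hy
    simpa using this
  · intro h y hy
    simpa using h y hy
theorem dex {l : α → List β} {p : α → β → Prop} (hl : Poly l) (hp : PDec (fun z : α × β => p z.1 z.2)) :
    PDec (fun x => ∃ y ∈ l x, p x y) := by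
  have h1 : PDec (fun x => ¬ ∀ y ∈ l x, ¬ p x y) :=
    dnot (dall (p := fun x y => ¬ p x y) hl (dnot hp))
  refine diff (fun x => ?_) h1
  push Not
  rfl
theorem dmem [DecidableEq β] {f : α → β} {l : α → List β} (hf : Poly f) (hl : Poly l) : PDec (fun x => f x ∈ l x) := by
  have h1 : PDec (fun x => ∃ y ∈ l x, y = f x) :=
    dex (p := fun x y => y = f x) hl (deq Poly.snd (Poly.comp hf Poly.fst))
  refine diff (fun x => ?_) h1
  simp

theorem pgetD {l : α → List β} {i : α → ℕ} {c : α → β} (hl : Poly l) (hi : Poly i) (hc : Poly c) :
    Poly (fun x => (l x).getD (i x) (c x)) := by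
  have e : (fun x => (l x).getD (i x) (c x)) = fun x =>
      ((List.range (i x)).foldl (fun s _ => s.tail) (l x)).headD (c x) := by
    funext x
    generalize l x = L
    generalize i x = n
    generalize c x = d
    have h1 : ∀ (n : ℕ) (M : List ℕ) (L : List β), M.length = n →
        (M.foldl (fun s _ => s.tail) L) = L.drop n := by
      intro n
      induction n with
      | zero =>
        intro M L hM
        rw [List.length_eq_zero_iff.1 hM]
        simp
      | succ n ih =>
        intro M L hM
        cases M with
        | nil => simp at hM
        | cons a M =>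
          rw [List.foldl_cons, ih M L.tail (by simpa using hM), List.drop_tail]
    rw [h1 n (List.range n) L List.length_range]
    rw [List.getD_eq_getElem?_getD, List.headD_eq_head?_getD, List.head?_drop]
  rw [e]
  refine pheadD (pfold (f := fun (_ : α) (s : List β) (_ : ℕ) => s.tail) 1 ?_ (prange hi) hl ?_) hc
  · exact ptail (pfst Poly.snd)
  · intro x L s
    have h1 : ∀ (L : List ℕ) (s : List β), sz (L.foldl (fun s _ => s.tail) s) ≤ sz s := by
      intro L
      induction L with
      | nil => intro s; exact le_refl _
      | cons a L ih =>
        intro s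
        rw [List.foldl_cons]
        exact le_trans (ih _) (sz_tail_le s)
    have h2 := h1 L s
    rw [pow_one, one_mul]
    exact le_trans h2 (Nat.le_add_left _ _)
theorem pdedup [DecidableEq β] {l : α → List β} (hl : Poly l) : Poly (fun x => (l x).dedup) := by
  have hsz : ∀ (L : List β) (s : List β),
      sz (L.foldl (fun s y => if y ∈ s then s else y :: s) s) ≤ sz L + sz s := by
    intro L
    induction L with
    | nil =>
      intro s
      rw [List.foldl_nil]
      omega
    | cons a L ih =>
      intro s
      rw [List.foldl_cons]
      refine le_trans (ih _) ?_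
      rw [sz_cons]
      by_cases h : a ∈ s
      · rw [if_pos h]
        omega
      · rw [if_neg h, sz_cons]
        omega
  have hrev : ∀ (L : List β) (s : List β), sz (L.foldl (fun s y => y :: s) s) ≤ sz L + sz s := by
    intro L
    induction L with
    | nil =>
      intro s
      rw [List.foldl_nil]
      omega
    | cons a L ih =>
      intro s
      rw [List.foldl_cons]
      refine le_trans (ih _) ?_
      rw [sz_cons, sz_cons]
      omega
  have e : (fun x => (l x).dedup) = fun x =>
      ((l x).foldl (fun s y => y :: s) []).foldl (fun s y => if y ∈ s then s else y :: s) [] := by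
    funext x
    generalize l x = L
    have h1 : ∀ (L s : List β), L.foldl (fun s y => y :: s) s = L.reverse ++ s := by
      intro L
      induction L with
      | nil => intro s; simp
      | cons a L ih =>
        intro s
        rw [List.foldl_cons, ih]
        simp
    rw [h1, List.append_nil, List.foldl_reverse]
    induction L with
    | nil => simp
    | cons a L ih =>
      rw [List.foldr_cons, ← ih]
      by_cases h : a ∈ L
      · rw [List.dedup_cons_of_mem h, if_pos (List.mem_dedup.2 h)]
      · rw [List.dedup_cons_of_notMem h, if_neg (fun h2 => h (List.mem_dedup.1 h2))]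
  rw [e]
  have hr : Poly (fun x => (l x).foldl (fun s y => y :: s) ([] : List β)) := by
    refine pfold (f := fun (_ : α) (s : List β) (y : β) => y :: s) 1 ?_ hl (Poly.const []) ?_
    · exact pcons (psnd Poly.snd) (pfst Poly.snd)
    · intro x L s
      have h2 := hrev L s
      rw [pow_one, one_mul]
      omega
  refine pfold (f := fun (_ : α) (s : List β) (y : β) => if y ∈ s then s else y :: s) 1 ?_ hr
    (Poly.const []) ?_
  · exact pite (p := fun z : α × List β × β => z.2.2 ∈ z.2.1) (dmem (psnd Poly.snd) (pfst Poly.snd))
      (pfst Poly.snd) (pcons (psnd Poly.snd) (pfst Poly.snd))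
  · intro x L s
    have h2 := hsz L s
    rw [pow_one, one_mul]
    omega
theorem pcp {i m : α → ℕ} (hi : Poly i) (hm : Poly m) : Poly (fun x => cp (i x) (m x)) := by
  have e : (fun x => cp (i x) (m x)) = fun x =>
      (List.range (i x)).foldl (fun s _ => min (2 * s) (m x)) (min 1 (m x)) := by
    funext x
    generalize m x = m
    generalize i x = n
    have h1 : ∀ (n : ℕ) (M : List ℕ) (j : ℕ), M.length = n →
        M.foldl (fun s _ => min (2 * s) m) (min (2 ^ j) m) = min (2 ^ (j + n)) m := by
      intro n
      induction n with
      | zero =>
        intro M j hM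
        rw [List.length_eq_zero_iff.1 hM]
        simp
      | succ n ih =>
        intro M j hM
        cases M with
        | nil => simp at hM
        | cons a M =>
          have h2 : min (2 * min (2 ^ j) m) m = min (2 ^ (j + 1)) m := by
            rw [pow_succ]
            omega
          rw [List.foldl_cons, h2, ih M (j + 1) (by simpa using hM)]
          congr 2
          omega
    have h3 := h1 n (List.range n) 0 List.length_range
    rw [pow_zero, zero_add] at h3
    rw [h3]
    rfl
  rw [e]
  have hmain : Poly (fun z : ℕ × List ℕ × ℕ =>
      z.2.1.foldl (fun s _ => min (2 * s) z.1) z.2.2) := by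
    refine pfold (f := fun (z : ℕ × List ℕ × ℕ) (s : ℕ) (_ : ℕ) => min (2 * s) z.1) 1 ?_
      (pfst Poly.snd) (psnd Poly.snd) ?_
    · exact pmin (pmul (Poly.const 2) (pfst Poly.snd)) (pfst Poly.fst)
    · intro z L s
      have h1 : ∀ (L : List ℕ) (s : ℕ), L.foldl (fun s _ => min (2 * s) z.1) s ≤ z.1 + s := by
        intro L
        induction L with
        | nil =>
          intro s
          rw [List.foldl_nil]
          omega
        | cons a L ih =>
          intro s
          rw [List.foldl_cons]
          have h2 : ∀ (L : List ℕ) (s : ℕ), s ≤ z.1 →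
              L.foldl (fun s _ => min (2 * s) z.1) s ≤ z.1 := by
            intro L
            induction L with
            | nil =>
              intro s hs
              rw [List.foldl_nil]
              exact hs
            | cons a L ih2 =>
              intro s _
              rw [List.foldl_cons]
              exact ih2 _ (min_le_right _ _)
          have h3 := h2 L (min (2 * s) z.1) (min_le_right _ _)
          omega
      have h2 := h1 L s
      rw [pow_one, one_mul, sz_nat, sz_nat, sz_pair, sz_nat]
      omega
  exact Poly.comp hmain (Poly.pair hm (Poly.pair (prange hi) (pmin (Poly.const 1) hm)))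

end KRN
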