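import Pool.Agent.KRN.PRD

/-!
# KRN PRA: one step of the preliminary kernel

`V` is duplicate free, `A = allc V d`.  `mem_allc`: the canonical lists.
`step_hit`: `→`: let `S` hit `E`, `S.card ≤ k`, and `f` a new edge (`f.length = i`, `(k + 1) ^ (d - i) ≤ cnt E f`).  If `S` does not
hit `f`, every edge `e ⊇ f` contains some `s ∈ S`, `s ∉ f`, hence the canonical list of `f ∪ {s}` (length `i + 1`); by the
hypothesis there are at most `k * (k + 1) ^ (d - i - 1) < (k + 1) ^ (d - i)` such edges.  `←`: a removed edge contains a new one.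
`step_cnt`: if `g.length = i` and `g` is new, the only edge of the new list which contains `g` is `g`; otherwise the new edges
which contain `g` are old.  Longer `g`: the new edges containing `g` are old.
-/

set_option autoImplicit false

namespace KRN

theorem mem_canon {V e : List Name} {v : Name} : v ∈ canon V e ↔ v ∈ V ∧ v ∈ e := by
  unfold canon
  rw [List.mem_filter, decide_eq_true_eq]

theorem canon_canon (V e : List Name) : canon V (canon V e) = canon V e := by
  have h : canon V (canon V e) = V.filter fun v => decide (v ∈ canon V e) := rfl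
  rw [h]
  conv_rhs => rw [canon]
  refine List.filter_congr fun v hv => ?_
  rw [decide_eq_decide, mem_canon]
  exact and_iff_right hv

theorem mem_tupN {V : List Name} : ∀ {j : ℕ} {l : List Name},
    l ∈ tupN V j ↔ l.length = j ∧ ∀ v ∈ l, v ∈ V := by
  intro j
  induction j with
  | zero =>
    intro l
    unfold tupN
    rw [List.mem_singleton, List.length_eq_zero_iff]
    constructor
    · rintro rfl; simp
    · exact fun h => h.1
  | succ j ih =>
    intro l
    unfold tupN
    simp only [List.mem_flatMap, List.mem_map, ih]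
    constructor
    · rintro ⟨v, hv, l', ⟨h1, h2⟩, rfl⟩
      refine ⟨by simp [h1], fun w hw => ?_⟩
      rcases List.mem_cons.1 hw with rfl | hw
      · exact hv
      · exact h2 w hw
    · rintro ⟨h1, h2⟩
      cases l with
      | nil => simp at h1
      | cons v l =>
        exact ⟨v, h2 v (List.mem_cons_self ..), l, ⟨by simpa using h1,
          fun w hw => h2 w (List.mem_cons_of_mem _ hw)⟩, rfl⟩

theorem mem_allc {V : List Name} (hV : V.Nodup) {d : ℕ} {f : List Name} :
    f ∈ allc V d ↔ f.length ≤ d ∧ canon V f = f := by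
  unfold allc
  simp only [List.mem_dedup, List.mem_flatMap, List.mem_range, List.mem_filter, mem_tupN,
    decide_eq_true_eq]
  constructor
  · rintro ⟨j, hj, ⟨h1, -⟩, h2⟩
    exact ⟨by omega, h2⟩
  · rintro ⟨h1, h2⟩
    refine ⟨f.length, by omega, ⟨rfl, fun v hv => ?_⟩, h2⟩
    rw [← h2] at hv
    exact (mem_canon.1 hv).1

theorem canon_nodup {V : List Name} (hV : V.Nodup) (e : List Name) : (canon V e).Nodup :=
  hV.filter _

theorem canon_toFinset {V e : List Name} (he : ∀ v ∈ e, v ∈ V) :
    (canon V e).toFinset = e.toFinset := by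
  ext v
  rw [List.mem_toFinset, List.mem_toFinset, mem_canon]
  exact ⟨fun h => h.2, fun h => ⟨he v h, h⟩⟩

theorem canon_length {V : List Name} (hV : V.Nodup) {e : List Name} (he : ∀ v ∈ e, v ∈ V) :
    (canon V e).length = e.toFinset.card := by
  rw [← List.toFinset_card_of_nodup (canon_nodup hV e), canon_toFinset he]

theorem allc_sub {V : List Name} (hV : V.Nodup) {d : ℕ} {f : List Name} (hf : f ∈ allc V d) :
    ∀ v ∈ f, v ∈ V := by
  intro v hv
  rw [← ((mem_allc hV).1 hf).2] at hv
  exact (mem_canon.1 hv).1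

theorem allc_nodup_mem {V : List Name} (hV : V.Nodup) {d : ℕ} {f : List Name}
    (hf : f ∈ allc V d) : f.Nodup := by
  rw [← ((mem_allc hV).1 hf).2]
  exact canon_nodup hV f

/-- canonical lists of the same length, one contained in the other -/
theorem allc_eq {V : List Name} (hV : V.Nodup) {d : ℕ} {f g : List Name} (hf : f ∈ allc V d)
    (hg : g ∈ allc V d) (hl : f.length ≤ g.length) (hgf : ∀ v ∈ g, v ∈ f) : f = g := by
  have h1 : g.toFinset ⊆ f.toFinset := fun v hv => List.mem_toFinset.2 (hgf v (List.mem_toFinset.1 hv))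
  have h2 : f.toFinset.card ≤ g.toFinset.card := by
    rw [List.toFinset_card_of_nodup (allc_nodup_mem hV hf),
      List.toFinset_card_of_nodup (allc_nodup_mem hV hg)]
    exact hl
  have h3 := Finset.eq_of_subset_of_card_le h1 h2
  rw [← ((mem_allc hV).1 hf).2, ← ((mem_allc hV).1 hg).2]
  unfold canon
  refine List.filter_congr fun v _ => ?_
  rw [decide_eq_decide, ← List.mem_toFinset, ← List.mem_toFinset, h3]

theorem cnt_eq {E : List (List Name)} (hn : E.Nodup) (f : List Name) :
    cnt E f = (E.toFinset.filter fun e => ∀ v ∈ f, v ∈ e).card := by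
  unfold cnt
  rw [← List.toFinset_card_of_nodup (hn.filter _), List.toFinset_filter]
  congr 1
  ext e
  simp

theorem mem_stepP {d k i : ℕ} {A E : List (List Name)} {f : List Name} :
    f ∈ stepP d k i A E ↔ f ∈ A ∧ ((f.length = i ∧ (k + 1) ^ (d - i) ≤ cnt E f) ∨
    (f ∈ E ∧ ∀ g ∈ A, g.length = i → (k + 1) ^ (d - i) ≤ cnt E g → ¬ ∀ v ∈ g, v ∈ f)) := by
  unfold stepP
  rw [List.mem_filter, decide_eq_true_eq]

theorem step_hit {V : List Name} (hV : V.Nodup) (d k i : ℕ) (hi : i < d) (E : List (List Name)) (hE : ∀ e ∈ E, e ∈ allc V d)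
    (hn : E.Nodup) (hc : ∀ g ∈ allc V d, g.length = i + 1 → cnt E g ≤ (k + 1) ^ (d - (i + 1))) (S : Finset Name)
    (hS : S.card ≤ k) (h0 : ∀ e ∈ E, e ≠ []) (hi0 : 1 ≤ i) :
    (∀ e ∈ E, ∃ v ∈ e, v ∈ S) ↔ ∀ e ∈ stepP d k i (allc V d) E, ∃ v ∈ e, v ∈ S := by
  constructor
  · intro h f hf
    obtain ⟨hfA, hf⟩ := mem_stepP.1 hf
    rcases hf with ⟨hfl, hfc⟩ | ⟨hfE, -⟩
    · by_contra hcon
      push Not at hcon
      -- the lists `f ∪ {s}`
      have hsub : E.toFinset.filter (fun e => ∀ v ∈ f, v ∈ e) ⊆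
          (S.filter fun s => s ∈ V ∧ s ∉ f).biUnion fun s =>
            E.toFinset.filter fun e => ∀ v ∈ canon V (s :: f), v ∈ e := by
        intro e he
        obtain ⟨he1, he2⟩ := Finset.mem_filter.1 he
        have heE := List.mem_toFinset.1 he1
        obtain ⟨s, hse, hsS⟩ := h e heE
        rw [Finset.mem_biUnion]
        refine ⟨s, Finset.mem_filter.2 ⟨hsS, allc_sub hV (hE e heE) s hse,
          fun hsf => hcon s hsf hsS⟩, Finset.mem_filter.2 ⟨he1, fun v hv => ?_⟩⟩
        rcases List.mem_cons.1 (mem_canon.1 hv).2 with rfl | hv'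
        · exact hse
        · exact he2 v hv'
      have hle : ∀ s ∈ S.filter (fun s => s ∈ V ∧ s ∉ f),
          (E.toFinset.filter fun e => ∀ v ∈ canon V (s :: f), v ∈ e).card ≤
            (k + 1) ^ (d - (i + 1)) := by
        intro s hs
        obtain ⟨-, hsV, hsf⟩ := Finset.mem_filter.1 hs
        rw [← cnt_eq hn]
        have hsub' : ∀ v ∈ s :: f, v ∈ V := by
          intro v hv
          rcases List.mem_cons.1 hv with rfl | hv
          · exact hsV
          · exact allc_sub hV hfA v hv
        have hlen : (canon V (s :: f)).length = i + 1 := by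
          rw [canon_length hV hsub', List.toFinset_cons,
            Finset.card_insert_of_notMem (by rwa [List.mem_toFinset]),
            List.toFinset_card_of_nodup (allc_nodup_mem hV hfA), hfl]
        exact hc _ ((mem_allc hV).2 ⟨by omega, canon_canon V _⟩) hlen
      have h1 : cnt E f ≤ k * (k + 1) ^ (d - (i + 1)) := by
        rw [cnt_eq hn]
        refine (Finset.card_le_card hsub).trans ((Finset.card_biUnion_le_card_mul _ _ _ hle).trans ?_)
        exact Nat.mul_le_mul_right _ ((Finset.card_filter_le _ _).trans hS)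
      have h2 : (k + 1) ^ (d - i) = (k + 1) * (k + 1) ^ (d - (i + 1)) := by
        have : d - i = (d - (i + 1)) + 1 := by omega
        rw [this, pow_succ']
      have h3 : 0 < (k + 1) ^ (d - (i + 1)) := Nat.pow_pos (Nat.succ_pos k)
      have h4 : (k + 1) * (k + 1) ^ (d - (i + 1)) =
        k * (k + 1) ^ (d - (i + 1)) + (k + 1) ^ (d - (i + 1)) := by ring
      omega
    · exact h f hfE
  · intro h e he
    by_cases hst : e ∈ stepP d k i (allc V d) E
    · exact h e hst
    · have h1 : ¬ ∀ g ∈ allc V d, g.length = i → (k + 1) ^ (d - i) ≤ cnt E g →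
          ¬ ∀ v ∈ g, v ∈ e := fun h' => hst (mem_stepP.2 ⟨hE e he, Or.inr ⟨he, h'⟩⟩)
      push Not at h1
      obtain ⟨g, hg1, hg2, hg3, hg4⟩ := h1
      obtain ⟨v, hv, hvS⟩ := h g (mem_stepP.2 ⟨hg1, Or.inl ⟨hg2, hg3⟩⟩)
      exact ⟨v, hg4 v hv, hvS⟩

theorem stepP_nodup (V : List Name) (d k i : ℕ) (E : List (List Name)) :
    (stepP d k i (allc V d) E).Nodup := by
  unfold stepP allc
  exact (List.nodup_dedup _).filter _

theorem step_cnt {V : List Name} (hV : V.Nodup) (d k i : ℕ) (hi : i < d) (E : List (List Name)) (hE : ∀ e ∈ E, e ∈ allc V d)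
    (hn : E.Nodup) : ∀ g ∈ allc V d, g.length = i → cnt (stepP d k i (allc V d) E) g ≤ (k + 1) ^ (d - i) := by
  intro g hg hgl
  rw [cnt_eq (stepP_nodup V d k i E)]
  by_cases hc : (k + 1) ^ (d - i) ≤ cnt E g
  · have h1 : (stepP d k i (allc V d) E).toFinset.filter (fun e => ∀ v ∈ g, v ∈ e) ⊆ {g} := by
      intro e he
      obtain ⟨he1, he2⟩ := Finset.mem_filter.1 he
      obtain ⟨heA, he3⟩ := mem_stepP.1 (List.mem_toFinset.1 he1)
      rw [Finset.mem_singleton]
      rcases he3 with ⟨h3, -⟩ | ⟨-, h3⟩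
      · exact allc_eq hV heA hg (by omega) he2
      · exact absurd he2 (h3 g hg hgl hc)
    refine (Finset.card_le_card h1).trans ?_
    rw [Finset.card_singleton]
    exact Nat.pow_pos (Nat.succ_pos k)
  · have h1 : (stepP d k i (allc V d) E).toFinset.filter (fun e => ∀ v ∈ g, v ∈ e) ⊆
        E.toFinset.filter (fun e => ∀ v ∈ g, v ∈ e) := by
      intro e he
      obtain ⟨he1, he2⟩ := Finset.mem_filter.1 he
      obtain ⟨heA, he3⟩ := mem_stepP.1 (List.mem_toFinset.1 he1)
      rcases he3 with ⟨h3, h4⟩ | ⟨h3, -⟩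
      · have : e = g := allc_eq hV heA hg (by omega) he2
        rw [this] at h4
        exact absurd h4 hc
      · exact Finset.mem_filter.2 ⟨List.mem_toFinset.2 h3, he2⟩
    have h2 := Finset.card_le_card h1
    rw [← cnt_eq hn] at h2
    omega

theorem step_mem {V : List Name} (hV : V.Nodup) (d k i : ℕ) (hi : i < d) (hi0 : 1 ≤ i) (E : List (List Name))
    (hE : ∀ e ∈ E, e ∈ allc V d) (h0 : ∀ e ∈ E, e ≠ []) :
    (stepP d k i (allc V d) E).Nodup ∧ ∀ e ∈ stepP d k i (allc V d) E, e ∈ allc V d ∧ e ≠ [] := by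
  refine ⟨stepP_nodup V d k i E, fun e he => ?_⟩
  obtain ⟨heA, he⟩ := mem_stepP.1 he
  refine ⟨heA, ?_⟩
  rcases he with ⟨h1, -⟩ | ⟨h1, -⟩
  · intro h
    rw [h] at h1
    simp at h1
    omega
  · exact h0 e h1

end KRN
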