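import Pool.Agent.KRN.TOT
import Pool.Agent.KRN.RSC

/-!
# KRN SN2: soundness of the counting clauses

`T` is a set of vertices all of whose symbols are selected, `h u` is the bucket of `u`.
1. For every bucket `g < M`: `T_g = {u ∈ T | h u = g}` has at most `t` elements and `σ [6, g, c]` for every `c < T_g.card`: for
   `c < T_g.card` and `c ≤ t` take a subset `B` of `T_g` with `c + 1 ≤ t + 1` elements; `code_sep` gives a column `γ < Q` where the
   symbols of `B` are distinct, `tot_sound` (prefix `[4, g, γ]`, `D` = the symbols) gives `σ [4, g, γ, μ₁, 0, c + 1]`, hence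
   `σ [6, g, c]` if `c < t`, and a contradiction to the last clause of `frm4` if `c = t`.
2. `frm5`: the leaves `g * t + c`, `c < T_g.card`, `g < M`, are true (`< M * t ≤ m₂`), they are distinct, their number is `T.card`; if
   `T` had more than `k` elements, `tot_sound` (prefix `[5]`) with a set of `k + 1` leaves would give `σ [5, μ₂, 0, k + 1]`.
-/

set_option autoImplicit false

namespace KRN

private theorem sn2_imp {σ : Name → Prop} {v w : Name} (h : sat σ [0 :: v, 1 :: w]) (hv : σ v) : σ w := by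
  obtain ⟨x, h1 | h1⟩ := h
  · obtain ⟨h2, h3⟩ := h1
    simp at h2
    rw [← h2]; exact h3
  · obtain ⟨h2, h3⟩ := h1
    simp at h2
    rw [h2] at h3
    exact absurd hv h3

private theorem sn2_not {σ : Name → Prop} {v : Name} (h : sat σ [0 :: v]) : ¬ σ v := by
  obtain ⟨x, h1 | h1⟩ := h
  · obtain ⟨h2, h3⟩ := h1
    simp at h2
  · obtain ⟨h2, h3⟩ := h1
    simp at h2
    rw [h2] at h3
    exact h3

private theorem sn2_bucket (M t Q r μ₁ m₁ : ℕ) (hQ : Q.Prime) (ht : (t + 1) ^ 2 * r < Q)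
    (e1 : m₁ = 2 ^ μ₁) (hQ1 : Q ≤ m₁) (σ : Name → Prop) (h4 : ∀ c ∈ frm4 M t Q μ₁ m₁, sat σ c)
    (g : ℕ) (hg : g < M) (T : Finset ℕ) (hT : ∀ u ∈ T, u < Q ^ r)
    (hσ : ∀ u ∈ T, ∀ γ < Q, σ [1, g, γ, code Q r u γ]) (c : ℕ) (hc : c < T.card) (hct : c ≤ t) :
    c < t ∧ σ [6, g, c] := by
  obtain ⟨B, hBT, hBc⟩ := Finset.exists_subset_card_eq (s := T) (n := c + 1) (by omega)
  obtain ⟨γ, hγ, hinj⟩ := code_sep hQ r B (fun u hu => hT u (hBT hu)) (by
    rw [hBc]
    refine lt_of_le_of_lt ?_ ht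
    exact Nat.mul_le_mul_right r (Nat.pow_le_pow_left (by omega) 2))
  have hmem : ∀ cl, (cl ∈ tot [4, g, γ] μ₁ m₁ ∨ (∃ δ < Q, cl = [[0, 1, g, γ, δ], [1, 4, g, γ, 0, δ, 1]]) ∨
      (∃ c' < t, cl = [[0, 4, g, γ, μ₁, 0, c' + 1], [1, 6, g, c']]) ∨ cl = [[0, 4, g, γ, μ₁, 0, t + 1]]) →
      sat σ cl := by
    intro cl hcl
    apply h4
    unfold frm4
    rw [List.mem_flatMap]
    refine ⟨g, List.mem_range.2 hg, ?_⟩
    rw [List.mem_flatMap]
    refine ⟨γ, List.mem_range.2 hγ, ?_⟩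
    rw [List.mem_append, List.mem_append, List.mem_append, List.mem_map, List.mem_map, List.mem_singleton]
    rcases hcl with h | ⟨δ, hδ, rfl⟩ | ⟨c', hc', rfl⟩ | h
    · exact Or.inl (Or.inl (Or.inl h))
    · exact Or.inl (Or.inl (Or.inr ⟨δ, List.mem_range.2 hδ, rfl⟩))
    · exact Or.inl (Or.inr ⟨c', List.mem_range.2 hc', rfl⟩)
    · exact Or.inr h
  have key : σ ([4, g, γ] ++ [μ₁, 0, (B.image fun u => code Q r u γ).card]) := by
    apply tot_sound σ [4, g, γ] μ₁
    · intro cl hcl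
      exact hmem cl (Or.inl (e1 ▸ hcl))
    · intro x hx
      rw [Finset.mem_image] at hx
      obtain ⟨u, hu, rfl⟩ := hx
      have hlt : code Q r u γ < Q := code_lt hQ.pos r u γ
      refine ⟨by omega, ?_⟩
      have h1 := hσ u (hBT hu) γ hγ
      exact sn2_imp (hmem _ (Or.inr (Or.inl ⟨code Q r u γ, hlt, rfl⟩))) h1
  rw [Finset.card_image_of_injOn hinj, hBc] at key
  rcases Nat.lt_or_ge c t with h | h
  · exact ⟨h, sn2_imp (hmem _ (Or.inr (Or.inr (Or.inl ⟨c, h, rfl⟩)))) key⟩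
  · have hcte : c = t := by omega
    subst hcte
    exact absurd key (sn2_not (hmem _ (Or.inr (Or.inr (Or.inr rfl)))))

theorem sound2 (M t k Q r μ₁ m₁ μ₂ m₂ : ℕ) (hQ : Q.Prime) (ht : (t + 1) ^ 2 * r < Q) (e1 : m₁ = 2 ^ μ₁) (hQ1 : Q ≤ m₁)
    (e2 : m₂ = 2 ^ μ₂) (hM2 : M * t ≤ m₂) (σ : Name → Prop) (h4 : ∀ c ∈ frm4 M t Q μ₁ m₁, sat σ c)
    (h5 : ∀ c ∈ frm5 M t k μ₂ m₂, sat σ c) (h : ℕ → ℕ) (T : Finset ℕ) (hT : ∀ u ∈ T, u < Q ^ r ∧ h u < M)
    (hσ : ∀ u ∈ T, ∀ γ < Q, σ [1, h u, γ, code Q r u γ]) : T.card ≤ k := by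
  have hb : ∀ g < M, ∀ c < (T.filter fun u => h u = g).card, c ≤ t → c < t ∧ σ [6, g, c] := by
    intro g hg c hc hct
    refine sn2_bucket M t Q r μ₁ m₁ hQ ht e1 hQ1 σ h4 g hg (T.filter fun u => h u = g) ?_ ?_ c hc hct
    · intro u hu
      exact (hT u (Finset.mem_filter.1 hu).1).1
    · intro u hu γ hγ
      obtain ⟨h1, h2⟩ := Finset.mem_filter.1 hu
      have h3 := hσ u h1 γ hγ
      rwa [h2] at h3
  have hle : ∀ g < M, (T.filter fun u => h u = g).card ≤ t := by
    intro g hg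
    by_contra hcon
    push Not at hcon
    have := (hb g hg t hcon le_rfl).1
    omega
  have hb2 : ∀ g < M, ∀ c < (T.filter fun u => h u = g).card, c < t ∧ σ [6, g, c] := by
    intro g hg c hc
    have := hle g hg
    exact hb g hg c hc (by omega)
  by_contra hk
  push Not at hk
  set P : Finset (Σ _ : ℕ, ℕ) := (Finset.range M).sigma fun g => Finset.range (T.filter fun u => h u = g).card with hP
  have hPc : P.card = T.card := by
    rw [hP, Finset.card_sigma, Finset.card_eq_sum_card_fiberwise (f := h) (t := Finset.range M)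
      (fun u hu => Finset.mem_coe.2 (Finset.mem_range.2 (hT u hu).2))]
    apply Finset.sum_congr rfl
    intro g _
    rw [Finset.card_range]
  have hinj : Set.InjOn (fun p : Σ _ : ℕ, ℕ => p.1 * t + p.2) (P : Set (Σ _ : ℕ, ℕ)) := by
    rintro ⟨g, c⟩ hp ⟨g', c'⟩ hp' heq
    rw [Finset.mem_coe, hP, Finset.mem_sigma, Finset.mem_range, Finset.mem_range] at hp hp'
    have h1 := (hb2 g hp.1 c hp.2).1
    have h2 := (hb2 g' hp'.1 c' hp'.2).1
    simp only at heq
    have ht0 : 0 < t := by omega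
    have hg : g = g' := by
      have e3 : (g * t + c) / t = g := by
        rw [Nat.add_comm, Nat.add_mul_div_right _ _ ht0, Nat.div_eq_of_lt h1, Nat.zero_add]
      have e4 : (g' * t + c') / t = g' := by
        rw [Nat.add_comm, Nat.add_mul_div_right _ _ ht0, Nat.div_eq_of_lt h2, Nat.zero_add]
      rw [← e3, ← e4, heq]
    subst hg
    have hc : c = c' := by omega
    subst hc
    rfl
  have hLc : (P.image fun p : Σ _ : ℕ, ℕ => p.1 * t + p.2).card = T.card := by
    rw [Finset.card_image_of_injOn hinj, hPc]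
  obtain ⟨D, hDL, hDc⟩ := Finset.exists_subset_card_eq (s := P.image fun p : Σ _ : ℕ, ℕ => p.1 * t + p.2)
    (n := k + 1) (by omega)
  have key : σ ([5] ++ [μ₂, 0, D.card]) := by
    apply tot_sound σ [5] μ₂
    · intro cl hcl
      apply h5
      unfold frm5
      rw [List.mem_append, List.mem_append]
      exact Or.inl (Or.inl (e2 ▸ hcl))
    · intro x hx
      have hx' := hDL hx
      rw [Finset.mem_image] at hx'
      obtain ⟨⟨g, c⟩, hp, rfl⟩ := hx'
      rw [hP, Finset.mem_sigma, Finset.mem_range, Finset.mem_range] at hp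
      obtain ⟨hp1, hp2⟩ := hp
      simp only at hp1 hp2
      obtain ⟨h1, h2⟩ := hb2 g hp1 c hp2
      have h3 : (g + 1) * t ≤ M * t := Nat.mul_le_mul_right t hp1
      have h4' : (g + 1) * t = g * t + t := by ring
      refine ⟨by simp only; omega, ?_⟩
      have hs : sat σ [[0, 6, g, c], [1, 5, 0, g * t + c, 1]] := by
        apply h5
        unfold frm5
        rw [List.mem_append, List.mem_append, List.mem_flatMap]
        refine Or.inl (Or.inr ⟨g, List.mem_range.2 hp1, ?_⟩)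
        rw [List.mem_map]
        exact ⟨c, List.mem_range.2 h1, rfl⟩
      exact sn2_imp hs h2
  rw [hDc] at key
  have hs : sat σ [[0, 5, μ₂, 0, k + 1]] := by
    apply h5
    unfold frm5
    rw [List.mem_append, List.mem_singleton]
    exact Or.inr rfl
  exact sn2_not hs key

end KRN
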