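import Pool.Agent.KRN.SN1
import Pool.Agent.KRN.SN2

/-!
# KRN SND: soundness of the formula
-/

set_option autoImplicit false

namespace KRN

theorem sound (d : ℕ) (hh : List ℕ → ℕ → ℕ) (R M t k Q r μ₁ m₁ μ₂ m₂ n : ℕ) (E : List (List ℕ))
    (hG : Good d hh R M t Q r μ₁ m₁ μ₂ m₂ n E) (σ : Name → Prop)
    (h : ∀ c ∈ frm d hh R M t k Q r μ₁ m₁ μ₂ m₂ E, sat σ c) : YesI (n, k, E) := by
  classical
  have hm : ∀ c, c ∈ frm d hh R M t k Q r μ₁ m₁ μ₂ m₂ E ↔ c ∈ frm1 d hh R Q r E ∨ c ∈ frm2 d R M Q ∨ c ∈ frm3 d R ∨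
      c ∈ frm4 M t Q μ₁ m₁ ∨ c ∈ frm5 M t k μ₂ m₂ := by
    intro c
    unfold frm
    simp only [List.mem_append]
    tauto
  obtain ⟨ρ, hρ, h1⟩ := sound1 d hh R M t Q r μ₁ m₁ μ₂ m₂ n E hG σ (fun c hc => h c ((hm c).mpr (Or.inl hc)))
    (fun c hc => h c ((hm c).mpr (Or.inr (Or.inl hc)))) (fun c hc => h c ((hm c).mpr (Or.inr (Or.inr (Or.inl hc)))))
  refine ⟨(Finset.range n).filter fun u => ∀ γ < Q, σ [1, hh ρ u, γ, code Q r u γ], ?_, ?_, ?_⟩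
  · intro u hu
    exact Finset.mem_range.mp (Finset.mem_filter.mp hu).1
  · refine sound2 M t k Q r μ₁ m₁ μ₂ m₂ hG.hQ hG.ht hG.h1 hG.hQ1 hG.h2 hG.hM2 σ
      (fun c hc => h c ((hm c).mpr (Or.inr (Or.inr (Or.inr (Or.inl hc))))))
      (fun c hc => h c ((hm c).mpr (Or.inr (Or.inr (Or.inr (Or.inr hc)))))) (hh ρ) _ ?_ ?_
    · intro u hu
      have hu' := Finset.mem_range.mp (Finset.mem_filter.mp hu).1
      exact ⟨lt_of_lt_of_le hu' hG.hn, hG.hM ρ hρ u hu'⟩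
    · intro u hu
      exact (Finset.mem_filter.mp hu).2
  · intro e he
    obtain ⟨u, hu, h2⟩ := h1 e he
    exact ⟨u, hu, Finset.mem_filter.mpr ⟨Finset.mem_range.mpr ((hG.hE e he).2.2 u hu), h2⟩⟩

end KRN
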