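import Pool.Agent.KRN.PL1

/-!
# KRN SZB: the size of the output is polynomially bounded

Induction on `Poly f`.  Work with bounds of the form `sz (f x) ≤ C * (sz x) ^ C` (`1 ≤ sz x` always, so any sum, product or
composition of such bounds is again such a bound; `C` may be increased: lemma `mono`).
* arithmetic: `x.1 * x.2 + 1 ≤ sz x ^ 2`, quotients and remainders are at most the numerator, (`x % 0 = x`).
* `head`, `tail`, `flatten`, `range`, `length`: direct (`sz (List.range n) ≤ (n + 1) ^ 2`, `sz l.flatten ≤ sz l`).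
* `map`: at most `sz x` elements, each of size at most `C * (sz x.1 + sz y + 1) ^ C`.
* `fold`: the hypothesis.
-/

set_option autoImplicit false

namespace KRN

theorem szb_mono {C D E F s : ℕ} (h : C ≤ D) (h' : E ≤ F) (hs : 1 ≤ s) : C * s ^ E ≤ D * s ^ F :=
  Nat.mul_le_mul h (Nat.pow_le_pow_right hs h')

theorem szb_one {α : Type} [Dat α] (x : α) {n : ℕ} (h : n ≤ sz x) : n ≤ 1 * sz x ^ 1 := by
  rw [one_mul, pow_one]
  exact h

theorem szb_map {α β : Type} [Dat α] [Dat β] (l : List α) (g : α → β) (B : ℕ)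
    (h : ∀ y ∈ l, sz (g y) ≤ B) : sz (l.map g) ≤ l.length * B + 1 := by
  induction l with
  | nil => simp [sz_nil]
  | cons a t ih =>
    rw [List.map_cons, sz_cons, List.length_cons]
    have h1 := h a (List.mem_cons_self)
    have h2 := ih (fun y hy => h y (List.mem_cons_of_mem _ hy))
    rw [Nat.add_mul]
    omega

theorem szb_flatten {α : Type} [Dat α] (l : List (List α)) : sz l.flatten ≤ sz l := by
  induction l with
  | nil => exact le_refl _
  | cons a t ih =>
    rw [List.flatten_cons, sz_cons]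
    have := sz_append a t.flatten
    omega

theorem szb_range (n : ℕ) : sz (List.range n) ≤ (n + 1) ^ 2 := by
  have h := szb_map (List.range n) (fun i : ℕ => i) n (by
    intro y hy
    rw [sz_nat]
    have := List.mem_range.1 hy
    omega)
  rw [List.map_id'] at h
  rw [List.length_range] at h
  nlinarith

theorem Poly.size_bound {α β : Type} [Dat α] [Dat β] {f : α → β} (hf : Poly f) :
    ∃ C : ℕ, ∀ x, sz (f x) ≤ C * sz x ^ C := by
  induction hf with
  | id => exact ⟨1, fun x => szb_one x (le_refl _)⟩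
  | const c =>
    refine ⟨sz c, fun x => ?_⟩
    have h1 : 1 ≤ sz x ^ (sz c) := Nat.one_le_pow _ _ (one_le_sz x)
    calc sz c = sz c * 1 := (mul_one _).symm
      _ ≤ _ := Nat.mul_le_mul_left _ h1
  | @comp _ _ _ _ _ _ g f _ _ ihg ihf =>
    obtain ⟨Cg, hg⟩ := ihg
    obtain ⟨Cf, hf⟩ := ihf
    refine ⟨Cg * Cf ^ Cg + Cf * Cg, fun x => ?_⟩
    calc sz (g (f x)) ≤ Cg * sz (f x) ^ Cg := hg _
      _ ≤ Cg * (Cf * sz x ^ Cf) ^ Cg := Nat.mul_le_mul_left _ (Nat.pow_le_pow_left (hf x) _)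
      _ = (Cg * Cf ^ Cg) * sz x ^ (Cf * Cg) := by
        rw [mul_pow, ← pow_mul, mul_assoc]
      _ ≤ _ := szb_mono (Nat.le_add_right _ _) (Nat.le_add_left _ _) (one_le_sz x)
  | @pair _ _ _ _ _ _ f g _ _ ihf ihg =>
    obtain ⟨Cf, hf⟩ := ihf
    obtain ⟨Cg, hg⟩ := ihg
    refine ⟨Cf + Cg + 1, fun x => ?_⟩
    have h1 : Cf * sz x ^ Cf ≤ Cf * sz x ^ (Cf + Cg + 1) :=
      szb_mono (le_refl _) (by omega) (one_le_sz x)
    have h2 : Cg * sz x ^ Cg ≤ Cg * sz x ^ (Cf + Cg + 1) :=
      szb_mono (le_refl _) (by omega) (one_le_sz x)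
    have h3 : 1 ≤ sz x ^ (Cf + Cg + 1) := Nat.one_le_pow _ _ (one_le_sz x)
    have h4 := hf x
    have h5 := hg x
    rw [sz_pair, Nat.add_mul, Nat.add_mul, one_mul]
    show sz (f x) + sz (g x) + 1 ≤ _
    omega
  | fst =>
    refine ⟨1, fun x => szb_one x ?_⟩
    beta_reduce
    rw [sz_pair]
    omega
  | snd =>
    refine ⟨1, fun x => szb_one x ?_⟩
    beta_reduce
    rw [sz_pair]
    omega
  | add =>
    refine ⟨1, fun x => szb_one x ?_⟩
    beta_reduce
    rw [sz_pair, sz_nat, sz_nat, sz_nat]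
    omega
  | sub =>
    refine ⟨1, fun x => szb_one x ?_⟩
    beta_reduce
    rw [sz_pair, sz_nat, sz_nat, sz_nat]
    omega
  | mul =>
    refine ⟨2, fun x => ?_⟩
    beta_reduce
    rw [sz_pair, sz_nat, sz_nat, sz_nat]
    nlinarith
  | div =>
    refine ⟨1, fun x => szb_one x ?_⟩
    beta_reduce
    rw [sz_pair, sz_nat, sz_nat, sz_nat]
    have := Nat.div_le_self x.1 x.2
    omega
  | mod =>
    refine ⟨1, fun x => szb_one x ?_⟩
    beta_reduce
    rw [sz_pair, sz_nat, sz_nat, sz_nat]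
    have := Nat.mod_le x.1 x.2
    omega
  | @ite_le _ _ _ _ p q f g _ _ _ _ _ _ ihf ihg =>
    obtain ⟨Cf, hf⟩ := ihf
    obtain ⟨Cg, hg⟩ := ihg
    refine ⟨Cf + Cg, fun x => ?_⟩
    beta_reduce
    split_ifs
    · exact le_trans (hf x) (szb_mono (by omega) (by omega) (one_le_sz x))
    · exact le_trans (hg x) (szb_mono (by omega) (by omega) (one_le_sz x))
  | @ite_eq _ _ _ _ _ _ _ p q f g _ _ _ _ _ _ ihf ihg =>
    obtain ⟨Cf, hf⟩ := ihf
    obtain ⟨Cg, hg⟩ := ihg
    refine ⟨Cf + Cg, fun x => ?_⟩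
    beta_reduce
    split_ifs
    · exact le_trans (hf x) (szb_mono (by omega) (by omega) (one_le_sz x))
    · exact le_trans (hg x) (szb_mono (by omega) (by omega) (one_le_sz x))
  | cons =>
    refine ⟨1, fun x => szb_one x ?_⟩
    beta_reduce
    rw [sz_cons, sz_pair]
    omega
  | head =>
    refine ⟨1, fun x => szb_one x ?_⟩
    beta_reduce
    rw [sz_pair]
    obtain ⟨c, l⟩ := x
    cases l with
    | nil => simp only [List.headD_nil]; omega
    | cons a t => simp only [List.headD_cons, sz_cons]; omega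
  | tail => exact ⟨1, fun x => szb_one x (sz_tail_le x)⟩
  | length =>
    refine ⟨1, fun x => szb_one x ?_⟩
    beta_reduce
    rw [sz_nat]
    exact length_lt_sz x
  | range =>
    refine ⟨2, fun x => ?_⟩
    beta_reduce
    rw [sz_nat]
    exact le_trans (szb_range x) (Nat.le_mul_of_pos_left _ (by norm_num))
  | flatten => exact ⟨1, fun x => szb_one x (szb_flatten x)⟩
  | @map _ _ _ _ _ _ f _ ih =>
    obtain ⟨C, hC⟩ := ih
    refine ⟨C + 1, fun x => ?_⟩
    beta_reduce
    have h1 : sz (x.2.map (fun y => f (x.1, y))) ≤ x.2.length * (C * sz x ^ C) + 1 := by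
      apply szb_map
      intro y hy
      refine le_trans (hC _) (Nat.mul_le_mul_left _ (Nat.pow_le_pow_left ?_ _))
      rw [sz_pair, sz_pair]
      have := sz_mem_le hy
      show sz x.1 + sz y + 1 ≤ _
      omega
    have h2 : x.2.length ≤ sz x := by
      have := length_lt_sz x.2
      rw [sz_pair]
      omega
    have h3 : x.2.length * (C * sz x ^ C) ≤ sz x * (C * sz x ^ C) := Nat.mul_le_mul_right _ h2
    have h4 : 1 ≤ sz x ^ (C + 1) := Nat.one_le_pow _ _ (one_le_sz x)
    have h5 : sz x * (C * sz x ^ C) = C * sz x ^ (C + 1) := by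
      rw [pow_succ]
      ring
    rw [Nat.add_mul, one_mul]
    omega
  | @fold _ _ _ _ _ _ f C _ hC _ =>
    refine ⟨C, fun x => le_trans (hC x.1 x.2.1 x.2.2) (Nat.mul_le_mul_left _
      (Nat.pow_le_pow_left ?_ _))⟩
    rw [sz_pair x, sz_pair x.2]
    omega

end KRN
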